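import Pool.Agent.Helper97.Hilb8.K.SatDefs

/-!
# Auxiliary lemma: the empty clause
-/

noncomputable section

namespace Pool.Agent.Helper97.Hilb8.K

/-- The search finds the empty clause. -/
def isLast (D : CT) (i : Nat) : Bool :=
  CE.rec false (fun c _ => L.rec true (fun _ _ _ => false) c) (lookC D i)

theorem exists_last (D : CT) (i : Nat) (h : isLast D i = true) :
    ∃ i w, lookC D i = .some .e w := by
  unfold isLast at h
  rcases hx : lookC D i with _ | ⟨c, w⟩
  · rw [hx] at h
    exact absurd h (by decide)
  · rw [hx] at h
    cases c with
    | e => exact ⟨i, w, hx⟩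
    | c a l => exact absurd h (by intro h'; exact Bool.false_ne_true h')

end Pool.Agent.Helper97.Hilb8.K
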