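import Pool.Agent.Helper97.Hilb8.K.RawSem
import Pool.Agent.Helper97.Hilb8.Inter

/-!
# Abstract assembly: reducedness from initial forms
-/

universe u

namespace Pool.Agent.Helper97.Hilb8.K

open MvPolynomial

/-- The initial form of `0` is `0`. -/
theorem isTop_zero_eq {δ : Type*} [DecidableEq δ] {k : Type*} [Field k] {w : δ → ℕ}
    {q : MvPolynomial δ k} {d : ℕ} (h : IsTop w 0 q d) : q = 0 := by
  by_contra hne
  obtain ⟨e, he⟩ := (support_nonempty.mpr hne)
  have h1 := h.1 e he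
  have h2 := h.2 e (by
    rw [zero_sub, support_neg]
    exact he)
  omega

theorem isReduced_of_tops {σ τ δ : Type*} [DecidableEq σ] [Finite σ] [DecidableEq τ]
    [DecidableEq δ] {k : Type*} [Field k]
    (w : σ → ℕ) (wD : δ → ℕ) (I K P : Ideal (MvPolynomial σ k)) [K.IsPrime] [P.IsPrime]
    (hIK : I ≤ K) (hKP : ∀ h ∈ K, ∀ t d, IsTop w h t d → t ∈ P)
    (ι : τ → σ) (s : MvPolynomial σ k →ₐ[k] MvPolynomial τ k) (hs : ∀ t, s (X (ι t)) = X t)
    (h1 : ∀ v, X v - rename ι (s (X v)) ∈ inI w I)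
    (f f0 : MvPolynomial σ k) (d0 : ℕ) (hf : f ∈ K) (hf0 : IsTop w f f0 d0)
    (Q : Ideal (MvPolynomial τ k)) (hQ : ∀ q ∈ Q, rename ι q ∈ inI w I ⊔ Ideal.span {f0})
    (hPQ : ∀ q, rename ι q ∈ P → q ∈ Q)
    (θ θ0 : MvPolynomial σ k →ₐ[k] MvPolynomial δ k)
    (j0 : MvPolynomial δ k →ₐ[k] MvPolynomial σ k)
    (hθI : ∀ p ∈ I, θ p = 0) (hθ : ∀ v, IsTop wD (θ (X v)) (θ0 (X v)) (w v))
    (hθf : θ0 f0 ≠ 0)
    (hk : ∀ t, f0 * (X (ι t) - j0 (θ0 (X (ι t)))) ∈ inI w I) :
    IsReduced (MvPolynomial σ k ⧸ I) := by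
  classical
  -- initial forms of `I` lie in `P`
  have hIP : inI w I ≤ P := by
    refine Ideal.span_le.mpr ?_
    rintro t ⟨g, hg, d, ht⟩
    exact hKP g (hIK hg) t d ht
  -- `θ0` kills the initial forms of the kernel of `θ`
  have hker : ∀ h, θ h = 0 → ∀ t d, IsTop w h t d → θ0 t = 0 := by
    intro h hh t d ht
    have h2 := isTop_map w wD θ θ0 hθ h t d ht
    rw [hh] at h2
    exact isTop_zero_eq h2
  have hJ : ∀ p ∈ inI w I, θ0 p = 0 := by
    have h2 : inI w I ≤ RingHom.ker θ0 := by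
      refine Ideal.span_le.mpr ?_
      rintro t ⟨g, hg, d, ht⟩
      exact hker g (hθI g hg) t d ht
    intro p hp
    exact h2 hp
  -- every polynomial is congruent to its image in the kept variables
  have hall : ∀ p : MvPolynomial σ k, p - rename ι (s p) ∈ inI w I := by
    intro p
    induction p using MvPolynomial.induction_on with
    | C a =>
      have h2 : rename ι (s (C a)) = C a := by
        rw [← algebraMap_eq, AlgHom.commutes, AlgHom.commutes]
      rw [h2, sub_self]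
      exact (inI w I).zero_mem
    | add p q hp hq =>
      rw [map_add, map_add, add_sub_add_comm]
      exact (inI w I).add_mem hp hq
    | mul_X p v hp =>
      rw [map_mul, map_mul]
      have h2 : p * X v - rename ι (s p) * rename ι (s (X v)) =
          X v * (p - rename ι (s p)) + rename ι (s p) * (X v - rename ι (s (X v))) := by ring
      rw [h2]
      exact (inI w I).add_mem ((inI w I).mul_mem_left _ hp) ((inI w I).mul_mem_left _ (h1 v))
  have hann : ∀ g, θ0 g = 0 → f0 * g ∈ inI w I := fun g hg =>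
    ann_of_kept ι (fun v => s (X v)) (inI w I) f0 θ0 j0 h1 hJ hk g hg
  have htop : ∀ h ∈ K, ∀ t d, IsTop w h t d → t ∈ inI w I ⊔ Ideal.span {f0} := by
    intro h hh t d ht
    have h2 : t ∈ P := hKP h hh t d ht
    have h3 : rename ι (s t) ∈ P := by
      have h4 := P.sub_mem h2 (hIP (hall t))
      rwa [sub_sub_cancel] at h4
    have h5 := hQ _ (hPQ _ h3)
    have h6 := (inI w I ⊔ Ideal.span {f0}).add_mem
      ((le_sup_left : inI w I ≤ inI w I ⊔ Ideal.span {f0}) (hall t)) h5
    rwa [sub_add_cancel] at h6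
  have hle : K ⊓ RingHom.ker θ ≤ I := by
    refine inf_le w K (RingHom.ker θ) I hIK (fun p hp => hθI p hp)
      {t | ∃ f ∈ I, ∃ d, IsTop w f t d} (fun g hg => hg) f0 d0 hf0.1 htop
      (θ0 : MvPolynomial σ k →+* MvPolynomial δ k) hθf ?_ hann
    intro h hh t d ht
    exact hker h hh t d ht
  have heq : I = K ⊓ RingHom.ker θ :=
    le_antisymm (_root_.le_inf hIK (fun p hp => hθI p hp)) hle
  have hprime : (RingHom.ker θ).IsPrime := RingHom.ker_isPrime θ
  rw [← Ideal.isRadical_iff_quotient_reduced, heq]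
  exact (Ideal.IsPrime.isRadical ‹K.IsPrime›).inf (Ideal.IsPrime.isRadical hprime)

end Pool.Agent.Helper97.Hilb8.K
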