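import Pool.Agent.Helper97.Hilb8.K.Defs

/-!
Digits of the keys.
-/

namespace Pool.Agent.Helper97.Hilb8.K

variable {n : ℕ}

theorem key_half (A : ℕ) : ∀ v, (∀ w < v, A / 32 ^ w % 32 < 16) → 2 * (A % 32 ^ v) < 32 ^ v
  | 0, _ => by simp [Nat.mod_one]
  | (v + 1), h => by
    have ih := key_half A v (fun w hw => h w (by omega))
    have h1 := h v (by omega)
    have h2 : A % 32 ^ (v + 1) = A % 32 ^ v + 32 ^ v * (A / 32 ^ v % 32) := by
      rw [pow_succ, Nat.mod_mul]
    have h3 : 32 ^ v * (A / 32 ^ v % 32) ≤ 32 ^ v * 15 := Nat.mul_le_mul_left _ (by omega)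
    rw [h2, pow_succ]
    omega

theorem key_digit_add (A B v : ℕ) (hA : ∀ w ≤ v, A / 32 ^ w % 32 < 16)
    (hB : ∀ w ≤ v, B / 32 ^ w % 32 < 16) :
    (A + B) / 32 ^ v % 32 = A / 32 ^ v % 32 + B / 32 ^ v % 32 := by
  have h1 := key_half A v (fun w hw => hA w hw.le)
  have h2 := key_half B v (fun w hw => hB w hw.le)
  have h3 := hA v le_rfl
  have h4 := hB v le_rfl
  rw [Nat.add_div_eq_of_add_mod_lt (by omega)]
  omega

theorem expo_apply (n k : ℕ) (v : Fin n) : expo n k v = dig k v := rfl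

theorem dig_add {a b : ℕ} (ha : Good n a) (hb : Good n b) (v : ℕ) (hv : v < n) :
    dig (a + b) v = dig a v + dig b v := by
  unfold dig
  have h1 : (a + b) / 2 ^ 32 = a / 2 ^ 32 + b / 2 ^ 32 := by
    have := ha.1
    have := hb.1
    omega
  rw [h1]
  exact key_digit_add _ _ v (fun w hw => ha.2 w (by omega)) (fun w hw => hb.2 w (by omega))

theorem expo_add {a b : ℕ} (ha : Good n a) (hb : Good n b) :
    expo n (a + b) = expo n a + expo n b := by
  ext v
  rw [Finsupp.add_apply, expo_apply, expo_apply, expo_apply]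
  exact dig_add ha hb v v.2

theorem dig_lt (k v : ℕ) : dig k v < 32 := Nat.mod_lt _ (by norm_num)

theorem dig_zero (v : ℕ) : dig 0 v = 0 := by simp [dig]

theorem dig_testBit (k v t : ℕ) :
    (dig k v).testBit t = (decide (t < 5) && k.testBit (32 + 5 * v + t)) := by
  unfold dig
  have h : k / 2 ^ 32 / 32 ^ v % 32 = k / 2 ^ (32 + 5 * v) % 2 ^ 5 := by
    rw [Nat.div_div_eq_div_mul, pow_add, pow_mul]
    norm_num
  rw [h, Nat.testBit_mod_two_pow, Nat.testBit_div_two_pow]
  congr 2
  omega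

theorem rep_zero (c : ℕ) : rep c 0 = 0 := rfl

theorem rep_succ (c n : ℕ) : rep c (n + 1) = rep c n + c * 32 ^ n := rfl

theorem rep_lt {c : ℕ} (hc : c < 32) : ∀ n, rep c n < 32 ^ n
  | 0 => by simp [rep_zero]
  | (n + 1) => by
    have ih := rep_lt hc n
    have h1 : c * 32 ^ n ≤ 31 * 32 ^ n := Nat.mul_le_mul_right _ (by omega)
    rw [rep_succ, pow_succ]
    omega

theorem rep_testBit {c : ℕ} (hc : c < 32) : ∀ n i,
    (rep c n).testBit i = (decide (i < 5 * n) && c.testBit (i % 5))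
  | 0, i => by simp [rep_zero]
  | (n + 1), i => by
    have ih := rep_testBit hc n i
    have hlt : rep c n < 2 ^ (5 * n) := by
      have h := rep_lt hc n
      rw [pow_mul]
      exact h
    have h1 : rep c (n + 1) = 2 ^ (5 * n) * c + rep c n := by
      rw [rep_succ, pow_mul]
      norm_num
      ring
    rw [h1, Nat.testBit_two_pow_mul_add c hlt]
    by_cases hi : i < 5 * n
    · rw [if_pos hi, ih]
      have h2 : i < 5 * (n + 1) := by omega
      simp [hi, h2]
    · rw [if_neg hi]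
      by_cases h3 : i < 5 * (n + 1)
      · have h4 : i - 5 * n = i % 5 := by omega
        rw [h4]
        simp [h3]
      · have h5 : c.testBit (i - 5 * n) = false := by
          apply Nat.testBit_lt_two_pow
          have h6 : 2 ^ 5 ≤ 2 ^ (i - 5 * n) := Nat.pow_le_pow_right (by norm_num) (by omega)
          have h7 : (2 : ℕ) ^ 5 = 32 := by norm_num
          omega
        rw [h5]
        simp [h3]

theorem mask_testBit {c : ℕ} (hc : c < 32) (n i : ℕ) : (2 ^ 32 * rep c n).testBit i =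
    (decide (32 ≤ i) && (decide (i - 32 < 5 * n) && c.testBit ((i - 32) % 5))) := by
  rw [Nat.testBit_two_pow_mul, rep_testBit hc]

theorem mask_testBit' {c : ℕ} (hc : c < 32) (n v t : ℕ) (hv : v < n) (ht : t < 5) :
    (2 ^ 32 * rep c n).testBit (32 + 5 * v + t) = c.testBit t := by
  rw [mask_testBit hc]
  have h1 : 32 ≤ 32 + 5 * v + t := by omega
  have h2 : 32 + 5 * v + t - 32 < 5 * n := by omega
  have h3 : (32 + 5 * v + t - 32) % 5 = t := by omega
  rw [h3]
  simp [h1, h2]

theorem mask_eq {c : ℕ} (hc : c < 32) (n x y : ℕ) :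
    x &&& (2 ^ 32 * rep c n) = y &&& (2 ^ 32 * rep c n) ↔
      ∀ v < n, dig x v &&& c = dig y v &&& c := by
  constructor
  · intro h v hv
    apply Nat.eq_of_testBit_eq
    intro t
    rw [Nat.testBit_and, Nat.testBit_and, dig_testBit, dig_testBit]
    by_cases ht : t < 5
    · have h1 := congrArg (fun z => Nat.testBit z (32 + 5 * v + t)) h
      simp only [Nat.testBit_and, mask_testBit' hc n v t hv ht] at h1
      simpa [ht] using h1
    · simp [ht]
  · intro h
    apply Nat.eq_of_testBit_eq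
    intro i
    rw [Nat.testBit_and, Nat.testBit_and, mask_testBit hc]
    by_cases h1 : 32 ≤ i
    · by_cases h2 : i - 32 < 5 * n
      · have h3 := congrArg (fun z => Nat.testBit z ((i - 32) % 5)) (h ((i - 32) / 5) (by omega))
        simp only [Nat.testBit_and, dig_testBit] at h3
        have h4 : 32 + 5 * ((i - 32) / 5) + (i - 32) % 5 = i := by omega
        have h5 : (i - 32) % 5 < 5 := by omega
        rw [h4] at h3
        simpa [h1, h2, h5] using h3
      · simp [h2]
    · simp [h1]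

theorem mask_zero {c : ℕ} (hc : c < 32) (n x : ℕ) :
    x &&& (2 ^ 32 * rep c n) = 0 ↔ ∀ v < n, dig x v &&& c = 0 := by
  have h := mask_eq hc n x 0
  simp only [Nat.zero_and, dig_zero] at h
  exact h

theorem and16 {x : ℕ} (hx : x < 32) : x &&& 16 = 0 ↔ x < 16 := by
  interval_cases x <;> decide

theorem and30 {x : ℕ} (hx : x < 32) : x &&& 30 = 0 ↔ x ≤ 1 := by
  interval_cases x <;> decide

theorem and31 {x : ℕ} (hx : x < 32) : x &&& 31 = x := by
  interval_cases x <;> decide

theorem low_eq (n x y : ℕ) :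
    x &&& (2 ^ 32 * rep 31 n) = y &&& (2 ^ 32 * rep 31 n) ↔ ∀ v < n, dig x v = dig y v := by
  rw [mask_eq (by norm_num)]
  simp only [and31 (dig_lt _ _)]

theorem guard_eq (n : ℕ) : 2 ^ 31 + 2 ^ 32 * rep 16 n = 2 ^ 32 * rep 16 n ||| 2 ^ 31 := by
  rw [← Nat.two_pow_add_eq_or_of_lt (i := 32) (b := 2 ^ 31) (by norm_num), Nat.add_comm]

theorem good_iff' (n k : ℕ) : k &&& (2 ^ 31 + 2 ^ 32 * rep 16 n) = 0 ↔ Good n k := by
  have hd : k &&& (2 ^ 31 + 2 ^ 32 * rep 16 n) =
      (k &&& (2 ^ 32 * rep 16 n)) ||| (k &&& 2 ^ 31) := by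
    rw [guard_eq, Nat.and_or_distrib_left]
  rw [hd, Nat.or_eq_zero_iff, mask_zero (by norm_num), Nat.and_two_pow]
  have h1 : (k.testBit 31).toNat * 2 ^ 31 = 0 ↔ k % 2 ^ 32 < 2 ^ 31 := by
    rw [Nat.testBit_eq_decide_div_mod_eq]
    by_cases h : k / 2 ^ 31 % 2 = 1
    · simp only [h, decide_true, Bool.toNat_true, one_mul]
      constructor
      · intro h2; norm_num at h2
      · intro h2; omega
    · simp only [h, decide_false, Bool.toNat_false, zero_mul, true_iff]
      omega
  rw [h1]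
  unfold Good
  simp only [and16 (dig_lt _ _)]
  exact and_comm

theorem good_iff (C : Cst) (hC : C.ok) (k : ℕ) : Nat.land k C.G = 0 ↔ Good C.n k := by
  obtain ⟨_, _, hG, _, _⟩ := hC
  rw [hG]
  exact good_iff' C.n k

theorem add_eq_or_of_and (a : ℕ) : ∀ b, a &&& b = 0 → a + b = a ||| b := by
  induction a using Nat.strong_induction_on with
  | _ a ih =>
    intro b h
    by_cases ha : a = 0
    · simp [ha]
    · have h1 : a / 2 &&& b / 2 = 0 := by rw [← Nat.and_div_two, h]
      have h2 := ih (a / 2) (by omega) (b / 2) h1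
      have h3 : (a ||| b) / 2 = a / 2 ||| b / 2 := Nat.or_div_two
      have h4 := @Nat.and_mod_two_eq_one a b
      have h5 := @Nat.or_mod_two_eq_one a b
      rw [h] at h4
      rw [← h3] at h2
      have h6 : ¬ (a % 2 = 1 ∧ b % 2 = 1) := by
        intro h7
        exact absurd (h4.mpr h7) (by norm_num)
      omega

/-- Removing the guard bits. -/
theorem guard_sub (R G : ℕ) (h : R &&& G = G) : G ≤ R ∧ (R - G) &&& G = 0 := by
  have h0 : (R ^^^ G) &&& G = 0 := by
    apply Nat.eq_of_testBit_eq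
    intro i
    have h1 := congrArg (fun z => Nat.testBit z i) h
    simp only [Nat.testBit_and] at h1
    rw [Nat.testBit_and, Nat.testBit_xor, Nat.zero_testBit]
    revert h1
    cases R.testBit i <;> cases G.testBit i <;> simp
  have h2 := add_eq_or_of_and _ _ h0
  have h3 : (R ^^^ G) ||| G = R := by
    apply Nat.eq_of_testBit_eq
    intro i
    have h1 := congrArg (fun z => Nat.testBit z i) h
    simp only [Nat.testBit_and] at h1
    rw [Nat.testBit_or, Nat.testBit_xor]
    revert h1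
    cases R.testBit i <;> cases G.testBit i <;> simp
  rw [h3] at h2
  have h4 : R - G = R ^^^ G := by omega
  rw [h4]
  exact ⟨by omega, h0⟩

theorem sub_of_test (C : Cst) (hC : C.ok) {k l : ℕ} (hk : Good C.n k) (hl : Good C.n l)
    (h : Nat.land (Nat.sub (Nat.add k C.G) l) C.G = C.G) :
    l ≤ k ∧ Good C.n (k - l) ∧ expo C.n k = expo C.n l + expo C.n (k - l) := by
  have hC' := hC
  obtain ⟨_, _, hG, _, _⟩ := hC'
  have h1 : (k + C.G - l) &&& C.G = C.G := h
  obtain ⟨h2, h3⟩ := guard_sub _ _ h1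
  have hpos : 0 < C.G := by rw [hG]; positivity
  have h4 : l ≤ k := by omega
  have h5 : k + C.G - l - C.G = k - l := by omega
  rw [h5] at h3
  have h6 : Good C.n (k - l) := (good_iff C hC _).mp h3
  refine ⟨h4, h6, ?_⟩
  rw [← expo_add hl h6]
  congr 1
  omega

theorem squarefree_iff (C : Cst) (hC : C.ok) (k : ℕ) :
    Nat.land k C.SQ = 0 ↔ ∀ v < C.n, dig k v ≤ 1 := by
  obtain ⟨_, _, _, _, hS⟩ := hC
  rw [hS]
  have h := mask_zero (c := 30) (by norm_num) C.n k
  simp only [and30 (dig_lt _ _)] at h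
  exact h

theorem dig_or (a b v : ℕ) : dig (a ||| b) v = dig a v ||| dig b v := by
  apply Nat.eq_of_testBit_eq
  intro t
  rw [Nat.testBit_or, dig_testBit, dig_testBit, dig_testBit, Nat.testBit_or]
  cases decide (t < 5) <;> simp

theorem dig_and (a b v : ℕ) : dig (a &&& b) v = dig a v &&& dig b v := by
  apply Nat.eq_of_testBit_eq
  intro t
  rw [Nat.testBit_and, dig_testBit, dig_testBit, dig_testBit, Nat.testBit_and]
  cases decide (t < 5) <;> simp

theorem or_eq_max {x y : ℕ} (hx : x ≤ 1) (hy : y ≤ 1) : x ||| y = max x y := by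
  interval_cases x <;> interval_cases y <;> decide

/-- The lcm of two squarefree keys. -/
theorem lcm_key (C : Cst) (hC : C.ok) {a b m : ℕ} (ha : ∀ v < C.n, dig a v ≤ 1)
    (hb : ∀ v < C.n, dig b v ≤ 1) (ha' : Good C.n a) (hm : Good C.n m)
    (h : Nat.land (Nat.add a m) C.LOW = Nat.land (Nat.lor a b) C.LOW) :
    expo C.n (a + m) = expo C.n a ⊔ expo C.n b := by
  obtain ⟨_, _, _, hL, _⟩ := hC
  have h1 : (a + m) &&& C.LOW = (a ||| b) &&& C.LOW := h
  rw [hL, low_eq] at h1
  ext v
  rw [Finsupp.sup_apply, expo_apply, expo_apply, expo_apply, h1 v v.2, dig_or,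
    or_eq_max (ha v v.2) (hb v v.2)]

/-- Squarefree keys: the low part of `lor`. -/
theorem land_low_eq_iff (C : Cst) (hC : C.ok) {a b l : ℕ} (ha : ∀ v < C.n, dig a v ≤ 1)
    (hb : ∀ v < C.n, dig b v ≤ 1) (hl : ∀ v < C.n, dig l v ≤ 1) :
    Nat.land (Nat.lor (Nat.lor a b) l) C.LOW = Nat.land (Nat.lor a b) C.LOW ↔
      ∀ v, expo C.n l v ≤ max (expo C.n a v) (expo C.n b v) := by
  obtain ⟨_, _, _, hL, _⟩ := hC
  have h1 : (a ||| b ||| l) &&& C.LOW = (a ||| b) &&& C.LOW ↔
      ∀ v < C.n, dig (a ||| b ||| l) v = dig (a ||| b) v := by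
    rw [hL, low_eq]
  have key : ∀ v < C.n, (dig (a ||| b ||| l) v = dig (a ||| b) v ↔
      dig l v ≤ max (dig a v) (dig b v)) := by
    intro v hv
    have h2 := ha v hv
    have h3 := hb v hv
    rw [dig_or, dig_or, or_eq_max h2 h3, or_eq_max (max_le h2 h3) (hl v hv)]
    omega
  refine h1.trans ?_
  constructor
  · intro h v
    exact (key v v.2).mp (h v v.2)
  · intro h v hv
    exact (key v hv).mpr (h ⟨v, hv⟩)

theorem coprime_iff (C : Cst) (hC : C.ok) {a b : ℕ} (ha : ∀ v < C.n, dig a v ≤ 1)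
    (hb : ∀ v < C.n, dig b v ≤ 1) :
    Nat.land (Nat.land a b) C.LOW = 0 ↔ ∀ v, expo C.n a v = 0 ∨ expo C.n b v = 0 := by
  obtain ⟨_, _, _, hL, _⟩ := hC
  have h1 : (a &&& b) &&& C.LOW = 0 ↔ ∀ v < C.n, dig (a &&& b) v = 0 := by
    rw [hL]
    have h := mask_zero (c := 31) (by norm_num) C.n (a &&& b)
    simp only [and31 (dig_lt _ _)] at h
    exact h
  have key : ∀ v < C.n, (dig (a &&& b) v = 0 ↔ dig a v = 0 ∨ dig b v = 0) := by
    intro v hv
    rw [dig_and]
    have h2 := ha v hv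
    have h3 := hb v hv
    generalize dig a v = x at h2
    generalize dig b v = y at h3
    interval_cases x <;> interval_cases y <;> simp
  refine h1.trans ?_
  constructor
  · intro h v
    exact (key v v.2).mp (h v v.2)
  · intro h v hv
    exact (key v hv).mpr (h ⟨v, hv⟩)

end Pool.Agent.Helper97.Hilb8.K
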