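import Pool.Agent.Helper97.Hilb8.K.Keys

/-!
Soundness of the arithmetic of sparse polynomials.
-/

namespace Pool.Agent.Helper97.Hilb8.K

open MvPolynomial

variable {n : ℕ} {R : Type*} [CommRing R]

theorem ble_iff {a b : ℕ} : Nat.ble a b = true ↔ a ≤ b := by rw [Nat.ble_eq]

theorem beq_iff {a b : ℕ} : Nat.beq a b = true ↔ a = b := by rw [Nat.beq_eq]

theorem ev_z : (P.z).ev n R = 0 := rfl

theorem ev_t (k x y : ℕ) (r : P) :
    (P.t k x y r).ev n R = monomial (expo n k) ((x : R) - (y : R)) + r.ev n R := rfl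

theorem All_z (A : ℕ → Prop) : (P.z).All A ↔ True := Iff.rfl

theorem All_t (A : ℕ → Prop) (k x y : ℕ) (r : P) : (P.t k x y r).All A ↔ A k ∧ r.All A := Iff.rfl

theorem ins_z (kk x y : ℕ) (ih : P → P) : ins kk x y ih .z = .t kk x y (ih .z) := rfl

theorem ins_t (kk x y u a b : ℕ) (ih : P → P) (acc : P) :
    ins kk x y ih (.t u a b acc) =
      if kk = u then .t u (a + x) (b + y) (ih acc)
      else if kk ≤ u then .t u a b (ins kk x y ih acc)
      else .t kk x y (ih (.t u a b acc)) := by
  change Bool.rec (motive := fun _ => P) (.t kk x y (ih (.t u a b acc)))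
        (Bool.rec (motive := fun _ => P)
          (.t u a b (ins kk x y ih acc))
          (.t u (Nat.add a x) (Nat.add b y) (ih acc))
          (Nat.beq kk u))
        (Nat.ble kk u) = _
  by_cases h : kk = u
  · have h1 : Nat.ble kk u = true := ble_iff.2 h.le
    have h2 : Nat.beq kk u = true := beq_iff.2 h
    rw [h1, h2, if_pos h]
    rfl
  · have h2 : Nat.beq kk u = false := by
      rw [Bool.eq_false_iff]
      intro h3
      exact h (beq_iff.1 h3)
    rw [if_neg h]
    by_cases h' : kk ≤ u
    · have h1 : Nat.ble kk u = true := ble_iff.2 h'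
      rw [h1, h2, if_pos h']
    · have h1 : Nat.ble kk u = false := by
        rw [Bool.eq_false_iff]
        intro h3
        exact h' (ble_iff.1 h3)
      rw [h1, if_neg h']

theorem addm_z (m x y : ℕ) (acc : P) : addm m x y .z acc = acc := rfl

theorem addm_t (m x y k a b : ℕ) (r acc : P) :
    addm m x y (.t k a b r) acc =
      ins (k + m) (x * a + y * b) (x * b + y * a) (addm m x y r) acc := rfl

theorem ev_ins {kk x y : ℕ} {ih : P → P} {E : MvPolynomial (Fin n) R}
    (h : ∀ acc, (ih acc).ev n R = acc.ev n R + E) (acc : P) :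
    (ins kk x y ih acc).ev n R
      = acc.ev n R + (monomial (expo n kk) ((x : R) - (y : R)) + E) := by
  induction acc with
  | z =>
    rw [ins_z, ev_t, h]
    rw [ev_z]
    ring
  | t u a b acc hacc =>
    rw [ins_t]
    split_ifs with h1 h2
    · subst h1
      rw [ev_t, ev_t, h]
      have : ((a + x : ℕ) : R) - ((b + y : ℕ) : R) = ((a : R) - b) + ((x : R) - y) := by
        push_cast
        ring
      rw [this, map_add]
      ring
    · rw [ev_t, ev_t, hacc]
      ring
    · rw [ev_t, h, ev_t]
      ring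

theorem all_ins {A : ℕ → Prop} {kk x y : ℕ} {ih : P → P} (hk : A kk)
    (h : ∀ acc : P, acc.All A → (ih acc).All A) (acc : P) (hacc : acc.All A) :
    (ins kk x y ih acc).All A := by
  induction acc with
  | z =>
    rw [ins_z, All_t]
    exact ⟨hk, h _ hacc⟩
  | t u a b acc hacc' =>
    rw [All_t] at hacc
    rw [ins_t]
    split_ifs with h1 h2
    · exact (All_t _ _ _ _ _).2 ⟨hacc.1, h _ hacc.2⟩
    · exact (All_t _ _ _ _ _).2 ⟨hacc.1, hacc' hacc.2⟩
    · exact (All_t _ _ _ _ _).2 ⟨hk, h _ ((All_t _ _ _ _ _).2 hacc)⟩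

theorem ev_addm {m x y : ℕ} {p acc : P} (hm : Good n m) (hp : p.All (Good n)) :
    (addm m x y p acc).ev n R =
      acc.ev n R + monomial (expo n m) ((x : R) - (y : R)) * p.ev n R := by
  induction p generalizing acc with
  | z => rw [addm_z, ev_z]; ring
  | t k a b r hr =>
    rw [All_t] at hp
    rw [addm_t, ev_ins (E := monomial (expo n m) ((x : R) - (y : R)) * r.ev n R)
      (fun acc => hr hp.2), expo_add hp.1 hm, ev_t, mul_add, monomial_mul]
    congr 2
    rw [add_comm (expo n k)]
    congr 1
    push_cast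
    ring

theorem all_addm {A : ℕ → Prop} {m x y : ℕ} {p acc : P} (hp : p.All fun k => A (k + m))
    (hacc : acc.All A) : (addm m x y p acc).All A := by
  induction p generalizing acc with
  | z => exact hacc
  | t k a b r hr =>
    rw [All_t] at hp
    rw [addm_t]
    exact all_ins hp.1 (fun acc h => hr hp.2 h) acc hacc

theorem mulAdd_z (q acc : P) : mulAdd .z q acc = acc := rfl

theorem mulAdd_t (k x y : ℕ) (p q acc : P) :
    mulAdd (.t k x y p) q acc = mulAdd p q (addm k x y q acc) := rfl

theorem ev_mulAdd {p q acc : P} (hp : p.All (Good n)) (hq : q.All (Good n)) :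
    (mulAdd p q acc).ev n R = acc.ev n R + p.ev n R * q.ev n R := by
  induction p generalizing acc with
  | z => rw [mulAdd_z, ev_z]; ring
  | t k x y r hr =>
    rw [All_t] at hp
    rw [mulAdd_t, hr hp.2, ev_addm hp.1 hq, ev_t]
    ring

theorem all_mulAdd {A : ℕ → Prop} {p q acc : P} (hp : p.All fun k => q.All fun l => A (l + k))
    (hacc : acc.All A) : (mulAdd p q acc).All A := by
  induction p generalizing acc with
  | z => exact hacc
  | t k x y r hr =>
    rw [All_t] at hp
    rw [mulAdd_t]
    exact hr hp.2 (all_addm hp.1 hacc)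

theorem ev_of_isZero {p : P} (h : isZero p = true) : p.ev n R = 0 := by
  induction p with
  | z => rfl
  | t k x y r hr =>
    change Bool.rec false (isZero r) (Nat.beq x y) = true at h
    rw [ev_t]
    cases hxy : Nat.beq x y with
    | false => rw [hxy] at h; exact absurd h (by simp)
    | true =>
      rw [hxy] at h
      have h1 : x = y := beq_iff.1 hxy
      rw [h1, sub_self, map_zero, zero_add]
      exact hr h

theorem dig_eq (k v : ℕ) : Nat.land (Nat.shiftRight k (32 + 5 * v)) 31 = dig k v := by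
  change (k >>> (32 + 5 * v)) &&& 31 = k / 2 ^ 32 / 32 ^ v % 32
  have h1 : (31 : ℕ) = 2 ^ 5 - 1 := by norm_num
  rw [h1, Nat.and_two_pow_sub_one_eq_mod, Nat.shiftRight_eq_div_pow, Nat.div_div_eq_div_mul,
    pow_add, pow_mul]
  norm_num

theorem wtk_aux (n k : ℕ) (ws : W) : ∀ v0, posOK n ws v0 = true →
    v0 ≤ n ∧ wtk ws k = ∑ v ∈ Finset.Ico v0 n, dig k v * ws.get (v - v0) := by
  induction ws with
  | e =>
    intro v0 h
    have h1 : v0 = n := beq_iff.1 h
    subst h1
    refine ⟨le_rfl, ?_⟩
    rw [Finset.Ico_self, Finset.sum_empty]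
    rfl
  | c s a r ih =>
    intro v0 h
    change Bool.rec false (posOK n r (Nat.succ v0)) (Nat.beq s (32 + 5 * v0)) = true at h
    cases hs : Nat.beq s (32 + 5 * v0) with
    | false => rw [hs] at h; exact absurd h (by simp)
    | true =>
      rw [hs] at h
      have h1 : s = 32 + 5 * v0 := beq_iff.1 hs
      obtain ⟨h2, h3⟩ := ih (v0 + 1) h
      refine ⟨by omega, ?_⟩
      change a * Nat.land (Nat.shiftRight k s) 31 + wtk r k = _
      rw [h3, h1, dig_eq, Finset.sum_eq_sum_Ico_succ_bot (by omega : v0 < n)]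
      congr 1
      · rw [Nat.sub_self, mul_comm]
        rfl
      · apply Finset.sum_congr rfl
        intro v hv
        rw [Finset.mem_Ico] at hv
        have h4 : v - v0 = (v - (v0 + 1)) + 1 := by omega
        rw [h4]
        rfl

theorem wtk_eq (ws : W) (hw : posOK n ws 0 = true) (k : ℕ) :
    wtk ws k = wt (fun v : Fin n => ws.get v) (expo n k) := by
  obtain ⟨-, h⟩ := wtk_aux n k ws 0 hw
  rw [h, wt, Finsupp.sum_fintype _ _ (fun i => by simp), ← Finset.range_eq_Ico,
    ← Fin.sum_univ_eq_sum_range (fun v => dig k v * ws.get (v - 0)) n]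
  apply Finset.sum_congr rfl
  intro v _
  simp [expo]

end Pool.Agent.Helper97.Hilb8.K
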