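import Pool.Agent.Helper97.Hilb8.K.Defs
import Pool.Agent.Helper97.Hilb8.GB
import Pool.Agent.Helper97.Hilb8.K.Keys
import Pool.Agent.Helper97.Hilb8.K.Poly

/-!
Soundness of the kernel-evaluable checks: tables and reduction.
-/

namespace Pool.Agent.Helper97.Hilb8.K

open MvPolynomial

variable {n : ℕ}

/-! ### Module K2: tables and reduction -/

/-- A table of polynomials with good leading terms. -/
def TabOK (n : ℕ) (κ : Fin n → ℕ) (N : ℕ) (T : Tr) : Prop :=
  ∀ i k p, look T i = .some k p → i < N ∧ Good n k ∧ (∀ v < n, dig k v ≤ 1) ∧
    p.All fun t => Good n t ∧ wt κ (expo n t) < wt κ (expo n k)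

theorem k2_brec_false {b X : Bool}
    (h : (Bool.rec (motive := fun _ => Bool) false X b : Bool) = true) : b = true ∧ X = true := by
  cases b
  · exact absurd h (by simp)
  · exact ⟨rfl, h⟩

theorem k2_look_leaf (j : ℕ) : look .leaf j = .none := rfl

theorem k2_look_node (l : Tr) (i k : ℕ) (p : P) (r : Tr) (j : ℕ) :
    look (.node l i k p r) j =
      Bool.rec (look r j) (Bool.rec (look l j) (.some k p) (Nat.beq i j)) (Nat.ble j i) := rfl

theorem k2_tabOK_node (G SQ N : ℕ) (ws : W) (l : Tr) (i k : ℕ) (p : P) (r : Tr) :
    tabOK G SQ N ws (.node l i k p r) =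
    Bool.rec false (Bool.rec false (Bool.rec false (Bool.rec false
      (Bool.rec false (tailOK G ws (wtk ws k) p) (Nat.beq (Nat.land k G) 0))
        (Nat.beq (Nat.land k SQ) 0)) (Nat.ble (Nat.succ i) N)) (tabOK G SQ N ws l))
        (tabOK G SQ N ws r) := rfl

theorem k2_tailOK_t (G : ℕ) (ws : W) (w : ℕ) (k x y : ℕ) (r : P) :
    tailOK G ws w (.t k x y r) = Bool.rec false (Bool.rec false (tailOK G ws w r)
    (Nat.ble (Nat.succ (wtk ws k)) w)) (Nat.beq (Nat.land k G) 0) := rfl

theorem k2_All_t (A : ℕ → Prop) (k x y : ℕ) (r : P) :
    (P.t k x y r).All A = (A k ∧ r.All A) := rfl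

theorem k2_All_mono {A B : ℕ → Prop} {p : P} (h : p.All A) (hAB : ∀ t, A t → B t) : p.All B := by
  induction p with
  | z => trivial
  | t k x y r ih => exact ⟨hAB k h.1, ih h.2⟩

theorem k2_all_of_tailOK (C : Cst) (hC : C.ok) (ws : W) (hw : posOK C.n ws 0 = true) (w : ℕ) (p : P)
    (h : tailOK C.G ws w p = true) :
    p.All fun t => Good C.n t ∧ wt (fun v : Fin C.n => ws.get v) (expo C.n t) < w := by
  induction p with
  | z => trivial
  | t k x y r ih =>
    rw [k2_tailOK_t] at h
    obtain ⟨h1, h⟩ := k2_brec_false h
    obtain ⟨h2, h⟩ := k2_brec_false h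
    refine ⟨⟨(good_iff C hC k).1 (Nat.eq_of_beq_eq_true h1), ?_⟩, ih h⟩
    rw [← wtk_eq ws hw]
    exact Nat.le_of_ble_eq_true h2

theorem tab_of_check (C : Cst) (hC : C.ok) (ws : W) (hw : posOK C.n ws 0 = true) (N : ℕ) (T : Tr)
    (h : tabOK C.G C.SQ N ws T = true) : TabOK C.n (fun v => ws.get v) N T := by
  induction T with
  | leaf =>
    intro i k p hp
    exact absurd hp (by rw [k2_look_leaf]; simp)
  | node l i0 k0 p0 r ihl ihr =>
    rw [k2_tabOK_node] at h
    obtain ⟨hr, h⟩ := k2_brec_false h
    obtain ⟨hl, h⟩ := k2_brec_false h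
    obtain ⟨hi, h⟩ := k2_brec_false h
    obtain ⟨hs, h⟩ := k2_brec_false h
    obtain ⟨hg, h⟩ := k2_brec_false h
    intro i k p hp
    rw [k2_look_node] at hp
    cases hb : Nat.ble i i0 with
    | false =>
      rw [hb] at hp
      exact ihr hr i k p hp
    | true =>
      rw [hb] at hp
      cases hb2 : Nat.beq i0 i with
      | false =>
        rw [hb2] at hp
        exact ihl hl i k p hp
      | true =>
        rw [hb2] at hp
        have hp' : En.some k0 p0 = En.some k p := hp
        injection hp' with e1 e2
        subst e1
        subst e2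
        have e3 : i0 = i := Nat.eq_of_beq_eq_true hb2
        subst e3
        refine ⟨Nat.le_of_ble_eq_true hi, (good_iff C hC _).1 (Nat.eq_of_beq_eq_true hg),
          (squarefree_iff C hC _).1 (Nat.eq_of_beq_eq_true hs), ?_⟩
        have := k2_all_of_tailOK C hC ws hw _ _ h
        rw [wtk_eq ws hw] at this
        exact this

variable {k : Type*} [Field k]

theorem k2_red_zero (G : ℕ) (T : Tr) (acc : P) (tr : ℕ) : red G T 0 acc tr = isNil acc := rfl

theorem k2_red_succ_z (G : ℕ) (T : Tr) (fuel tr : ℕ) : red G T (fuel + 1) .z tr = true := rfl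

theorem k2_red_succ_t (G : ℕ) (T : Tr) (fuel tr : ℕ) (k x y : ℕ) (rest : P) :
    red G T (fuel + 1) (.t k x y rest) tr =
        Bool.rec
          (Nat.rec false (fun i _ => En.rec false (fun L tail =>
            Bool.rec false
              (Bool.rec false
                (red G T fuel (addm (Nat.sub k L) y x tail rest) (Nat.shiftRight tr 9))
                (Nat.beq (Nat.land (Nat.sub (Nat.add k G) L) G) G))
              (Nat.beq (Nat.land k G) 0)) (look T i)) (Nat.land tr 511))
          (red G T fuel rest tr)
          (Nat.beq x y) := rfl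

theorem k2_ev_z : (P.z).ev n k = 0 := rfl

theorem k2_ev_t (kk x y : ℕ) (r : P) :
    (P.t kk x y r).ev n k = monomial (expo n kk) ((x : k) - (y : k)) + r.ev n k := rfl

theorem red_sound (C : Cst) (hC : C.ok) (κ : Fin C.n → ℕ) (N : ℕ) (T : Tr)
    (hT : TabOK C.n κ N T) (d fuel tr : ℕ) (acc : P)
    (hacc : acc.All fun k => wt κ (expo C.n k) < d)
    (h : red C.G T fuel acc tr = true) :
    acc.ev C.n k ∈ Submodule.span k
      {g | ∃ (m : Fin C.n →₀ ℕ) (i : Fin N), wt κ m + wt κ ((look T i).lead C.n) < d ∧
        g = monomial m (1 : k) * (look T i).ev C.n k} := by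
  induction fuel generalizing acc tr with
  | zero =>
    cases acc with
    | z => exact Submodule.zero_mem _
    | t kk x y rest =>
      rw [k2_red_zero] at h
      exact absurd h (by simp [isNil])
  | succ fuel ih =>
    cases acc with
    | z => exact Submodule.zero_mem _
    | t kk x y rest =>
      rw [k2_red_succ_t] at h
      rw [k2_All_t] at hacc
      cases hxy : Nat.beq x y with
      | true =>
        rw [hxy] at h
        have e : x = y := Nat.eq_of_beq_eq_true hxy
        rw [k2_ev_t, e, sub_self, monomial_zero, zero_add]
        exact ih _ _ hacc.2 h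
      | false =>
        rw [hxy] at h
        cases htr : Nat.land tr 511 with
        | zero =>
          rw [htr] at h
          exact absurd h (by simp)
        | succ i =>
          rw [htr] at h
          change (En.rec (motive := fun _ => Bool) false (fun L tail =>
            Bool.rec false
              (Bool.rec false
                (red C.G T fuel (addm (Nat.sub kk L) y x tail rest) (Nat.shiftRight tr 9))
                (Nat.beq (Nat.land (Nat.sub (Nat.add kk C.G) L) C.G) C.G))
              (Nat.beq (Nat.land kk C.G) 0)) (look T i) : Bool) = true at h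
          cases hlk : look T i with
          | none =>
            rw [hlk] at h
            exact absurd h (by simp)
          | some L tail =>
            rw [hlk] at h
            obtain ⟨h1, h⟩ := k2_brec_false h
            obtain ⟨h2, h⟩ := k2_brec_false h
            obtain ⟨hiN, hLg, hLs, htail⟩ := hT i L tail hlk
            have hk : Good C.n kk := (good_iff C hC kk).1 (Nat.eq_of_beq_eq_true h1)
            obtain ⟨hle, hm, he⟩ := sub_of_test C hC hk hLg (Nat.eq_of_beq_eq_true h2)
            have hm' : Good C.n (Nat.sub kk L) := hm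
            have hacc' : (addm (Nat.sub kk L) y x tail rest).All
                fun k => wt κ (expo C.n k) < d := by
              apply all_addm _ hacc.2
              apply k2_All_mono htail
              intro t ht
              have e1 : expo C.n (t + Nat.sub kk L) = expo C.n t + expo C.n (kk - L) :=
                expo_add ht.1 hm
              have h3 := hacc.1
              show wt κ (expo C.n (t + Nat.sub kk L)) < d
              rw [e1, GB.wt_add]
              rw [he, GB.wt_add] at h3
              have := ht.2
              omega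
            have key := ih _ _ hacc' h
            rw [ev_addm hm' (k2_All_mono htail fun t ht => ht.1)] at key
            have e2 : (P.t kk x y rest).ev C.n k =
                ((x : k) - (y : k)) • (monomial (expo C.n (kk - L)) (1 : k) *
                  (look T i).ev C.n k) + (rest.ev C.n k +
                  monomial (expo C.n (Nat.sub kk L)) ((y : k) - (x : k)) * tail.ev C.n k) := by
              rw [k2_ev_t, hlk]
              show _ = ((x : k) - (y : k)) • (monomial (expo C.n (kk - L)) (1 : k) *
                (monomial (expo C.n L) 1 + tail.ev C.n k)) + (rest.ev C.n k +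
                  monomial (expo C.n (kk - L)) ((y : k) - (x : k)) * tail.ev C.n k)
              have e3 : monomial (expo C.n (kk - L)) ((y : k) - (x : k)) =
                  -(((x : k) - (y : k)) • (monomial (expo C.n (kk - L)) (1 : k))) := by
                rw [smul_monomial, ← map_neg]
                congr 1
                simp
              rw [e3, mul_add, monomial_mul, smul_add, smul_monomial, he, neg_mul, smul_mul_assoc]
              rw [add_comm (expo C.n L) (expo C.n (kk - L))]
              simp only [mul_one, smul_eq_mul]
              abel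
            rw [e2]
            apply Submodule.add_mem _ _ key
            apply Submodule.smul_mem
            apply Submodule.subset_span
            refine ⟨expo C.n (kk - L), ⟨i, hiN⟩, ?_, rfl⟩
            have h3 := hacc.1
            show wt κ (expo C.n (kk - L)) + wt κ ((look T i).lead C.n) < d
            rw [hlk]
            show wt κ (expo C.n (kk - L)) + wt κ (expo C.n L) < d
            rw [he, GB.wt_add] at h3
            omega

theorem k2_exists_bound (κ : Fin n → ℕ) (acc : P) : ∃ d, acc.All fun k => wt κ (expo n k) < d := by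
  induction acc with
  | z => exact ⟨0, trivial⟩
  | t kk x y r ih =>
    obtain ⟨d, hd⟩ := ih
    refine ⟨max d (wt κ (expo n kk) + 1), ?_, k2_All_mono hd fun t ht => ?_⟩
    · exact lt_of_lt_of_le (Nat.lt_succ_self _) (le_max_right _ _)
    · exact lt_of_lt_of_le ht (le_max_left _ _)

theorem mem_of_red (C : Cst) (hC : C.ok) (κ : Fin C.n → ℕ) (N : ℕ) (T : Tr)
    (hT : TabOK C.n κ N T) (fuel tr : ℕ) (acc : P) (h : red C.G T fuel acc tr = true) :
    acc.ev C.n k ∈ Ideal.span (Set.range fun i : Fin N => (look T i).ev C.n k) := by
  obtain ⟨d, hd⟩ := k2_exists_bound κ acc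
  have key := red_sound (k := k) C hC κ N T hT d fuel tr acc hd h
  generalize acc.ev C.n k = f at key ⊢
  induction key using Submodule.span_induction with
  | mem x hx =>
    obtain ⟨m, i, -, rfl⟩ := hx
    exact Ideal.mul_mem_left _ _ (Ideal.subset_span ⟨i, rfl⟩)
  | zero => exact Submodule.zero_mem _
  | add x y _ _ hx hy => exact Submodule.add_mem _ hx hy
  | smul a x _ hx =>
    rw [smul_eq_C_mul]
    exact Ideal.mul_mem_left _ _ hx

end Pool.Agent.Helper97.Hilb8.K
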