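import Pool.Agent.Helper97.Hilb8.K.TAll
import Pool.Agent.Helper97.Hilb8.K.Red

/-!
Soundness of the kernel-evaluable checks: relations.
-/

namespace Pool.Agent.Helper97.Hilb8.K

open MvPolynomial

/-! ### Module K4d: relations -/

theorem k4d_rec_iff {b X : Bool} :
    (Bool.rec (motive := fun _ => Bool) false X b : Bool) = true ↔ b = true ∧ X = true := by
  cases b <;> simp

theorem k4d_relsOK_node (G sh : Nat) (ws : W) (T l r : Tr) (i k : Nat) (p : P) :
    relsOK G sh ws T (.node l i k p r) =
      Bool.rec false (Bool.rec false (Bool.rec false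
        (red G T 100000 (addm 0 1 0 p .z) k) (relOK G sh ws p)) (relsOK G sh ws T l))
        (relsOK G sh ws T r) := rfl

theorem k4d_relsOK_leaf (G sh : Nat) (ws : W) (T : Tr) : relsOK G sh ws T .leaf = true := rfl

theorem relsOK_node (G sh : Nat) (ws : W) (T l r : Tr) (i k : Nat) (p : P) :
    relsOK G sh ws T (.node l i k p r) = true ↔ relsOK G sh ws T l = true ∧
      relsOK G sh ws T r = true ∧ relsOK G sh ws T (.node .leaf i k p .leaf) = true := by
  rw [k4d_relsOK_node, k4d_relsOK_node, k4d_rec_iff, k4d_rec_iff, k4d_rec_iff, k4d_rec_iff,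
    k4d_rec_iff, k4d_rec_iff, k4d_relsOK_leaf]
  tauto

theorem k4d_relOK_t (G sh : ℕ) (ws : W) (k x y : ℕ) (r : P) :
    relOK G sh ws (.t k x y r) = Bool.rec false (Bool.rec false (relOK G sh ws r)
    (Nat.beq (wtk ws k) (Nat.shiftRight k sh))) (Nat.beq (Nat.land k G) 0) := rfl

theorem k4d_all_of_relOK (C : Cst) (hC : C.ok) (ws : W) (hw : posOK C.n ws 0 = true) (p : P)
    (h : relOK C.G C.sh ws p = true) :
    p.All fun key => Good C.n key ∧
        key / 2 ^ C.sh = wt (fun v : Fin C.n => ws.get v) (expo C.n key) := by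
  induction p with
  | z => trivial
  | t k x y r ih =>
    rw [k4d_relOK_t] at h
    obtain ⟨h1, h⟩ := k4d_rec_iff.1 h
    obtain ⟨h2, h⟩ := k4d_rec_iff.1 h
    refine ⟨⟨(good_iff C hC k).1 (Nat.eq_of_beq_eq_true h1), ?_⟩, ih h⟩
    rw [← wtk_eq ws hw, Nat.eq_of_beq_eq_true h2]
    exact (Nat.shiftRight_eq_div_pow k C.sh).symm

theorem k4d_good_zero (n : ℕ) : Good n 0 := by
  refine ⟨by norm_num, fun v _ => ?_⟩
  rw [dig_zero]
  norm_num

theorem k4d_expo_zero (n : ℕ) : expo n 0 = 0 := by
  ext v
  rw [expo_apply, dig_zero]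
  rfl

theorem rels_sound (C : Cst) (hC : C.ok) (ws : W) (hw : posOK C.n ws 0 = true) (N : ℕ) (T R : Tr)
    (hT : TabOK C.n (fun v => ws.get v) N T) (hR : relsOK C.G C.sh ws T R = true)
    (k : Type*) [Field k] :
    TAll (fun _ _ p => p.ev C.n k ∈ Ideal.span (Set.range fun i : Fin N => (look T i).ev C.n k) ∧
      p.All fun key => Good C.n key ∧
        key / 2 ^ C.sh = wt (fun v : Fin C.n => ws.get v) (expo C.n key)) R := by
  induction R with
  | leaf =>
    intro i key p hp
    rw [k2_look_leaf] at hp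
    exact absurd hp (by simp)
  | node l i0 k0 p0 r ihl ihr =>
    rw [k4d_relsOK_node] at hR
    obtain ⟨hr, h⟩ := k4d_rec_iff.1 hR
    obtain ⟨hl, h⟩ := k4d_rec_iff.1 h
    obtain ⟨hp0, hred⟩ := k4d_rec_iff.1 h
    intro i key p hp
    rw [k2_look_node] at hp
    cases hb : Nat.ble i i0 with
    | false =>
      rw [hb] at hp
      exact ihr hr i key p hp
    | true =>
      rw [hb] at hp
      cases hb2 : Nat.beq i0 i with
      | false =>
        rw [hb2] at hp
        exact ihl hl i key p hp
      | true =>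
        rw [hb2] at hp
        have hp' : En.some k0 p0 = En.some key p := hp
        injection hp' with e1 e2
        subst e1
        subst e2
        have hall := k4d_all_of_relOK C hC ws hw _ hp0
        refine ⟨?_, hall⟩
        have key := mem_of_red (k := k) C hC _ N T hT _ _ _ hred
        rw [ev_addm (k4d_good_zero _) (k2_All_mono hall fun t ht => ht.1), ev_z, zero_add,
          k4d_expo_zero] at key
        simpa using key

end Pool.Agent.Helper97.Hilb8.K
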