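import Pool.Agent.Helper97.Hilb8.K.SatDefs

/-!
# Kernel-evaluable rules for the clauses and elimination lists: definitions

Atoms: `32 + 2 m` is the atom that the monomial number `m` (of the table `M`) lies in the prime
ideal, `33 + 2 m` is the atom that the monomial number `m` is supported on the facet. Literals are
therefore `64 + 4 m` (in the ideal), `65 + 4 m` (not in the ideal), `66 + 4 m` (on the facet),
`67 + 4 m` (not on the facet).
-/

noncomputable section

namespace Pool.Agent.Helper97.Hilb8.K

/-- Some entry of the list satisfies `f`. -/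
def anyL (f : Nat → Bool) (l : L) : Bool := L.rec false (fun a _ ih => Bool.rec ih true (f a)) l

/-- The squarefree key `x` divides the squarefree key `U`. -/
def subs (LOW x U : Nat) : Bool :=
  Nat.beq (Nat.land (Nat.land x U) LOW) (Nat.land x LOW)

/-- The support of the key `q` is contained in that of the squarefree key `U`. -/
def supp (LOW q U : Nat) : Bool :=
  Nat.beq (Nat.land (Nat.land q LOW) (Nat.mul 31 (Nat.land U LOW))) (Nat.land q LOW)

/-- The good key `a` divides the good key `k`. -/
def dvdk (G a k : Nat) : Bool :=
  Nat.beq (Nat.land (Nat.sub (Nat.add k G) a) G) G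

/-- `x - y` is plus or minus a power of two. -/
def coefOK (x y : Nat) : Bool :=
  (fun d => Bool.rec (Nat.beq (Nat.land d (Nat.sub d 1)) 0) false (Nat.beq d 0))
    (Nat.add (Nat.sub x y) (Nat.sub y x))

/-- Parse a clause: `Ub` collects the monomials of the literals of type 0, `Uc` those of type 3,
`As` the monomials of type 1, `Ds` those of type 2. -/
def parse (M : Tr) (f : Nat → Nat → L → L → Bool) (c : L) : Nat → Nat → L → L → Bool :=
  L.rec (motive := fun _ => Nat → Nat → L → L → Bool) (fun Ub Uc As Ds => f Ub Uc As Ds)
    (fun p _ ih Ub Uc As Ds =>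
      En.rec false
        (fun k _ => Nat.rec (ih (Nat.lor Ub k) Uc As Ds)
          (fun a _ => Nat.rec (ih Ub Uc (.c k As) Ds)
            (fun b _ => Nat.rec (ih Ub Uc As (.c k Ds))
              (fun _ _ => ih Ub (Nat.lor Uc k) As Ds) b) a) (Nat.land p 3))
        (look M (Nat.shiftRight (Nat.sub p 64) 2))) c

/-- The remaining terms of a relation after the leading survivor `k0`: each is killed, or divisible
by `c` and of smaller weight. -/
def relGo2 (G sh : Nat) (As : L) (c k0 : Nat) (p : P) : Bool :=
  P.rec true (fun k _ _ _ ih => Bool.rec false ih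
    (Bool.rec
      (Bool.rec false (dvdk G c k)
        (Nat.ble (Nat.succ (Nat.shiftRight k sh)) (Nat.shiftRight k0 sh)))
      true (anyL (fun a => dvdk G a k) As))) p

/-- The leading survivor. -/
def relGo1 (G LOW sh : Nat) (As : L) (Uc c : Nat) (p : P) : Bool :=
  P.rec false (fun k x y rest ih =>
    Bool.rec
      (Bool.rec false (Bool.rec false (Bool.rec false (relGo2 G sh As c k rest)
        (supp LOW (Nat.sub k c) Uc)) (coefOK x y)) (dvdk G c k))
      ih (anyL (fun a => dvdk G a k) As)) p

/-- For every table entry containing the variable at bit position `s` some `d` in `Ds` divides the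
rest of the leading monomial. -/
def maxGo (LOW s : Nat) (Ds : L) (T : Tr) : Bool :=
  Tr.rec true (fun _ _ k _ _ ihl ihr => Bool.rec false (Bool.rec false
    (Bool.rec true (anyL (fun d => subs LOW d (Nat.sub k (Nat.shiftLeft 1 s))) Ds)
      (Nat.beq (Nat.land (Nat.shiftRight k s) 1) 1)) ihl) ihr) T

/-- The rules. `M`: monomials, `T`: Groebner basis, `R`: relations, `Y`: unit sets. -/
def rule (G LOW sh : Nat) (M T R Y : Tr) (c : L) (t a b : Nat) : Bool :=
  parse M (fun Ub Uc As Ds =>
    Nat.rec (anyL (fun x => subs LOW x Ub) As)
    (fun t _ => Nat.rec (anyL (fun x => subs LOW x Uc) As)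
    (fun t _ => Nat.rec (anyL (fun x => subs LOW x Uc) Ds)
    (fun t _ => Nat.rec (En.rec false (fun k _ => subs LOW k Uc) (look T a))
    (fun t _ => Nat.rec
      (Bool.rec false (Bool.rec false (maxGo LOW (Nat.add 32 (Nat.mul 5 a)) Ds T)
        (anyL (fun d => subs LOW d (Nat.shiftLeft 1 (Nat.add 32 (Nat.mul 5 a)))) Ds))
        (Nat.ble (Nat.succ (Nat.add 32 (Nat.mul 5 a))) sh))
    (fun t _ => Nat.rec
      (Bool.rec false (Bool.rec false
        (En.rec false (fun _ p => relGo1 G LOW sh As Uc b p) (look R a))
        (supp LOW b Ub)) (Nat.beq (Nat.land b G) 0))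
    (fun _ _ => En.rec false (fun k _ => subs LOW k Ub) (look Y a)) t) t) t) t) t) t)
    c 0 0 .e .e

/-- All terms have good keys with correct weights. -/
def relOK (G sh : Nat) (ws : W) (p : P) : Bool :=
  P.rec true (fun k _ _ _ ih => Bool.rec false (Bool.rec false ih
    (Nat.beq (wtk ws k) (Nat.shiftRight k sh))) (Nat.beq (Nat.land k G) 0)) p

/-- All relations of the table `R` are well-formed and reduce to zero; the trace is stored as
key. -/
def relsOK (G sh : Nat) (ws : W) (T R : Tr) : Bool :=
  Tr.rec true (fun _ _ tr p _ ihl ihr => Bool.rec false (Bool.rec false (Bool.rec false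
    (red G T 100000 (addm 0 1 0 p .z) tr) (relOK G sh ws p)) ihl) ihr) R

/-- One elimination step: every term of `p` is in the allowed variables `A`, except exactly one,
which is the product of the variable at the bit position `s` and allowed variables in `U`. -/
def elimGo (LOW A AU s : Nat) (p : P) : Bool → Bool :=
  P.rec (motive := fun _ => Bool → Bool) (fun b => b)
    (fun k x y _ ih b =>
      Bool.rec
        (Bool.rec
          (Bool.rec false (Bool.rec false (Bool.rec false (ih true)
            (Nat.beq (Nat.land (Nat.land (Nat.sub k (Nat.shiftLeft 1 s)) LOW) AU)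
              (Nat.land (Nat.sub k (Nat.shiftLeft 1 s)) LOW)))
            (Nat.beq (Nat.land (Nat.shiftRight k s) 31) 1)) (coefOK x y))
          false b)
        (ih b)
        (Nat.beq (Nat.land (Nat.land k LOW) A) (Nat.land k LOW))) p

/-- Elimination list: the keys of `steps` are `v + 256 r` (variable and relation). `A` is the mask
of the allowed variables (31 in each digit), `U` the mask of the units. -/
def elimL (LOW sh : Nat) (R : Tr) (U : Nat) (steps : P) : Nat → Bool :=
  P.rec (motive := fun _ => Nat → Bool) (fun A => Nat.beq A LOW)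
    (fun st _ _ _ ih A =>
      (fun s => Bool.rec false
        (En.rec false (fun _ p => Bool.rec false (ih (Nat.lor A (Nat.shiftLeft 31 s)))
          (elimGo LOW A (Nat.land A U) s p false)) (look R (Nat.shiftRight st 8)))
        (Nat.ble (Nat.succ s) sh))
      (Nat.add 32 (Nat.mul 5 (Nat.land st 255)))) steps

/-- The number of odd digits. -/
def popc (n k : Nat) : Nat :=
  Nat.rec 0 (fun v ih => Nat.add ih (Nat.land (Nat.shiftRight k (Nat.add 32 (Nat.mul 5 v))) 1)) n

/-- Check the elimination data: the table `Y` holds for each unit key a polynomial whose first key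
is the key of `Z` and whose other keys are the elimination steps. -/
def elims (n LOW SQ sh N0 : Nat) (R Y : Tr) : Bool :=
  Tr.rec true (fun _ _ u p _ ihl ihr => Bool.rec false (Bool.rec false
    (P.rec false (fun z _ _ steps _ =>
      Bool.rec false (Bool.rec false (Bool.rec false
        (elimL LOW sh R (Nat.mul 31 (Nat.land u LOW)) steps (Nat.mul 31 (Nat.land z LOW)))
        (Nat.beq (Nat.land u SQ) 0)) (Nat.beq (Nat.land z SQ) 0)) (Nat.ble (popc n z) N0)) p)
    ihl) ihr) Y

/-- All keys of the table are good and squarefree. -/
def msOK (G SQ : Nat) (M : Tr) : Bool :=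
  Tr.rec true (fun _ _ k _ _ ihl ihr => Bool.rec false (Bool.rec false (Bool.rec false
    (Nat.beq (Nat.land k G) 0) (Nat.beq (Nat.land k SQ) 0)) ihl) ihr) M

end Pool.Agent.Helper97.Hilb8.K
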