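import Pool.Agent.Helper97.Hilb8.K.Keys
import Pool.Agent.Helper97.Hilb8.K.RuleDefs

/-!
Soundness of the kernel-evaluable checks: elementary tests.
-/

namespace Pool.Agent.Helper97.Hilb8.K

/-! ### Module K4b: elementary tests -/

theorem t_anyL_c (f : Nat → Bool) (a : Nat) (l : L) :
    anyL f (.c a l) = Bool.rec (anyL f l) true (f a) := rfl

theorem t_mem_c (x a : Nat) (l : L) : (L.c a l).Mem x = (x = a ∨ l.Mem x) := rfl

theorem anyL_iff (f : Nat → Bool) (l : L) : anyL f l = true ↔ ∃ a, l.Mem a ∧ f a = true := by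
  induction l with
  | e =>
    constructor
    · intro h
      exact absurd h (by simp [anyL])
    · rintro ⟨a, h, _⟩
      exact h.elim
  | c a l ih =>
    rw [t_anyL_c]
    constructor
    · intro h
      cases hf : f a with
      | true => exact ⟨a, Or.inl rfl, hf⟩
      | false =>
        rw [hf] at h
        obtain ⟨x, hx, hx2⟩ := ih.1 h
        exact ⟨x, Or.inr hx, hx2⟩
    · rintro ⟨x, hx, hx2⟩
      cases hf : f a with
      | true => rfl
      | false =>
        rcases hx with rfl | hx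
        · rw [hf] at hx2
          exact absurd hx2 (by simp)
        · exact ih.2 ⟨x, hx, hx2⟩

theorem subs_sound (C : Cst) (hC : C.ok) {x U : ℕ} (h : subs C.LOW x U = true) :
    ∀ v < C.n, dig x v ≠ 0 → dig U v ≠ 0 := by
  obtain ⟨_, _, _, hL, _⟩ := hC
  have h1 : (x &&& U) &&& C.LOW = x &&& C.LOW := Nat.eq_of_beq_eq_true h
  rw [hL, low_eq] at h1
  intro v hv hx hU
  have h2 := h1 v hv
  rw [dig_and, hU, Nat.and_zero] at h2
  exact hx h2.symm

theorem t_small (A : ℕ) : ∀ v, (∀ w < v, A / 32 ^ w % 32 ≤ 1) → 31 * (A % 32 ^ v) < 32 ^ v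
  | 0, _ => by simp [Nat.mod_one]
  | (v + 1), h => by
    have ih := t_small A v (fun w hw => h w (by omega))
    have h1 := h v (by omega)
    have h2 : A % 32 ^ (v + 1) = A % 32 ^ v + 32 ^ v * (A / 32 ^ v % 32) := by
      rw [pow_succ, Nat.mod_mul]
    have h3 : 32 ^ v * (A / 32 ^ v % 32) ≤ 32 ^ v * 1 := Nat.mul_le_mul_left _ h1
    rw [h2, pow_succ]
    omega

theorem t_mul31 (A v : ℕ) (hA : ∀ w ≤ v, A / 32 ^ w % 32 ≤ 1) :
    (31 * A) / 32 ^ v % 32 = 31 * (A / 32 ^ v % 32) := by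
  have h1 := t_small A v (fun w hw => hA w hw.le)
  have h2 := hA v le_rfl
  have hpos : 0 < 32 ^ v := by positivity
  have h3 : 31 * A = 31 * (A % 32 ^ v) + 32 ^ v * (31 * (A / 32 ^ v)) := by
    conv_lhs => rw [← Nat.mod_add_div A (32 ^ v)]
    ring
  have h4 : (31 * A) / 32 ^ v = 31 * (A / 32 ^ v) := by
    rw [h3, Nat.add_mul_div_left _ _ hpos, Nat.div_eq_of_lt h1, Nat.zero_add]
  rw [h4]
  omega

/-- The digits of `31 * (U &&& LOW)`. -/
theorem t_dig31 (C : Cst) (hC : C.ok) {U : ℕ} (hU : ∀ v < C.n, dig U v ≤ 1) {v : ℕ}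
    (hv : v < C.n) : dig (31 * (U &&& C.LOW)) v = 31 * dig U v := by
  obtain ⟨_, _, _, hL, _⟩ := hC
  have h1 : ∀ w < C.n, dig (U &&& C.LOW) w = dig U w := by
    rw [← low_eq, hL, Nat.and_assoc, Nat.and_self]
  have h0 : (U &&& C.LOW) % 2 ^ 32 = 0 := by
    apply Nat.eq_of_testBit_eq
    intro i
    rw [Nat.testBit_mod_two_pow, Nat.testBit_and, hL, mask_testBit (by norm_num),
      Nat.zero_testBit]
    by_cases hi : i < 32
    · have : ¬ 32 ≤ i := by omega
      simp [this]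
    · simp [hi]
  set W := U &&& C.LOW with hW
  have h2 : 31 * W / 2 ^ 32 = 31 * (W / 2 ^ 32) := by
    omega
  have h3 : dig (31 * W) v = 31 * dig W v := by
    unfold dig
    rw [h2]
    apply t_mul31
    intro w hw
    have h4 := h1 w (by omega)
    have h5 := hU w (by omega)
    unfold dig at h4 h5
    omega
  rw [h3, h1 v hv]

theorem supp_sound (C : Cst) (hC : C.ok) {q U : ℕ} (hU : ∀ v < C.n, dig U v ≤ 1)
    (h : supp C.LOW q U = true) : ∀ v < C.n, dig q v ≠ 0 → dig U v ≠ 0 := by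
  intro v hv hq hUv
  have h1 : (q &&& C.LOW) &&& (31 * (U &&& C.LOW)) = q &&& C.LOW := Nat.eq_of_beq_eq_true h
  have h2 := congrArg (fun z => dig z v) h1
  simp only [dig_and (q &&& C.LOW)] at h2
  rw [t_dig31 C hC hU hv, hUv, Nat.mul_zero, Nat.and_zero] at h2
  obtain ⟨_, _, _, hL, _⟩ := hC
  have h3 : ∀ w < C.n, dig (q &&& C.LOW) w = dig q w := by
    rw [← low_eq, hL, Nat.and_assoc, Nat.and_self]
  rw [h3 v hv] at h2
  exact hq h2.symm

theorem dvdk_sound (C : Cst) (hC : C.ok) {a k : ℕ} (ha : Good C.n a) (hk : Good C.n k)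
    (h : dvdk C.G a k = true) :
    a ≤ k ∧ Good C.n (k - a) ∧ expo C.n k = expo C.n a + expo C.n (k - a) :=
  sub_of_test C hC hk ha (Nat.eq_of_beq_eq_true h)

theorem t_pow_of_and (d : ℕ) : d ≠ 0 → d &&& (d - 1) = 0 → ∃ t, d = 2 ^ t := by
  induction d using Nat.strong_induction_on with
  | _ d ih =>
    intro h0 h
    by_cases h1 : d % 2 = 0
    · have h2 : d / 2 &&& (d / 2 - 1) = 0 := by
        have h3 : (d &&& (d - 1)) / 2 = 0 := by rw [h]
        rw [Nat.and_div_two] at h3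
        have h4 : (d - 1) / 2 = d / 2 - 1 := by omega
        rwa [h4] at h3
      obtain ⟨t, ht⟩ := ih (d / 2) (by omega) (by omega) h2
      refine ⟨t + 1, ?_⟩
      rw [pow_succ, ← ht]
      omega
    · have h2 : d / 2 &&& d / 2 = 0 := by
        have h3 : (d &&& (d - 1)) / 2 = 0 := by rw [h]
        rw [Nat.and_div_two] at h3
        have h4 : (d - 1) / 2 = d / 2 := by omega
        rwa [h4] at h3
      rw [Nat.and_self] at h2
      exact ⟨0, by rw [pow_zero]; omega⟩

theorem coefOK_sound {x y : ℕ} (h : coefOK x y = true) {k : Type*} [Field k] (h2 : (2 : k) ≠ 0) :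
    (x : k) - (y : k) ≠ 0 := by
  have h' : (Bool.rec (Nat.beq (Nat.land ((x - y) + (y - x)) ((x - y) + (y - x) - 1)) 0) false
      (Nat.beq ((x - y) + (y - x)) 0) : Bool) = true := h
  have h0 : (x - y) + (y - x) ≠ 0 := by
    intro h3
    rw [h3] at h'
    exact absurd h' (by decide)
  have h1 : Nat.beq ((x - y) + (y - x)) 0 = false := by
    cases hb : Nat.beq ((x - y) + (y - x)) 0 with
    | false => rfl
    | true => exact absurd (Nat.eq_of_beq_eq_true hb) h0
  rw [h1] at h'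
  obtain ⟨t, ht⟩ := t_pow_of_and _ h0 (Nat.eq_of_beq_eq_true h')
  have hne : ((2 : k)) ^ t ≠ 0 := pow_ne_zero _ h2
  rcases Nat.lt_or_ge x y with hxy | hxy
  · have h3 : y = x + 2 ^ t := by omega
    rw [h3]
    push_cast
    intro h4
    apply hne
    linear_combination -h4
  · have h3 : x = y + 2 ^ t := by omega
    rw [h3]
    push_cast
    intro h4
    apply hne
    linear_combination h4

theorem dig_lor (a b v : ℕ) : dig (Nat.lor a b) v ≠ 0 ↔ dig a v ≠ 0 ∨ dig b v ≠ 0 := by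
  have h : dig (Nat.lor a b) v = dig a v ||| dig b v := dig_or a b v
  rw [h, Ne, Nat.or_eq_zero_iff]
  tauto

theorem dig_lor_le {a b v : ℕ} (ha : dig a v ≤ 1) (hb : dig b v ≤ 1) :
    dig (Nat.lor a b) v ≤ 1 := by
  have h : dig (Nat.lor a b) v = dig a v ||| dig b v := dig_or a b v
  rw [h, or_eq_max ha hb]
  exact max_le ha hb

theorem t_parse_c (M : Tr) (f : Nat → Nat → L → L → Bool) (p : ℕ) (c : L) (Ub Uc : ℕ)
    (As Ds : L) : parse M f (.c p c) Ub Uc As Ds =
      En.rec false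
        (fun k _ => Nat.rec (parse M f c (Nat.lor Ub k) Uc As Ds)
          (fun a _ => Nat.rec (parse M f c Ub Uc (.c k As) Ds)
            (fun b _ => Nat.rec (parse M f c Ub Uc As (.c k Ds))
              (fun _ _ => parse M f c Ub (Nat.lor Uc k) As Ds) b) a) (Nat.land p 3))
        (look M (Nat.shiftRight (Nat.sub p 64) 2)) := rfl

theorem t_litsOK_c (p : ℕ) (c : L) :
    litsOK (.c p c) = Bool.rec false (litsOK c) (Nat.ble 64 p) := rfl

theorem t_land3 (p : ℕ) : Nat.land p 3 = p % 4 := by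
  have h : p &&& (2 ^ 2 - 1) = p % 2 ^ 2 := Nat.and_two_pow_sub_one_eq_mod p 2
  exact h

theorem t_parse (M : Tr) (f : Nat → Nat → L → L → Bool) (c : L) :
    ∀ (Ub0 Uc0 : ℕ) (As0 Ds0 : L), parse M f c Ub0 Uc0 As0 Ds0 = true → litsOK c = true →
    ∃ (Ub Uc : ℕ) (As Ds : L), f Ub Uc As Ds = true ∧
      (∀ v, dig Ub v ≠ 0 → dig Ub0 v ≠ 0 ∨ ∃ p k q, c.Mem p ∧ 64 ≤ p ∧ (p - 64) % 4 = 0 ∧
        look M ((p - 64) / 4) = .some k q ∧ dig k v ≠ 0) ∧
      (∀ v, dig Uc v ≠ 0 → dig Uc0 v ≠ 0 ∨ ∃ p k q, c.Mem p ∧ 64 ≤ p ∧ (p - 64) % 4 = 3 ∧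
        look M ((p - 64) / 4) = .some k q ∧ dig k v ≠ 0) ∧
      (∀ a, As.Mem a → As0.Mem a ∨ ∃ p q, c.Mem p ∧ 64 ≤ p ∧ (p - 64) % 4 = 1 ∧
        look M ((p - 64) / 4) = .some a q) ∧
      (∀ a, Ds.Mem a → Ds0.Mem a ∨ ∃ p q, c.Mem p ∧ 64 ≤ p ∧ (p - 64) % 4 = 2 ∧
        look M ((p - 64) / 4) = .some a q) ∧
      (∀ v, (∀ i k q, look M i = .some k q → dig k v ≤ 1) →
        (dig Ub0 v ≤ 1 → dig Ub v ≤ 1) ∧ (dig Uc0 v ≤ 1 → dig Uc v ≤ 1)) := by
  induction c with
  | e =>
    intro Ub0 Uc0 As0 Ds0 h _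
    exact ⟨Ub0, Uc0, As0, Ds0, h, fun v hv => Or.inl hv, fun v hv => Or.inl hv,
      fun a ha => Or.inl ha, fun a ha => Or.inl ha, fun v _ => ⟨id, id⟩⟩
  | c p c ih =>
    intro Ub0 Uc0 As0 Ds0 h hc
    rw [t_litsOK_c] at hc
    cases hp : Nat.ble 64 p with
    | false =>
      rw [hp] at hc
      exact absurd hc (by simp)
    | true =>
    rw [hp] at hc
    have hp64 : 64 ≤ p := Nat.le_of_ble_eq_true hp
    have hc' : litsOK c = true := hc
    rw [t_parse_c] at h
    have hsh : Nat.shiftRight (Nat.sub p 64) 2 = (p - 64) / 4 := by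
      have : (p - 64) >>> 2 = (p - 64) / 2 ^ 2 := Nat.shiftRight_eq_div_pow _ _
      exact this
    rw [hsh] at h
    have h3 := t_land3 p
    cases hl : look M ((p - 64) / 4) with
    | none =>
      rw [hl] at h
      exact absurd h (by simp)
    | some k q =>
      rw [hl, h3] at h
      have h4 : (p - 64) % 4 = p % 4 := by omega
      have h5 : p % 4 < 4 := Nat.mod_lt _ (by norm_num)
      have hmem : (L.c p c).Mem p := Or.inl rfl
      rcases hr : p % 4 with _ | _ | _ | _ | t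
      · rw [hr] at h
        obtain ⟨Ub, Uc, As, Ds, hf, a1, a2, a3, a4, a5⟩ := ih _ _ _ _ h hc'
        refine ⟨Ub, Uc, As, Ds, hf, ?_, ?_, ?_, ?_, ?_⟩
        · intro v hv
          rcases a1 v hv with h6 | ⟨p', k', q', b1, b2⟩
          · rcases (dig_lor _ _ _).1 h6 with h7 | h7
            · exact Or.inl h7
            · exact Or.inr ⟨p, k, q, hmem, hp64, by omega, hl, h7⟩
          · exact Or.inr ⟨p', k', q', Or.inr b1, b2⟩
        · intro v hv
          rcases a2 v hv with h6 | ⟨p', k', q', b1, b2⟩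
          · exact Or.inl h6
          · exact Or.inr ⟨p', k', q', Or.inr b1, b2⟩
        · intro a ha
          rcases a3 a ha with h6 | ⟨p', q', b1, b2⟩
          · exact Or.inl h6
          · exact Or.inr ⟨p', q', Or.inr b1, b2⟩
        · intro a ha
          rcases a4 a ha with h6 | ⟨p', q', b1, b2⟩
          · exact Or.inl h6
          · exact Or.inr ⟨p', q', Or.inr b1, b2⟩
        · intro v hv
          exact ⟨fun h6 => (a5 v hv).1 (dig_lor_le h6 (hv _ _ _ hl)), (a5 v hv).2⟩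
      · rw [hr] at h
        obtain ⟨Ub, Uc, As, Ds, hf, a1, a2, a3, a4, a5⟩ := ih _ _ _ _ h hc'
        refine ⟨Ub, Uc, As, Ds, hf, ?_, ?_, ?_, ?_, a5⟩
        · intro v hv
          rcases a1 v hv with h6 | ⟨p', k', q', b1, b2⟩
          · exact Or.inl h6
          · exact Or.inr ⟨p', k', q', Or.inr b1, b2⟩
        · intro v hv
          rcases a2 v hv with h6 | ⟨p', k', q', b1, b2⟩
          · exact Or.inl h6
          · exact Or.inr ⟨p', k', q', Or.inr b1, b2⟩
        · intro a ha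
          rcases a3 a ha with h6 | ⟨p', q', b1, b2⟩
          · rcases h6 with h7 | h7
            · subst h7
              exact Or.inr ⟨p, q, hmem, hp64, by omega, hl⟩
            · exact Or.inl h7
          · exact Or.inr ⟨p', q', Or.inr b1, b2⟩
        · intro a ha
          rcases a4 a ha with h6 | ⟨p', q', b1, b2⟩
          · exact Or.inl h6
          · exact Or.inr ⟨p', q', Or.inr b1, b2⟩
      · rw [hr] at h
        obtain ⟨Ub, Uc, As, Ds, hf, a1, a2, a3, a4, a5⟩ := ih _ _ _ _ h hc'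
        refine ⟨Ub, Uc, As, Ds, hf, ?_, ?_, ?_, ?_, a5⟩
        · intro v hv
          rcases a1 v hv with h6 | ⟨p', k', q', b1, b2⟩
          · exact Or.inl h6
          · exact Or.inr ⟨p', k', q', Or.inr b1, b2⟩
        · intro v hv
          rcases a2 v hv with h6 | ⟨p', k', q', b1, b2⟩
          · exact Or.inl h6
          · exact Or.inr ⟨p', k', q', Or.inr b1, b2⟩
        · intro a ha
          rcases a3 a ha with h6 | ⟨p', q', b1, b2⟩
          · exact Or.inl h6
          · exact Or.inr ⟨p', q', Or.inr b1, b2⟩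
        · intro a ha
          rcases a4 a ha with h6 | ⟨p', q', b1, b2⟩
          · rcases h6 with h7 | h7
            · subst h7
              exact Or.inr ⟨p, q, hmem, hp64, by omega, hl⟩
            · exact Or.inl h7
          · exact Or.inr ⟨p', q', Or.inr b1, b2⟩
      · rw [hr] at h
        obtain ⟨Ub, Uc, As, Ds, hf, a1, a2, a3, a4, a5⟩ := ih _ _ _ _ h hc'
        refine ⟨Ub, Uc, As, Ds, hf, ?_, ?_, ?_, ?_, ?_⟩
        · intro v hv
          rcases a1 v hv with h6 | ⟨p', k', q', b1, b2⟩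
          · exact Or.inl h6
          · exact Or.inr ⟨p', k', q', Or.inr b1, b2⟩
        · intro v hv
          rcases a2 v hv with h6 | ⟨p', k', q', b1, b2⟩
          · rcases (dig_lor _ _ _).1 h6 with h7 | h7
            · exact Or.inl h7
            · exact Or.inr ⟨p, k, q, hmem, hp64, by omega, hl, h7⟩
          · exact Or.inr ⟨p', k', q', Or.inr b1, b2⟩
        · intro a ha
          rcases a3 a ha with h6 | ⟨p', q', b1, b2⟩
          · exact Or.inl h6
          · exact Or.inr ⟨p', q', Or.inr b1, b2⟩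
        · intro a ha
          rcases a4 a ha with h6 | ⟨p', q', b1, b2⟩
          · exact Or.inl h6
          · exact Or.inr ⟨p', q', Or.inr b1, b2⟩
        · intro v hv
          exact ⟨(a5 v hv).1, fun h6 => (a5 v hv).2 (dig_lor_le h6 (hv _ _ _ hl))⟩
      · omega

/-- The literals of a clause that is parsed: every literal `p` has a monomial `m = (p - 64) / 4`
in the table `M`, and the four types are collected. -/
theorem parse_sound (M : Tr) (f : Nat → Nat → L → L → Bool) (c : L)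
    (h : parse M f c 0 0 .e .e = true) (hc : litsOK c = true) :
    ∃ (Ub Uc : ℕ) (As Ds : L), f Ub Uc As Ds = true ∧
      (∀ v, dig Ub v ≠ 0 → ∃ p k q, c.Mem p ∧ 64 ≤ p ∧ (p - 64) % 4 = 0 ∧
        look M ((p - 64) / 4) = .some k q ∧ dig k v ≠ 0) ∧
      (∀ v, dig Uc v ≠ 0 → ∃ p k q, c.Mem p ∧ 64 ≤ p ∧ (p - 64) % 4 = 3 ∧
        look M ((p - 64) / 4) = .some k q ∧ dig k v ≠ 0) ∧
      (∀ a, As.Mem a → ∃ p q, c.Mem p ∧ 64 ≤ p ∧ (p - 64) % 4 = 1 ∧
        look M ((p - 64) / 4) = .some a q) ∧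
      (∀ a, Ds.Mem a → ∃ p q, c.Mem p ∧ 64 ≤ p ∧ (p - 64) % 4 = 2 ∧
        look M ((p - 64) / 4) = .some a q) ∧
      (∀ v, (∀ i k q, look M i = .some k q → dig k v ≤ 1) → dig Ub v ≤ 1 ∧ dig Uc v ≤ 1) := by
  obtain ⟨Ub, Uc, As, Ds, hf, a1, a2, a3, a4, a5⟩ := t_parse M f c 0 0 .e .e h hc
  refine ⟨Ub, Uc, As, Ds, hf, ?_, ?_, ?_, ?_, ?_⟩
  · intro v hv
    exact (a1 v hv).resolve_left (fun h0 => h0 (dig_zero v))
  · intro v hv
    exact (a2 v hv).resolve_left (fun h0 => h0 (dig_zero v))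
  · intro a ha
    exact (a3 a ha).resolve_left (fun h0 => h0.elim)
  · intro a ha
    exact (a4 a ha).resolve_left (fun h0 => h0.elim)
  · intro v hv
    exact ⟨(a5 v hv).1 (by rw [dig_zero]; norm_num), (a5 v hv).2 (by rw [dig_zero]; norm_num)⟩

end Pool.Agent.Helper97.Hilb8.K
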