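import Pool.Agent.Helper97.Hilb8.K.RawSem
import Pool.Agent.Helper97.Hilb8.K.Rels
import Pool.Agent.Helper97.Hilb8.K.Tests

/-!
Soundness of the kernel-evaluable checks: linear combinations.
-/

namespace Pool.Agent.Helper97.Hilb8.K

open MvPolynomial

/-! ### Module K7b: linear combinations -/

section aux

variable {n : ℕ} {R : Type*} [CommRing R]

theorem k7b_addmT_z (cut m x y : ℕ) (acc : P) : addmT cut m x y .z acc = acc := rfl

theorem k7b_addmT_t (cut m x y k a b : ℕ) (r acc : P) :
    addmT cut m x y (.t k a b r) acc =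
      Bool.rec (addmT cut m x y r acc)
        (ins (k + m) (x * a + y * b) (x * b + y * a) (addmT cut m x y r) acc)
        (Nat.ble cut (k + m)) := rfl

/-- The value of `addmT`: the terms which are left out have keys `K1 + m < cut` with `K1` a key of
`p`. -/
theorem ev_addmT (cut m x y : ℕ) (p : P) (A : ℕ → Prop) (hA : ∀ t, A t → Good n t)
    (hm : Good n m) (hp : p.All A) :
    ∃ r : MvPolynomial (Fin n) R,
      (∀ acc : P, (addmT cut m x y p acc).ev n R =
        acc.ev n R + monomial (expo n m) ((x : R) - (y : R)) * p.ev n R - r) ∧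
      ∀ e ∈ r.support, ∃ K1, A K1 ∧ e = expo n (K1 + m) ∧ K1 + m < cut := by
  induction p with
  | z =>
    refine ⟨0, fun acc => ?_, fun e he => ?_⟩
    · rw [k7b_addmT_z, ev_z]
      ring
    · simp at he
  | t k a b p ih =>
    rw [All_t] at hp
    obtain ⟨r, h1, h2⟩ := ih hp.2
    have hmul : monomial (expo n m) ((x : R) - (y : R)) * (P.t k a b p).ev n R =
        monomial (expo n (k + m)) (((x * a + y * b : ℕ) : R) - ((x * b + y * a : ℕ) : R)) +
          monomial (expo n m) ((x : R) - (y : R)) * p.ev n R := by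
      rw [ev_t, mul_add, monomial_mul, expo_add (hA _ hp.1) hm, add_comm (expo n k)]
      congr 2
      push_cast
      ring
    by_cases hc : cut ≤ k + m
    · refine ⟨r, fun acc => ?_, h2⟩
      rw [k7b_addmT_t, ble_iff.2 hc]
      change (ins (k + m) (x * a + y * b) (x * b + y * a) (addmT cut m x y p) acc).ev n R = _
      rw [ev_ins (E := monomial (expo n m) ((x : R) - (y : R)) * p.ev n R - r)
        (fun acc => by rw [h1 acc]; ring), hmul]
      ring
    · refine ⟨monomial (expo n (k + m)) (((x * a + y * b : ℕ) : R) - ((x * b + y * a : ℕ) : R)) + r,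
        fun acc => ?_, fun e he => ?_⟩
      · have hb : Nat.ble cut (k + m) = false := by
          rw [Bool.eq_false_iff]
          exact fun h3 => hc (ble_iff.1 h3)
        rw [k7b_addmT_t, hb]
        change (addmT cut m x y p acc).ev n R = _
        rw [h1, hmul]
        ring
      · rcases Finset.mem_union.1 (support_add he) with he | he
        · have := Finset.mem_singleton.1 (support_monomial_subset he)
          exact ⟨k, hp.1, this, by omega⟩
        · exact h2 e he

theorem k7b_dropZ_t (k x y : ℕ) (r : P) :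
    dropZ (.t k x y r) = Bool.rec (.t k x y r) (dropZ r) (Nat.beq x y) := rfl

theorem ev_dropZ (p : P) : (dropZ p).ev n R = p.ev n R := by
  induction p with
  | z => rfl
  | t k x y r ih =>
    rw [k7b_dropZ_t]
    cases h : Nat.beq x y with
    | false => rfl
    | true =>
      change (dropZ r).ev n R = _
      rw [ih, ev_t, beq_iff.1 h, sub_self, map_zero, zero_add]

end aux

/-- All multiplier keys satisfy `B`. -/
def CL.All (B : ℕ → Prop) (l : CL) : Prop := CL.rec True (fun _ _ m _ _ ih => B m ∧ ih) l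

theorem CL.All_c (B : ℕ → Prop) (x y m i : ℕ) (l : CL) : (CL.c x y m i l).All B ↔ B m ∧ l.All B :=
  Iff.rfl

theorem CL.all_true (l : CL) : l.All (fun _ => True) := by
  induction l with
  | e => trivial
  | c x y m i l ih => exact ⟨trivial, ih⟩

theorem k7b_comb_e (G cut : ℕ) (T : Tr) (N : ℕ) (f : P → Bool) (acc : P) :
    comb G cut T N f .e acc = f acc := rfl

theorem k7b_comb_c (G cut : ℕ) (T : Tr) (N : ℕ) (f : P → Bool) (x y m i : ℕ) (l : CL) (acc : P) :
    comb G cut T N f (.c x y m i l) acc = (Bool.rec false (Bool.rec false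
      (En.rec false (fun _ p => comb G cut T N f l (addmT cut m x y p (dropZ acc))) (look T i))
      (Nat.ble (Nat.succ i) N)) (Nat.beq (Nat.land m G) 0) : Bool) := rfl

/-- The general form: the entries `< N` of `T` have keys satisfying `A` and lie in `J`, the
multiplier keys satisfy `B`. -/
theorem comb_gen (C : Cst) (hC : C.ok) {k : Type*} [Field k]
    (J : Ideal (MvPolynomial (Fin C.n) k)) (cut : ℕ) (T : Tr) (N : ℕ)
    (A B : ℕ → Prop) (hA : ∀ t, A t → Good C.n t)
    (hT : ∀ i < N, ∀ key q, look T i = .some key q → q.All A ∧ q.ev C.n k ∈ J)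
    (f : P → Bool) (l : CL) (hl : l.All B) (acc : P) (h : comb C.G cut T N f l acc = true) :
    ∃ (a : P) (q r : MvPolynomial (Fin C.n) k), f a = true ∧ q ∈ J ∧
      a.ev C.n k = acc.ev C.n k + q - r ∧
      ∀ e ∈ r.support, ∃ K1 m, A K1 ∧ Good C.n m ∧ B m ∧ e = expo C.n (K1 + m) ∧
        K1 + m < cut := by
  induction l generalizing acc with
  | e =>
    refine ⟨acc, 0, 0, h, J.zero_mem, by ring, fun e he => ?_⟩
    simp at he
  | c x y m i l ih =>
    rw [k7b_comb_c] at h
    obtain ⟨h1, h⟩ := k4d_rec_iff.1 h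
    obtain ⟨h2, h⟩ := k4d_rec_iff.1 h
    have hm : Good C.n m := (good_iff C hC m).1 (Nat.eq_of_beq_eq_true h1)
    have hi : i < N := Nat.le_of_ble_eq_true h2
    rw [CL.All_c] at hl
    cases hlk : look T i with
    | none => rw [hlk] at h; exact absurd h (by simp)
    | some key p =>
      rw [hlk] at h
      change comb C.G cut T N f l (addmT cut m x y p (dropZ acc)) = true at h
      obtain ⟨hp, hpJ⟩ := hT i hi key p hlk
      obtain ⟨a, q, r, ha, hq, hev, hr⟩ := ih hl.2 _ h
      obtain ⟨r1, hr1, hr1'⟩ := ev_addmT (n := C.n) (R := k) cut m x y p A hA hm hp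
      refine ⟨a, q + monomial (expo C.n m) ((x : k) - (y : k)) * p.ev C.n k, r + r1, ha,
        J.add_mem hq (J.mul_mem_left _ hpJ), ?_, fun e he => ?_⟩
      · rw [hev, hr1, ev_dropZ]
        ring
      · rcases Finset.mem_union.1 (support_add he) with he | he
        · exact hr e he
        · obtain ⟨K1, h3, h4, h5⟩ := hr1' e he
          exact ⟨K1, m, h3, hm, hl.1, h4, h5⟩

/-- No truncation, arbitrary continuation. -/
theorem comb_zero (C : Cst) (hC : C.ok) {k : Type*} [Field k]
    (J : Ideal (MvPolynomial (Fin C.n) k)) (D : Tr) (N : ℕ)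
    (hD : ∀ i < N, ∀ key q, look D i = .some key q → q.All (Good C.n) ∧ q.ev C.n k ∈ J)
    (f : P → Bool) (l : CL) (acc : P) (h : comb C.G 0 D N f l acc = true) :
    ∃ a : P, f a = true ∧ acc.ev C.n k - a.ev C.n k ∈ J := by
  obtain ⟨a, q, r, ha, hq, hev, hr⟩ := comb_gen C hC J 0 D N (Good C.n) (fun _ => True)
    (fun _ h => h) hD f l l.all_true acc h
  have hr0 : r = 0 := by
    rw [← MvPolynomial.support_eq_empty, Finset.eq_empty_iff_forall_notMem]
    intro e he
    obtain ⟨K1, m, -, -, -, -, h6⟩ := hr e he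
    exact Nat.not_lt_zero _ h6
  refine ⟨a, ha, ?_⟩
  rw [hev, hr0]
  have : acc.ev C.n k - (acc.ev C.n k + q - 0) = -q := by ring
  rw [this]
  exact J.neg_mem hq

/-- Without truncation. -/
theorem comb_sound (C : Cst) (hC : C.ok) {k : Type*} [Field k]
    (J : Ideal (MvPolynomial (Fin C.n) k)) (D : Tr) (N : ℕ)
    (hD : ∀ i < N, ∀ key q, look D i = .some key q → q.All (Good C.n) ∧ q.ev C.n k ∈ J)
    (l : CL) (acc : P) (h : comb C.G 0 D N isZero l acc = true) : acc.ev C.n k ∈ J := by
  obtain ⟨a, ha, h1⟩ := comb_zero C hC J D N hD isZero l acc h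
  rwa [ev_of_isZero ha, sub_zero] at h1

theorem k7b_ev_addm0 {n : ℕ} {R : Type*} [CommRing R] (x y : ℕ) (p acc : P) (hp : p.All (Good n)) :
    (addm 0 x y p acc).ev n R = acc.ev n R + C ((x : R) - (y : R)) * p.ev n R := by
  rw [ev_addm (k4d_good_zero n) hp, k4d_expo_zero]
  rfl

theorem inSpan_sound (C : Cst) (hC : C.ok) {k : Type*} [Field k]
    (J : Ideal (MvPolynomial (Fin C.n) k)) (D : Tr) (N : ℕ)
    (hD : ∀ i < N, ∀ key q, look D i = .some key q → q.All (Good C.n) ∧ q.ev C.n k ∈ J)
    (l : CL) (p : P) (hp : p.All (Good C.n)) (h : inSpan C.G D N l p = true) :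
    p.ev C.n k ∈ J := by
  have h1 := comb_sound C hC J D N hD l _ h
  rw [k7b_ev_addm0 0 1 p .z hp, ev_z] at h1
  have h2 : (0 : MvPolynomial (Fin C.n) k) + MvPolynomial.C (((0 : ℕ) : k) - ((1 : ℕ) : k)) *
      p.ev C.n k = -p.ev C.n k := by
    push_cast
    rw [zero_sub, map_neg, map_one]
    ring
  rw [h2] at h1
  exact (Submodule.neg_mem_iff J).1 h1

theorem k7b_goodP_t (G k x y : ℕ) (r : P) :
    goodP G (.t k x y r) = Bool.rec false (goodP G r) (Nat.beq (Nat.land k G) 0) := rfl

theorem goodP_sound (C : Cst) (hC : C.ok) (p : P) (h : goodP C.G p = true) :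
    p.All (Good C.n) := by
  induction p with
  | z => trivial
  | t k x y r ih =>
    rw [k7b_goodP_t] at h
    obtain ⟨h1, h⟩ := k4d_rec_iff.1 h
    exact ⟨(good_iff C hC k).1 (Nat.eq_of_beq_eq_true h1), ih h⟩

theorem k7b_goodT_node (G N : ℕ) (l : Tr) (i k : ℕ) (p : P) (r : Tr) :
    goodT G N (.node l i k p r) = Bool.rec false (Bool.rec false (Bool.rec false (goodP G p)
    (Nat.ble (Nat.succ i) N)) (goodT G N l)) (goodT G N r) := rfl

/-- The entries of a node. -/
theorem TAll_node (A : ℕ → ℕ → P → Prop) (l : Tr) (i k : ℕ) (p : P) (r : Tr) (h : A i k p)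
    (hl : TAll A l) (hr : TAll A r) : TAll A (.node l i k p r) := by
  intro j key q hq
  rw [k2_look_node] at hq
  cases h1 : Nat.ble j i with
  | false =>
    rw [h1] at hq
    exact hr j key q hq
  | true =>
    rw [h1] at hq
    cases h2 : Nat.beq i j with
    | false =>
      rw [h2] at hq
      exact hl j key q hq
    | true =>
      rw [h2] at hq
      have h3 : En.some k p = En.some key q := hq
      injection h3 with h4 h5
      rw [← h4, ← h5, ← beq_iff.1 h2]
      exact h

theorem TAll_leaf (A : ℕ → ℕ → P → Prop) : TAll A .leaf := by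
  intro j key q hq
  exact absurd (show En.none = En.some key q from hq) (by simp)

theorem goodT_sound (C : Cst) (hC : C.ok) (N : ℕ) (T : Tr) (h : goodT C.G N T = true) :
    TAll (fun i _ p => i < N ∧ p.All (Good C.n)) T := by
  induction T with
  | leaf => exact TAll_leaf _
  | node l i key p r ihl ihr =>
    rw [k7b_goodT_node] at h
    obtain ⟨h1, h⟩ := k4d_rec_iff.1 h
    obtain ⟨h2, h⟩ := k4d_rec_iff.1 h
    obtain ⟨h3, h⟩ := k4d_rec_iff.1 h
    exact TAll_node _ l i key p r ⟨Nat.le_of_ble_eq_true h3, goodP_sound C hC p h⟩ (ihl h2)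
      (ihr h1)

theorem k7b_chkJ_x (G : ℕ) (E D : Tr) (j : ℕ) (l : JL) (i : ℕ) :
    chkJ G E D (.x j l) i = Bool.rec false (chkJ G E D l (Nat.succ i))
      (En.rec false (fun _ p => En.rec false (fun _ q => isZero (addm 0 0 1 q p)) (look E j))
        (look D i)) := rfl

theorem k7b_chkJ_d (G : ℕ) (E D : Tr) (x y : ℕ) (cl : CL) (l : JL) (i : ℕ) :
    chkJ G E D (.d x y cl l) i =
      Bool.rec false (Bool.rec false (chkJ G E D l (Nat.succ i))
        (En.rec false (fun _ p => comb G 0 D i isZero cl (addm 0 y x p .z)) (look D i)))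
      (coefOK x y) := rfl

theorem chkJ_sound (C : Cst) (hC : C.ok) {k : Type*} [Field k] (h2 : (2 : k) ≠ 0)
    (J : Ideal (MvPolynomial (Fin C.n) k)) (E D : Tr)
    (hE : TAll (fun _ _ p => p.All (Good C.n) ∧ p.ev C.n k ∈ J) E)
    (hD : TAll (fun _ _ p => p.All (Good C.n)) D) (l : JL) (i0 : ℕ)
    (h0 : ∀ i < i0, ∀ key q, look D i = .some key q → q.ev C.n k ∈ J)
    (h : chkJ C.G E D l i0 = true) :
    ∀ i < i0 + l.len, ∀ key q, look D i = .some key q → q.ev C.n k ∈ J := by
  induction l generalizing i0 with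
  | e =>
    intro i hi
    exact h0 i hi
  | x j l ih =>
    rw [k7b_chkJ_x] at h
    obtain ⟨h1, h⟩ := k4d_rec_iff.1 h
    have hlen : i0 + (JL.x j l).len = i0 + 1 + l.len := by
      change i0 + (l.len + 1) = _
      omega
    rw [hlen]
    refine ih (i0 + 1) (fun i hi key q hq => ?_) h
    rcases Nat.lt_succ_iff_lt_or_eq.1 hi with hi | rfl
    · exact h0 i hi key q hq
    · rw [hq] at h1
      cases hj : look E j with
      | none => rw [hj] at h1; exact absurd h1 (by simp)
      | some key' q' =>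
        rw [hj] at h1
        obtain ⟨h3, h4⟩ := hE j key' q' hj
        have h5 := ev_of_isZero (n := C.n) (R := k) (show isZero (addm 0 0 1 q' q) = true from h1)
        rw [k7b_ev_addm0 0 1 q' q h3] at h5
        have h6 : q.ev C.n k = q'.ev C.n k := by
          have h7 : MvPolynomial.C (σ := Fin C.n) (((0 : ℕ) : k) - ((1 : ℕ) : k)) = -1 := by
            push_cast
            rw [zero_sub, map_neg, map_one]
          rw [h7] at h5
          linear_combination h5
        rw [h6]
        exact h4
  | d x y cl l ih =>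
    rw [k7b_chkJ_d] at h
    obtain ⟨hc, h⟩ := k4d_rec_iff.1 h
    obtain ⟨h1, h⟩ := k4d_rec_iff.1 h
    have hlen : i0 + (JL.d x y cl l).len = i0 + 1 + l.len := by
      change i0 + (l.len + 1) = _
      omega
    rw [hlen]
    refine ih (i0 + 1) (fun i hi key q hq => ?_) h
    rcases Nat.lt_succ_iff_lt_or_eq.1 hi with hi | rfl
    · exact h0 i hi key q hq
    · rw [hq] at h1
      have h3 := comb_sound C hC J D i (fun t ht key' q' hq' => ⟨hD t key' q' hq',
        h0 t ht key' q' hq'⟩) cl _ (show comb C.G 0 D i isZero cl (addm 0 y x q .z) = true from h1)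
      rw [k7b_ev_addm0 y x q .z (hD i key q hq), ev_z, zero_add] at h3
      have h4 : (y : k) - (x : k) ≠ 0 := by
        have := coefOK_sound hc h2
        intro h5
        apply this
        linear_combination -h5
      have h5 := J.mul_mem_left (MvPolynomial.C ((y : k) - (x : k))⁻¹) h3
      rwa [← mul_assoc, ← map_mul, inv_mul_cancel₀ h4, map_one, one_mul] at h5

theorem k7b_chkT_c (G : ℕ) (D : Tr) (N : ℕ) (T : Tr) (cl : CL) (l : TL) (i : ℕ) :
    chkT G D N T (.c cl l) i = Bool.rec false (chkT G D N T l (Nat.succ i))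
      (En.rec false (fun k p => inSpan G D N cl (.t k 1 0 p)) (look T i)) := rfl

theorem chkT_sound (C : Cst) (hC : C.ok) {k : Type*} [Field k]
    (J : Ideal (MvPolynomial (Fin C.n) k)) (D : Tr) (N : ℕ)
    (hD : ∀ i < N, ∀ key q, look D i = .some key q → q.All (Good C.n) ∧ q.ev C.n k ∈ J)
    (T : Tr) (hT : TAll (fun _ key p => Good C.n key ∧ p.All (Good C.n)) T) (l : TL) (i0 : ℕ)
    (h : chkT C.G D N T l i0 = true) (i : ℕ) (h1 : i0 ≤ i) (h2 : i < i0 + l.len) :
    (look T i).ev C.n k ∈ J := by
  induction l generalizing i0 with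
  | e =>
    have h3 : i < i0 := h2
    omega
  | c cl l ih =>
    rw [k7b_chkT_c] at h
    obtain ⟨h3, h⟩ := k4d_rec_iff.1 h
    have hlen : i0 + (TL.c cl l).len = i0 + 1 + l.len := by
      change i0 + (l.len + 1) = _
      omega
    rw [hlen] at h2
    rcases Nat.lt_or_ge i0 i with h4 | h4
    · exact ih (i0 + 1) h h4 h2
    · have h5 : i = i0 := le_antisymm h4 h1
      subst h5
      cases hj : look T i with
      | none => rw [hj] at h3; exact absurd h3 (by simp)
      | some key p =>
        rw [hj] at h3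
        have h6 := inSpan_sound C hC J D N hD cl (.t key 1 0 p) (hT i key p hj) h3
        rw [ev_t] at h6
        have h7 : (((1 : ℕ) : k) - ((0 : ℕ) : k)) = 1 := by
          push_cast
          ring
        rw [h7] at h6
        exact h6

end Pool.Agent.Helper97.Hilb8.K
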