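import Pool.Agent.Helper97.Hilb8.K.TAll
import Pool.Agent.Helper97.Hilb8.K.Tests
import Pool.Agent.Helper97.Hilb8.K.Red
import Pool.Agent.Helper97.Hilb8.Elim2

/-!
Soundness of the kernel-evaluable checks: eliminations.
-/

namespace Pool.Agent.Helper97.Hilb8.K

open MvPolynomial

/-! ### Equation lemmas -/

theorem k4e_go_z (LOW A AU s : Nat) (b : Bool) : elimGo LOW A AU s .z b = b := rfl

theorem k4e_go_t (LOW A AU s k x y : Nat) (r : P) (b : Bool) :
    elimGo LOW A AU s (.t k x y r) b =
      Bool.rec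
        (Bool.rec
          (Bool.rec false (Bool.rec false (Bool.rec false (elimGo LOW A AU s r true)
            (Nat.beq (Nat.land (Nat.land (Nat.sub k (Nat.shiftLeft 1 s)) LOW) AU)
              (Nat.land (Nat.sub k (Nat.shiftLeft 1 s)) LOW)))
            (Nat.beq (Nat.land (Nat.shiftRight k s) 31) 1)) (coefOK x y))
          false b)
        (elimGo LOW A AU s r b)
        (Nat.beq (Nat.land (Nat.land k LOW) A) (Nat.land k LOW)) := rfl

theorem k4e_L_z (LOW sh : Nat) (R : Tr) (U A : Nat) : elimL LOW sh R U .z A = Nat.beq A LOW := rfl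

theorem k4e_L_t (LOW sh : Nat) (R : Tr) (U st x y : Nat) (r : P) (A : Nat) :
    elimL LOW sh R U (.t st x y r) A =
      Bool.rec false
        (En.rec false (fun _ p => Bool.rec false
            (elimL LOW sh R U r
              (Nat.lor A (Nat.shiftLeft 31 (Nat.add 32 (Nat.mul 5 (Nat.land st 255))))))
          (elimGo LOW A (Nat.land A U) (Nat.add 32 (Nat.mul 5 (Nat.land st 255))) p false))
          (look R (Nat.shiftRight st 8)))
        (Nat.ble (Nat.succ (Nat.add 32 (Nat.mul 5 (Nat.land st 255)))) sh) := rfl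

theorem k4e_elims_leaf (n LOW SQ sh N0 : Nat) (R : Tr) : elims n LOW SQ sh N0 R .leaf = true := rfl

theorem k4e_elims_node (n LOW SQ sh N0 : Nat) (R l r : Tr) (i u : Nat) (p : P) :
    elims n LOW SQ sh N0 R (.node l i u p r) = Bool.rec false (Bool.rec false
    (P.rec false (fun z _ _ steps _ =>
      Bool.rec false (Bool.rec false (Bool.rec false
        (elimL LOW sh R (Nat.mul 31 (Nat.land u LOW)) steps (Nat.mul 31 (Nat.land z LOW)))
        (Nat.beq (Nat.land u SQ) 0)) (Nat.beq (Nat.land z SQ) 0)) (Nat.ble (popc n z) N0)) p)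
      (elims n LOW SQ sh N0 R l)) (elims n LOW SQ sh N0 R r) := rfl

theorem k4e_ev_z (n : ℕ) (k : Type*) [Field k] : (P.z).ev n k = 0 := rfl

theorem k4e_ev_t (n : ℕ) (k : Type*) [Field k] (m x y : ℕ) (r : P) :
    (P.t m x y r).ev n k = monomial (expo n m) ((x : k) - (y : k)) + r.ev n k := rfl

/-! ### Digits -/

theorem k4e_and_self {x y : ℕ} (h : x &&& y = x) (hx : x ≠ 0) : y ≠ 0 := by
  rintro rfl
  rw [Nat.and_zero] at h
  exact hx h.symm

theorem k4e_dig_low (n v : ℕ) (hv : v < n) : dig (2 ^ 32 * rep 31 n) v = 31 := by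
  apply Nat.eq_of_testBit_eq
  intro t
  rw [dig_testBit]
  by_cases ht : t < 5
  · rw [mask_testBit' (by norm_num) n v t hv ht]
    simp [ht]
  · have h31 : Nat.testBit 31 t = false := by
      apply Nat.testBit_lt_two_pow
      have : 2 ^ 5 ≤ 2 ^ t := Nat.pow_le_pow_right (by norm_num) (by omega)
      omega
    rw [h31]
    simp [ht]

/-- The test of allowed terms. -/
theorem k4e_allowed (C : Cst) (hC : C.ok) {q A : ℕ}
    (h : Nat.beq (Nat.land (Nat.land q C.LOW) A) (Nat.land q C.LOW) = true) :
    ∀ v < C.n, dig q v ≠ 0 → dig A v ≠ 0 := by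
  intro v hv hq
  have h1 : (q &&& C.LOW) &&& A = q &&& C.LOW := Nat.eq_of_beq_eq_true h
  obtain ⟨_, _, _, hL, _⟩ := hC
  have h2 := congrArg (fun z => dig z v) h1
  simp only [dig_and] at h2
  rw [hL, k4e_dig_low C.n v hv, and31 (dig_lt _ _)] at h2
  exact k4e_and_self h2 hq

theorem k4e_dig_pow {s v : ℕ} (hv : v ≠ s) : dig (2 ^ (32 + 5 * s)) v = 0 := by
  apply Nat.eq_of_testBit_eq
  intro t
  rw [dig_testBit, Nat.testBit_two_pow, Nat.zero_testBit]
  by_cases ht : t < 5
  · have e1 : ¬ (32 + 5 * s = 32 + 5 * v + t) := by omega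
    simp [e1]
  · simp [ht]

theorem k4e_dig_shift {s v : ℕ} (h : dig (Nat.shiftLeft 31 (32 + 5 * s)) v ≠ 0) : v = s := by
  by_contra hv
  apply h
  apply Nat.eq_of_testBit_eq
  intro t
  have e0 : Nat.shiftLeft 31 (32 + 5 * s) = 31 <<< (32 + 5 * s) := rfl
  rw [dig_testBit, e0, Nat.testBit_shiftLeft, Nat.zero_testBit]
  by_cases ht : t < 5
  · by_cases h1 : 32 + 5 * s ≤ 32 + 5 * v + t
    · have h31 : Nat.testBit 31 (32 + 5 * v + t - (32 + 5 * s)) = false := by
        apply Nat.testBit_lt_two_pow
        have : 2 ^ 5 ≤ 2 ^ (32 + 5 * v + t - (32 + 5 * s)) :=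
          Nat.pow_le_pow_right (by norm_num) (by omega)
        have e5 : (2 : ℕ) ^ 5 = 32 := by norm_num
        omega
      rw [h31]
      simp
    · simp [h1]
  · simp [ht]

theorem k4e_xor {k s : ℕ} (h : k.testBit s = true) : k - 2 ^ s = k ^^^ 2 ^ s := by
  have h0 : (k ^^^ 2 ^ s) &&& 2 ^ s = 0 := by
    apply Nat.eq_of_testBit_eq
    intro i
    rw [Nat.testBit_and, Nat.testBit_xor, Nat.testBit_two_pow, Nat.zero_testBit]
    by_cases hi : s = i
    · subst hi
      rw [h]
      simp
    · simp [hi]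
  have h1 : (k ^^^ 2 ^ s) ||| 2 ^ s = k := by
    apply Nat.eq_of_testBit_eq
    intro i
    rw [Nat.testBit_or, Nat.testBit_xor, Nat.testBit_two_pow]
    by_cases hi : s = i
    · subst hi
      rw [h]
      simp
    · simp [hi]
  have h2 := add_eq_or_of_and _ _ h0
  rw [h1] at h2
  omega

theorem k4e_digit {k x : ℕ} (h : Nat.beq (Nat.land (Nat.shiftRight k (32 + 5 * x)) 31) 1 = true) :
    dig k x = 1 := by
  have h1 : (k >>> (32 + 5 * x)) &&& 31 = 1 := Nat.eq_of_beq_eq_true h
  have e : (31 : ℕ) = 2 ^ 5 - 1 := by norm_num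
  rw [e, Nat.and_two_pow_sub_one_eq_mod, Nat.shiftRight_eq_div_pow] at h1
  unfold dig
  rw [Nat.div_div_eq_div_mul]
  have e2 : 2 ^ 32 * 32 ^ x = 2 ^ (32 + 5 * x) := by
    rw [pow_add, pow_mul]; norm_num
  rw [e2]
  exact h1

theorem k4e_sub_dig {k x : ℕ} (h : dig k x = 1) (v : ℕ) :
    dig (k - 2 ^ (32 + 5 * x)) v = if v = x then 0 else dig k v := by
  have hb : ∀ t < 5, k.testBit (32 + 5 * x + t) = Nat.testBit 1 t := by
    intro t ht
    have h1 := congrArg (fun z => Nat.testBit z t) h
    simp only [dig_testBit] at h1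
    simpa [ht] using h1
  have h0 : k.testBit (32 + 5 * x) = true := by
    have := hb 0 (by norm_num)
    simpa using this
  rw [k4e_xor h0]
  apply Nat.eq_of_testBit_eq
  intro t
  rw [dig_testBit, Nat.testBit_xor, Nat.testBit_two_pow]
  by_cases ht : t < 5
  · by_cases hv : v = x
    · subst hv
      rw [if_pos rfl, Nat.zero_testBit, hb t ht]
      by_cases ht0 : t = 0
      · subst ht0; simp
      · have e1 : ¬ (32 + 5 * v = 32 + 5 * v + t) := by omega
        have e2 : Nat.testBit 1 t = false := by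
          apply Nat.testBit_lt_two_pow
          have : 2 ^ 1 ≤ 2 ^ t := Nat.pow_le_pow_right (by norm_num) (by omega)
          omega
        rw [e2]
        simp [ht0]
    · rw [if_neg hv, dig_testBit]
      have e1 : ¬ (32 + 5 * x = 32 + 5 * v + t) := by omega
      simp [e1, ht]
  · by_cases hv : v = x
    · rw [if_pos hv]; simp [ht]
    · rw [if_neg hv, dig_testBit]; simp [ht]

theorem k4e_expo {n k x : ℕ} (hx : x < n) (h : dig k x = 1) :
    expo n k = expo n (k - 2 ^ (32 + 5 * x)) + Finsupp.single ⟨x, hx⟩ 1 := by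
  ext v
  rw [Finsupp.add_apply, expo_apply, expo_apply, k4e_sub_dig h]
  by_cases hv : (v : ℕ) = x
  · have : v = ⟨x, hx⟩ := Fin.ext hv
    subst this
    rw [if_pos rfl, Finsupp.single_eq_same]
    exact h
  · have hv' : (⟨x, hx⟩ : Fin n) ≠ v := fun e => hv (by rw [← e])
    rw [if_neg hv, Finsupp.single_eq_of_ne' hv', add_zero]

/-! ### One step -/

/-- The set of allowed variables. -/
def k4e_S (n A : ℕ) : Set (Fin n) := {v | dig A v ≠ 0}

theorem k4e_mono_mem (C : Cst) (hC : C.ok) {q A : ℕ} (k : Type*) [Field k] (c : k)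
    (h : Nat.beq (Nat.land (Nat.land q C.LOW) A) (Nat.land q C.LOW) = true) :
    (monomial (expo C.n q) c : MvPolynomial (Fin C.n) k) ∈ supported k (k4e_S C.n A) := by
  by_cases hc : c = 0
  · rw [hc, monomial_zero]; exact Subalgebra.zero_mem _
  rw [mem_supported, vars_monomial hc]
  intro v hv
  have h1 : v ∈ (expo C.n q).support := hv
  rw [Finsupp.mem_support_iff, expo_apply] at h1
  exact k4e_allowed C hC h v v.2 h1

theorem k4e_go_true (C : Cst) (hC : C.ok) {A AU s : ℕ} (k : Type*) [Field k] (p : P)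
    (h : elimGo C.LOW A AU s p true = true) :
    p.ev C.n k ∈ supported k (k4e_S C.n A) := by
  induction p with
  | z => rw [k4e_ev_z]; exact Subalgebra.zero_mem _
  | t m x y r ih =>
    rw [k4e_go_t] at h
    cases hb : Nat.beq (Nat.land (Nat.land m C.LOW) A) (Nat.land m C.LOW)
    · rw [hb] at h
      exact absurd h (by simp)
    · rw [hb] at h
      rw [k4e_ev_t]
      exact Subalgebra.add_mem _ (k4e_mono_mem C hC k _ hb) (ih h)

theorem k4e_go_false (C : Cst) (hC : C.ok) {A U x : ℕ} (hx : x < C.n) {k : Type*} [Field k]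
    (h2 : (2 : k) ≠ 0) (p : P)
    (h : elimGo C.LOW A (Nat.land A U) (32 + 5 * x) p false = true) :
    ∃ (M : Fin C.n →₀ ℕ) (c : k), c ≠ 0 ∧ (∀ u ∈ M.support, dig U u ≠ 0 ∧ dig A u ≠ 0) ∧
      ∃ R ∈ supported k (k4e_S C.n A), p.ev C.n k = monomial M c * X ⟨x, hx⟩ + R := by
  induction p with
  | z => rw [k4e_go_z] at h; exact absurd h (by simp)
  | t m a b r ih =>
    rw [k4e_go_t] at h
    cases hb : Nat.beq (Nat.land (Nat.land m C.LOW) A) (Nat.land m C.LOW)
    · rw [hb] at h
      have h : (Bool.rec (motive := fun _ => Bool) false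
        (Bool.rec (motive := fun _ => Bool) false
          (Bool.rec (motive := fun _ => Bool) false
            (elimGo C.LOW A (Nat.land A U) (32 + 5 * x) r true)
            (Nat.beq (Nat.land (Nat.land (Nat.sub m (Nat.shiftLeft 1 (32 + 5 * x))) C.LOW)
              (Nat.land A U)) (Nat.land (Nat.sub m (Nat.shiftLeft 1 (32 + 5 * x))) C.LOW)))
          (Nat.beq (Nat.land (Nat.shiftRight m (32 + 5 * x)) 31) 1)) (coefOK a b) : Bool)
            = true := h
      obtain ⟨hc, h⟩ := k2_brec_false h
      obtain ⟨hd, h⟩ := k2_brec_false h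
      obtain ⟨hm, h⟩ := k2_brec_false h
      have hdig := k4e_digit hd
      have hpow : Nat.sub m (Nat.shiftLeft 1 (32 + 5 * x)) = m - 2 ^ (32 + 5 * x) := by
        have : Nat.shiftLeft 1 (32 + 5 * x) = 1 <<< (32 + 5 * x) := rfl
        rw [this, Nat.one_shiftLeft]
        rfl
      rw [hpow] at hm
      refine ⟨expo C.n (m - 2 ^ (32 + 5 * x)), (a : k) - (b : k), coefOK_sound hc h2, ?_,
        r.ev C.n k, k4e_go_true C hC k r h, ?_⟩
      · intro u hu
        rw [Finsupp.mem_support_iff, expo_apply] at hu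
        have h3 := k4e_allowed C hC hm u u.2 hu
        have h4 : dig (A &&& U) u ≠ 0 := h3
        rw [dig_and] at h4
        constructor
        · intro h5; rw [h5, Nat.and_zero] at h4; exact h4 rfl
        · intro h5; rw [h5, Nat.zero_and] at h4; exact h4 rfl
      · rw [k4e_ev_t, k4e_expo hx hdig, X, monomial_mul, mul_one]
    · rw [hb] at h
      obtain ⟨M, c, hc, hM, R, hR, he⟩ := ih h
      refine ⟨M, c, hc, hM, monomial (expo C.n m) ((a : k) - (b : k)) + R,
        Subalgebra.add_mem _ (k4e_mono_mem C hC k _ hb) hR, ?_⟩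
      rw [k4e_ev_t, he]
      ring

/-! ### The list of steps -/

theorem k4e_list (C : Cst) (hC : C.ok) (R : Tr) (U : ℕ) {k : Type*} [Field k] (h2 : (2 : k) ≠ 0)
    (Q : Ideal (MvPolynomial (Fin C.n) k)) (hR : TAll (fun _ _ p => p.ev C.n k ∈ Q) R)
    (steps : P) : ∀ A, elimL C.LOW C.sh R U steps A = true →
      ∃ l : List (Fin C.n), (∀ v : Fin C.n, dig A v ≠ 0 ∨ v ∈ l) ∧
        ∀ i (hi : i < l.length), ∃ (M : Fin C.n →₀ ℕ) (c : k), c ≠ 0 ∧
          (∀ u ∈ M.support, dig U u ≠ 0 ∧ (dig A u ≠ 0 ∨ u ∈ l.take i)) ∧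
          ∃ R' ∈ supported k (k4e_S C.n A ∪ {v | v ∈ l.take i}),
            monomial M c * X l[i] + R' ∈ Q := by
  induction steps with
  | z =>
    intro A h
    rw [k4e_L_z] at h
    have hA : A = C.LOW := Nat.eq_of_beq_eq_true h
    refine ⟨[], ?_, ?_⟩
    · intro v
      left
      obtain ⟨_, _, _, hL, _⟩ := hC
      rw [hA, hL, k4e_dig_low C.n v v.2]
      norm_num
    · intro i hi
      exact absurd hi (by simp)
  | t st a b r ih =>
    intro A h
    rw [k4e_L_t] at h
    obtain ⟨hs, h⟩ := k2_brec_false h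
    have hs := Nat.le_of_ble_eq_true hs
    set x := Nat.land st 255 with hxdef
    have hs' : Nat.succ (32 + 5 * x) ≤ C.sh := hs
    have hx : x < C.n := by
      obtain ⟨_, hsh, _, _, _⟩ := hC
      rw [hsh] at hs'
      omega
    cases hl : look R (Nat.shiftRight st 8) with
    | none => rw [hl] at h; exact absurd h (by simp)
    | some key p =>
      rw [hl] at h
      have h : (Bool.rec (motive := fun _ => Bool) false
            (elimL C.LOW C.sh R U r (Nat.lor A (Nat.shiftLeft 31 (32 + 5 * x))))
          (elimGo C.LOW A (Nat.land A U) (32 + 5 * x) p false) : Bool) = true := h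
      obtain ⟨hgo, h⟩ := k2_brec_false h
      obtain ⟨l, hl1, hl2⟩ := ih _ h
      have hor : ∀ v : Fin C.n, dig (Nat.lor A (Nat.shiftLeft 31 (32 + 5 * x))) v ≠ 0 →
          dig A v ≠ 0 ∨ v = ⟨x, hx⟩ := by
        intro v hv
        have e : Nat.lor A (Nat.shiftLeft 31 (32 + 5 * x))
          = A ||| Nat.shiftLeft 31 (32 + 5 * x) := rfl
        rw [e, dig_or] at hv
        by_cases h0 : dig A v = 0
        · right
          rw [h0, Nat.zero_or] at hv
          exact Fin.ext (k4e_dig_shift hv)
        · exact Or.inl h0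
      obtain ⟨M0, c0, hc0, hM0, R0, hR0, he0⟩ := k4e_go_false C hC hx h2 p hgo
      refine ⟨⟨x, hx⟩ :: l, ?_, ?_⟩
      · intro v
        rcases hl1 v with h1 | h1
        · rcases hor v h1 with h3 | h3
          · exact Or.inl h3
          · right; rw [h3]; exact List.mem_cons_self
        · right; exact List.mem_cons_of_mem _ h1
      · intro i hi
        cases i with
        | zero =>
          refine ⟨M0, c0, hc0, fun u hu => ⟨(hM0 u hu).1, Or.inl (hM0 u hu).2⟩, R0, ?_, ?_⟩
          · exact supported_mono Set.subset_union_left hR0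
          · have h9 : p.ev C.n k ∈ Q := hR _ _ _ hl
            rw [he0] at h9
            exact h9
        | succ i =>
          have hi' : i < l.length := by simpa using hi
          obtain ⟨M, c, hc, hM, R1, hR1, he⟩ := hl2 i hi'
          refine ⟨M, c, hc, ?_, R1, ?_, ?_⟩
          · intro u hu
            obtain ⟨h3, h4⟩ := hM u hu
            refine ⟨h3, ?_⟩
            rcases h4 with h4 | h4
            · rcases hor u h4 with h5 | h5
              · exact Or.inl h5
              · right; rw [List.take_succ_cons, h5]; exact List.mem_cons_self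
            · right; rw [List.take_succ_cons]; exact List.mem_cons_of_mem _ h4
          · refine supported_mono ?_ hR1
            rintro v (hv | hv)
            · rcases hor v hv with h5 | h5
              · exact Or.inl h5
              · right
                show v ∈ (_ :: l).take (i + 1)
                rw [List.take_succ_cons, h5]; exact List.mem_cons_self
            · right
              show v ∈ (_ :: l).take (i + 1)
              rw [List.take_succ_cons]; exact List.mem_cons_of_mem _ hv
          · exact he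

/-! ### The number of kept variables -/

theorem k4e_popc (z : ℕ) : ∀ n, (∀ v < n, dig z v ≤ 1) →
    popc n z = ∑ v ∈ Finset.range n, dig z v
  | 0, _ => rfl
  | (n + 1), h => by
    have ih := k4e_popc z n (fun v hv => h v (by omega))
    have h1 : popc (n + 1) z = popc n z + ((z >>> (32 + 5 * n)) &&& 1) := rfl
    have h2 : (z >>> (32 + 5 * n)) &&& 1 = dig z n := by
      have h3 := h n (by omega)
      unfold dig at h3 ⊢
      rw [Nat.div_div_eq_div_mul] at h3 ⊢
      have e2 : 2 ^ 32 * 32 ^ n = 2 ^ (32 + 5 * n) := by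
        rw [pow_add, pow_mul]; norm_num
      rw [e2] at h3 ⊢
      rw [Nat.and_one_is_mod, Nat.shiftRight_eq_div_pow]
      omega
    rw [Finset.sum_range_succ, ← ih, ← h2]
    exact h1

theorem k4e_card {n z : ℕ} (hz : ∀ v < n, dig z v ≤ 1) :
    ((Finset.univ : Finset (Fin n)).filter (fun v : Fin n => dig z v ≠ 0)).card ≤ popc n z := by
  rw [k4e_popc z n hz, Finset.sum_range, Finset.card_filter]
  refine Finset.sum_le_sum fun v _ => ?_
  split_ifs with h
  · omega
  · omega

theorem elims_sound (C : Cst) (hC : C.ok) (N0 : ℕ) (R Y : Tr)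
    (hY : elims C.n C.LOW C.SQ C.sh N0 R Y = true) {k : Type*} [Field k] (h2 : (2 : k) ≠ 0)
    (Q : Ideal (MvPolynomial (Fin C.n) k))
    (hR : TAll (fun _ _ p => p.ev C.n k ∈ Q ∧ p.All fun key => Good C.n key) R) :
    TAll (fun _ u _ => ∃ Z : Finset (Fin C.n), Z.card ≤ N0 ∧
      ∀ p : MvPolynomial (Fin C.n) k, ∃ t ∈ supported k (Z : Set (Fin C.n)),
        (∃ (b : MvPolynomial (Fin C.n) k) (M : Fin C.n →₀ ℕ), (∀ v ∈ M.support, dig u v ≠ 0) ∧
          t * b - monomial M 1 ∈ Q) ∧
        ∃ q ∈ supported k (Z : Set (Fin C.n)), t * p - q ∈ Q) Y := by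
  have hR' : TAll (fun _ _ p => p.ev C.n k ∈ Q) R := fun i key p h => (hR i key p h).1
  induction Y with
  | leaf =>
    intro i key p hp
    exact absurd hp (by rw [k2_look_leaf]; simp)
  | node l i0 u0 p0 r ihl ihr =>
    rw [k4e_elims_node] at hY
    obtain ⟨hr, hY⟩ := k2_brec_false hY
    obtain ⟨hl, hY⟩ := k2_brec_false hY
    intro i key p hp
    rw [k2_look_node] at hp
    cases h1 : Nat.ble i i0
    · rw [h1] at hp
      exact ihr hr i key p hp
    · rw [h1] at hp
      cases h3 : Nat.beq i0 i
      · rw [h3] at hp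
        exact ihl hl i key p hp
      · rw [h3] at hp
        have hp : En.some u0 p0 = En.some key p := hp
        injection hp with e1 e2
        subst e1
        subst e2
        cases p0 with
        | z => exact absurd hY (by simp)
        | t z a b steps =>
          have hY : (Bool.rec (motive := fun _ => Bool) false
            (Bool.rec (motive := fun _ => Bool) false
              (Bool.rec (motive := fun _ => Bool) false
              (elimL C.LOW C.sh R (Nat.mul 31 (Nat.land u0 C.LOW)) steps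
                (Nat.mul 31 (Nat.land z C.LOW)))
              (Nat.beq (Nat.land u0 C.SQ) 0)) (Nat.beq (Nat.land z C.SQ) 0))
              (Nat.ble (popc C.n z) N0) : Bool) = true := hY
          obtain ⟨hpc, hY⟩ := k2_brec_false hY
          obtain ⟨hz, hY⟩ := k2_brec_false hY
          obtain ⟨hu, hY⟩ := k2_brec_false hY
          have hz' := (squarefree_iff C hC z).1 (Nat.eq_of_beq_eq_true hz)
          have hu' := (squarefree_iff C hC u0).1 (Nat.eq_of_beq_eq_true hu)
          have hmask : ∀ U : ℕ, (∀ v < C.n, dig U v ≤ 1) → ∀ v < C.n,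
              dig (Nat.mul 31 (Nat.land U C.LOW)) v ≠ 0 → dig U v ≠ 0 := by
            intro U hU
            refine supp_sound C hC hU ?_
            have e : (Nat.mul 31 (Nat.land U C.LOW) &&& C.LOW) &&& Nat.mul 31 (Nat.land U C.LOW)
                = Nat.mul 31 (Nat.land U C.LOW) &&& C.LOW := by
              apply Nat.eq_of_testBit_eq
              intro i
              simp only [Nat.testBit_and]
              cases (Nat.mul 31 (Nat.land U C.LOW)).testBit i <;> simp
            have hbeq : ∀ a b : ℕ, a = b → Nat.beq a b = true := fun a b h => by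
              subst h; exact Nat.beq_refl a
            exact hbeq _ _ e
          obtain ⟨l, hl1, hl2⟩ := k4e_list C hC R _ h2 Q hR' steps _ hY
          refine ⟨Finset.univ.filter (fun v : Fin C.n => dig z v ≠ 0),
            (k4e_card hz').trans (Nat.le_of_ble_eq_true hpc), ?_⟩
          intro q
          have hA : ∀ v : Fin C.n, dig (Nat.mul 31 (Nat.land z C.LOW)) v ≠ 0 →
              v ∈ ((Finset.univ.filter (fun v : Fin C.n => dig z v ≠ 0) : Finset (Fin C.n)) :
                Set (Fin C.n)) := by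
            intro v hv
            rw [Finset.mem_coe, Finset.mem_filter]
            exact ⟨Finset.mem_univ _, hmask z hz' v v.2 hv⟩
          obtain ⟨t, ht, _, hb, P', hP', h5⟩ := elim_all' (fun _ => 0) Q (Q : Set _)
            (Ideal.span_eq Q).symm (fun g _ => ⟨0, fun e _ => by simp [wt]⟩)
            ((Finset.univ.filter (fun v : Fin C.n => dig z v ≠ 0) : Finset (Fin C.n)) :
                Set (Fin C.n)) {v | dig u0 v ≠ 0} l
            (fun v => (hl1 v).imp (hA v) id)
            (fun i hi => by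
              obtain ⟨M, c, hc, hM, R1, hR1, he⟩ := hl2 i hi
              refine ⟨M, c, hc, fun u hu1 => ⟨hmask u0 hu' u u.2 (hM u hu1).1,
                (hM u hu1).2.imp (hA u) id⟩, R1, supported_mono ?_ hR1, he⟩
              rintro v (hv | hv)
              · exact Or.inl (hA v hv)
              · exact Or.inr hv) q
          exact ⟨t, ht, hb, P', hP', h5⟩

end Pool.Agent.Helper97.Hilb8.K
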