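import Pool.Agent.Helper97.Hilb8.K.RawSem
import Pool.Agent.Helper97.Hilb8.K.Poly
import Pool.Agent.Helper97.Hilb8.K.Elims

/-!
Soundness of the kernel-evaluable certificates: the table of the commutators (module K7a).
-/

namespace Pool.Agent.Helper97.Hilb8.K

open MvPolynomial

/-! ### Module K7a: commutators -/

private theorem k7a_brec {b X : Bool} :
    (Bool.rec (motive := fun _ => Bool) false X b : Bool) = true ↔ b = true ∧ X = true := by
  cases b <;> simp

private theorem k7a_allN (f : ℕ → Bool) (n : ℕ) : allN f n = true ↔ ∀ i < n, f i = true := by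
  induction n with
  | zero => exact ⟨fun _ i hi => absurd hi (Nat.not_lt_zero i), fun _ => rfl⟩
  | succ n ih =>
    change (Bool.rec (motive := fun _ => Bool) false (allN f n) (f n) : Bool) = true ↔ _
    rw [k7a_brec, ih]
    constructor
    · rintro ⟨h1, h2⟩ i hi
      rcases Nat.lt_succ_iff_lt_or_eq.1 hi with h | rfl
      · exact h2 i h
      · exact h1
    · intro h
      exact ⟨h n (Nat.lt_succ_self n), fun i hi => h i (Nat.lt_succ_of_lt hi)⟩

private theorem k7a_look_node (l : Tr) (i k : ℕ) (p : P) (r : Tr) (j : ℕ) :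
    look (.node l i k p r) j =
      Bool.rec (look r j) (Bool.rec (look l j) (.some k p) (Nat.beq i j)) (Nat.ble j i) := rfl

private theorem k7a_look_cases {l : Tr} {i k : ℕ} {p : P} {r : Tr} {j key : ℕ} {q : P}
    (h : look (.node l i k p r) j = .some key q) :
    look r j = .some key q ∨ look l j = .some key q ∨ (i = j ∧ k = key ∧ p = q) := by
  rw [k7a_look_node] at h
  cases h1 : Nat.ble j i
  · rw [h1] at h
    exact Or.inl h
  · rw [h1] at h
    cases h2 : Nat.beq i j
    · rw [h2] at h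
      exact Or.inr (Or.inl h)
    · rw [h2] at h
      have h3 : En.some k p = En.some key q := h
      injection h3 with h4 h5
      exact Or.inr (Or.inr ⟨beq_iff.1 h2, h4, h5⟩)

/-- The keys of the variables. -/
private theorem k7a_vk (G LOW sh : ℕ) (VK : Tr) (h : vkOK G LOW sh VK = true) (v key : ℕ) (q : P)
    (hl : look VK v = .some key q) : 32 + 5 * v < sh ∧
      Nat.land key LOW = Nat.shiftLeft 1 (32 + 5 * v) ∧ Nat.land key G = 0 := by
  induction VK with
  | leaf => exact absurd hl (by intro h; exact En.noConfusion h)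
  | node l i k p r ihl ihr =>
    have h' : Bool.rec (motive := fun _ => Bool) false (Bool.rec (motive := fun _ => Bool) false
      (Bool.rec (motive := fun _ => Bool) false (Bool.rec (motive := fun _ => Bool) false
      (Nat.ble (Nat.succ (Nat.add 32 (Nat.mul 5 i))) sh)
      (Nat.beq (Nat.land k LOW) (Nat.shiftLeft 1 (Nat.add 32 (Nat.mul 5 i)))))
      (Nat.beq (Nat.land k G) 0)) (vkOK G LOW sh l)) (vkOK G LOW sh r) = true := h
    rw [k7a_brec, k7a_brec, k7a_brec, k7a_brec] at h'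
    obtain ⟨h1, h2, h3, h4, h5⟩ := h'
    rcases k7a_look_cases hl with h6 | h6 | ⟨rfl, rfl, rfl⟩
    · exact ihr h1 h6
    · exact ihl h2 h6
    · exact ⟨Nat.lt_of_succ_le (ble_iff.1 h5), beq_iff.1 h4, beq_iff.1 h3⟩

private theorem k7a_present (T : Tr) (N : ℕ) (h : present T N = true) (i : ℕ) (hi : i < N) :
    ∃ key q, look T i = .some key q := by
  induction N with
  | zero => exact absurd hi (Nat.not_lt_zero i)
  | succ N ih =>
    have h' : Bool.rec (motive := fun _ => Bool) false (present T N)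
      (En.rec (motive := fun _ => Bool) false (fun _ _ => true) (look T N)) = true := h
    rw [k7a_brec] at h'
    obtain ⟨h1, h2⟩ := h'
    rcases Nat.lt_succ_iff_lt_or_eq.1 hi with h3 | rfl
    · exact ih h2 h3
    · cases h4 : look T i with
      | none => rw [h4] at h1; exact absurd h1 (by simp)
      | some key q => exact ⟨key, q, rfl⟩

/-- The key of the variable `t`. -/
private theorem k7a_expo (C : Cst) (hC : C.ok) {t m : ℕ} (ht : t < C.n)
    (hm : Nat.land m C.LOW = Nat.shiftLeft 1 (32 + 5 * t)) :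
    expo C.n m = Finsupp.single ⟨t, ht⟩ 1 := by
  have hm1 : m &&& C.LOW = 2 ^ (32 + 5 * t) := by
    have h1 : m &&& C.LOW = Nat.shiftLeft 1 (32 + 5 * t) := hm
    rw [h1]
    have : Nat.shiftLeft 1 (32 + 5 * t) = 1 <<< (32 + 5 * t) := rfl
    rw [this, Nat.one_shiftLeft]
  have hd : ∀ v < C.n, dig m v = dig (2 ^ (32 + 5 * t)) v := by
    intro v hv
    have h2 := congrArg (fun z => dig z v) hm1
    obtain ⟨_, _, _, hL, _⟩ := hC
    simp only [dig_and] at h2
    rw [hL, k4e_dig_low C.n v hv, and31 (dig_lt _ _)] at h2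
    exact h2
  ext v
  rw [expo_apply, hd v v.2]
  by_cases hv : (v : ℕ) = t
  · have : v = ⟨t, ht⟩ := Fin.ext hv
    subst this
    rw [Finsupp.single_eq_same]
    unfold dig
    rw [Nat.div_div_eq_div_mul]
    have e2 : 2 ^ 32 * 32 ^ t = 2 ^ (32 + 5 * t) := by
      rw [pow_add, pow_mul]; norm_num
    show 2 ^ (32 + 5 * t) / (2 ^ 32 * 32 ^ t) % 32 = 1
    rw [e2, Nat.div_self (by positivity)]
  · have hv' : (⟨t, ht⟩ : Fin C.n) ≠ v := fun e => hv (by rw [← e])
    rw [k4e_dig_pow hv, Finsupp.single_eq_of_ne' hv']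

private theorem k7a_good_zero (n : ℕ) : Good n 0 :=
  ⟨by norm_num, fun v _ => by rw [dig_zero]; norm_num⟩

private theorem k7a_expo_zero (n : ℕ) : expo n 0 = 0 := by
  ext v
  rw [expo_apply, dig_zero]
  rfl

/-- The entries of the matrices. -/
private theorem k7a_ent (Ch : Chart) (sh G LOW SQ : ℕ) (hC : (Cst.mk (8 * Ch.nb) sh G LOW SQ).ok)
    (NX : L) (hNX : ∀ (i : Fin 4) (c : Fin 8), Ch.nxt i c = NX.get (8 * i + c))
    (VK : Tr) (hV : vkOK G LOW sh VK = true) (hV' : present VK (8 * Ch.nb) = true)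
    (k : Type*) [Field k] (x y : ℕ) (i : Fin 4) (r c : Fin 8) :
    (ent NX VK x y i r c).All (Good (8 * Ch.nb)) ∧
      (ent NX VK x y i r c).ev (8 * Ch.nb) k =
        MvPolynomial.C ((x : k) - (y : k)) * Ch.mat (Ch.var k) i r c := by
  have hb : NX.get (Nat.add (Nat.mul 8 i) c) = Ch.nxt i c := (hNX i c).symm
  have he : ent NX VK x y i r c = Bool.rec (motive := fun _ => P)
    (En.rec (motive := fun _ => P) .z (fun k _ => .t k x y .z)
      (look VK (8 * (Ch.nxt i c - 8) + r)))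
    (Bool.rec (motive := fun _ => P) .z (.t 0 x y .z) (Nat.beq (Ch.nxt i c) r))
      (Nat.ble (Nat.succ (Ch.nxt i c)) 8) := by
    rw [← hb]
    rfl
  rw [he]
  have hmat : Ch.mat (Ch.var k) i r c = if Ch.nxt i c < 8 then
      (if Ch.nxt i c = (r : ℕ) then 1 else 0)
      else Ch.var k (8 * (Ch.nxt i c - 8) + r) := rfl
  rw [hmat]
  by_cases h8 : Ch.nxt i c < 8
  · have h1 : Nat.ble (Nat.succ (Ch.nxt i c)) 8 = true := ble_iff.2 h8
    rw [h1, if_pos h8]
    by_cases hr : Ch.nxt i c = (r : ℕ)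
    · have h2 : Nat.beq (Ch.nxt i c) r = true := beq_iff.2 hr
      rw [h2, if_pos hr]
      refine ⟨⟨k7a_good_zero _, trivial⟩, ?_⟩
      change (P.t 0 x y .z).ev (8 * Ch.nb) k = _
      rw [ev_t, ev_z, k7a_expo_zero, add_zero, mul_one]
      rfl
    · have h2 : Nat.beq (Ch.nxt i c) r = false := by
        rw [Bool.eq_false_iff]
        exact fun h3 => hr (beq_iff.1 h3)
      rw [h2, if_neg hr]
      refine ⟨trivial, ?_⟩
      change (P.z).ev (8 * Ch.nb) k = _
      rw [ev_z, mul_zero]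
  · have h1 : Nat.ble (Nat.succ (Ch.nxt i c)) 8 = false := by
      rw [Bool.eq_false_iff]
      exact fun h3 => h8 (ble_iff.1 h3)
    rw [h1, if_neg h8]
    have hlt := Ch.nxt_lt i c
    have hr := r.2
    have hv : 8 * (Ch.nxt i c - 8) + (r : ℕ) < 8 * Ch.nb := by omega
    obtain ⟨key, q, hk⟩ := k7a_present VK _ hV' _ hv
    rw [hk]
    obtain ⟨_, h3, h4⟩ := k7a_vk G LOW sh VK hV _ key q hk
    refine ⟨⟨(good_iff _ hC key).1 h4, trivial⟩, ?_⟩
    change (P.t key x y .z).ev (8 * Ch.nb) k = _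
    have h5 := k7a_expo (Cst.mk (8 * Ch.nb) sh G LOW SQ) hC (t := 8 * (Ch.nxt i c - 8) + (r : ℕ))
      (m := key) hv h3
    have h6 : expo (8 * Ch.nb) key = Finsupp.single ⟨8 * (Ch.nxt i c - 8) + (r : ℕ), hv⟩ 1 := h5
    rw [ev_t, ev_z, h6, add_zero, Chart.var, dif_pos hv, MvPolynomial.C_mul_X_eq_monomial]

/-- The commutator, natural number version. -/
private theorem k7a_comm (Ch : Chart) (sh G LOW SQ : ℕ)
    (hC : (Cst.mk (8 * Ch.nb) sh G LOW SQ).ok)
    (NX : L) (hNX : ∀ (i : Fin 4) (c : Fin 8), Ch.nxt i c = NX.get (8 * i + c))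
    (VK : Tr) (hV : vkOK G LOW sh VK = true) (hV' : present VK (8 * Ch.nb) = true)
    (k : Type*) [Field k] (i j : Fin 4) (r c : Fin 8) (acc : P) :
    (commP NX VK i j r c acc).ev (8 * Ch.nb) k = acc.ev (8 * Ch.nb) k +
      (Ch.mat (Ch.var k) i * Ch.mat (Ch.var k) j - Ch.mat (Ch.var k) j * Ch.mat (Ch.var k) i) r c := by
  have key : ∀ m ≤ 8, (Nat.rec (motive := fun _ => P) acc (fun l ih =>
      mulAdd (ent NX VK 0 1 j r l) (ent NX VK 1 0 i l c)
        (mulAdd (ent NX VK 1 0 i r l) (ent NX VK 1 0 j l c) ih)) m).ev (8 * Ch.nb) k =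
      acc.ev (8 * Ch.nb) k + ∑ l ∈ Finset.range m, (if h : l < 8 then
        Ch.mat (Ch.var k) i r ⟨l, h⟩ * Ch.mat (Ch.var k) j ⟨l, h⟩ c -
          Ch.mat (Ch.var k) j r ⟨l, h⟩ * Ch.mat (Ch.var k) i ⟨l, h⟩ c else 0) := by
    intro m
    induction m with
    | zero =>
      intro _
      rw [Finset.range_zero, Finset.sum_empty, add_zero]
      rfl
    | succ m ih =>
      intro hm
      have hm8 : m < 8 := hm
      have ih' := ih (by omega)
      rw [Finset.sum_range_succ, dif_pos hm8]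
      have e1 := k7a_ent Ch sh G LOW SQ hC NX hNX VK hV hV' k 0 1 j r ⟨m, hm8⟩
      have e2 := k7a_ent Ch sh G LOW SQ hC NX hNX VK hV hV' k 1 0 i ⟨m, hm8⟩ c
      have e3 := k7a_ent Ch sh G LOW SQ hC NX hNX VK hV hV' k 1 0 i r ⟨m, hm8⟩
      have e4 := k7a_ent Ch sh G LOW SQ hC NX hNX VK hV hV' k 1 0 j ⟨m, hm8⟩ c
      change (mulAdd (ent NX VK 0 1 j r m) (ent NX VK 1 0 i m c)
        (mulAdd (ent NX VK 1 0 i r m) (ent NX VK 1 0 j m c) _)).ev (8 * Ch.nb) k = _
      rw [ev_mulAdd e1.1 e2.1, ev_mulAdd e3.1 e4.1, ih', e1.2, e2.2, e3.2, e4.2]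
      simp only [Nat.cast_zero, Nat.cast_one, sub_zero, zero_sub, map_neg, map_one, one_mul,
        neg_mul]
      ring
  have h8 := key 8 le_rfl
  change (Nat.rec (motive := fun _ => P) acc (fun l ih =>
      mulAdd (ent NX VK 0 1 j r l) (ent NX VK 1 0 i l c)
        (mulAdd (ent NX VK 1 0 i r l) (ent NX VK 1 0 j l c) ih)) 8).ev (8 * Ch.nb) k = _
  rw [h8, Finset.sum_range]
  congr 1
  rw [Matrix.sub_apply, Matrix.mul_apply, Matrix.mul_apply, ← Finset.sum_sub_distrib]
  refine Finset.sum_congr rfl fun l _ => ?_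
  rw [dif_pos l.2]

/-- Subtraction. -/
private theorem k7a_sub {n : ℕ} {k : Type*} [Field k] (p acc : P) :
    (addm 0 0 1 p acc).ev n k = acc.ev n k - p.ev n k := by
  induction p generalizing acc with
  | z => rw [addm_z, ev_z, sub_zero]
  | t m a b r ih =>
    rw [addm_t, ev_ins (E := - r.ev n k) (fun acc => by rw [ih acc]; ring), ev_t]
    have h1 : (((0 * a + 1 * b : ℕ) : k) - ((0 * b + 1 * a : ℕ) : k)) = - ((a : k) - (b : k)) := by
      push_cast
      ring
    rw [h1, Nat.add_zero, map_neg]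
    ring

private theorem k7a_commOK (NX : L) (VK CT : Tr) (h : commOK NX VK CT = true) (x key : ℕ) (q : P)
    (hl : look CT x = .some key q) :
    isZero (commP NX VK (Nat.shiftRight x 9) (Nat.land (Nat.shiftRight x 6) 7)
      (Nat.land (Nat.shiftRight x 3) 7) (Nat.land x 7) (addm 0 0 1 q .z)) = true ∧
    Nat.land (Nat.shiftRight x 6) 7 < 4 ∧ x < 2048 := by
  induction CT with
  | leaf => exact absurd hl (by intro h; exact En.noConfusion h)
  | node l i k p r ihl ihr =>
    have h' : Bool.rec (motive := fun _ => Bool) false (Bool.rec (motive := fun _ => Bool) false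
      (Bool.rec (motive := fun _ => Bool) false (Bool.rec (motive := fun _ => Bool) false
      (isZero (commP NX VK (Nat.shiftRight i 9) (Nat.land (Nat.shiftRight i 6) 7)
        (Nat.land (Nat.shiftRight i 3) 7) (Nat.land i 7) (addm 0 0 1 p .z)))
      (Nat.ble (Nat.succ (Nat.land (Nat.shiftRight i 6) 7)) 4))
      (Nat.ble (Nat.succ i) 2048)) (commOK NX VK l)) (commOK NX VK r) = true := h
    rw [k7a_brec, k7a_brec, k7a_brec, k7a_brec] at h'
    obtain ⟨h1, h2, h3, h4, h5⟩ := h'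
    rcases k7a_look_cases hl with h6 | h6 | ⟨rfl, rfl, rfl⟩
    · exact ihr h1 h6
    · exact ihl h2 h6
    · exact ⟨h5, Nat.lt_of_succ_le (ble_iff.1 h4), Nat.lt_of_succ_le (ble_iff.1 h3)⟩

private theorem k7a_land7 (x : ℕ) : Nat.land x 7 = x % 8 := by
  have h : (7 : ℕ) = 2 ^ 3 - 1 := by norm_num
  change x &&& 7 = _
  rw [h, Nat.and_two_pow_sub_one_eq_mod]

private theorem k7a_shr (x s : ℕ) : Nat.shiftRight x s = x / 2 ^ s := by
  change x >>> s = _
  rw [Nat.shiftRight_eq_div_pow]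

theorem comm_span (Ch : Chart) (sh G LOW SQ : ℕ) (hC : (Cst.mk (8 * Ch.nb) sh G LOW SQ).ok)
    (NX : L) (hNX : ∀ (i : Fin 4) (c : Fin 8), Ch.nxt i c = NX.get (8 * i + c))
    (VK CT : Tr) (hV : vkOK G LOW sh VK = true) (hV' : present VK (8 * Ch.nb) = true)
    (hCT : commOK NX VK CT = true) (hAll : commAll NX VK CT = true) (k : Type*) [Field k] :
    Ch.ideal k = tabI (8 * Ch.nb) k CT := by
  have hcomm := k7a_comm Ch sh G LOW SQ hC NX hNX VK hV hV' k
  -- every entry is a commutator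
  have hent : ∀ (x key : ℕ) (q : P), look CT x = .some key q →
      ∃ (i j : Fin 4) (r c : Fin 8), (i : ℕ) = x / 512 ∧ (j : ℕ) = x / 64 % 8 ∧
        (r : ℕ) = x / 8 % 8 ∧ (c : ℕ) = x % 8 ∧ q.ev (8 * Ch.nb) k =
        (Ch.mat (Ch.var k) i * Ch.mat (Ch.var k) j -
          Ch.mat (Ch.var k) j * Ch.mat (Ch.var k) i) r c := by
    intro x key q hl
    obtain ⟨h1, h2, h3⟩ := k7a_commOK NX VK CT hCT x key q hl
    rw [k7a_land7, k7a_land7, k7a_land7, k7a_shr, k7a_shr, k7a_shr] at h1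
    rw [k7a_land7, k7a_shr] at h2
    norm_num at h1 h2
    have h4 : x / 512 < 4 := by omega
    have h5 : x / 8 % 8 < 8 := by omega
    have h6 : x % 8 < 8 := by omega
    refine ⟨⟨x / 512, h4⟩, ⟨x / 64 % 8, h2⟩, ⟨x / 8 % 8, h5⟩, ⟨x % 8, h6⟩, rfl, rfl, rfl, rfl, ?_⟩
    have h7 := ev_of_isZero (n := 8 * Ch.nb) (R := k) h1
    have h8 := hcomm ⟨x / 512, h4⟩ ⟨x / 64 % 8, h2⟩ ⟨x / 8 % 8, h5⟩ ⟨x % 8, h6⟩ (addm 0 0 1 q .z)
    rw [k7a_sub, ev_z] at h8
    have h9 := h8.symm.trans h7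
    rw [zero_sub] at h9
    exact (neg_add_eq_zero.1 h9)
  apply le_antisymm
  · unfold Chart.ideal
    rw [Ideal.span_le]
    -- the case i < j
    have hlt : ∀ (i j : Fin 4) (r c : Fin 8), i < j →
        (Ch.mat (Ch.var k) i * Ch.mat (Ch.var k) j -
          Ch.mat (Ch.var k) j * Ch.mat (Ch.var k) i) r c ∈ tabI (8 * Ch.nb) k CT := by
      intro i j r c hij
      have h1 := (k7a_allN _ 4).1 hAll j j.2
      have h2 := (k7a_allN _ _).1 h1 i hij
      have h3 := (k7a_allN _ _).1 h2 r r.2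
      have h4 := (k7a_allN _ _).1 h3 c c.2
      have hx : Nat.add (Nat.add (Nat.add (Nat.mul 512 i) (Nat.mul 64 j)) (Nat.mul 8 r)) c =
        512 * (i : ℕ) + 64 * (j : ℕ) + 8 * (r : ℕ) + (c : ℕ) := rfl
      have h5 : (En.rec (motive := fun _ => Bool) (isZero (commP NX VK i j r c .z))
        (fun _ _ => true)
        (look CT (512 * (i : ℕ) + 64 * (j : ℕ) + 8 * (r : ℕ) + (c : ℕ))) : Bool) = true := h4
      cases h6 : look CT (512 * (i : ℕ) + 64 * (j : ℕ) + 8 * (r : ℕ) + (c : ℕ)) with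
      | none =>
        rw [h6] at h5
        have h7 := ev_of_isZero (n := 8 * Ch.nb) (R := k) h5
        rw [hcomm, ev_z, zero_add] at h7
        rw [h7]
        exact Ideal.zero_mem _
      | some key q =>
        obtain ⟨i', j', r', c', e1, e2, e3, e4, e5⟩ := hent _ key q h6
        have hi := i.2
        have hj := j.2
        have hr := r.2
        have hc := c.2
        have f1 : i' = i := Fin.ext (by omega)
        have f2 : j' = j := Fin.ext (by omega)
        have f3 : r' = r := Fin.ext (by omega)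
        have f4 : c' = c := Fin.ext (by omega)
        subst f1
        subst f2
        subst f3
        subst f4
        rw [← e5]
        exact Ideal.subset_span ⟨_, key, q, h6, rfl⟩
    rintro p ⟨i, j, r, c, rfl⟩
    rcases lt_trichotomy i j with h | h | h
    · exact hlt i j r c h
    · subst h
      rw [sub_self]
      exact Ideal.zero_mem _
    · have h1 := hlt j i r c h
      have h2 : (Ch.mat (Ch.var k) i * Ch.mat (Ch.var k) j -
          Ch.mat (Ch.var k) j * Ch.mat (Ch.var k) i) r c =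
          - (Ch.mat (Ch.var k) j * Ch.mat (Ch.var k) i -
          Ch.mat (Ch.var k) i * Ch.mat (Ch.var k) j) r c := by
        rw [Matrix.sub_apply, Matrix.sub_apply]
        ring
      rw [SetLike.mem_coe, h2]
      exact neg_mem h1
  · unfold tabI
    rw [Ideal.span_le]
    rintro p ⟨x, key, q, hl, rfl⟩
    obtain ⟨i, j, r, c, _, _, _, _, e5⟩ := hent x key q hl
    rw [SetLike.mem_coe, e5]
    exact Ideal.subset_span ⟨i, j, r, c, rfl⟩

end Pool.Agent.Helper97.Hilb8.K
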