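import Mathlib
import Pool.Agent.Helper97.Hilb8.GBDefs

/-!
# Kernel-evaluable sparse polynomials: definitions

All functions are written with recursors so that they can be evaluated in the kernel.
Monomials are natural numbers (keys): the lowest 32 bits hold an additive hash value (this avoids
collisions in the caches of the kernel), the exponent of the variable `v < n` is the following
digit number `v` in base 32, and the remaining upper part may hold an arbitrary number (used for
sorting).
-/

noncomputable section

namespace Pool.Agent.Helper97.Hilb8.K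

/-- Sparse polynomials: `t k x y r` is `(x - y) X^k + r`. -/
inductive P | z | t (k x y : Nat) (r : P)

/-- Search trees of monic polynomials: a node holds its number `i`, the leading key `k` and the
tail `p`, i.e. the polynomial `X^k + p`. -/
inductive Tr | leaf | node (l : Tr) (i k : Nat) (p : P) (r : Tr)

/-- The result of a search. -/
inductive En | none | some (k : Nat) (p : P)

/-- Lists of natural numbers. -/
inductive L | e | c (a : Nat) (l : L)

/-- Insert the term `(x - y) X^kk` and continue with `ih` (keys are expected to decrease). -/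
def ins (kk x y : Nat) (ih : P → P) (acc : P) : P :=
  P.rec (motive := fun _ => P) (.t kk x y (ih .z))
    (fun u a b acc' ih2 =>
      Bool.rec (motive := fun _ => P)
        (.t kk x y (ih (.t u a b acc')))
        (Bool.rec (motive := fun _ => P)
          (.t u a b ih2)
          (.t u (Nat.add a x) (Nat.add b y) (ih acc'))
          (Nat.beq kk u))
        (Nat.ble kk u)) acc

/-- `acc + (x - y) X^m p`. -/
def addm (m x y : Nat) (p : P) : P → P :=
  P.rec (motive := fun _ => P → P) (fun acc => acc)
    (fun k a b _ ih acc => ins (Nat.add k m) (Nat.add (Nat.mul x a) (Nat.mul y b))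
      (Nat.add (Nat.mul x b) (Nat.mul y a)) ih acc) p

/-- `acc + p q`. -/
def mulAdd (p q : P) : P → P :=
  P.rec (motive := fun _ => P → P) (fun acc => acc)
    (fun k x y _ ih acc => ih (addm k x y q acc)) p

/-- All coefficients are zero. -/
def isZero (p : P) : Bool := P.rec true (fun _ x y _ ih => Bool.rec false ih (Nat.beq x y)) p

/-- The empty polynomial. -/
def isNil (p : P) : Bool := P.rec true (fun _ _ _ _ _ => false) p

/-- Search. -/
def look (t : Tr) (j : Nat) : En :=
  Tr.rec (motive := fun _ => En) .none
    (fun _ i k p _ ihl ihr =>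
      Bool.rec ihr (Bool.rec ihl (.some k p) (Nat.beq i j)) (Nat.ble j i)) t

/-- Reduce `acc` to zero; the trace `tr` holds in base 512 the numbers (plus 1) of the reducers. -/
def red (G : Nat) (T : Tr) (fuel : Nat) : P → Nat → Bool :=
  Nat.rec (motive := fun _ => P → Nat → Bool) (fun acc _ => isNil acc)
    (fun _ ih acc tr => P.rec (motive := fun _ => Bool) true
      (fun k x y rest _ =>
        Bool.rec
          (Nat.rec false (fun i _ => En.rec false (fun L tail =>
            Bool.rec false
              (Bool.rec false (ih (addm (Nat.sub k L) y x tail rest) (Nat.shiftRight tr 9))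
                (Nat.beq (Nat.land (Nat.sub (Nat.add k G) L) G) G))
              (Nat.beq (Nat.land k G) 0)) (look T i)) (Nat.land tr 511))
          (ih rest tr)
          (Nat.beq x y)) acc) fuel

/-- Numerical constants: number of variables, `5 n + 32`, guard bits, bits of the exponents, bits
excluded for squarefree monomials. -/
structure Cst where
  n : Nat
  sh : Nat
  G : Nat
  LOW : Nat
  SQ : Nat

/-- `∑ c * 32 ^ v` for `v < n`. -/
def rep (c n : Nat) : Nat := Nat.rec 0 (fun v ih => Nat.add ih (Nat.mul c (Nat.pow 32 v))) n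

/-- The constants are correct. -/
def Cst.ok (C : Cst) : Prop :=
  0 < C.n ∧ C.sh = 5 * C.n + 32 ∧ C.G = 2 ^ 31 + 2 ^ 32 * rep 16 C.n ∧
    C.LOW = 2 ^ 32 * rep 31 C.n ∧ C.SQ = 2 ^ 32 * rep 30 C.n

/-- The S-pair of `X^Li + ti` and `X^Lj + tj` reduces to zero; `mi`, `mj` are the keys of the
cofactors. -/
def spairOK (G LOW : Nat) (T : Tr) (Li : Nat) (ti : P) (Lj : Nat) (tj : P) (g mi mj tr : Nat) :
    Bool :=
  Bool.rec false (Bool.rec false (Bool.rec false (Bool.rec false (Bool.rec false
      (red G T 100000 (addm mi 1 0 ti (addm mj 0 1 tj .z)) tr)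
    (Nat.beq (Nat.land (Nat.add Li mi) LOW) (Nat.land (Nat.lor Li Lj) LOW)))
    (Nat.beq (Nat.land mj G) 0)) (Nat.beq (Nat.land mi G) 0))
    (Nat.beq (Nat.add g mj) Li)) (Nat.beq (Nat.add g mi) Lj)

/-- The S-pair of `X^Li + ti` and `X^Lj + tj` reduces to zero. `c` holds the hash value (32 bits)
and the upper part (16 bits) of the gcd and the trace. -/
def pairOK (G LOW sh : Nat) (T : Tr) (Li : Nat) (ti : P) (Lj : Nat) (tj : P) (c : Nat) : Bool :=
  (fun g => spairOK G LOW T Li ti Lj tj g (Nat.sub Lj g) (Nat.sub Li g) (Nat.shiftRight c 48))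
  (Nat.add (Nat.add (Nat.land (Nat.land Li Lj) LOW) (Nat.land c 4294967295))
    (Nat.shiftLeft (Nat.land (Nat.shiftRight c 32) 65535) sh))

/-- The rank of a pair. -/
def rk (LOW a b La Lb : Nat) : Nat :=
  Nat.add (Nat.shiftLeft (Nat.land (Nat.lor La Lb) LOW) 20)
    (Bool.rec (Nat.add (Nat.shiftLeft a 10) b) (Nat.add (Nat.shiftLeft b 10) a) (Nat.ble a b))

/-- The chain criterion for the pair `(i, j)` with the polynomial number `l`. -/
def chainOK (LOW : Nat) (T : Tr) (i Li j Lj l : Nat) : Bool :=
  En.rec false (fun Ll _ =>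
    Bool.rec false
      (Bool.rec false
        (Nat.ble (Nat.succ (rk LOW l j Ll Lj)) (rk LOW i j Li Lj))
        (Nat.ble (Nat.succ (rk LOW i l Li Ll)) (rk LOW i j Li Lj)))
      (Nat.beq (Nat.land (Nat.lor (Nat.lor Li Lj) Ll) LOW) (Nat.land (Nat.lor Li Lj) LOW)))
    (look T l)

/-- All pairs `(i, j)` with `i < i0`. The digits of `codes` in base 512, starting from
`i = i0 - 1`: `0` coprime, `1` reduction with the next trace, `l + 2` chain criterion. -/
def row (G LOW sh : Nat) (T : Tr) (j Lj : Nat) (tj : P) (i0 : Nat) : Nat → L → Bool :=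
  Nat.rec (motive := fun _ => Nat → L → Bool) (fun _ _ => true)
    (fun i ih codes trs =>
      En.rec false (fun Li ti =>
        Nat.rec
          (Bool.rec false (ih (Nat.shiftRight codes 9) trs)
            (Nat.beq (Nat.land (Nat.land Li Lj) LOW) 0))
          (fun d _ => Nat.rec
            (L.rec false (fun c trs' _ => Bool.rec false (ih (Nat.shiftRight codes 9) trs')
              (pairOK G LOW sh T Li ti Lj tj c)) trs)
            (fun l _ => Bool.rec false (ih (Nat.shiftRight codes 9) trs)
              (chainOK LOW T i Li j Lj l)) d)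
          (Nat.land codes 511)) (look T i)) i0

/-- Data for the rows: `r j codes trs rest`. -/
inductive Rows | e | r (j codes : Nat) (trs : L) (rest : Rows)

/-- Check of the rows listed in `R`, which must be the rows `j0, j0 + 1, …` . The lowest 9 bits of
`codes` are not used. -/
def rows (G LOW sh : Nat) (T : Tr) (R : Rows) : Nat → Bool :=
  Rows.rec (motive := fun _ => Nat → Bool) (fun _ => true)
    (fun j codes trs _ ih j0 =>
      Bool.rec false
        (Bool.rec false (ih (Nat.succ j0))
          (En.rec false (fun Lj tj => row G LOW sh T j Lj tj j (Nat.shiftRight codes 9) trs)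
            (look T j)))
        (Nat.beq j j0)) R

/-- The number of rows. -/
def Rows.len (R : Rows) : Nat := Rows.rec 0 (fun _ _ _ _ ih => Nat.succ ih) R

/-- Weights: `c s a r` gives the weight `a` to the digit at the bit position `s`. -/
inductive W | e | c (s a : Nat) (r : W)

/-- The weight of a key. -/
def wtk (ws : W) (k : Nat) : Nat :=
  W.rec 0 (fun s a _ ih => Nat.add (Nat.mul a (Nat.land (Nat.shiftRight k s) 31)) ih) ws

/-- The bit positions are `32 + 5 v, 32 + 5 (v + 1), …, 32 + 5 (n - 1)`. -/
def posOK (n : Nat) (ws : W) : Nat → Bool :=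
  W.rec (motive := fun _ => Nat → Bool) (fun v => Nat.beq v n)
    (fun s _ _ ih v => Bool.rec false (ih (Nat.succ v)) (Nat.beq s (Nat.add 32 (Nat.mul 5 v)))) ws

/-- The weight of the variable number `v`. -/
def W.get (ws : W) : Nat → Nat :=
  W.rec (motive := fun _ => Nat → Nat) (fun _ => 0)
    (fun _ a _ ih v => Nat.rec a (fun v' _ => ih v') v) ws

/-- The length of a list. -/
def L.len (l : L) : Nat := L.rec 0 (fun _ _ ih => Nat.succ ih) l

/-- The entries of a list. -/
def L.get (l : L) : Nat → Nat :=
  L.rec (motive := fun _ => Nat → Nat) (fun _ => 0)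
    (fun a _ ih v => Nat.rec a (fun v' _ => ih v') v) l

/-- All terms have good keys of weight `< w`. -/
def tailOK (G : Nat) (ws : W) (w : Nat) (p : P) : Bool :=
  P.rec true (fun k _ _ _ ih => Bool.rec false (Bool.rec false ih
    (Nat.ble (Nat.succ (wtk ws k)) w)) (Nat.beq (Nat.land k G) 0)) p

/-- All nodes of the tree are well-formed. -/
def tabOK (G SQ N : Nat) (ws : W) (T : Tr) : Bool :=
  Tr.rec true (fun _ i k p _ ihl ihr =>
    Bool.rec false (Bool.rec false (Bool.rec false (Bool.rec false
      (Bool.rec false (tailOK G ws (wtk ws k) p) (Nat.beq (Nat.land k G) 0)) (Nat.beq (Nat.land k SQ) 0)) (Nat.ble (Nat.succ i) N)) ihl) ihr) T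

/-- The numbers `0, …, N - 1` occur in the tree. -/
def present (T : Tr) (N : Nat) : Bool :=
  Nat.rec true (fun i ih => Bool.rec false ih (En.rec false (fun _ _ => true) (look T i))) N

/-! ### Semantics -/

open MvPolynomial

/-- The exponent of the variable `v` in the key `k`. -/
def dig (k v : Nat) : Nat := k / 2 ^ 32 / 32 ^ v % 32

/-- The exponent vector of a key. -/
def expo (n k : Nat) : Fin n →₀ ℕ := Finsupp.equivFunOnFinite.symm fun v => dig k v

/-- The value of a polynomial. -/
def P.ev (n : Nat) (R : Type*) [CommRing R] (p : P) : MvPolynomial (Fin n) R :=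
  P.rec 0 (fun k x y _ ih => monomial (expo n k) ((x : R) - (y : R)) + ih) p

/-- All keys of `p` satisfy `A`. -/
def P.All (A : Nat → Prop) (p : P) : Prop := P.rec True (fun k _ _ _ ih => A k ∧ ih) p

/-- The key has digits `< 16` and hash value `< 2 ^ 31`. -/
def Good (n k : Nat) : Prop := k % 2 ^ 32 < 2 ^ 31 ∧ ∀ v < n, dig k v < 16

/-- The polynomial of a table entry. -/
def En.ev (n : Nat) (R : Type*) [CommRing R] (x : En) : MvPolynomial (Fin n) R :=
  En.rec 0 (fun k p => monomial (expo n k) 1 + p.ev n R) x

/-- The leading exponent of a table entry. -/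
def En.lead (n : Nat) (x : En) : Fin n →₀ ℕ := En.rec 0 (fun k _ => expo n k) x

end Pool.Agent.Helper97.Hilb8.K
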