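import Pool.Agent.Helper97.Hilb8.K.RuleDefs

/-!
# Kernel-evaluable checks: semantics of tables and atoms
-/

namespace Pool.Agent.Helper97.Hilb8.K

open MvPolynomial

/-- The valuation: `32 + 2 m` means that the monomial `m` lies in the prime ideal `P`, `33 + 2 m`
means that it is supported on `F`. -/
def atomT (n : ℕ) {k : Type*} [Field k] (M : Tr) (P : MvPolynomial (Fin n) k → Prop)
    (F : Set (Fin n)) (a : ℕ) : Prop :=
  if a % 2 = 0 then ∃ key q, look M (a / 2 - 16) = .some key q ∧ P (monomial (expo n key) 1)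
  else ∃ key q, look M (a / 2 - 16) = .some key q ∧ ∀ v : Fin n, dig key v ≠ 0 → v ∈ F

/-- Every entry of a table satisfies `A`. -/
def TAll (A : ℕ → ℕ → P → Prop) (T : Tr) : Prop := ∀ i key p, look T i = .some key p → A i key p

end Pool.Agent.Helper97.Hilb8.K
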