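import Pool.Agent.Helper97.Hilb8.K.PtsDefs
import Pool.Agent.Helper97.Hilb8.K.TAll
import Pool.Agent.Helper97.Hilb8.ChartDefs

/-!
# Semantics of the kernel-evaluable certificates: definitions
-/

noncomputable section

namespace Pool.Agent.Helper97.Hilb8.K

open MvPolynomial

/-- The ideal generated by the entries of a table. -/
def tabI (n : ℕ) (k : Type*) [Field k] (T : Tr) : Ideal (MvPolynomial (Fin n) k) :=
  Ideal.span {q | ∃ x key p, look T x = .some key p ∧ q = p.ev n k}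

/-- The substitution given by a list. -/
def V.hom (n n' : ℕ) (k : Type*) [Field k] (t : V) :
    MvPolynomial (Fin n) k →ₐ[k] MvPolynomial (Fin n') k :=
  aeval fun v : Fin n => (t.get v).ev n' k

/-- The initial ideal. -/
def inI {σ : Type*} {k : Type*} [Field k] (w : σ → ℕ) (I : Ideal (MvPolynomial σ k)) :
    Ideal (MvPolynomial σ k) := Ideal.span {t | ∃ f ∈ I, ∃ d, IsTop w f t d}

/-- All data of a chart. -/
structure Data where
  /-- constants for the raw variables (the number of raw variables is that of the chart) -/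
  sh : ℕ
  G : ℕ
  LOW : ℕ
  SQ : ℕ
  /-- successor table, keys of the variables, commutators, weights -/
  NX : L
  VK : Tr
  cT : Tr
  wr : W
  /-- constants for the kept variables, raw indices of the kept variables, substitution -/
  cK : Cst
  io : L
  VP : V
  /-- elimination list -/
  ve : RL
  /-- generators -/
  NE : ℕ
  gE : Tr
  /-- derived elements -/
  ND : ℕ
  gD : Tr
  /-- the polynomial `f`, its initial form, the same in the kept variables, the weight -/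
  f : P
  f0 : P
  f0k : P
  d0 : ℕ
  /-- `f` times the kept variable `xi` (key `xk`) lies in the ideal -/
  xi : ℕ
  xk : ℕ
  fcl : CL
  /-- elements derived with `f0k` -/
  ND2 : ℕ
  D2 : Tr
  /-- Groebner basis, weights -/
  N : ℕ
  tT : Tr
  wk : W
  /-- data for the primality -/
  tM : Tr
  tR : Tr
  tY : Tr
  DC : CT
  /-- the second component -/
  cD : Cst
  wD : W
  VT : V
  V0 : V
  jv : L
  tA : TL
  mD : ℕ
  /-- points -/
  pA : ℕ
  pB : ℕ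
  pMO : ℕ
  pS : ℕ
  pS2 : ℕ
  pWO : ℕ
  pG : ℕ
  sg0 : ℕ
  p0 : ℕ
  q0 : ℕ
  p02 : ℕ
  q02 : ℕ
  pT : PT
  zl : L
  zk : L

/-- The table of the generators and `f0k` (number 9999). -/
def Data.E2 (X : Data) : Tr := .node X.gE 9999 0 X.f0k .leaf

/-- The checks. -/
structure Data.OK (X : Data) (Ch : Chart) : Prop where
  hC : (Cst.mk (8 * Ch.nb) X.sh X.G X.LOW X.SQ).ok
  hNX : ∀ (i : Fin 4) (c : Fin 8), Ch.nxt i c = X.NX.get (8 * i + c)
  hV : vkOK X.G X.LOW X.sh X.VK = true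
  hV' : present X.VK (8 * Ch.nb) = true
  hCT : commOK X.NX X.VK X.cT = true
  hAll : commAll X.NX X.VK X.cT = true
  hwr : posOK (8 * Ch.nb) X.wr 0 = true
  hwT : wtT X.G X.sh X.wr X.cT = true
  hC' : X.cK.ok
  hVP : X.VP.posOK (8 * Ch.nb) 0 = true
  hVg : X.VP.good X.cK.G = true
  hio : keptOK X.cK.G X.cK.LOW (8 * Ch.nb) X.VP X.io 0 = true
  hlen : X.io.len = X.cK.n
  hdist : distinct X.io 0 = true
  hve : chkV X.G X.LOW X.sh X.wr X.cT X.cK.G X.VP X.ve (maskI X.io) = true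
  hE : goodT X.cK.G X.NE X.gE = true
  hR : ∀ i < X.NE, ∃ l i0, i0 ≤ i ∧ i < i0 + l.len ∧
    chkR X.G X.sh X.wr X.cT X.cK.G X.VP X.gE l i0 = true
  hD : goodT X.cK.G X.ND X.gD = true
  hJ : ∀ i < X.ND, ∃ l i0, i0 ≤ i ∧ i < i0 + l.len ∧ chkJ X.cK.G X.gE X.gD l i0 = true
  hf : topF X.G X.sh X.wr X.d0 X.f X.f0 = true
  hf0 : sP X.cK.G X.VP isZero X.f0 (addm 0 0 1 X.f0k .z) = true
  hf0k : goodP X.cK.G X.f0k = true
  hxi : X.xi < X.cK.n
  hxk : Nat.land X.xk X.G = 0 ∧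
    Nat.land X.xk X.LOW = Nat.shiftLeft 1 (Nat.add 32 (Nat.mul 5 (X.io.get X.xi)))
  hfc : comb X.G 0 X.cT 4096 isZero X.fcl (addm X.xk 0 1 X.f .z) = true
  hD2 : goodT X.cK.G X.ND2 X.D2 = true
  hJ2 : ∀ i < X.ND2, ∃ l i0, i0 ≤ i ∧ i < i0 + l.len ∧ chkJ X.cK.G X.E2 X.D2 l i0 = true
  hT2 : ∀ i < X.N, ∃ l i0, i0 ≤ i ∧ i < i0 + l.len ∧ chkT X.cK.G X.D2 X.ND2 X.tT l i0 = true
  hwk : posOK X.cK.n X.wk 0 = true
  hT : tabOK X.cK.G X.cK.SQ X.N X.wk X.tT = true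
  hN : present X.tT X.N = true
  hrows : ∀ i < X.N, ∃ R i0, i0 ≤ i ∧ i < i0 + R.len ∧
    rows X.cK.G X.cK.LOW X.cK.sh X.tT R i0 = true
  hM : msOK X.cK.G X.cK.SQ X.tM = true
  hRel : relsOK X.cK.G X.cK.sh X.wk X.tT X.tR = true
  hY : elims X.cK.n X.cK.LOW X.cK.SQ X.cK.sh 32 X.tR X.tY = true
  hDC : chkC (rule X.cK.G X.cK.LOW X.cK.sh X.tM X.tT X.tR X.tY) X.DC X.DC = true
  hlast : ∃ i w, lookC X.DC i = .some .e w
  hCD : X.cD.ok
  hwD : posOK X.cD.n X.wD 0 = true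
  hVT : X.VT.posOK (8 * Ch.nb) 0 = true
  hVTg : X.VT.good X.cD.G = true
  hV0 : X.V0.posOK (8 * Ch.nb) 0 = true
  hV0g : X.V0.good X.cD.G = true
  hz : zeroT X.cD.G X.VT X.cT = true
  htV : topV X.wD X.VT X.V0 X.wr = true
  hmD : ∀ v < X.cD.n, dig X.mD v = 0 ∨ dig X.mD v = 31
  hs : sP X.cD.G X.V0 (fun a => sumM X.cD.LOW X.mD a 0 0) X.f0 .z = true
  hjv : X.jv.len = X.cD.n
  hjb : ∀ i < X.cD.n, X.jv.get i < 8 * Ch.nb
  hJVp : (mkJV X.VP X.jv 0).posOK X.cD.n 0 = true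
  hJVg : (mkJV X.VP X.jv 0).good X.cK.G = true
  htA : X.tA.len = X.cK.n
  hA : chkA X.cK.G X.VP (mkJV X.VP X.jv 0) X.V0 X.io X.f0k X.gD X.ND X.tA 0 = true
  hMO : ∀ n < 8 + Ch.nb, ∀ i : Fin 4, Ch.mono n i = mo X.pMO n i
  hp1 : potOK X.pA X.pMO X.pS (fun c => c) X.p0 X.q0 X.pWO = true
  hp2 : optOK X.pA X.pB X.pMO X.pS X.pS2 (fun c => c) X.p0 X.q0 X.sg0 X.p02 X.q02 = true
  hp3 : potsOK X.pA X.pMO X.pS X.pWO X.pT X.wr 0 = true
  hp4 : optsOK X.pA X.pB X.pMO X.pS X.pS2 X.pT X.io = true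
  hp5 : indepOK X.pMO X.pG X.sg0 X.pT X.zl 0 = true
  hp6 : distinct X.zl 0 = true
  hp7 : zOK X.zl X.zk X.io X.cK.n = true

end Pool.Agent.Helper97.Hilb8.K
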