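import Pool.Agent.Helper97.Hilb8.K.RawSem
import Pool.Agent.Helper97.Hilb8.K.Poly
import Pool.Agent.Helper97.Hilb8.K.Keys

/-!
Soundness of the kernel-evaluable substitution.
-/

namespace Pool.Agent.Helper97.Hilb8.K

open MvPolynomial

private theorem sub_brec {b X : Bool} :
    (Bool.rec (motive := fun _ => Bool) false X b : Bool) = true ↔ b = true ∧ X = true := by
  cases b
  · exact ⟨fun h => absurd h (by simp), fun h => absurd h.1 (by simp)⟩
  · exact ⟨fun h => ⟨rfl, h⟩, fun h => h.2⟩

private theorem sub_goodP (C : Cst) (hC : C.ok) : ∀ p : P, goodP C.G p = true →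
    p.All (Good C.n) := by
  intro p
  induction p with
  | z => intro _; trivial
  | t k x y r ih =>
    intro h
    have h1 : (Bool.rec (motive := fun _ => Bool) false (goodP C.G r)
      (Nat.beq (Nat.land k C.G) 0) : Bool) = true := h
    rw [sub_brec] at h1
    exact ⟨(good_iff C hC k).1 (Nat.eq_of_beq_eq_true h1.1), ih h1.2⟩

private theorem good_zero (n : ℕ) : Good n 0 :=
  ⟨by norm_num, fun v _ => by rw [dig_zero]; norm_num⟩

private theorem All_mono {A B : ℕ → Prop} (h : ∀ k, A k → B k) : ∀ p : P, p.All A → p.All B := by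
  intro p
  induction p with
  | z => intro _; trivial
  | t k x y r ih => exact fun hp => ⟨h k hp.1, ih hp.2⟩

theorem good_get (C' : Cst) (hC' : C'.ok) (t : V) (hg : t.good C'.G = true) (v : ℕ) :
    (t.get v).All (Good C'.n) := by
  induction t generalizing v with
  | e => trivial
  | c s q r ih =>
    have h1 : (Bool.rec (motive := fun _ => Bool) false (r.good C'.G) (goodP C'.G q) : Bool)
        = true := hg
    rw [sub_brec] at h1
    cases v with
    | zero => exact sub_goodP C' hC' q h1.1
    | succ v => exact ih h1.2 v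

private theorem sM_sound (C C' : Cst) (hC' : C'.ok) {k : Type*} [Field k] (f : P → Bool)
    (key : ℕ) : ∀ (t : V) (v0 : ℕ), t.posOK C.n v0 = true → t.good C'.G = true →
    ∀ acc : P, acc.All (Good C'.n) → sM C'.G t f key acc = true →
      v0 ≤ C.n ∧ ∃ a : P, a.All (Good C'.n) ∧ a.ev C'.n k = acc.ev C'.n k *
        ∏ v ∈ Finset.Ico v0 C.n, (t.get (v - v0)).ev C'.n k ^ dig key v ∧ f a = true := by
  intro t
  induction t with
  | e =>
    intro v0 hp _ acc hacc h
    have h1 : v0 = C.n := beq_iff.1 hp
    subst h1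
    exact ⟨le_rfl, acc, hacc, by rw [Finset.Ico_self, Finset.prod_empty, mul_one], h⟩
  | c s q r ih =>
    intro v0 hp hg acc hacc h
    have hp1 : (Bool.rec (motive := fun _ => Bool) false (r.posOK C.n (Nat.succ v0))
      (Nat.beq s (Nat.add 32 (Nat.mul 5 v0))) : Bool) = true := hp
    have hg1 : (Bool.rec (motive := fun _ => Bool) false (r.good C'.G) (goodP C'.G q) : Bool)
        = true := hg
    rw [sub_brec] at hp1 hg1
    obtain ⟨hs, hp2⟩ := hp1
    obtain ⟨hq, hg2⟩ := hg1
    have hs' : s = 32 + 5 * v0 := beq_iff.1 hs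
    have hqg := sub_goodP C' hC' q hq
    have key1 : ∀ (d : ℕ) (acc : P), acc.All (Good C'.n) →
        (Nat.rec (motive := fun _ => P → Bool) (sM C'.G r f key)
          (fun _ ihd acc => Bool.rec (motive := fun _ => Bool) false (ihd (mulAdd q acc .z))
            (goodP C'.G (mulAdd q acc .z))) d acc : Bool) = true →
        ∃ acc' : P, acc'.All (Good C'.n) ∧ acc'.ev C'.n k = acc.ev C'.n k * q.ev C'.n k ^ d ∧
          sM C'.G r f key acc' = true := by
      intro d
      induction d with
      | zero =>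
        intro acc hacc h
        exact ⟨acc, hacc, by rw [pow_zero, mul_one], h⟩
      | succ d ihd =>
        intro acc hacc h
        have h1 : (Bool.rec (motive := fun _ => Bool) false
          ((Nat.rec (motive := fun _ => P → Bool) (sM C'.G r f key)
            (fun _ ihd acc => Bool.rec (motive := fun _ => Bool) false (ihd (mulAdd q acc .z))
              (goodP C'.G (mulAdd q acc .z))) d (mulAdd q acc .z) : Bool))
          (goodP C'.G (mulAdd q acc .z)) : Bool) = true := h
        rw [sub_brec] at h1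
        obtain ⟨acc', h2, h3, h4⟩ := ihd _ (sub_goodP C' hC' _ h1.1) h1.2
        refine ⟨acc', h2, ?_, h4⟩
        rw [h3, ev_mulAdd hqg hacc, ev_z, pow_succ]
        ring
    have h1 : (Nat.rec (motive := fun _ => P → Bool) (sM C'.G r f key)
          (fun _ ihd acc => Bool.rec (motive := fun _ => Bool) false (ihd (mulAdd q acc .z))
            (goodP C'.G (mulAdd q acc .z))) (Nat.land (Nat.shiftRight key s) 31) acc : Bool)
          = true := h
    rw [hs', dig_eq] at h1
    obtain ⟨acc', h2, h3, h4⟩ := key1 _ acc hacc h1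
    obtain ⟨h5, a, h6, h7, h8⟩ := ih (v0 + 1) hp2 hg2 acc' h2 h4
    refine ⟨by omega, a, h6, ?_, h8⟩
    rw [h7, h3, Finset.prod_eq_prod_Ico_succ_bot (by omega : v0 < C.n), mul_assoc]
    congr 1
    congr 1
    · rw [Nat.sub_self]
      rfl
    · refine Finset.prod_congr rfl fun v hv => ?_
      rw [Finset.mem_Ico] at hv
      have h9 : v - v0 = (v - (v0 + 1)) + 1 := by omega
      rw [h9]
      rfl

theorem sP_sound (C C' : Cst) (hC : C.ok) (hC' : C'.ok) {k : Type*} [Field k] (t : V)
    (ht : t.posOK C.n 0 = true) (hg : t.good C'.G = true) (f : P → Bool) (p acc : P)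
    (hacc : acc.All (Good C'.n)) (h : sP C'.G t f p acc = true) :
    ∃ a : P, a.All (Good C'.n) ∧ a.ev C'.n k = acc.ev C'.n k + t.hom C.n C'.n k (p.ev C.n k) ∧
      f a = true := by
  induction p generalizing acc with
  | z => exact ⟨acc, hacc, by rw [ev_z, map_zero, add_zero], h⟩
  | t key x y r ih =>
    have h1 : sM C'.G t (fun a => sP C'.G t f r (addm 0 1 0 a acc)) key (.t 0 x y .z) = true := h
    obtain ⟨-, a, h2, h3, h4⟩ := sM_sound C C' hC' (k := k) _ key t 0 ht hg (.t 0 x y .z)
      ⟨good_zero _, trivial⟩ h1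
    have h5 : (addm 0 1 0 a acc).All (Good C'.n) :=
      all_addm (All_mono (fun k hk => by simpa using hk) a h2) hacc
    obtain ⟨b, h6, h7, h8⟩ := ih _ h5 h4
    refine ⟨b, h6, ?_, h8⟩
    have h9 : expo C'.n 0 = 0 := by
      ext v
      rw [expo_apply, dig_zero]
      rfl
    have h10 : t.hom C.n C'.n k (monomial (expo C.n key) ((x : k) - (y : k))) =
        a.ev C'.n k := by
      rw [h3, ev_t, ev_z, h9, V.hom, aeval_monomial, add_zero]
      congr 1
      rw [Finsupp.prod_fintype _ _ fun i => pow_zero _, ← Finset.range_eq_Ico,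
        ← Fin.prod_univ_eq_prod_range
          (fun v => (t.get (v - 0)).ev C'.n k ^ dig key v) C.n]
      rfl
    rw [h7, ev_addm (good_zero _) h2, h9, ev_t, map_add, h10]
    have h11 : (monomial (0 : Fin C'.n →₀ ℕ) (((1 : ℕ) : k) - ((0 : ℕ) : k)) :
        MvPolynomial (Fin C'.n) k) = 1 := by
      rw [Nat.cast_one, Nat.cast_zero, sub_zero]
      rfl
    rw [h11]
    ring

end Pool.Agent.Helper97.Hilb8.K
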