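import Pool.Agent.Helper97.Hilb8.K.Comb
import Pool.Agent.Helper97.Hilb8.Top

/-!
Soundness of the kernel-evaluable checks: initial forms.
-/

namespace Pool.Agent.Helper97.Hilb8.K

open MvPolynomial

/-! ### Module K7d: initial forms -/

/-- Good keys with correct weight field. -/
def K7dA (C : Cst) (ws : W) (key : ℕ) : Prop :=
  Good C.n key ∧ key / 2 ^ C.sh = wt (fun v : Fin C.n => ws.get v) (expo C.n key)

theorem k7d_low (C : Cst) (hC : C.ok) {a : ℕ} (ha : Good C.n a) :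
    2 * (a % 2 ^ C.sh) < 2 ^ C.sh := by
  obtain ⟨-, hsh, -⟩ := hC
  have h1 := key_half (a / 2 ^ 32) C.n (fun w hw => ha.2 w hw)
  have h2 := ha.1
  have h3 : (2 : ℕ) ^ C.sh = 2 ^ 32 * 32 ^ C.n := by
    rw [hsh, add_comm, pow_add, pow_mul]
    norm_num
  rw [h3, Nat.mod_mul]
  have h4 : 2 ^ 32 * (2 * (a / 2 ^ 32 % 32 ^ C.n) + 1) ≤ 2 ^ 32 * 32 ^ C.n :=
    Nat.mul_le_mul_left _ h1
  omega

theorem k7d_div_add (C : Cst) (hC : C.ok) {a b : ℕ} (ha : Good C.n a) (hb : Good C.n b) :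
    (a + b) / 2 ^ C.sh = a / 2 ^ C.sh + b / 2 ^ C.sh := by
  have h1 := k7d_low C hC ha
  have h2 := k7d_low C hC hb
  rw [Nat.add_div (by positivity), if_neg (by omega), add_zero]

theorem k7d_wtT_node (G sh : ℕ) (ws : W) (l : Tr) (i k : ℕ) (p : P) (r : Tr) :
    wtT G sh ws (.node l i k p r) =
      Bool.rec false (Bool.rec false (relOK G sh ws p) (wtT G sh ws l)) (wtT G sh ws r) := rfl

theorem k7d_wtT (C : Cst) (hC : C.ok) (ws : W) (hw : posOK C.n ws 0 = true) (T : Tr)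
    (h : wtT C.G C.sh ws T = true) : TAll (fun _ _ p => p.All (K7dA C ws)) T := by
  induction T with
  | leaf => exact TAll_leaf _
  | node l i k p r ihl ihr =>
    rw [k7d_wtT_node] at h
    obtain ⟨h1, h⟩ := k4d_rec_iff.1 h
    obtain ⟨h2, h⟩ := k4d_rec_iff.1 h
    exact TAll_node _ l i k p r (k4d_all_of_relOK C hC ws hw p h) (ihl h2) (ihr h1)

theorem k7d_clW_c (sh : ℕ) (ws : W) (x y m i : ℕ) (l : CL) :
    clW sh ws (.c x y m i l) =
      Bool.rec false (clW sh ws l) (Nat.beq (wtk ws m) (Nat.shiftRight m sh)) := rfl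

theorem k7d_clW (sh : ℕ) (ws : W) (l : CL) (h : clW sh ws l = true) :
    l.All fun m => wtk ws m = m / 2 ^ sh := by
  induction l with
  | e => trivial
  | c x y m i l ih =>
    rw [k7d_clW_c] at h
    obtain ⟨h1, h⟩ := k4d_rec_iff.1 h
    refine ⟨?_, ih h⟩
    show wtk ws m = m / 2 ^ sh
    rw [beq_iff.1 h1]
    exact Nat.shiftRight_eq_div_pow m sh

theorem k7d_wtEq_t (sh d k x y : ℕ) (r : P) :
    wtEq sh d (.t k x y r) = Bool.rec false (wtEq sh d r) (Nat.beq (Nat.shiftRight k sh) d) := rfl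

theorem k7d_wtEq (C : Cst) (ws : W) (d : ℕ) (p : P) (hp : p.All (K7dA C ws))
    (h : wtEq C.sh d p = true) (k : Type*) [Field k] :
    ∀ e ∈ (p.ev C.n k).support, wt (fun v : Fin C.n => ws.get v) e = d := by
  induction p with
  | z =>
    intro e he
    rw [ev_z] at he
    simp at he
  | t key x y r ih =>
    rw [k7d_wtEq_t] at h
    rw [All_t] at hp
    obtain ⟨h1, h⟩ := k4d_rec_iff.1 h
    intro e he
    rw [ev_t] at he
    rcases Finset.mem_union.1 (support_add he) with he | he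
    · rw [Finset.mem_singleton.1 (support_monomial_subset he), ← hp.1.2, ← beq_iff.1 h1]
      exact (Nat.shiftRight_eq_div_pow key C.sh).symm
    · exact ih hp.2 h e he

theorem k7d_ltF_t (sh d k x y : ℕ) (r : P) :
    ltF sh d (.t k x y r) = Bool.rec false (ltF sh d r)
      (Bool.rec (Nat.ble (Nat.succ (Nat.shiftRight k sh)) d) true (Nat.beq x y)) := rfl

theorem k7d_ltF (C : Cst) (ws : W) (d : ℕ) (p : P) (hp : p.All (K7dA C ws))
    (h : ltF C.sh d p = true) (k : Type*) [Field k] :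
    ∀ e ∈ (p.ev C.n k).support, wt (fun v : Fin C.n => ws.get v) e < d := by
  induction p with
  | z =>
    intro e he
    rw [ev_z] at he
    simp at he
  | t key x y r ih =>
    rw [k7d_ltF_t] at h
    rw [All_t] at hp
    obtain ⟨h1, h⟩ := k4d_rec_iff.1 h
    intro e he
    rw [ev_t] at he
    cases hxy : Nat.beq x y with
    | true =>
      rw [beq_iff.1 hxy, sub_self, map_zero, zero_add] at he
      exact ih hp.2 h e he
    | false =>
      rw [hxy] at h1
      rcases Finset.mem_union.1 (support_add he) with he | he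
      · rw [Finset.mem_singleton.1 (support_monomial_subset he), ← hp.1.2]
        have h2 : Nat.succ (Nat.shiftRight key C.sh) ≤ d := ble_iff.1 h1
        have h3 : Nat.shiftRight key C.sh = key / 2 ^ C.sh := Nat.shiftRight_eq_div_pow key C.sh
        omega
      · exact ih hp.2 h e he

theorem k7d_all_mono {A B : ℕ → Prop} (hAB : ∀ t, A t → B t) {p : P} (hp : p.All A) :
    p.All B := by
  induction p with
  | z => trivial
  | t k x y r ih => exact ⟨hAB _ hp.1, ih hp.2⟩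

theorem topC_sound (C : Cst) (hC : C.ok) (ws : W) (hw : posOK C.n ws 0 = true) (CT : Tr)
    (hCT : wtT C.G C.sh ws CT = true) (d : ℕ) (l : CL) (p : P)
    (h : topC C.G C.sh ws CT d l p = true) (k : Type*) [Field k] :
    p.All (Good C.n) ∧ ∃ q ∈ tabI C.n k CT, IsTop (fun v : Fin C.n => ws.get v) q (p.ev C.n k) d := by
  change (Bool.rec false (Bool.rec false (Bool.rec false
    (comb C.G (Nat.shiftLeft d C.sh) CT 4096 isZero l (addm 0 0 1 p .z))
    (clW C.sh ws l)) (relOK C.G C.sh ws p)) (wtEq C.sh d p) : Bool) = true at h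
  obtain ⟨h1, h⟩ := k4d_rec_iff.1 h
  obtain ⟨h2, h⟩ := k4d_rec_iff.1 h
  obtain ⟨h3, h⟩ := k4d_rec_iff.1 h
  have hp : p.All (K7dA C ws) := k4d_all_of_relOK C hC ws hw p h2
  have hpg : p.All (Good C.n) := k7d_all_mono (fun _ h => h.1) hp
  refine ⟨hpg, ?_⟩
  obtain ⟨a, q, r, ha, hq, hev, hr⟩ := comb_gen C hC (tabI C.n k CT) (Nat.shiftLeft d C.sh) CT 4096
    (K7dA C ws) (fun m => wtk ws m = m / 2 ^ C.sh) (fun _ h => h.1)
    (fun i _ key q hlk => ⟨k7d_wtT C hC ws hw CT hCT i key q hlk,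
      Ideal.subset_span ⟨i, key, q, hlk, rfl⟩⟩) isZero l (k7d_clW C.sh ws l h3) _ h
  rw [ev_of_isZero ha, k7b_ev_addm0 0 1 p .z hpg, ev_z] at hev
  have hpq : p.ev C.n k = q - r := by
    have h5 : (MvPolynomial.C (((0 : ℕ) : k) - ((1 : ℕ) : k)) : MvPolynomial (Fin C.n) k) = -1 := by
      push_cast
      rw [zero_sub, map_neg, map_one]
    rw [h5] at hev
    linear_combination hev
  refine ⟨q, hq, k7d_wtEq C ws d p hp h1 k, fun e he => ?_⟩
  have hqr : q - p.ev C.n k = r := by rw [hpq]; ring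
  rw [hqr] at he
  obtain ⟨K1, m, hK, hm, hmB, rfl, hlt⟩ := hr e he
  have hcut : Nat.shiftLeft d C.sh = d * 2 ^ C.sh := Nat.shiftLeft_eq d C.sh
  rw [hcut] at hlt
  have h6 : (K1 + m) / 2 ^ C.sh < d := Nat.div_lt_of_lt_mul (by rwa [mul_comm])
  rw [k7d_div_add C hC hK.1 hm, hK.2, ← hmB, wtk_eq ws hw] at h6
  rw [expo_add hK.1 hm, TopAux.wt_add]
  exact h6

theorem topF_sound (C : Cst) (hC : C.ok) (ws : W) (hw : posOK C.n ws 0 = true) (d : ℕ) (f f0 : P)
    (h : topF C.G C.sh ws d f f0 = true) (k : Type*) [Field k] :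
    f.All (Good C.n) ∧ f0.All (Good C.n) ∧
      IsTop (fun v : Fin C.n => ws.get v) (f.ev C.n k) (f0.ev C.n k) d := by
  change (Bool.rec false (Bool.rec false (Bool.rec false (ltF C.sh d (addm 0 0 1 f0 f))
    (wtEq C.sh d f0)) (relOK C.G C.sh ws f0)) (relOK C.G C.sh ws f) : Bool) = true at h
  obtain ⟨h1, h⟩ := k4d_rec_iff.1 h
  obtain ⟨h2, h⟩ := k4d_rec_iff.1 h
  obtain ⟨h3, h⟩ := k4d_rec_iff.1 h
  have hf : f.All (K7dA C ws) := k4d_all_of_relOK C hC ws hw f h1
  have hf0 : f0.All (K7dA C ws) := k4d_all_of_relOK C hC ws hw f0 h2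
  have hfg : f.All (Good C.n) := k7d_all_mono (fun _ h => h.1) hf
  have hf0g : f0.All (Good C.n) := k7d_all_mono (fun _ h => h.1) hf0
  refine ⟨hfg, hf0g, k7d_wtEq C ws d f0 hf0 h3 k, fun e he => ?_⟩
  have hev := k7b_ev_addm0 (n := C.n) (R := k) 0 1 f0 f hf0g
  have h5 : (MvPolynomial.C (((0 : ℕ) : k) - ((1 : ℕ) : k)) : MvPolynomial (Fin C.n) k) = -1 := by
    push_cast
    rw [zero_sub, map_neg, map_one]
  have h6 : f.ev C.n k - f0.ev C.n k = (addm 0 0 1 f0 f).ev C.n k := by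
    rw [hev, h5]
    ring
  rw [h6] at he
  exact k7d_ltF C ws d _ (all_addm (k7d_all_mono (fun t h => by rwa [add_zero]) hf0) hf) h k e he

end Pool.Agent.Helper97.Hilb8.K
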