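import Pool.Agent.Helper97.Hilb8.K.Elims
import Pool.Agent.Helper97.Hilb8.K.Poly
import Pool.Agent.Helper97.Hilb8.K.RawSem
import Pool.Agent.Helper97.Hilb8.K.Subst
import Pool.Agent.Helper97.Hilb8.K.TopC
import Pool.Agent.Helper97.Hilb8.Inter

/-!
Soundness of the kernel-evaluable certificates: kept variables and generators (module K7e).
-/

namespace Pool.Agent.Helper97.Hilb8.K

open MvPolynomial

/-! ### Equation lemmas -/

theorem k7e_V_e (G LOW sh : ℕ) (ws : W) (CT : Tr) (G' : ℕ) (VP : V) (A : ℕ) :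
    chkV G LOW sh ws CT G' VP .e A = Nat.beq A LOW := rfl

theorem k7e_V_c (G LOW sh : ℕ) (ws : W) (CT : Tr) (G' : ℕ) (VP : V) (j d : ℕ) (cl : CL) (p : P)
    (r : RL) (A : ℕ) :
    chkV G LOW sh ws CT G' VP (.c j d cl p r) A =
      Bool.rec false (Bool.rec false (Bool.rec false (Bool.rec false
        (chkV G LOW sh ws CT G' VP r (Nat.lor A (Nat.shiftLeft 31 (Nat.add 32 (Nat.mul 5 j)))))
        (sP G' VP isZero p .z))
        (elimGo LOW A 0 (Nat.add 32 (Nat.mul 5 j)) p false))
        (topC G sh ws CT d cl p))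
        (Nat.ble (Nat.succ (Nat.add 32 (Nat.mul 5 j))) sh) := rfl

theorem k7e_R_c (G sh : ℕ) (ws : W) (CT : Tr) (G' : ℕ) (VP : V) (E : Tr) (j d : ℕ) (cl : CL)
    (p : P) (r : RL) (i : ℕ) :
    chkR G sh ws CT G' VP E (.c j d cl p r) i =
      Bool.rec false (Bool.rec false (chkR G sh ws CT G' VP E r (Nat.succ i))
        (En.rec false (fun _ q => sP G' VP isZero p (addm 0 0 1 q .z)) (look E i)))
        (topC G sh ws CT d cl p) := rfl

theorem k7e_mask_c (a : ℕ) (l : L) :
    maskI (.c a l) = Nat.lor (Nat.shiftLeft 31 (Nat.add 32 (Nat.mul 5 a))) (maskI l) := rfl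

theorem k7e_kept_c (G' LOW' n' : ℕ) (VP : V) (a : ℕ) (l : L) (t : ℕ) :
    keptOK G' LOW' n' VP (.c a l) t =
      Bool.rec false (Bool.rec false (keptOK G' LOW' n' VP l (Nat.succ t))
        (isVar G' LOW' t (VP.get a))) (Nat.ble (Nat.succ a) n') := rfl

/-! ### Kept variables -/

theorem k7e_mask (io : L) (v : ℕ) (h : dig (maskI io) v ≠ 0) : ∃ t < io.len, io.get t = v := by
  induction io with
  | e => exact absurd (dig_zero v) h
  | c a l ih =>
    rw [k7e_mask_c] at h
    by_cases h0 : dig (maskI l) v = 0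
    · have h1 : dig (Nat.shiftLeft 31 (32 + 5 * a)) v ≠ 0 := by
        intro h2
        apply h
        have e : Nat.lor (Nat.shiftLeft 31 (Nat.add 32 (Nat.mul 5 a))) (maskI l) =
          Nat.shiftLeft 31 (32 + 5 * a) ||| maskI l := rfl
        rw [e, dig_or, h2, h0, Nat.or_zero]
      refine ⟨0, Nat.succ_pos _, ?_⟩
      exact (k4e_dig_shift h1).symm
    · obtain ⟨t, ht, he⟩ := ih h0
      exact ⟨t + 1, Nat.succ_lt_succ ht, he⟩

theorem k7e_isVar (C : Cst) (hC : C.ok) {t : ℕ} (ht : t < C.n) (k : Type*) [Field k] (p : P)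
    (h : isVar C.G C.LOW t p = true) : p.ev C.n k = X ⟨t, ht⟩ := by
  cases p with
  | z => exact absurd h (by intro h; cases h)
  | t m x y r =>
    have h : (Bool.rec (motive := fun _ => Bool) false (Bool.rec (motive := fun _ => Bool) false
      (Bool.rec (motive := fun _ => Bool) false (Bool.rec (motive := fun _ => Bool) false (isNil r)
      (Nat.beq (Nat.land m C.LOW) (Nat.shiftLeft 1 (Nat.add 32 (Nat.mul 5 t))))) (Nat.beq y 0))
      (Nat.beq x 1)) (Nat.beq (Nat.land m C.G) 0) : Bool) = true := h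
    obtain ⟨_, h⟩ := k2_brec_false h
    obtain ⟨hx, h⟩ := k2_brec_false h
    obtain ⟨hy, h⟩ := k2_brec_false h
    obtain ⟨hm, hnil⟩ := k2_brec_false h
    have hx := beq_iff.1 hx
    have hy := beq_iff.1 hy
    have hr : r = .z := by
      clear * - hnil
      cases r with
      | z => rfl
      | t a b c d => exact absurd hnil (by intro h; cases h)
    subst hx
    subst hy
    subst hr
    have hm1 : m &&& C.LOW = 2 ^ (32 + 5 * t) := by
      have h1 : m &&& C.LOW = Nat.shiftLeft 1 (32 + 5 * t) := beq_iff.1 hm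
      rw [h1]
      have : Nat.shiftLeft 1 (32 + 5 * t) = 1 <<< (32 + 5 * t) := rfl
      rw [this, Nat.one_shiftLeft]
    have hd : ∀ v < C.n, dig m v = dig (2 ^ (32 + 5 * t)) v := by
      intro v hv
      have h2 := congrArg (fun z => dig z v) hm1
      obtain ⟨_, _, _, hL, _⟩ := hC
      simp only [dig_and] at h2
      rw [hL, k4e_dig_low C.n v hv, and31 (dig_lt _ _)] at h2
      exact h2
    have he : expo C.n m = Finsupp.single ⟨t, ht⟩ 1 := by
      ext v
      rw [expo_apply, hd v v.2]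
      by_cases hv : (v : ℕ) = t
      · have : v = ⟨t, ht⟩ := Fin.ext hv
        subst this
        rw [Finsupp.single_eq_same]
        unfold dig
        rw [Nat.div_div_eq_div_mul]
        have e2 : 2 ^ 32 * 32 ^ t = 2 ^ (32 + 5 * t) := by
          rw [pow_add, pow_mul]; norm_num
        show 2 ^ (32 + 5 * t) / (2 ^ 32 * 32 ^ t) % 32 = 1
        rw [e2, Nat.div_self (by positivity)]
      · have hv' : (⟨t, ht⟩ : Fin C.n) ≠ v := fun e => hv (by rw [← e])
        rw [k4e_dig_pow hv, Finsupp.single_eq_of_ne' hv']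
    rw [ev_t, ev_z, he, add_zero, X]
    congr 1
    push_cast
    ring

theorem k7e_kept (C' : Cst) (hC' : C'.ok) (n : ℕ) (VP : V) (k : Type*) [Field k] (io : L) :
    ∀ t0, keptOK C'.G C'.LOW n VP io t0 = true → ∀ t < io.len, ∀ ht : t0 + t < C'.n,
      (VP.get (io.get t)).ev C'.n k = X ⟨t0 + t, ht⟩ := by
  induction io with
  | e => intro t0 _ t ht; exact absurd ht (Nat.not_lt_zero _)
  | c a l ih =>
    intro t0 h t ht ht'
    rw [k7e_kept_c] at h
    obtain ⟨_, h⟩ := k2_brec_false h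
    obtain ⟨hv, h⟩ := k2_brec_false h
    cases t with
    | zero => exact k7e_isVar C' hC' ht' k _ hv
    | succ t =>
      have h1 := ih (t0 + 1) h t (Nat.lt_of_succ_lt_succ ht) (by omega)
      have h2 : (VP.get ((L.c a l).get (t + 1))) = VP.get (l.get t) := rfl
      rw [h2, h1]
      congr 1
      exact Fin.ext (by show t0 + 1 + t = t0 + (t + 1); omega)

/-! ### The list of the eliminated variables -/

theorem k7e_top (C : Cst) (hC : C.ok) (ws : W) (hw : posOK C.n ws 0 = true) (CT : Tr)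
    (hCT : wtT C.G C.sh ws CT = true) (d : ℕ) (l : CL) (p : P)
    (h : topC C.G C.sh ws CT d l p = true) (k : Type*) [Field k] :
    p.ev C.n k ∈ inI (fun v : Fin C.n => ws.get v) (tabI C.n k CT) := by
  obtain ⟨_, q, hq, hT⟩ := topC_sound C hC ws hw CT hCT d l p h k
  exact Ideal.subset_span ⟨q, hq, d, hT⟩

theorem k7e_list (C C' : Cst) (hC : C.ok) (hC' : C'.ok) (ws : W) (hw : posOK C.n ws 0 = true)
    (CT : Tr) (hCT : wtT C.G C.sh ws CT = true) (VP : V) (hVP : VP.posOK C.n 0 = true)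
    (hVg : VP.good C'.G = true) {k : Type*} [Field k] (h2 : (2 : k) ≠ 0) (l : RL) :
    ∀ A, chkV C.G C.LOW C.sh ws CT C'.G VP l A = true →
      ∃ l' : List (Fin C.n), (∀ v : Fin C.n, dig A v ≠ 0 ∨ v ∈ l') ∧
        ∀ i (hi : i < l'.length), ∃ (c : k) (q : MvPolynomial (Fin C.n) k), c ≠ 0 ∧
          q ∈ supported k (k4e_S C.n A ∪ {v | v ∈ l'.take i}) ∧
          MvPolynomial.C c * X l'[i] + q ∈ inI (fun v : Fin C.n => ws.get v) (tabI C.n k CT) ∧
          VP.hom C.n C'.n k (MvPolynomial.C c * X l'[i] + q) = 0 := by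
  induction l with
  | e =>
    intro A h
    rw [k7e_V_e] at h
    have hA : A = C.LOW := Nat.eq_of_beq_eq_true h
    refine ⟨[], ?_, ?_⟩
    · intro v
      left
      obtain ⟨_, _, _, hL, _⟩ := hC
      rw [hA, hL, k4e_dig_low C.n v v.2]
      norm_num
    · intro i hi
      exact absurd hi (by simp)
  | c x d cl p r ih =>
    intro A h
    rw [k7e_V_c] at h
    obtain ⟨hs, h⟩ := k2_brec_false h
    obtain ⟨htop, h⟩ := k2_brec_false h
    obtain ⟨hgo, h⟩ := k2_brec_false h
    obtain ⟨hsP, h⟩ := k2_brec_false h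
    have hs := Nat.le_of_ble_eq_true hs
    have hs' : Nat.succ (32 + 5 * x) ≤ C.sh := hs
    have hx : x < C.n := by
      obtain ⟨_, hsh, _, _, _⟩ := hC
      rw [hsh] at hs'
      omega
    obtain ⟨l, hl1, hl2⟩ := ih _ h
    have hor : ∀ v : Fin C.n, dig (Nat.lor A (Nat.shiftLeft 31 (32 + 5 * x))) v ≠ 0 →
        dig A v ≠ 0 ∨ v = ⟨x, hx⟩ := by
      intro v hv
      have e : Nat.lor A (Nat.shiftLeft 31 (32 + 5 * x))
        = A ||| Nat.shiftLeft 31 (32 + 5 * x) := rfl
      rw [e, dig_or] at hv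
      by_cases h0 : dig A v = 0
      · right
        rw [h0, Nat.zero_or] at hv
        exact Fin.ext (k4e_dig_shift hv)
      · exact Or.inl h0
    have hgo' : elimGo C.LOW A (Nat.land A 0) (32 + 5 * x) p false = true := by
      have e : Nat.land A 0 = 0 := Nat.and_zero A
      rw [e]
      exact hgo
    obtain ⟨M0, c0, hc0, hM0, R0, hR0, he0⟩ := k4e_go_false C hC hx h2 p hgo'
    have hM : M0 = 0 := by
      rw [← Finsupp.support_eq_empty, Finset.eq_empty_iff_forall_notMem]
      intro u hu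
      exact (hM0 u hu).1 (dig_zero u)
    subst hM
    have he1 : p.ev C.n k = MvPolynomial.C c0 * X ⟨x, hx⟩ + R0 := he0
    have hhom : VP.hom C.n C'.n k (p.ev C.n k) = 0 := by
      obtain ⟨a, _, ha, hz⟩ := sP_sound C C' hC hC' (k := k) VP hVP hVg isZero p .z trivial hsP
      rw [ev_of_isZero hz, ev_z, zero_add] at ha
      exact ha.symm
    have hmem := k7e_top C hC ws hw CT hCT d cl p htop k
    refine ⟨⟨x, hx⟩ :: l, ?_, ?_⟩
    · intro v
      rcases hl1 v with h1 | h1
      · rcases hor v h1 with h3 | h3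
        · exact Or.inl h3
        · right; rw [h3]; exact List.mem_cons_self
      · right; exact List.mem_cons_of_mem _ h1
    · intro i hi
      cases i with
      | zero =>
        refine ⟨c0, R0, hc0, supported_mono Set.subset_union_left hR0, ?_, ?_⟩
        · rw [he1] at hmem
          exact hmem
        · rw [he1] at hhom
          exact hhom
      | succ i =>
        have hi' : i < l.length := by simpa using hi
        obtain ⟨c, q, hc, hq, hq1, hq2⟩ := hl2 i hi'
        refine ⟨c, q, hc, supported_mono ?_ hq, hq1, hq2⟩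
        rintro v (hv | hv)
        · rcases hor v hv with h5 | h5
          · exact Or.inl h5
          · right
            show v ∈ (_ :: l).take (i + 1)
            rw [List.take_succ_cons, h5]; exact List.mem_cons_self
        · right
          show v ∈ (_ :: l).take (i + 1)
          rw [List.take_succ_cons]; exact List.mem_cons_of_mem _ hv

theorem chkV_sound (C C' : Cst) (hC : C.ok) (hC' : C'.ok) (ws : W) (hw : posOK C.n ws 0 = true)
    (CT : Tr) (hCT : wtT C.G C.sh ws CT = true) (VP : V) (hVP : VP.posOK C.n 0 = true)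
    (hVg : VP.good C'.G = true) (io : L) (hio : keptOK C'.G C'.LOW C.n VP io 0 = true)
    (l : RL) (h : chkV C.G C.LOW C.sh ws CT C'.G VP l (maskI io) = true)
    (hlen : io.len = C'.n) (ι : Fin C'.n → Fin C.n) (hι : ∀ t, (ι t : ℕ) = io.get t)
    {k : Type*} [Field k] (h2 : (2 : k) ≠ 0) :
    (∀ t, VP.hom C.n C'.n k (X (ι t)) = X t) ∧
    (∀ v, X v - rename ι (VP.hom C.n C'.n k (X v)) ∈
      inI (fun v : Fin C.n => ws.get v) (tabI C.n k CT)) ∧
    ∀ g ∈ inI (fun v : Fin C.n => ws.get v) (tabI C.n k CT),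
      rename ι (VP.hom C.n C'.n k g) ∈ inI (fun v : Fin C.n => ws.get v) (tabI C.n k CT) := by
  have hk : ∀ t : Fin C'.n, (VP.get (ι t)).ev C'.n k = X t := by
    intro t
    have h1 := k7e_kept C' hC' C.n VP k io 0 hio t (by rw [hlen]; exact t.2)
      (by rw [Nat.zero_add]; exact t.2)
    rw [hι t, h1]
    congr 1
    exact Fin.ext (Nat.zero_add _)
  have hX : ∀ v : Fin C.n, VP.hom C.n C'.n k (X v) = (VP.get v).ev C'.n k := by
    intro v
    rw [V.hom, aeval_X]
  obtain ⟨l', hl1, hl2⟩ := k7e_list C C' hC hC' ws hw CT hCT VP hVP hVg h2 l _ h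
  have hS : ∀ v : Fin C.n, dig (maskI io) v ≠ 0 → v ∈ Set.range ι := by
    intro v hv
    obtain ⟨t, ht, he⟩ := k7e_mask io v hv
    refine ⟨⟨t, by rw [← hlen]; exact ht⟩, Fin.ext ?_⟩
    rw [hι]
    exact he
  obtain ⟨h3, h4⟩ := kept_of_top ι (fun v : Fin C.n => (VP.get v).ev C'.n k) hk
    (inI (fun v : Fin C.n => ws.get v) (tabI C.n k CT)) l'
    (fun v => (hl1 v).imp (hS v) id)
    (fun i hi => by
      obtain ⟨c, q, hc, hq, hq1, hq2⟩ := hl2 i hi
      refine ⟨c, q, hc, supported_mono ?_ hq, hq1, hq2⟩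
      rintro v (hv | hv)
      · exact Or.inl (hS v hv)
      · exact Or.inr hv)
  refine ⟨fun t => by rw [hX, hk], fun v => by rw [hX]; exact h3 v, h4⟩

theorem chkR_sound (C C' : Cst) (hC : C.ok) (hC' : C'.ok) (ws : W) (hw : posOK C.n ws 0 = true)
    (CT : Tr) (hCT : wtT C.G C.sh ws CT = true) (VP : V) (hVP : VP.posOK C.n 0 = true)
    (hVg : VP.good C'.G = true) (E : Tr) (hE : TAll (fun _ _ p => p.All (Good C'.n)) E)
    (l : RL) (i0 : ℕ) (h : chkR C.G C.sh ws CT C'.G VP E l i0 = true)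
    (ι : Fin C'.n → Fin C.n) {k : Type*} [Field k]
    (hJ : ∀ g ∈ inI (fun v : Fin C.n => ws.get v) (tabI C.n k CT),
      rename ι (VP.hom C.n C'.n k g) ∈ inI (fun v : Fin C.n => ws.get v) (tabI C.n k CT))
    (i : ℕ) (h1 : i0 ≤ i) (h2 : i < i0 + l.len) (key : ℕ) (q : P) (hq : look E i = .some key q) :
    rename ι (q.ev C'.n k) ∈ inI (fun v : Fin C.n => ws.get v) (tabI C.n k CT) := by
  induction l generalizing i0 with
  | e =>
    have h3 : RL.e.len = 0 := rfl
    rw [h3] at h2
    omega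
  | c j d cl p r ih =>
    rw [k7e_R_c] at h
    obtain ⟨htop, h⟩ := k2_brec_false h
    obtain ⟨hE1, h⟩ := k2_brec_false h
    have h3 : (RL.c j d cl p r).len = r.len + 1 := rfl
    rw [h3] at h2
    rcases Nat.eq_or_lt_of_le h1 with h4 | h4
    · subst h4
      rw [hq] at hE1
      have hE2 : sP C'.G VP isZero p (addm 0 0 1 q .z) = true := hE1
      have hqG := hE _ _ _ hq
      have hg0 : Good C'.n 0 := ⟨by norm_num, fun v _ => by rw [dig_zero]; norm_num⟩
      obtain ⟨a, _, ha, hz⟩ := sP_sound C C' hC hC' (k := k) VP hVP hVg isZero p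
        (addm 0 0 1 q .z) (all_addm hqG trivial) hE2
      have he0 : expo C'.n 0 = 0 := by
        ext v
        rw [expo_apply, dig_zero]
        rfl
      rw [ev_of_isZero hz, ev_addm hg0 hqG, ev_z, he0] at ha
      have h5 : q.ev C'.n k = VP.hom C.n C'.n k (p.ev C.n k) := by
        have h6 : (monomial (0 : Fin C'.n →₀ ℕ) (((0 : ℕ) : k) - ((1 : ℕ) : k))) =
            (-1 : MvPolynomial (Fin C'.n) k) := by
          rw [Nat.cast_zero, Nat.cast_one, zero_sub, map_neg]
          rfl
        rw [h6] at ha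
        linear_combination ha
      rw [h5]
      exact hJ _ (k7e_top C hC ws hw CT hCT d cl p htop k)
    · exact ih (i0 + 1) h h4 (by omega)

end Pool.Agent.Helper97.Hilb8.K
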