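import Pool.Agent.Helper97.Hilb8.K.RawSem
import Pool.Agent.Helper97.Hilb8.K.Poly
import Pool.Agent.Helper97.Hilb8.Pts3

/-!
Soundness of the kernel-evaluable certificates for the points.
-/

universe u

namespace Pool.Agent.Helper97.Hilb8.K

open MvPolynomial

/-! ### Module K8: points -/

theorem k8_brec {b X : Bool} :
    (Bool.rec (motive := fun _ => Bool) false X b : Bool) = true ↔ b = true ∧ X = true := by
  cases b <;> simp

theorem k8_allN (f : ℕ → Bool) (n : ℕ) : allN f n = true ↔ ∀ i < n, f i = true := by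
  induction n with
  | zero => exact ⟨fun _ i hi => absurd hi (Nat.not_lt_zero i), fun _ => rfl⟩
  | succ n ih =>
    change (Bool.rec (motive := fun _ => Bool) false (allN f n) (f n) : Bool) = true ↔ _
    rw [k8_brec, ih]
    constructor
    · rintro ⟨h1, h2⟩ i hi
      rcases Nat.lt_succ_iff_lt_or_eq.1 hi with h | rfl
      · exact h2 i h
      · exact h1
    · intro h
      exact ⟨h n (Nat.lt_succ_self n), fun i hi => h i (Nat.lt_succ_of_lt hi)⟩

theorem k8_sumN (f : ℕ → ℕ) (n : ℕ) : sumN f n = ∑ i ∈ Finset.range n, f i := by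
  induction n with
  | zero => rfl
  | succ n ih =>
    rw [Finset.sum_range_succ, ← ih]
    rfl

theorem k8_d3_lt (x i : ℕ) : d3 x i < 8 := by
  have h : (x >>> (3 * i)) &&& 7 ≤ 7 := Nat.and_le_right
  exact Nat.lt_succ_of_le h

/-- The permutation given by octal digits, as a function. -/
def k8f (sg : ℕ) (j : Fin 8) : Fin 8 := ⟨d3 sg j, k8_d3_lt sg j⟩

open Classical in
/-- The permutation given by octal digits. -/
noncomputable def k8perm (sg : ℕ) : Equiv.Perm (Fin 8) :=
  if h : Function.Bijective (k8f sg) then Equiv.ofBijective (k8f sg) h else 1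

theorem k8_mask (sg n c : ℕ) :
    Nat.testBit (Nat.rec 0 (fun j ih => Nat.lor ih (Nat.shiftLeft 1 (d3 sg j))) n : ℕ) c = true ↔
      ∃ j < n, d3 sg j = c := by
  induction n with
  | zero => simp
  | succ n ih =>
    change Nat.testBit ((Nat.rec 0 (fun j ih => Nat.lor ih (Nat.shiftLeft 1 (d3 sg j))) n : ℕ) |||
      (1 <<< d3 sg n)) c = true ↔ _
    rw [Nat.testBit_or, Bool.or_eq_true, ih, Nat.one_shiftLeft, Nat.testBit_two_pow]
    constructor
    · rintro (⟨j, hj, h⟩ | h)
      · exact ⟨j, Nat.lt_succ_of_lt hj, h⟩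
      · exact ⟨n, Nat.lt_succ_self n, of_decide_eq_true h⟩
    · rintro ⟨j, hj, h⟩
      rcases Nat.lt_succ_iff_lt_or_eq.1 hj with h1 | rfl
      · exact Or.inl ⟨j, h1, h⟩
      · exact Or.inr (decide_eq_true h)

theorem k8_bij {sg : ℕ}
    (h : Nat.beq (Nat.rec 0 (fun j ih => Nat.lor ih (Nat.shiftLeft 1 (d3 sg j))) 8) 255 = true) :
    Function.Bijective (k8f sg) := by
  apply (Finite.injective_iff_bijective).1
  rw [Finite.injective_iff_surjective]
  intro c
  have h1 : (Nat.rec 0 (fun j ih => Nat.lor ih (Nat.shiftLeft 1 (d3 sg j))) 8 : ℕ) = 255 :=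
    Nat.eq_of_beq_eq_true h
  have h2 := k8_mask sg 8 c
  rw [h1] at h2
  have h3 : Nat.testBit 255 c = true := by
    have hc := c.2
    generalize (c : ℕ) = x at *
    interval_cases x <;> rfl
  obtain ⟨j, hj, hjc⟩ := h2.1 h3
  exact ⟨⟨j, hj⟩, Fin.ext hjc⟩

theorem k8_perm_apply {sg : ℕ} (h : Function.Bijective (k8f sg)) (j : Fin 8) :
    ((k8perm sg j : Fin 8) : ℕ) = d3 sg j := by
  unfold k8perm
  rw [dif_pos h]
  rfl

theorem k8_potOK {A MO S : ℕ} {col : ℕ → ℕ} {p q w : ℕ} (h : potOK A MO S col p q w = true) :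
    (∀ j < 8, ∀ c < 8, prK A MO j (col c) + S ≤ d16 p j + d16 q c) ∧
      ∑ j ∈ Finset.range 8, d16 p j + ∑ j ∈ Finset.range 8, d16 q j = w + 8 * S := by
  obtain ⟨h1, h2⟩ := k8_brec.1 h
  rw [k8_allN] at h2
  refine ⟨fun j hj c hc => ?_, ?_⟩
  · have h3 := (k8_allN _ _).1 (h2 j hj) c hc
    exact Nat.le_of_ble_eq_true h3
  · have h3 := Nat.eq_of_beq_eq_true h1
    rw [k8_sumN, k8_sumN] at h3
    exact h3

theorem k8_if {a b : ℕ} {X Y : Bool} :
    (Bool.rec (motive := fun _ => Bool) X Y (Nat.beq a b) : Bool) = if a = b then Y else X := by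
  by_cases h : a = b
  · subst h
    rw [if_pos rfl, Nat.beq_refl]
  · rw [if_neg h]
    cases hb : Nat.beq a b with
    | false => rfl
    | true => exact absurd (Nat.eq_of_beq_eq_true hb) h

theorem k8_if_nat {a b : ℕ} {X Y : ℕ} :
    (Bool.rec (motive := fun _ => ℕ) X Y (Nat.beq a b) : ℕ) = if a = b then Y else X := by
  by_cases h : a = b
  · subst h
    rw [if_pos rfl, Nat.beq_refl]
  · rw [if_neg h]
    cases hb : Nat.beq a b with
    | false => rfl
    | true => exact absurd (Nat.eq_of_beq_eq_true hb) h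

theorem k8_optOK {A B MO S S' : ℕ} {col : ℕ → ℕ} {p q sg p' q' : ℕ}
    (h : optOK A B MO S S' col p q sg p' q' = true) :
    Function.Bijective (k8f sg) ∧ ∀ j < 8, ∀ c < 8,
      (c = d3 sg j → prK A MO j (col c) + S = d16 p j + d16 q c ∧
        prK B MO j (col c) + S' = d16 p' j + d16 q' c) ∧
      (c ≠ d3 sg j → prK A MO j (col c) + S = d16 p j + d16 q c →
        prK B MO j (col c) + S' < d16 p' j + d16 q' c) := by
  obtain ⟨h1, h2⟩ := k8_brec.1 h
  refine ⟨k8_bij h1, fun j hj c hc => ?_⟩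
  have h3 := (k8_allN _ _).1 ((k8_allN _ _).1 h2 j hj) c hc
  rw [k8_if, k8_if] at h3
  constructor
  · intro h4
    rw [if_pos h4] at h3
    split_ifs at h3 with h5
    exact ⟨h5, Nat.eq_of_beq_eq_true h3⟩
  · intro h4 h5
    rw [if_neg h4] at h3
    have h6 : Nat.add (prK A MO j (col c)) S = Nat.add (d16 p j) (d16 q c) := h5
    rw [k8_if, if_pos h6] at h3
    exact Nat.le_of_ble_eq_true h3

theorem k8_distinct (l : L) : ∀ m, distinct l m = true →
    (∀ i < l.len, m.testBit (l.get i) = false) ∧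
      ∀ i < l.len, ∀ j < l.len, l.get i = l.get j → i = j := by
  induction l with
  | e => exact fun m _ => ⟨fun i hi => absurd hi (Nat.not_lt_zero i),
      fun i hi => absurd hi (Nat.not_lt_zero i)⟩
  | c v l ih =>
    intro m h
    change (Bool.rec (motive := fun _ => Bool) (distinct l (m ||| (1 <<< v))) false
      (Nat.beq ((m >>> v) &&& 1) 1) : Bool) = true at h
    rw [k8_if] at h
    have h1 : ¬ (m >>> v) &&& 1 = 1 := by
      intro h2
      rw [if_pos h2] at h
      exact absurd h (by simp)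
    rw [if_neg h1] at h
    have h2 : m.testBit v = false := by
      rw [Nat.and_one_is_mod, Nat.shiftRight_eq_div_pow] at h1
      rw [Nat.testBit_eq_decide_div_mod_eq]
      exact decide_eq_false h1
    obtain ⟨h3, h4⟩ := ih _ h
    have h5 : ∀ i < l.len, m.testBit (l.get i) = false ∧ l.get i ≠ v := by
      intro i hi
      have h6 := h3 i hi
      rw [Nat.testBit_or, Nat.one_shiftLeft, Nat.testBit_two_pow, Bool.or_eq_false_iff] at h6
      refine ⟨h6.1, fun h7 => ?_⟩
      exact absurd (decide_eq_true h7.symm) (by rw [h6.2]; simp)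
    have hlen : (L.c v l).len = l.len + 1 := rfl
    have hg0 : (L.c v l).get 0 = v := rfl
    have hgs : ∀ i, (L.c v l).get (i + 1) = l.get i := fun i => rfl
    constructor
    · intro i hi
      rw [hlen] at hi
      rcases i with _ | i
      · rw [hg0]
        exact h2
      · rw [hgs]
        exact (h5 i (by omega)).1
    · intro i hi j hj
      rw [hlen] at hi hj
      rcases i with _ | i <;> rcases j with _ | j
      · intro _
        rfl
      · rw [hg0, hgs]
        intro h6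
        exact absurd h6.symm (h5 j (by omega)).2
      · rw [hg0, hgs]
        intro h6
        exact absurd h6 (h5 i (by omega)).2
      · rw [hgs, hgs]
        intro h6
        rw [h4 i (by omega) j (by omega) h6]

theorem k8_PE {x : PE} {f : ℕ → ℕ → ℕ → ℕ → ℕ → Bool}
    (h : (PE.rec (motive := fun _ => Bool) false f x : Bool) = true) :
    ∃ p q sg p' q', x = .some p q sg p' q' ∧ f p q sg p' q' = true := by
  cases x with
  | none => exact absurd h (by simp)
  | some p q sg p' q' => exact ⟨p, q, sg, p', q', rfl, h⟩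

theorem k8_pots {n A MO S WO : ℕ} {t : PT} (ws : W) : ∀ v0, posOK n ws v0 = true →
    potsOK A MO S WO t ws v0 = true → ∀ v, v0 ≤ v → v < n →
    ∃ p q sg p' q', lookP t v = .some p q sg p' q' ∧
      potOK A MO S (colK v) p q (ws.get (v - v0) + WO) = true := by
  induction ws with
  | e =>
    intro v0 h0 _ v h1 h2
    have : v0 = n := beq_iff.1 h0
    omega
  | c s a r ih =>
    intro v0 h0 h v h1 h2
    change (Bool.rec (motive := fun _ => Bool) false (posOK n r (Nat.succ v0))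
      (Nat.beq s (32 + 5 * v0)) : Bool) = true at h0
    change (Bool.rec (motive := fun _ => Bool) false (potsOK A MO S WO t r (Nat.succ v0))
      (PE.rec (motive := fun _ => Bool) false
        (fun p q _ _ _ => potOK A MO S (colK v0) p q (Nat.add a WO)) (lookP t v0)) : Bool) =
        true at h
    obtain ⟨-, h0⟩ := k8_brec.1 h0
    obtain ⟨h3, h4⟩ := k8_brec.1 h
    rcases Nat.eq_or_lt_of_le h1 with h5 | h5
    · subst h5
      rw [Nat.sub_self]
      exact k8_PE h3
    · have h6 := ih _ h0 h4 v h5 h2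
      have h7 : v - v0 = (v - Nat.succ v0) + 1 := by omega
      rw [h7]
      exact h6

theorem k8_opts {A B MO S S' : ℕ} {t : PT} (l : L) (h : optsOK A B MO S S' t l = true) :
    ∀ i < l.len, ∃ p q sg p' q', lookP t (l.get i) = .some p q sg p' q' ∧
      optOK A B MO S S' (colK (l.get i)) p q sg p' q' = true := by
  induction l with
  | e => exact fun i hi => absurd hi (Nat.not_lt_zero i)
  | c v l ih =>
    change (Bool.rec (motive := fun _ => Bool) false (optsOK A B MO S S' t l)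
      (PE.rec (motive := fun _ => Bool) false
        (fun p q sg p' q' => optOK A B MO S S' (colK v) p q sg p' q') (lookP t v)) : Bool) =
        true at h
    obtain ⟨h1, h2⟩ := k8_brec.1 h
    intro i hi
    rcases i with _ | i
    · exact k8_PE h1
    · exact ih h2 i (Nat.lt_of_succ_lt_succ hi)

theorem k8_indep {MO g sg0 : ℕ} {t : PT} (l : L) : ∀ z0, indepOK MO g sg0 t l z0 = true →
    z0 + l.len = 32 ∧ ∀ i < l.len, ∃ p q sg p' q', lookP t (l.get i) = .some p q sg p' q' ∧
      ∀ z' < 32, entOK MO g sg0 (l.get i) sg (z0 + i) z' = true := by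
  induction l with
  | e =>
    intro z0 h
    have h1 : z0 = 32 := beq_iff.1 h
    exact ⟨h1, fun i hi => absurd hi (Nat.not_lt_zero i)⟩
  | c v l ih =>
    intro z0 h
    change (Bool.rec (motive := fun _ => Bool) false (indepOK MO g sg0 t l (Nat.succ z0))
      (PE.rec (motive := fun _ => Bool) false
        (fun _ _ sg _ _ => allN (entOK MO g sg0 v sg z0) 32) (lookP t v)) : Bool) =
        true at h
    obtain ⟨h1, h2⟩ := k8_brec.1 h
    obtain ⟨h3, h4⟩ := ih _ h2
    have hlen : (L.c v l).len = l.len + 1 := rfl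
    refine ⟨by rw [hlen]; omega, fun i hi => ?_⟩
    rcases i with _ | i
    · obtain ⟨p, q, sg, p', q', h5, h6⟩ := k8_PE h1
      exact ⟨p, q, sg, p', q', h5, (k8_allN _ _).1 h6⟩
    · obtain ⟨p, q, sg, p', q', h5, h6⟩ := h4 i (Nat.lt_of_succ_lt_succ hi)
      refine ⟨p, q, sg, p', q', h5, fun z' hz' => ?_⟩
      have h7 := h6 z' hz'
      have h8 : z0 + (i + 1) = Nat.succ z0 + i := by omega
      rw [h8]
      exact h7

theorem k8_zOK {zl zk io : L} {n : ℕ} (h : zOK zl zk io n = true) (z : ℕ) (hz : z < 32) :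
    zk.get z < n ∧ zl.get z = io.get (zk.get z) := by
  have h1 := (k8_allN _ _).1 h z hz
  obtain ⟨h2, h3⟩ := k8_brec.1 h1
  exact ⟨Nat.le_of_ble_eq_true h3, Nat.eq_of_beq_eq_true h2⟩

theorem k8_col (Ch : Chart) (v c : ℕ) (hc : c < 8) :
    colK v c = PtsData.col Ch v ⟨c, hc⟩ := by
  have h1 : Nat.land v 7 = v % 8 := by
    have : v &&& (2 ^ 3 - 1) = v % 2 ^ 3 := Nat.and_two_pow_sub_one_eq_mod v 3
    exact this
  have h2 : Nat.shiftRight v 3 = v / 8 := by
    have : v >>> 3 = v / 2 ^ 3 := Nat.shiftRight_eq_div_pow v 3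
    exact this
  unfold colK PtsData.col
  rw [k8_if_nat, h1, h2]
  rfl

theorem k8_pr (Ch : Chart) (A MO : ℕ)
    (hMO : ∀ n < 8 + Ch.nb, ∀ i : Fin 4, Ch.mono n i = mo MO n i) (j : Fin 8) (n : ℕ)
    (hn : n < 8 + Ch.nb) :
    PtsData.pr Ch (fun j i => d16 A (4 * j + i)) j n = (prK A MO j n : ℤ) := by
  unfold PtsData.pr
  rw [Fin.sum_univ_four, hMO n hn, hMO n hn, hMO n hn, hMO n hn]
  have h : prK A MO j n = d16 A (4 * j) * mo MO n 0 + d16 A (4 * j + 1) * mo MO n 1 +
    d16 A (4 * j + 2) * mo MO n 2 + d16 A (4 * j + 3) * mo MO n 3 := rfl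
  rw [h]
  push_cast
  rfl

theorem k8_sum32 (F : ℕ → ℤ) : ∑ x ∈ Finset.range 32, F x =
    ∑ j : Fin 8, ∑ i : Fin 4, F (4 * (j : ℕ) + (i : ℕ)) := by
  simp [Finset.sum_range_succ, Fin.sum_univ_eight, Fin.sum_univ_four]
  ring

theorem k8_ent {MO g sg0 v sg z z' : ℕ} (h : entOK MO g sg0 v sg z z' = true) :
    ∑ j : Fin 8, ∑ i : Fin 4, ((mo MO (colK v (d3 sg j)) i : ℤ) - (mo MO (d3 sg0 j) i : ℤ)) *
      ((((g >>> (2 * (32 * (4 * (j : ℕ) + (i : ℕ)) + z'))) &&& 3 : ℕ) : ℤ) - 1) =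
      if z = z' then 1 else 0 := by
  have h1 := Nat.eq_of_beq_eq_true h
  rw [k8_sumN, k8_sumN, k8_if_nat] at h1
  have h2 : ((∑ x ∈ Finset.range 32, (mo MO (colK v (d3 sg (x >>> 2))) (x &&& 3) *
      ((g >>> (2 * (32 * x + z'))) &&& 3) + mo MO (d3 sg0 (x >>> 2)) (x &&& 3)) : ℕ) : ℤ) =
      ((if z = z' then 1 else 0) + ∑ x ∈ Finset.range 32, (mo MO (d3 sg0 (x >>> 2)) (x &&& 3) *
      ((g >>> (2 * (32 * x + z'))) &&& 3) + mo MO (colK v (d3 sg (x >>> 2))) (x &&& 3)) : ℕ) :=
    congrArg Nat.cast h1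
  push_cast at h2
  have h3 : ∀ (j : Fin 8) (i : Fin 4), (4 * (j : ℕ) + (i : ℕ)) >>> 2 = j ∧
      (4 * (j : ℕ) + (i : ℕ)) &&& 3 = i := by
    intro j i
    have hj := j.2
    have hi := i.2
    constructor
    · rw [Nat.shiftRight_eq_div_pow]
      omega
    · have : (4 * (j : ℕ) + (i : ℕ)) &&& (2 ^ 2 - 1) = (4 * (j : ℕ) + (i : ℕ)) % 2 ^ 2 :=
        Nat.and_two_pow_sub_one_eq_mod _ 2
      have h4 : (4 * (j : ℕ) + (i : ℕ)) &&& 3 = (4 * (j : ℕ) + (i : ℕ)) % 2 ^ 2 := this
      rw [h4]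
      omega
  have h4 : ∑ j : Fin 8, ∑ i : Fin 4, ((mo MO (colK v (d3 sg j)) i : ℤ) -
      (mo MO (d3 sg0 j) i : ℤ)) *
      ((((g >>> (2 * (32 * (4 * (j : ℕ) + (i : ℕ)) + z'))) &&& 3 : ℕ) : ℤ) - 1) =
      ∑ x ∈ Finset.range 32, ((mo MO (colK v (d3 sg (x >>> 2))) (x &&& 3) : ℤ) -
      (mo MO (d3 sg0 (x >>> 2)) (x &&& 3) : ℤ)) *
      ((((g >>> (2 * (32 * x + z'))) &&& 3 : ℕ) : ℤ) - 1) := by
    rw [k8_sum32]
    refine Finset.sum_congr rfl fun j _ => Finset.sum_congr rfl fun i _ => ?_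
    rw [(h3 j i).1, (h3 j i).2]
  rw [h4]
  have h5 : ∑ x ∈ Finset.range 32, ((mo MO (colK v (d3 sg (x >>> 2))) (x &&& 3) : ℤ) -
      (mo MO (d3 sg0 (x >>> 2)) (x &&& 3) : ℤ)) *
      ((((g >>> (2 * (32 * x + z'))) &&& 3 : ℕ) : ℤ) - 1) =
      ∑ x ∈ Finset.range 32, ((mo MO (colK v (d3 sg (x >>> 2))) (x &&& 3) : ℤ) *
      (((g >>> (2 * (32 * x + z'))) &&& 3 : ℕ) : ℤ) + (mo MO (d3 sg0 (x >>> 2)) (x &&& 3) : ℤ)) -
      ∑ x ∈ Finset.range 32, ((mo MO (d3 sg0 (x >>> 2)) (x &&& 3) : ℤ) *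
      (((g >>> (2 * (32 * x + z'))) &&& 3 : ℕ) : ℤ) +
        (mo MO (colK v (d3 sg (x >>> 2))) (x &&& 3) : ℤ)) := by
    rw [← Finset.sum_sub_distrib]
    refine Finset.sum_congr rfl fun x _ => ?_
    ring
  rw [h5, h2]
  split_ifs <;> ring

theorem pts_of_checks (Ch : Chart) (A B MO S S' WO g sg0 p0 q0 p0' q0' : ℕ)
    (hMO : ∀ n < 8 + Ch.nb, ∀ i : Fin 4, Ch.mono n i = mo MO n i)
    (h1 : potOK A MO S (fun c => c) p0 q0 WO = true)
    (h2 : optOK A B MO S S' (fun c => c) p0 q0 sg0 p0' q0' = true)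
    (t : PT) (ws : W) (hws : posOK (8 * Ch.nb) ws 0 = true)
    (h3 : potsOK A MO S WO t ws 0 = true) (io : L) (h4 : optsOK A B MO S S' t io = true)
    (zl zk : L) (h5 : indepOK MO g sg0 t zl 0 = true) (h6 : distinct zl 0 = true)
    {n : ℕ} (hn : io.len = n) (h7 : zOK zl zk io n = true) (h8 : distinct io 0 = true)
    (ι : Fin n → Fin (8 * Ch.nb)) (hι : ∀ t, (ι t : ℕ) = io.get t)
    (k : Type u) [Field k] :
    ∃ K P : Ideal (MvPolynomial (Fin (8 * Ch.nb)) k), K.IsPrime ∧ P.IsPrime ∧ Ch.ideal k ≤ K ∧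
      (∀ h ∈ K, ∀ τ d, IsTop (fun v : Fin (8 * Ch.nb) => ws.get v) h τ d → τ ∈ P) ∧
      (∃ Z0 : Finset (Fin n), Z0.card = 32 ∧
        ∀ p ∈ supported k (Z0 : Set (Fin n)), rename ι p ∈ P → p = 0) ∧
      ∀ u, X (ι u) ∉ P := by
  classical
  -- the potentials of the variables
  have hpots : ∀ v : Fin (8 * Ch.nb), ∃ p q sg p' q', lookP t v = .some p q sg p' q' ∧
      potOK A MO S (colK v) p q (ws.get v + WO) = true := by
    intro v
    have h := k8_pots ws 0 hws h3 v (Nat.zero_le _) v.2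
    rw [Nat.sub_zero] at h
    exact h
  choose pp qq ss pp' qq' hlook hpot using hpots
  have hopt : ∀ u : Fin n, optOK A B MO S S' (colK (ι u)) (pp (ι u)) (qq (ι u)) (ss (ι u))
      (pp' (ι u)) (qq' (ι u)) = true := by
    intro u
    obtain ⟨p, q, sg, p', q', h9, h10⟩ := k8_opts io h4 u (by rw [hn]; exact u.2)
    rw [← hι u] at h9 h10
    rw [hlook] at h9
    injection h9 with e1 e2 e3 e4 e5
    subst e1 e2 e3 e4 e5
    exact h10
  obtain ⟨hzlen, hind⟩ := k8_indep zl 0 h5
  have hzl : zl.len = 32 := by omega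
  have hz : ∀ z : Fin 32, zk.get z < n ∧ zl.get z = io.get (zk.get z) := fun z =>
    k8_zOK h7 z z.2
  have hcol : ∀ (v : Fin (8 * Ch.nb)) (c : Fin 8), PtsData.col Ch v c < 8 + Ch.nb := by
    intro v c
    have hv := v.2
    have hc := c.2
    unfold PtsData.col
    split_ifs <;> omega
  have hck : ∀ (v : ℕ) (c : Fin 8), colK v c = PtsData.col Ch v c := fun v c =>
    k8_col Ch v c c.2
  have hc8 : ∀ c : Fin 8, (c : ℕ) < 8 + Ch.nb := fun c => by have := c.2; omega
  have hιZ : ∀ z : Fin 32, ((ι ⟨zk.get z, (hz z).1⟩ : Fin (8 * Ch.nb)) : ℕ) = zl.get z := by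
    intro z
    exact (hι _).trans (hz z).2.symm
  obtain ⟨hb0, ho0⟩ := k8_optOK h2
  obtain ⟨hle0, hsum0⟩ := k8_potOK h1
  let D : PtsData2 Ch :=
    { al := fun j i => d16 A (4 * j + i)
      be := fun j i => d16 B (4 * j + i)
      w := fun v => ws.get v
      WO := WO
      p := fun v j => (d16 (pp v) j : ℤ)
      q := fun v c => (d16 (qq v) c : ℤ) - S
      p0 := fun j => (d16 p0 j : ℤ)
      q0 := fun c => (d16 q0 c : ℤ) - S
      m := n
      U := ι
      Z := fun z => ⟨zk.get z, (hz z).1⟩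
      sg0 := k8perm sg0
      sg := fun u => k8perm (ss (ι u))
      p0' := fun j => (d16 p0' j : ℤ)
      q0' := fun c => (d16 q0' c : ℤ) - S'
      p' := fun u j => (d16 (pp' (ι u)) j : ℤ)
      q' := fun u c => (d16 (qq' (ι u)) c : ℤ) - S'
      G := fun j i z' =>
        (((g >>> (2 * (32 * (4 * (j : ℕ) + (i : ℕ)) + (z' : ℕ)))) &&& 3 : ℕ) : ℤ) - 1
      c := 1 }
  have hsumS : ∀ (x y T : ℕ) (R : ℕ), ∑ j ∈ Finset.range 8, d16 x j +
      ∑ j ∈ Finset.range 8, d16 y j = R + 8 * T →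
      ∑ j : Fin 8, (d16 x j : ℤ) + ∑ c : Fin 8, ((d16 y c : ℤ) - T) = R := by
    intro x y T R h
    have h9 : ((∑ j ∈ Finset.range 8, d16 x j + ∑ j ∈ Finset.range 8, d16 y j : ℕ) : ℤ) =
      ((R + 8 * T : ℕ) : ℤ) := congrArg Nat.cast h
    push_cast at h9
    rw [Finset.sum_range, Finset.sum_range] at h9
    rw [Finset.sum_sub_distrib, Finset.sum_const, Finset.card_univ, Fintype.card_fin,
      nsmul_eq_mul]
    push_cast
    linarith
  have hD : D.Valid :=
    { Z_inj := by
        intro z z' hzz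
        have e1 : ((ι ⟨zk.get z, (hz z).1⟩ : Fin (8 * Ch.nb)) : ℕ) =
          (ι ⟨zk.get z', (hz z').1⟩ : Fin (8 * Ch.nb)) := congrArg Fin.val hzz
        rw [hιZ, hιZ] at e1
        exact Fin.ext ((k8_distinct zl 0 h6).2 z (by rw [hzl]; exact z.2) z'
          (by rw [hzl]; exact z'.2) e1)
      sum_w := by
        intro v
        have h9 := hsumS _ _ _ _ (k8_potOK (hpot v)).2
        push_cast at h9
        exact h9
      le_w := by
        intro v j c
        have h9 := (k8_potOK (hpot v)).1 j j.2 c c.2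
        rw [hck] at h9
        show PtsData.pr Ch (fun j i => d16 A (4 * j + i)) j (PtsData.col Ch v c) ≤
          (d16 (pp v) j : ℤ) + ((d16 (qq v) c : ℤ) - S)
        rw [k8_pr Ch A MO hMO j _ (hcol v c)]
        omega
      sum_0 := hsumS _ _ _ _ hsum0
      le_0 := by
        intro j c
        have h9 := hle0 j j.2 c c.2
        show PtsData.pr Ch (fun j i => d16 A (4 * j + i)) j c ≤
          (d16 p0 j : ℤ) + ((d16 q0 c : ℤ) - S)
        rw [k8_pr Ch A MO hMO j _ (hc8 c)]
        omega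
      tight_0 := by
        intro j
        have h9 := (ho0 j j.2 (d3 sg0 j) (k8_d3_lt _ _)).1 rfl
        show PtsData.pr Ch (fun j i => d16 A (4 * j + i)) j (k8perm sg0 j) =
            (d16 p0 j : ℤ) + ((d16 q0 (k8perm sg0 j : Fin 8) : ℤ) - S) ∧
          PtsData.pr Ch (fun j i => d16 B (4 * j + i)) j (k8perm sg0 j) =
            (d16 p0' j : ℤ) + ((d16 q0' (k8perm sg0 j : Fin 8) : ℤ) - S')
        rw [k8_pr Ch A MO hMO j _ (hc8 _), k8_pr Ch B MO hMO j _ (hc8 _), k8_perm_apply hb0]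
        omega
      strict_0 := by
        intro j c hne htt
        have hne' : (c : ℕ) ≠ d3 sg0 j := by
          intro h9
          apply hne
          apply Fin.ext
          show (c : ℕ) = (k8perm sg0 j : Fin 8)
          rw [k8_perm_apply hb0, h9]
        have htt' : PtsData.pr Ch (fun j i => d16 A (4 * j + i)) j c =
          (d16 p0 j : ℤ) + ((d16 q0 c : ℤ) - S) := htt
        show PtsData.pr Ch (fun j i => d16 B (4 * j + i)) j c <
          (d16 p0' j : ℤ) + ((d16 q0' c : ℤ) - S')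
        rw [k8_pr Ch A MO hMO j _ (hc8 _)] at htt'
        rw [k8_pr Ch B MO hMO j _ (hc8 _)]
        have h9 := (ho0 j j.2 c c.2).2 hne' (by omega)
        omega
      tight := by
        intro u j
        obtain ⟨hb, ho⟩ := k8_optOK (hopt u)
        have h9 := (ho j j.2 (d3 (ss (ι u)) j) (k8_d3_lt _ _)).1 rfl
        have h10 : colK (ι u) (d3 (ss (ι u)) j) =
            PtsData.col Ch (ι u) (k8perm (ss (ι u)) j) := by
          rw [← hck, k8_perm_apply hb]
        rw [h10] at h9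
        show PtsData.pr Ch (fun j i => d16 A (4 * j + i)) j
              (PtsData.col Ch (ι u) (k8perm (ss (ι u)) j)) =
            (d16 (pp (ι u)) j : ℤ) + ((d16 (qq (ι u)) (k8perm (ss (ι u)) j : Fin 8) : ℤ) - S) ∧
          PtsData.pr Ch (fun j i => d16 B (4 * j + i)) j
              (PtsData.col Ch (ι u) (k8perm (ss (ι u)) j)) =
            (d16 (pp' (ι u)) j : ℤ) + ((d16 (qq' (ι u)) (k8perm (ss (ι u)) j : Fin 8) : ℤ) - S')
        rw [k8_pr Ch A MO hMO j _ (hcol _ _), k8_pr Ch B MO hMO j _ (hcol _ _),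
          k8_perm_apply hb]
        omega
      strict := by
        intro u j c hne htt
        obtain ⟨hb, ho⟩ := k8_optOK (hopt u)
        have hne' : (c : ℕ) ≠ d3 (ss (ι u)) j := by
          intro h9
          apply hne
          apply Fin.ext
          show (c : ℕ) = (k8perm (ss (ι u)) j : Fin 8)
          rw [k8_perm_apply hb, h9]
        have htt' : PtsData.pr Ch (fun j i => d16 A (4 * j + i)) j (PtsData.col Ch (ι u) c) =
          (d16 (pp (ι u)) j : ℤ) + ((d16 (qq (ι u)) c : ℤ) - S) := htt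
        show PtsData.pr Ch (fun j i => d16 B (4 * j + i)) j (PtsData.col Ch (ι u) c) <
          (d16 (pp' (ι u)) j : ℤ) + ((d16 (qq' (ι u)) c : ℤ) - S')
        rw [k8_pr Ch A MO hMO j _ (hcol _ _)] at htt'
        rw [k8_pr Ch B MO hMO j _ (hcol _ _)]
        have h9 := (ho j j.2 c c.2).2 hne'
        rw [hck] at h9
        have h10 := h9 (by omega)
        omega
      c_ne := one_ne_zero
      indep := by
        intro z z'
        obtain ⟨p, q, sg, p', q', h9, h10⟩ := hind z (by rw [hzl]; exact z.2)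
        have h11 := h10 z' z'.2
        have hv := hιZ z
        set v := ι ⟨zk.get z, (hz z).1⟩ with hvdef
        rw [← hv] at h9 h11
        rw [hlook] at h9
        injection h9 with e1 e2 e3 e4 e5
        subst e3
        have h12 := k8_ent h11
        rw [Nat.zero_add] at h12
        have hb : Function.Bijective (k8f (ss v)) := (k8_optOK (hopt ⟨zk.get z, (hz z).1⟩)).1
        show ∑ j : Fin 8, ∑ i : Fin 4,
          ((Ch.mono (PtsData.col Ch v (k8perm (ss v) j)) i : ℤ) -
            (Ch.mono (k8perm sg0 j : Fin 8) i : ℤ)) *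
          ((((g >>> (2 * (32 * (4 * (j : ℕ) + (i : ℕ)) + (z' : ℕ)))) &&& 3 : ℕ) : ℤ) - 1) =
          if z = z' then 1 else 0
        have h13 : (if z = z' then (1 : ℤ) else 0) = if (z : ℕ) = (z' : ℕ) then 1 else 0 := by
          simp only [Fin.ext_iff]
        rw [h13, ← h12]
        refine Finset.sum_congr rfl fun j _ => Finset.sum_congr rfl fun i _ => ?_
        rw [hMO _ (hcol v _), hMO _ (hc8 _), k8_perm_apply hb0, ← hck, k8_perm_apply hb] }
  obtain ⟨K, P, hK, hP, hI, htop, hZ, hU⟩ := exists_pts_kernel2 Ch D hD k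
  have hιinj : Function.Injective ι := by
    intro u u' huu
    have e1 : ((ι u : Fin (8 * Ch.nb)) : ℕ) = ι u' := congrArg Fin.val huu
    rw [hι, hι] at e1
    exact Fin.ext ((k8_distinct io 0 h8).2 u (by rw [hn]; exact u.2) u'
      (by rw [hn]; exact u'.2) e1)
  have hZinj : Function.Injective D.Z := by
    intro z z' hzz
    exact hD.Z_inj (congrArg D.U hzz)
  refine ⟨K, P, hK, hP, hI, htop, ⟨Finset.univ.image D.Z, ?_, ?_⟩, hU⟩
  · rw [Finset.card_image_of_injective _ hZinj, Finset.card_univ, Fintype.card_fin]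
  · intro p hp hpP
    have h9 : rename ι p ∈ supported k (Set.range fun z => D.U (D.Z z)) := by
      rw [mem_supported] at hp ⊢
      intro v hv
      have h10 := vars_rename ι p hv
      obtain ⟨u, hu, hu2⟩ := Finset.mem_image.1 h10
      have h11 := hp hu
      rw [Finset.coe_image, Finset.coe_univ, Set.image_univ] at h11
      obtain ⟨z, hz'⟩ := h11
      refine ⟨z, ?_⟩
      show ι (D.Z z) = v
      rw [hz']
      exact hu2
    have h10 := hZ _ h9 hpP
    exact (rename_injective ι hιinj) (by rw [h10, map_zero])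

end Pool.Agent.Helper97.Hilb8.K
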