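import Pool.Agent.Helper97.Hilb8.K.Comb
import Pool.Agent.Helper97.Hilb8.K.Subst

/-!
Soundness of the kernel-evaluable certificates: the second component.
-/

namespace Pool.Agent.Helper97.Hilb8.K

open MvPolynomial

namespace K7f

theorem brec_iff {b X : Bool} :
    (Bool.rec (motive := fun _ => Bool) false X b : Bool) = true ↔ b = true ∧ X = true := by
  cases b <;> simp

theorem goodP_sound (C : Cst) (hC : C.ok) (p : P) (h : goodP C.G p = true) :
    p.All (Good C.n) := by
  induction p with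
  | z => trivial
  | t k x y r ih =>
    have h' : Bool.rec (motive := fun _ => Bool) false (goodP C.G r) (Nat.beq (Nat.land k C.G) 0) =
      true := h
    obtain ⟨h1, h2⟩ := brec_iff.1 h'
    exact ⟨(good_iff C hC k).1 (Nat.eq_of_beq_eq_true h1), ih h2⟩

theorem zeroT_all (G : ℕ) (VT : V) (T : Tr) (h : zeroT G VT T = true) :
    TAll (fun _ _ p => sP G VT isZero p .z = true) T := by
  induction T with
  | leaf =>
    intro i key p hp
    rw [k2_look_leaf] at hp
    exact En.noConfusion hp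
  | node l i k p r ihl ihr =>
    have h' : Bool.rec (motive := fun _ => Bool) false (Bool.rec (motive := fun _ => Bool) false
      (sP G VT isZero p .z) (zeroT G VT l)) (zeroT G VT r) = true := h
    rw [brec_iff, brec_iff] at h'
    obtain ⟨hr, hl, hp⟩ := h'
    intro j key q hj
    rw [k2_look_node] at hj
    cases h1 : Nat.ble j i
    · rw [h1] at hj
      exact ihr hr j key q hj
    · rw [h1] at hj
      cases h2 : Nat.beq i j
      · rw [h2] at hj
        exact ihl hl j key q hj
      · rw [h2] at hj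
        have h3 : En.some k p = En.some key q := hj
        injection h3 with h4 h5
        rw [← h5]
        exact hp

/-- The exponents of the terms that are not trivially zero satisfy `A`. -/
theorem supp_ev {n : ℕ} {k : Type*} [Field k] (A : (Fin n →₀ ℕ) → Prop) (p : P)
    (h : P.rec (motive := fun _ => Prop) True (fun key x y _ ih => (x = y ∨ A (expo n key)) ∧ ih) p) :
    ∀ e ∈ (p.ev n k).support, A e := by
  induction p with
  | z =>
    intro e he
    rw [ev_z] at he
    simp at he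
  | t key x y r ih =>
    obtain ⟨h1, h2⟩ : (x = y ∨ A (expo n key)) ∧ _ := h
    intro e he
    rw [ev_t] at he
    have h3 := support_add he
    rw [Finset.mem_union] at h3
    rcases h3 with h3 | h3
    · rcases h1 with h1 | h1
      · rw [h1, sub_self, monomial_zero] at h3
        simp at h3
      · have h4 := support_monomial_subset h3
        rw [Finset.mem_singleton] at h4
        rw [h4]
        exact h1
    · exact ih h2 e h3

theorem eqP_supp {n : ℕ} {k : Type*} [Field k] (ws : W) (hw : posOK n ws 0 = true) (d : ℕ) (p : P)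
    (h : eqP ws d p = true) : ∀ e ∈ (p.ev n k).support, wt (fun i : Fin n => ws.get i) e = d := by
  apply supp_ev (fun e => wt (fun i : Fin n => ws.get i) e = d)
  induction p with
  | z => trivial
  | t key x y r ih =>
    have h' : Bool.rec (motive := fun _ => Bool) false (eqP ws d r) (Nat.beq (wtk ws key) d) =
      true := h
    obtain ⟨h1, h2⟩ := brec_iff.1 h'
    refine ⟨Or.inr ?_, ih h2⟩
    rw [← wtk_eq ws hw]
    exact Nat.eq_of_beq_eq_true h1

theorem ltP_supp {n : ℕ} {k : Type*} [Field k] (ws : W) (hw : posOK n ws 0 = true) (d : ℕ) (p : P)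
    (h : ltP ws d p = true) : ∀ e ∈ (p.ev n k).support, wt (fun i : Fin n => ws.get i) e < d := by
  apply supp_ev (fun e => wt (fun i : Fin n => ws.get i) e < d)
  induction p with
  | z => trivial
  | t key x y r ih =>
    have h' : Bool.rec (motive := fun _ => Bool) false (ltP ws d r)
      (Bool.rec (motive := fun _ => Bool) (Nat.ble (Nat.succ (wtk ws key)) d) true (Nat.beq x y)) =
      true := h
    obtain ⟨h1, h2⟩ := brec_iff.1 h'
    refine ⟨?_, ih h2⟩
    cases hxy : Nat.beq x y
    · rw [hxy] at h1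
      right
      rw [← wtk_eq ws hw]
      exact Nat.le_of_ble_eq_true h1
    · left
      exact Nat.eq_of_beq_eq_true hxy

theorem topV_aux (wD : W) (n : ℕ) : ∀ (t t0 : V) (w : W) (v0 : ℕ), t.posOK n v0 = true →
    topV wD t t0 w = true → ∀ j, v0 + j < n →
    eqP wD (w.get j) (t0.get j) = true ∧
      ltP wD (w.get j) (addm 0 0 1 (t0.get j) (t.get j)) = true := by
  intro t
  induction t with
  | e =>
    intro t0 w v0 h _ j hj
    have h1 : v0 = n := Nat.eq_of_beq_eq_true h
    omega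
  | c s q r ih =>
    intro t0 w v0 h ht j hj
    have h' : Bool.rec (motive := fun _ => Bool) false (r.posOK n (v0 + 1))
      (Nat.beq s (32 + 5 * v0)) = true := h
    obtain ⟨-, hr⟩ := brec_iff.1 h'
    cases t0 with
    | e => exact Bool.noConfusion ht
    | c s0 q0 r0 =>
      cases w with
      | e => exact Bool.noConfusion ht
      | c sw a rw' =>
        have ht' : Bool.rec (motive := fun _ => Bool) false
          (Bool.rec (motive := fun _ => Bool) false (topV wD r r0 rw')
          (ltP wD a (addm 0 0 1 q0 q))) (eqP wD a q0) = true := ht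
        obtain ⟨h1, h2⟩ := brec_iff.1 ht'
        obtain ⟨h3, h4⟩ := brec_iff.1 h2
        cases j with
        | zero => exact ⟨h1, h3⟩
        | succ j => exact ih r0 rw' (v0 + 1) hr h4 j (by omega)

end K7f

open K7f

theorem zeroT_sound (C D : Cst) (hC : C.ok) (hD : D.ok) (VT : V) (hp : VT.posOK C.n 0 = true)
    (hg : VT.good D.G = true) (CT : Tr) (h : zeroT D.G VT CT = true) (k : Type*) [Field k] :
    ∀ p ∈ tabI C.n k CT, VT.hom C.n D.n k p = 0 := by
  have h0 : tabI C.n k CT ≤ RingHom.ker (VT.hom C.n D.n k).toRingHom := by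
    rw [tabI, Ideal.span_le]
    rintro q ⟨x, key, p, hx, rfl⟩
    have h1 := zeroT_all D.G VT CT h x key p hx
    obtain ⟨a, -, ha, ha'⟩ := sP_sound C D hC hD (k := k) VT hp hg isZero p .z trivial h1
    rw [ev_of_isZero ha', ev_z, zero_add] at ha
    exact ha.symm
  intro p hp'
  exact h0 hp'

theorem topV_sound (C D : Cst) (hD : D.ok) (VT V0 : V) (hp : VT.posOK C.n 0 = true)
    (hp0 : V0.posOK C.n 0 = true) (hg : VT.good D.G = true) (hg0 : V0.good D.G = true)
    (ws wD : W) (hw : posOK C.n ws 0 = true) (hwD : posOK D.n wD 0 = true)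
    (h : topV wD VT V0 ws = true) (k : Type*) [Field k] (v : Fin C.n) :
    IsTop (fun i : Fin D.n => wD.get i) (VT.hom C.n D.n k (X v)) (V0.hom C.n D.n k (X v))
      (ws.get v) := by
  obtain ⟨h1, h2⟩ := topV_aux wD C.n VT V0 ws 0 hp h v (by simp)
  have e1 : VT.hom C.n D.n k (X v) = (VT.get v).ev D.n k := by rw [V.hom, aeval_X]
  have e2 : V0.hom C.n D.n k (X v) = (V0.get v).ev D.n k := by rw [V.hom, aeval_X]
  rw [e1, e2]
  refine ⟨eqP_supp wD hwD _ _ h1, ?_⟩
  have h3 := ltP_supp (k := k) wD hwD _ _ h2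
  rw [ev_addm (k4d_good_zero _) (good_get D hD V0 hg0 v), k4d_expo_zero] at h3
  have h4 : (VT.get v).ev D.n k + monomial 0 (((0 : ℕ) : k) - ((1 : ℕ) : k)) * (V0.get v).ev D.n k
      = (VT.get v).ev D.n k - (V0.get v).ev D.n k := by
    have h5 : (monomial 0 (((0 : ℕ) : k) - ((1 : ℕ) : k)) : MvPolynomial (Fin D.n) k) = -1 := by
      rw [Nat.cast_zero, Nat.cast_one, zero_sub]
      change MvPolynomial.C (-1) = -1
      rw [C_neg, C_1]
    rw [h5]
    ring
  rw [h4] at h3
  exact h3

theorem K7f.mask_iff (D : Cst) (hD : D.ok) (A key : ℕ) (hA : ∀ v < D.n, dig A v = 0 ∨ dig A v = 31) :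
    Nat.beq (Nat.land (Nat.land key D.LOW) A) (Nat.land key D.LOW) = true ↔
      ∀ v < D.n, dig key v ≠ 0 → dig A v = 31 := by
  obtain ⟨_, _, _, hL, _⟩ := hD
  rw [Nat.beq_eq]
  change (key &&& D.LOW) &&& A = key &&& D.LOW ↔ _
  have h1 : (key &&& D.LOW) &&& A = (key &&& A) &&& D.LOW := by
    rw [Nat.and_assoc, Nat.and_comm D.LOW A, ← Nat.and_assoc]
  rw [h1, hL, low_eq]
  constructor
  · intro h v hv hne
    have h2 := h v hv
    rw [dig_and] at h2
    rcases hA v hv with h3 | h3
    · rw [h3, Nat.and_zero] at h2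
      exact absurd h2.symm hne
    · exact h3
  · intro h v hv
    rw [dig_and]
    by_cases h2 : dig key v = 0
    · rw [h2, Nat.zero_and]
    · rw [h v hv h2, and31 (dig_lt _ _)]

theorem K7f.sumM_aux (D : Cst) (hD : D.ok) (A : ℕ) (hA : ∀ v < D.n, dig A v = 0 ∨ dig A v = 31)
    {k : Type*} [Field k] (a : P) : ∀ x0 y0 : ℕ, sumM D.LOW A a x0 y0 = true →
    ∃ x y : ℕ, coefOK x y = true ∧ (x : k) - (y : k) = ((x0 : k) - (y0 : k)) +
      aeval (fun v : Fin D.n => if dig A v = 31 then (1 : k) else 0) (a.ev D.n k) := by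
  induction a with
  | z =>
    intro x0 y0 h
    refine ⟨x0, y0, h, ?_⟩
    rw [ev_z, map_zero, add_zero]
  | t key x y r ih =>
    intro x0 y0 h
    have h' : Bool.rec (motive := fun _ => Bool) (sumM D.LOW A r x0 y0)
      (sumM D.LOW A r (x0 + x) (y0 + y))
      (Nat.beq (Nat.land (Nat.land key D.LOW) A) (Nat.land key D.LOW)) = true := h
    cases hb : Nat.beq (Nat.land (Nat.land key D.LOW) A) (Nat.land key D.LOW)
    · rw [hb] at h'
      obtain ⟨X, Y, h1, h2⟩ := ih x0 y0 h'
      refine ⟨X, Y, h1, ?_⟩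
      rw [h2, ev_t, map_add, aeval_monomial]
      have h3 : ¬ ∀ v < D.n, dig key v ≠ 0 → dig A v = 31 := by
        rw [← K7f.mask_iff D hD A key hA, hb]
        exact Bool.false_ne_true
      push Not at h3
      obtain ⟨v, hv, h4, h5⟩ := h3
      have h6 : ((expo D.n key).prod fun i e =>
          (if dig A i = 31 then (1 : k) else 0) ^ e) = 0 := by
        rw [Finsupp.prod]
        apply Finset.prod_eq_zero (i := (⟨v, hv⟩ : Fin D.n))
        · rw [Finsupp.mem_support_iff, expo_apply]
          exact h4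
        · rw [if_neg h5, expo_apply, zero_pow h4]
      rw [h6, mul_zero, zero_add]
    · rw [hb] at h'
      obtain ⟨X, Y, h1, h2⟩ := ih _ _ h'
      refine ⟨X, Y, h1, ?_⟩
      rw [h2, ev_t, map_add, aeval_monomial]
      have h3 := (K7f.mask_iff D hD A key hA).1 hb
      have h6 : ((expo D.n key).prod fun i e =>
          (if dig A i = 31 then (1 : k) else 0) ^ e) = 1 := by
        rw [Finsupp.prod]
        apply Finset.prod_eq_one
        intro v hv
        rw [Finsupp.mem_support_iff, expo_apply] at hv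
        rw [if_pos (h3 v v.2 hv), one_pow]
      rw [h6, mul_one]
      push_cast
      ring

theorem sumM_sound (D : Cst) (hD : D.ok) (A : ℕ) (hA : ∀ v < D.n, dig A v = 0 ∨ dig A v = 31)
    (a : P) (h : sumM D.LOW A a 0 0 = true)
    {k : Type*} [Field k] (h2 : (2 : k) ≠ 0) : a.ev D.n k ≠ 0 := by
  obtain ⟨x, y, h1, h3⟩ := K7f.sumM_aux (k := k) D hD A hA a 0 0 h
  intro h4
  apply coefOK_sound h1 h2
  rw [h3, h4, map_zero]
  simp

theorem K7f.mkJV_get (VP : V) : ∀ (jv : L) (i0 i : ℕ), i < jv.len →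
    (mkJV VP jv i0).get i = VP.get (jv.get i) := by
  intro jv
  induction jv with
  | e =>
    intro i0 i hi
    exact absurd hi (Nat.not_lt_zero _)
  | c a l ih =>
    intro i0 i hi
    cases i with
    | zero => rfl
    | succ i =>
      have h1 : i + 1 < l.len + 1 := hi
      exact ih (i0 + 1) i (by omega)

theorem mkJV_hom (C C' D : Cst) {k : Type*} [Field k] (VP : V) (jv : L) (hjv : jv.len = D.n)
    (hjb : ∀ i < D.n, jv.get i < C.n) (q : MvPolynomial (Fin D.n) k) :
    VP.hom C.n C'.n k (aeval (fun i : Fin D.n =>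
      (X ⟨jv.get i, hjb i i.2⟩ : MvPolynomial (Fin C.n) k)) q) =
      (mkJV VP jv 0).hom D.n C'.n k q := by
  have h : (VP.hom C.n C'.n k).comp (aeval (fun i : Fin D.n =>
      (X ⟨jv.get i, hjb i i.2⟩ : MvPolynomial (Fin C.n) k))) = (mkJV VP jv 0).hom D.n C'.n k := by
    apply MvPolynomial.algHom_ext
    intro i
    rw [AlgHom.comp_apply, aeval_X, V.hom, V.hom, aeval_X, aeval_X,
      K7f.mkJV_get VP jv 0 i (by rw [hjv]; exact i.2)]
  exact DFunLike.congr_fun h q

theorem K7f.chkA_aux (G : ℕ) (VP JV V0 : V) (io : L) (f0 : P) (Dt : Tr) (ND : ℕ) (l : TL) :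
    ∀ (t0 j : ℕ), j < l.len → chkA G VP JV V0 io f0 Dt ND l t0 = true →
    ∃ cl : CL, sP G JV (fun a =>
        (fun q => Bool.rec false (Bool.rec false (inSpan G Dt ND cl (mulAdd f0 q .z))
          (goodP G (mulAdd f0 q .z))) (goodP G q))
          (addm 0 0 1 a (VP.get (io.get (t0 + j)))))
        (V0.get (io.get (t0 + j))) .z = true := by
  induction l with
  | e =>
    intro t0 j hj
    exact absurd hj (Nat.not_lt_zero _)
  | c cl r ih =>
    intro t0 j hj h
    have h' : Bool.rec (motive := fun _ => Bool) false (chkA G VP JV V0 io f0 Dt ND r (t0 + 1))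
      (sP G JV (fun a =>
        (fun q => Bool.rec false (Bool.rec false (inSpan G Dt ND cl (mulAdd f0 q .z))
          (goodP G (mulAdd f0 q .z))) (goodP G q)) (addm 0 0 1 a (VP.get (io.get t0))))
        (V0.get (io.get t0)) .z) = true := h
    obtain ⟨h1, h2⟩ := brec_iff.1 h'
    cases j with
    | zero => exact ⟨cl, h1⟩
    | succ j =>
      have h3 : j + 1 < r.len + 1 := hj
      obtain ⟨cl', h4⟩ := ih (t0 + 1) j (by omega) h2
      have h5 : t0 + 1 + j = t0 + (j + 1) := by omega
      rw [h5] at h4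
      exact ⟨cl', h4⟩

theorem chkA_sound (C C' D : Cst) (hC : C.ok) (hC' : C'.ok) (hD : D.ok) {k : Type*} [Field k]
    (VP V0 : V) (hVP : VP.posOK C.n 0 = true) (hVg : VP.good C'.G = true)
    (hV0 : V0.posOK C.n 0 = true) (jv : L) (hjv : jv.len = D.n)
    (hJp : (mkJV VP jv 0).posOK D.n 0 = true) (hJg : (mkJV VP jv 0).good C'.G = true)
    (io : L) (hlen : io.len = C'.n) (hio : ∀ t < C'.n, io.get t < C.n)
    (f0 : P) (hf0 : f0.All (Good C'.n))
    (J : Ideal (MvPolynomial (Fin C'.n) k)) (Dt : Tr) (ND : ℕ)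
    (hDt : ∀ i < ND, ∀ key q, look Dt i = .some key q → q.All (Good C'.n) ∧ q.ev C'.n k ∈ J)
    (l : TL) (hl : C'.n ≤ l.len) (h : chkA C'.G VP (mkJV VP jv 0) V0 io f0 Dt ND l 0 = true)
    (ι : Fin C'.n → Fin C.n) (hι : ∀ t, (ι t : ℕ) = io.get t) (t : Fin C'.n) :
    f0.ev C'.n k * (VP.hom C.n C'.n k (X (ι t)) -
      (mkJV VP jv 0).hom D.n C'.n k (V0.hom C.n D.n k (X (ι t)))) ∈ J := by
  obtain ⟨cl, h1⟩ := K7f.chkA_aux C'.G VP (mkJV VP jv 0) V0 io f0 Dt ND l 0 t
    (lt_of_lt_of_le t.2 hl) h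
  rw [Nat.zero_add, ← hι t] at h1
  obtain ⟨a, ha, hev, hf⟩ := sP_sound D C' hD hC' (k := k) (mkJV VP jv 0) hJp hJg _ _ .z trivial h1
  obtain ⟨hg1, hf⟩ := brec_iff.1 hf
  obtain ⟨hg2, hf⟩ := brec_iff.1 hf
  have hq := goodP_sound C' hC' _ hg1
  have hmq := goodP_sound C' hC' _ hg2
  have hmem := inSpan_sound C' hC' J Dt ND hDt cl _ hmq hf
  rw [ev_mulAdd hf0 hq, ev_z, zero_add, ev_addm (k4d_good_zero _) ha, k4d_expo_zero, hev, ev_z,
    zero_add] at hmem
  have e1 : VP.hom C.n C'.n k (X (ι t)) = (VP.get (ι t)).ev C'.n k := by rw [V.hom, aeval_X]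
  have e2 : V0.hom C.n D.n k (X (ι t)) = (V0.get (ι t)).ev D.n k := by rw [V.hom, aeval_X]
  rw [e1, e2]
  have h5 : (monomial 0 (((0 : ℕ) : k) - ((1 : ℕ) : k)) : MvPolynomial (Fin C'.n) k) = -1 := by
    rw [Nat.cast_zero, Nat.cast_one, zero_sub]
    change MvPolynomial.C (-1) = -1
    rw [C_neg, C_1]
  rw [h5, neg_one_mul, ← sub_eq_add_neg] at hmem
  exact hmem

end Pool.Agent.Helper97.Hilb8.K
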