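import Pool.Agent.Helper97.Hilb8.K.Prime
import Pool.Agent.Helper97.Hilb8.K.TopC
import Pool.Agent.Helper97.Hilb8.K.Kept
import Pool.Agent.Helper97.Hilb8.K.Comm
import Pool.Agent.Helper97.Hilb8.K.PtsOK
import Pool.Agent.Helper97.Hilb8.K.Comb
import Pool.Agent.Helper97.Hilb8.K.Subst
import Pool.Agent.Helper97.Hilb8.K.Theta
import Pool.Agent.Helper97.Hilb8.K.Assembly

/-!
Soundness of the kernel-evaluable certificates: assembly.
-/

universe u

namespace Pool.Agent.Helper97.Hilb8.K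

open MvPolynomial

namespace K10

theorem kept_lt (G LOW m : ℕ) (VP : V) (l : L) : ∀ t0, keptOK G LOW m VP l t0 = true →
    ∀ j < l.len, l.get j < m := by
  induction l with
  | e =>
    intro t0 _ j hj
    exact absurd hj (Nat.not_lt_zero _)
  | c a r ih =>
    intro t0 h j hj
    have h' : Bool.rec (motive := fun _ => Bool) false (Bool.rec (motive := fun _ => Bool) false
      (keptOK G LOW m VP r (t0 + 1)) (isVar G LOW t0 (VP.get a))) (Nat.ble (Nat.succ a) m) =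
      true := h
    obtain ⟨h1, h2⟩ := K7f.brec_iff.1 h'
    obtain ⟨h3, h4⟩ := K7f.brec_iff.1 h2
    cases j with
    | zero => exact Nat.le_of_ble_eq_true h1
    | succ j =>
      have h5 : j + 1 < r.len + 1 := hj
      exact ih (t0 + 1) h4 j (by omega)

theorem rows_row (G LOW sh : ℕ) (T : Tr) (R : Rows) : ∀ i0, rows G LOW sh T R i0 = true →
    ∀ j, i0 ≤ j → j < i0 + R.len → ∀ Lj tj, look T j = .some Lj tj →
      ∃ codes trs, row G LOW sh T j Lj tj j codes trs = true := by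
  induction R with
  | e =>
    intro i0 _ j h1 h2
    have h3 : j < i0 + 0 := h2
    omega
  | r j0 codes trs rest ih =>
    intro i0 h j h1 h2 Lj tj hl
    have h' : Bool.rec (motive := fun _ => Bool) false (Bool.rec (motive := fun _ => Bool) false
      (rows G LOW sh T rest (i0 + 1))
      (En.rec (motive := fun _ => Bool) false (fun Lj tj => row G LOW sh T j0 Lj tj j0
        (Nat.shiftRight codes 9) trs) (look T j0))) (Nat.beq j0 i0) = true := h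
    obtain ⟨h3, h4⟩ := K7f.brec_iff.1 h'
    obtain ⟨h5, h6⟩ := K7f.brec_iff.1 h4
    have h7 : j0 = i0 := Nat.eq_of_beq_eq_true h3
    rcases Nat.eq_or_lt_of_le h1 with h8 | h8
    · subst h7
      subst h8
      rw [hl] at h5
      exact ⟨_, _, h5⟩
    · have h9 : j < i0 + (rest.len + 1) := h2
      exact ih (i0 + 1) h6 j (by omega) (by omega) Lj tj hl

theorem wtT_all (C : Cst) (hC : C.ok) (ws : W) (hw : posOK C.n ws 0 = true) (T : Tr)
    (h : wtT C.G C.sh ws T = true) : TAll (fun _ _ p => p.All (Good C.n)) T := by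
  induction T with
  | leaf => exact TAll_leaf _
  | node l i k p r ihl ihr =>
    have h' : Bool.rec (motive := fun _ => Bool) false (Bool.rec (motive := fun _ => Bool) false
      (relOK C.G C.sh ws p) (wtT C.G C.sh ws l)) (wtT C.G C.sh ws r) = true := h
    obtain ⟨h1, h2⟩ := K7f.brec_iff.1 h'
    obtain ⟨h3, h4⟩ := K7f.brec_iff.1 h2
    exact TAll_node _ l i k p r (k2_All_mono (k4d_all_of_relOK C hC ws hw p h4) fun _ h => h.1)
      (ihl h3) (ihr h1)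

theorem chkJ_all (C : Cst) (hC : C.ok) {k : Type*} [Field k] (h2 : (2 : k) ≠ 0)
    (J : Ideal (MvPolynomial (Fin C.n) k)) (E D : Tr) (ND : ℕ)
    (hE : TAll (fun _ _ p => p.All (Good C.n) ∧ p.ev C.n k ∈ J) E)
    (hD : TAll (fun _ _ p => p.All (Good C.n)) D)
    (h : ∀ i < ND, ∃ l i0, i0 ≤ i ∧ i < i0 + l.len ∧ chkJ C.G E D l i0 = true) :
    ∀ i < ND, ∀ key q, look D i = .some key q → q.ev C.n k ∈ J := by
  intro i
  induction i using Nat.strong_induction_on with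
  | _ i ih =>
    intro hi
    obtain ⟨l, i0, h3, h4, h5⟩ := h i hi
    exact chkJ_sound C hC h2 J E D hE hD l i0 (fun j hj => ih j (by omega) (by omega)) h5 i h4

theorem ev_neg_addm {n : ℕ} {k : Type*} [Field k] (p : P) (hp : p.All (Good n)) :
    (addm 0 0 1 p .z).ev n k = - p.ev n k := by
  rw [k7b_ev_addm0 0 1 p .z hp, ev_z, Nat.cast_zero, Nat.cast_one, zero_sub, C_neg, C_1, zero_add,
    neg_one_mul]

theorem all_neg_addm {n : ℕ} (p : P) (hp : p.All (Good n)) :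
    (addm 0 0 1 p .z).All (Good n) :=
  all_addm (k2_All_mono hp fun t ht => by rwa [Nat.add_zero]) trivial

theorem expo_single (C : Cst) (hC : C.ok) (x a : ℕ) (ha : a < C.n)
    (h : Nat.land x C.LOW = Nat.shiftLeft 1 (Nat.add 32 (Nat.mul 5 a))) :
    expo C.n x = Finsupp.single (⟨a, ha⟩ : Fin C.n) 1 := by
  obtain ⟨_, _, _, hL, _⟩ := hC
  have h0 : x &&& C.LOW = 2 ^ (32 + 5 * a) := by
    have h1 : x &&& C.LOW = 1 <<< (32 + 5 * a) := h
    rw [h1, Nat.shiftLeft_eq, one_mul]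
  have h1 : ∀ v < C.n, dig (x &&& C.LOW) v = dig x v := by
    rw [← low_eq, hL, Nat.and_assoc, Nat.and_self]
  ext v
  rw [expo_apply, ← h1 v v.2, h0]
  by_cases hv : (v : ℕ) = a
  · have e1 : v = (⟨a, ha⟩ : Fin C.n) := Fin.ext hv
    subst e1
    rw [Finsupp.single_eq_same]
    change 2 ^ (32 + 5 * a) / 2 ^ 32 / 32 ^ a % 32 = 1
    have e2 : 2 ^ (32 + 5 * a) = 2 ^ 32 * 32 ^ a := by
      rw [pow_add, pow_mul]
      norm_num
    rw [e2, Nat.mul_div_cancel_left _ (by positivity), Nat.div_self (by positivity)]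
  · rw [k4e_dig_pow hv, Finsupp.single_eq_of_ne]
    intro e1
    apply hv
    rw [e1]

theorem isTop_X {σ : Type*} [DecidableEq σ] {k : Type*} [Field k] (w : σ → ℕ) (v : σ) :
    IsTop w (MvPolynomial.X v : MvPolynomial σ k) (MvPolynomial.X v) (w v) := by
  refine ⟨fun e he => ?_, fun e he => ?_⟩
  · have h1 := support_monomial_subset he
    rw [Finset.mem_singleton] at h1
    rw [h1, wt, Finsupp.sum_single_index (by simp), one_mul]
  · rw [sub_self] at he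
    simp at he

end K10

open K10

theorem isReduced_of_ok (Ch : Chart) (X : Data) (h : X.OK Ch) (k : Type u) [Field k]
    (h2 : (2 : k) ≠ 0) : IsReduced (MvPolynomial (Fin (8 * Ch.nb)) k ⧸ Ch.ideal k) := by
  classical
  have hC := h.hC
  have hC' := h.hC'
  have hCD := h.hCD
  have hio : ∀ t < X.cK.n, X.io.get t < 8 * Ch.nb := by
    intro t ht
    rw [← h.hlen] at ht
    exact kept_lt _ _ _ _ _ _ h.hio t ht
  let ι : Fin X.cK.n → Fin (8 * Ch.nb) := fun t => ⟨X.io.get t, hio t t.2⟩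
  have hι : ∀ t, (ι t : ℕ) = X.io.get t := fun t => rfl
  have hI : Ch.ideal k = tabI (8 * Ch.nb) k X.cT :=
    comm_span Ch X.sh X.G X.LOW X.SQ hC X.NX h.hNX X.VK X.cT h.hV h.hV' h.hCT h.hAll k
  obtain ⟨K, P, hK, hP, hIK, hKP, ⟨Z0, hZc, hZ⟩, hXP⟩ :=
    pts_of_checks Ch X.pA X.pB X.pMO X.pS X.pS2 X.pWO X.pG X.sg0 X.p0 X.q0 X.p02 X.q02 h.hMO
      h.hp1 h.hp2 X.pT X.wr h.hwr h.hp3 X.io h.hp4 X.zl X.zk h.hp5 h.hp6 h.hlen h.hp7 h.hdist
      ι hι k
  obtain ⟨ha, hb, hc⟩ := chkV_sound (Cst.mk (8 * Ch.nb) X.sh X.G X.LOW X.SQ) X.cK hC hC' X.wr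
    h.hwr X.cT h.hwT X.VP h.hVP h.hVg X.io h.hio X.ve h.hve h.hlen ι hι h2
  rw [hI] at hIK ⊢
  -- every polynomial is congruent to its image in the kept variables
  have hd : ∀ g : MvPolynomial (Fin (8 * Ch.nb)) k,
      g - rename ι (X.VP.hom (8 * Ch.nb) X.cK.n k g) ∈
        inI (fun v : Fin (8 * Ch.nb) => X.wr.get v) (tabI (8 * Ch.nb) k X.cT) := by
    intro g
    rw [← Ideal.Quotient.eq]
    have h1 : ((Ideal.Quotient.mkₐ k _).comp ((rename ι).comp (X.VP.hom (8 * Ch.nb) X.cK.n k))) =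
        Ideal.Quotient.mkₐ k
          (inI (fun v : Fin (8 * Ch.nb) => X.wr.get v) (tabI (8 * Ch.nb) k X.cT)) := by
      apply MvPolynomial.algHom_ext
      intro v
      have h3 := hb v
      rw [← Ideal.Quotient.eq] at h3
      exact h3.symm
    exact (DFunLike.congr_fun h1 g).symm
  set Ji := inI (fun v : Fin (8 * Ch.nb) => X.wr.get v) (tabI (8 * Ch.nb) k X.cT) with hJi
  let J' : Ideal (MvPolynomial (Fin X.cK.n) k) := Ideal.comap (rename ι) Ji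
  -- generators
  have hEg := goodT_sound X.cK hC' X.NE X.gE h.hE
  have hEJ : TAll (fun _ _ p => p.All (Good X.cK.n) ∧ p.ev X.cK.n k ∈ J') X.gE := by
    intro i key q hq
    obtain ⟨hi, hg⟩ := hEg i key q hq
    obtain ⟨l, i0, h3, h4, h5⟩ := h.hR i hi
    refine ⟨hg, ?_⟩
    exact chkR_sound (Cst.mk (8 * Ch.nb) X.sh X.G X.LOW X.SQ) X.cK hC hC' X.wr h.hwr X.cT h.hwT
      X.VP h.hVP h.hVg X.gE (fun i key q hq => (hEg i key q hq).2) l i0 h5 ι hc i h3 h4 key q hq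
  -- derived elements
  have hDg := goodT_sound X.cK hC' X.ND X.gD h.hD
  have hDJ := chkJ_all X.cK hC' h2 J' X.gE X.gD X.ND hEJ (fun i key q hq => (hDg i key q hq).2)
    h.hJ
  -- the polynomial `f`
  obtain ⟨hfg, hf0g, hfT⟩ := topF_sound (Cst.mk (8 * Ch.nb) X.sh X.G X.LOW X.SQ) hC X.wr h.hwr
    X.d0 X.f X.f0 h.hf k
  have hf0kg := goodP_sound X.cK hC' _ h.hf0k
  have hf0k : X.f0k.ev X.cK.n k = X.VP.hom (8 * Ch.nb) X.cK.n k (X.f0.ev (8 * Ch.nb) k) := by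
    obtain ⟨a, -, h3, h4⟩ := sP_sound (Cst.mk (8 * Ch.nb) X.sh X.G X.LOW X.SQ) X.cK hC hC'
      (k := k) X.VP h.hVP h.hVg isZero X.f0 _ (all_neg_addm _ hf0kg) h.hf0
    rw [ev_of_isZero h4, ev_neg_addm _ hf0kg] at h3
    linear_combination h3
  -- elements derived with `f0`
  let J'' : Ideal (MvPolynomial (Fin X.cK.n) k) :=
    Ideal.comap (rename ι) (Ji ⊔ Ideal.span {X.f0.ev (8 * Ch.nb) k})
  have hJJ : J' ≤ J'' := Ideal.comap_mono le_sup_left
  have hf0J : X.f0k.ev X.cK.n k ∈ J'' := by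
    rw [Ideal.mem_comap, hf0k]
    have h3 : rename ι (X.VP.hom (8 * Ch.nb) X.cK.n k (X.f0.ev (8 * Ch.nb) k)) =
        X.f0.ev (8 * Ch.nb) k - (X.f0.ev (8 * Ch.nb) k -
          rename ι (X.VP.hom (8 * Ch.nb) X.cK.n k (X.f0.ev (8 * Ch.nb) k))) := by ring
    rw [h3]
    exact Ideal.sub_mem _ (Ideal.mem_sup_right (Ideal.mem_span_singleton_self _))
      (Ideal.mem_sup_left (hd _))
  have hE2 : TAll (fun _ _ p => p.All (Good X.cK.n) ∧ p.ev X.cK.n k ∈ J'') X.E2 :=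
    TAll_node _ _ _ _ _ _ ⟨hf0kg, hf0J⟩ (fun i key q hq => ⟨(hEJ i key q hq).1,
      hJJ (hEJ i key q hq).2⟩) (TAll_leaf _)
  have hD2g := goodT_sound X.cK hC' X.ND2 X.D2 h.hD2
  have hD2J := chkJ_all X.cK hC' h2 J'' X.E2 X.D2 X.ND2 hE2
    (fun i key q hq => (hD2g i key q hq).2) h.hJ2
  have hTab := tab_of_check X.cK hC' X.wk h.hwk X.N X.tT h.hT
  have hTJ : ∀ i < X.N, (look X.tT i).ev X.cK.n k ∈ J'' := by
    intro i hi
    obtain ⟨l, i0, h3, h4, h5⟩ := h.hT2 i hi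
    exact chkT_sound X.cK hC' J'' X.D2 X.ND2
      (fun i hi key q hq => ⟨(hD2g i key q hq).2, hD2J i hi key q hq⟩) X.tT
      (fun i key q hq => ⟨(hTab i key q hq).2.1,
        k2_All_mono (hTab i key q hq).2.2.2 fun _ h => h.1⟩) l i0 h5 i h3 h4
  -- `f` lies in `K`
  have hfK : X.f.ev (8 * Ch.nb) k ∈ K := by
    have hcT := wtT_all (Cst.mk (8 * Ch.nb) X.sh X.G X.LOW X.SQ) hC X.wr h.hwr X.cT h.hwT
    have h3 := comb_sound (Cst.mk (8 * Ch.nb) X.sh X.G X.LOW X.SQ) hC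
      (tabI (8 * Ch.nb) k X.cT) X.cT 4096 (fun i _ key q hq => ⟨hcT i key q hq,
        Ideal.subset_span ⟨i, key, q, hq, rfl⟩⟩) X.fcl _ h.hfc
    have hxg : Good (8 * Ch.nb) X.xk :=
      (good_iff (Cst.mk (8 * Ch.nb) X.sh X.G X.LOW X.SQ) hC _).1 h.hxk.1
    have hex : expo (8 * Ch.nb) X.xk = Finsupp.single (ι ⟨X.xi, h.hxi⟩) 1 :=
      expo_single (Cst.mk (8 * Ch.nb) X.sh X.G X.LOW X.SQ) hC X.xk (X.io.get X.xi)
        (hio X.xi h.hxi) h.hxk.2
    have h4 : (addm X.xk 0 1 X.f .z).ev (8 * Ch.nb) k =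
        -(MvPolynomial.X (ι ⟨X.xi, h.hxi⟩) * X.f.ev (8 * Ch.nb) k) := by
      rw [ev_addm hxg hfg, ev_z, hex, Nat.cast_zero, Nat.cast_one, zero_sub, zero_add,
        map_neg, neg_mul]
      rfl
    have h5 : -(MvPolynomial.X (ι ⟨X.xi, h.hxi⟩) * X.f.ev (8 * Ch.nb) k) ∈ K := by
      rw [← h4]
      exact hIK h3
    have h6 := (Ideal.neg_mem_iff K).1 h5
    rcases hK.mem_or_mem h6 with h7 | h7
    · exact absurd (hKP _ h7 _ _ (isTop_X _ _)) (hXP _)
    · exact h7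
  have hf0P : X.f0.ev (8 * Ch.nb) k ∈ P := hKP _ hfK _ _ hfT
  have hJP : Ji ⊔ Ideal.span {X.f0.ev (8 * Ch.nb) k} ≤ P := by
    rw [sup_le_iff, Ideal.span_singleton_le_iff_mem]
    refine ⟨Ideal.span_le.2 ?_, hf0P⟩
    rintro t ⟨g, hg, d, ht⟩
    exact hKP g (hIK hg) t d ht
  -- primality
  have hPp : (Ideal.comap (rename ι) P : Ideal (MvPolynomial (Fin X.cK.n) k)).IsPrime :=
    Ideal.comap_isPrime _ _
  obtain ⟨ie, we, hie⟩ := h.hlast
  have hPQ := le_of_checks X.cK hC' X.wk h.hwk X.N X.tT h.hT h.hN (by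
      intro j hj Lj tj hl
      obtain ⟨R, i0, h3, h4, h5⟩ := h.hrows j hj
      exact rows_row _ _ _ _ R i0 h5 j h3 h4 Lj tj hl) X.tM X.tR X.tY h.hM h.hRel 32 h.hY X.DC
    h.hDC ie we hie h2 (Ideal.comap (rename ι) P) (fun i => hJP (hTJ i i.2))
    (fun v hv => hXP v (by rw [Ideal.mem_comap, rename_X] at hv; exact hv)) Z0 hZc.ge
    (fun p hp hpP => hZ p hp hpP)
  -- the second component
  let j0 : MvPolynomial (Fin X.cD.n) k →ₐ[k] MvPolynomial (Fin (8 * Ch.nb)) k :=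
    aeval (fun i : Fin X.cD.n => MvPolynomial.X ⟨X.jv.get i, h.hjb i i.2⟩)
  refine isReduced_of_tops (fun v : Fin (8 * Ch.nb) => X.wr.get v)
    (fun v : Fin X.cD.n => X.wD.get v) (tabI (8 * Ch.nb) k X.cT) K P hIK hKP ι
    (X.VP.hom (8 * Ch.nb) X.cK.n k) ha hb (X.f.ev (8 * Ch.nb) k) (X.f0.ev (8 * Ch.nb) k) X.d0
    hfK hfT (Ideal.span (Set.range fun i : Fin X.N => (look X.tT i).ev X.cK.n k)) ?_
    (fun q hq => hPQ hq) (X.VT.hom (8 * Ch.nb) X.cD.n k) (X.V0.hom (8 * Ch.nb) X.cD.n k) j0 ?_ ?_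
    ?_ ?_
  · have h3 : Ideal.span (Set.range fun i : Fin X.N => (look X.tT i).ev X.cK.n k) ≤ J'' := by
      rw [Ideal.span_le]
      rintro _ ⟨i, rfl⟩
      exact hTJ i i.2
    exact fun q hq => h3 hq
  · exact zeroT_sound (Cst.mk (8 * Ch.nb) X.sh X.G X.LOW X.SQ) X.cD hC hCD X.VT h.hVT h.hVTg X.cT
      h.hz k
  · exact topV_sound (Cst.mk (8 * Ch.nb) X.sh X.G X.LOW X.SQ) X.cD hCD X.VT X.V0 h.hVT h.hV0
      h.hVTg h.hV0g X.wr X.wD h.hwr h.hwD h.htV k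
  · obtain ⟨a, -, h3, h4⟩ := sP_sound (Cst.mk (8 * Ch.nb) X.sh X.G X.LOW X.SQ) X.cD hC hCD
      (k := k) X.V0 h.hV0 h.hV0g (fun a => sumM X.cD.LOW X.mD a 0 0) X.f0 .z trivial h.hs
    have h5 := sumM_sound X.cD hCD X.mD h.hmD a h4 h2
    rw [h3, ev_z, zero_add] at h5
    exact h5
  · intro t
    have h3 := chkA_sound (Cst.mk (8 * Ch.nb) X.sh X.G X.LOW X.SQ) X.cK X.cD hC hC' hCD X.VP X.V0
      h.hVP h.hVg h.hV0 X.jv h.hjv h.hJVp h.hJVg X.io h.hlen hio X.f0k hf0kg J' X.gD X.ND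
      (fun i hi key q hq => ⟨(hDg i key q hq).2, hDJ i hi key q hq⟩) X.tA h.htA.ge h.hA ι hι t
    have h4 := mkJV_hom (Cst.mk (8 * Ch.nb) X.sh X.G X.LOW X.SQ) X.cK X.cD X.VP X.jv h.hjv h.hjb
      (X.V0.hom (8 * Ch.nb) X.cD.n k (MvPolynomial.X (ι t)))
    have h5 := hd (X.f0.ev (8 * Ch.nb) k * (MvPolynomial.X (ι t) -
      j0 (X.V0.hom (8 * Ch.nb) X.cD.n k (MvPolynomial.X (ι t)))))
    rw [← h4, hf0k] at h3
    have h6 : X.VP.hom (8 * Ch.nb) X.cK.n k (X.f0.ev (8 * Ch.nb) k * (MvPolynomial.X (ι t) -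
      j0 (X.V0.hom (8 * Ch.nb) X.cD.n k (MvPolynomial.X (ι t))))) ∈ J' := by
      rw [map_mul, map_sub]
      exact h3
    have h7 := Ideal.add_mem _ h5 h6
    rwa [sub_add_cancel] at h7

end Pool.Agent.Helper97.Hilb8.K
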