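import Pool.Agent.Helper97.Hilb8.K.Defs
import Pool.Agent.Helper97.Hilb8.GB
import Pool.Agent.Helper97.Hilb8.K.Keys
import Pool.Agent.Helper97.Hilb8.K.Poly
import Pool.Agent.Helper97.Hilb8.K.Red

/-!
Soundness of the kernel-evaluable checks: the matrix of S-pairs.
-/

namespace Pool.Agent.Helper97.Hilb8.K

open MvPolynomial

variable {n : ℕ}

namespace Pairs

theorem and_of_rec {b c : Bool} (h : (Bool.rec false c b : Bool) = true) : b = true ∧ c = true := by
  cases b with
  | false => exact absurd h (by simp)
  | true => exact ⟨rfl, h⟩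

theorem eq_of_beq {a b : ℕ} (h : Nat.beq a b = true) : a = b := Nat.eq_of_beq_eq_true h

theorem le_of_ble {a b : ℕ} (h : Nat.ble a b = true) : a ≤ b := Nat.le_of_ble_eq_true h

theorem rk_comm (LOW a b La Lb : ℕ) : rk LOW a b La Lb = rk LOW b a Lb La := by
  have e1 : Nat.lor La Lb = Nat.lor Lb La := Nat.lor_comm La Lb
  unfold rk
  rw [e1]
  rcases Nat.lt_trichotomy a b with h | h | h
  · have h1 : Nat.ble a b = true := Nat.ble_eq.mpr h.le
    have h2 : Nat.ble b a = false := by
      rw [Bool.eq_false_iff]
      intro h3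
      have := le_of_ble h3
      omega
    rw [h1, h2]
  · subst h
    rfl
  · have h1 : Nat.ble b a = true := Nat.ble_eq.mpr h.le
    have h2 : Nat.ble a b = false := by
      rw [Bool.eq_false_iff]
      intro h3
      have := le_of_ble h3
      omega
    rw [h1, h2]

/-- the meaning of a row -/
theorem row_sound (G LOW sh : ℕ) (T : Tr) (j Lj : ℕ) (tj : P) (i0 : ℕ) :
    ∀ (codes : ℕ) (trs : L), row G LOW sh T j Lj tj i0 codes trs = true →
      ∀ i < i0, ∀ Li ti, look T i = .some Li ti →
        (Nat.land (Nat.land Li Lj) LOW = 0) ∨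
        (∃ c, pairOK G LOW sh T Li ti Lj tj c = true) ∨
        (∃ l, chainOK LOW T i Li j Lj l = true) := by
  induction i0 with
  | zero => intro _ _ _ i hi; exact absurd hi (Nat.not_lt_zero _)
  | succ m ih =>
    intro codes trs h i hi Li ti hlook
    -- unfold one step
    have hstep : (En.rec false (fun Li ti =>
        Nat.rec
          (Bool.rec false (row G LOW sh T j Lj tj m (Nat.shiftRight codes 9) trs)
            (Nat.beq (Nat.land (Nat.land Li Lj) LOW) 0))
          (fun d _ => Nat.rec
            (L.rec false (fun c trs' _ => Bool.rec false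
              (row G LOW sh T j Lj tj m (Nat.shiftRight codes 9) trs')
              (pairOK G LOW sh T Li ti Lj tj c)) trs)
            (fun l _ => Bool.rec false (row G LOW sh T j Lj tj m (Nat.shiftRight codes 9) trs)
              (chainOK LOW T m Li j Lj l)) d)
          (Nat.land codes 511)) (look T m) : Bool) = true := h
    cases hm : look T m with
    | none => rw [hm] at hstep; exact absurd hstep (by simp)
    | some Lm tm =>
      rw [hm] at hstep
      change (Nat.rec
          (Bool.rec false (row G LOW sh T j Lj tj m (Nat.shiftRight codes 9) trs)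
            (Nat.beq (Nat.land (Nat.land Lm Lj) LOW) 0))
          (fun d _ => Nat.rec
            (L.rec false (fun c trs' _ => Bool.rec false
              (row G LOW sh T j Lj tj m (Nat.shiftRight codes 9) trs')
              (pairOK G LOW sh T Lm tm Lj tj c)) trs)
            (fun l _ => Bool.rec false (row G LOW sh T j Lj tj m (Nat.shiftRight codes 9) trs)
              (chainOK LOW T m Lm j Lj l)) d)
          (Nat.land codes 511) : Bool) = true at hstep
      have key : (∃ trs', row G LOW sh T j Lj tj m (Nat.shiftRight codes 9) trs' = true) ∧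
          ((Nat.land (Nat.land Lm Lj) LOW = 0) ∨
          (∃ c, pairOK G LOW sh T Lm tm Lj tj c = true) ∨
          (∃ l, chainOK LOW T m Lm j Lj l = true)) := by
        generalize Nat.land codes 511 = cd at hstep
        cases cd with
        | zero =>
          obtain ⟨h1, h2⟩ := and_of_rec hstep
          exact ⟨⟨_, h2⟩, Or.inl (eq_of_beq h1)⟩
        | succ d =>
          cases d with
          | zero =>
            change (L.rec false (fun c trs' _ => Bool.rec false
              (row G LOW sh T j Lj tj m (Nat.shiftRight codes 9) trs')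
              (pairOK G LOW sh T Lm tm Lj tj c)) trs : Bool) = true at hstep
            cases trs with
            | e => exact absurd hstep (by simp)
            | c a trs' =>
              obtain ⟨h1, h2⟩ := and_of_rec hstep
              exact ⟨⟨_, h2⟩, Or.inr (Or.inl ⟨a, h1⟩)⟩
          | succ l =>
            obtain ⟨h1, h2⟩ := and_of_rec hstep
            exact ⟨⟨_, h2⟩, Or.inr (Or.inr ⟨l, h1⟩)⟩
      obtain ⟨⟨trs', h1⟩, h2⟩ := key
      rcases Nat.lt_or_ge i m with hlt | hge
      · exact ih _ _ h1 i hlt Li ti hlook
      · have him : i = m := by omega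
        subst him
        rw [hm] at hlook
        cases hlook
        exact h2

theorem all_coeff {R : Type*} [CommRing R] {A : (Fin n →₀ ℕ) → Prop} {p : P}
    (hp : p.All fun t => A (expo n t)) (e : Fin n →₀ ℕ) (he : coeff e (p.ev n R) ≠ 0) : A e := by
  induction p with
  | z => exact absurd (coeff_zero e) he
  | t k x y r ih =>
    obtain ⟨h1, h2⟩ : A (expo n k) ∧ r.All fun t => A (expo n t) := hp
    have h3 : (P.t k x y r).ev n R = monomial (expo n k) ((x : R) - (y : R)) + r.ev n R := rfl
    rw [h3, coeff_add, coeff_monomial] at he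
    by_cases h4 : expo n k = e
    · rw [← h4]
      exact h1
    · rw [if_neg h4, zero_add] at he
      exact ih h2 he

theorem all_imp {A B : ℕ → Prop} {p : P} (h : ∀ t, A t → B t) (hp : p.All A) : p.All B := by
  induction p with
  | z => exact trivial
  | t k x y r ih =>
    obtain ⟨h1, h2⟩ : A k ∧ r.All A := hp
    exact ⟨h k h1, ih h2⟩

theorem present_sound (T : Tr) (N : ℕ) (h : present T N = true) (i : ℕ) (hi : i < N) :
    ∃ k p, look T i = .some k p := by
  induction N with
  | zero => exact absurd hi (Nat.not_lt_zero _)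
  | succ m ih =>
    have h' : (Bool.rec false (present T m) (En.rec false (fun _ _ => true) (look T m) : Bool)
      : Bool) = true := h
    obtain ⟨h1, h2⟩ := and_of_rec h'
    rcases Nat.lt_or_ge i m with hlt | hge
    · exact ih h2 hlt
    · have him : i = m := by omega
      subst him
      cases hl : look T i with
      | none => rw [hl] at h1; exact absurd h1 (by simp)
      | some k p => exact ⟨k, p, rfl⟩

end Pairs

open Pairs

theorem rows_sound (G LOW sh : ℕ) (T : Tr) (R : Rows) (j0 : ℕ)
    (h : rows G LOW sh T R j0 = true) (j : ℕ) (h1 : j0 ≤ j) (h2 : j < j0 + R.len) (Lj : ℕ) (tj : P)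
    (hj : look T j = .some Lj tj) : ∃ codes trs, row G LOW sh T j Lj tj j codes trs = true := by
  induction R generalizing j0 with
  | e =>
    have h3 : Rows.e.len = 0 := rfl
    omega
  | r a codes trs rest ih =>
    have h' : (Bool.rec false
        (Bool.rec false (rows G LOW sh T rest (Nat.succ j0))
          (En.rec false (fun Lj tj => row G LOW sh T a Lj tj a (Nat.shiftRight codes 9) trs)
            (look T a) : Bool))
        (Nat.beq a j0) : Bool) = true := h
    obtain ⟨h3, h4⟩ := and_of_rec h'
    obtain ⟨h5, h6⟩ := and_of_rec h4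
    have h7 := eq_of_beq h3
    have h8 : (Rows.r a codes trs rest).len = rest.len + 1 := rfl
    rcases Nat.lt_or_ge j0 j with hlt | hge
    · exact ih (Nat.succ j0) h6 hlt (by omega)
    · have hjj : j = a := by omega
      subst hjj
      rw [hj] at h5
      exact ⟨_, _, h5⟩

variable {k : Type*} [Field k]

theorem ok_of_rows (C : Cst) (hC : C.ok) (κ : Fin C.n → ℕ) (N : ℕ) (T : Tr)
    (hT : TabOK C.n κ N T) (hN : present T N = true)
    (hrows : ∀ j < N, ∀ Lj tj, look T j = .some Lj tj →
      ∃ codes trs, row C.G C.LOW C.sh T j Lj tj j codes trs = true) :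
    (∀ i : Fin N, IsLead κ ((look T i).ev C.n k) ((look T i).lead C.n)) ∧
    (∀ i j : Fin N, OK κ ∅ (fun i : Fin N => (look T i).ev C.n k)
      (fun i : Fin N => (look T i).lead C.n) i j) ∧
    (∀ (i : Fin N) v, (look T i).lead C.n v ≤ 1) := by
  have hev : ∀ (a La : ℕ) (ta : P), look T a = .some La ta →
      (look T a).ev C.n k = monomial (expo C.n La) 1 + ta.ev C.n k := by
    intro a La ta h
    rw [h]
    rfl
  have hle : ∀ (a La : ℕ) (ta : P), look T a = .some La ta →
      (look T a).lead C.n = expo C.n La := by
    intro a La ta h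
    rw [h]
    rfl
  have hcoeff : ∀ (a La : ℕ) (ta : P), look T a = .some La ta →
      coeff (expo C.n La) (ta.ev C.n k) = 0 := by
    intro a La ta h
    by_contra hne
    have h1 := (hT a La ta h).2.2.2
    have h2 : ta.All fun t => (fun e => wt κ e < wt κ (expo C.n La)) (expo C.n t) :=
      all_imp (fun t ht => ht.2) h1
    have h3 := all_coeff (n := C.n) (A := fun e => wt κ e < wt κ (expo C.n La)) h2 _ hne
    exact lt_irrefl _ h3
  have hcoeff1 : ∀ (a La : ℕ) (ta : P), look T a = .some La ta →
      coeff ((look T a).lead C.n) ((look T a).ev C.n k) = 1 := by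
    intro a La ta h
    rw [hle a La ta h, hev a La ta h, coeff_add, coeff_monomial, if_pos rfl, hcoeff a La ta h,
      add_zero]
  have hlead : ∀ i : Fin N, IsLead κ ((look T i).ev C.n k) ((look T i).lead C.n) := by
    intro i
    obtain ⟨La, ta, h⟩ := present_sound T N hN i i.2
    refine ⟨?_, ?_⟩
    · rw [hcoeff1 i La ta h]
      exact one_ne_zero
    · intro e he hne
      rw [hle i La ta h] at hne ⊢
      rw [mem_support_iff, hev i La ta h, coeff_add, coeff_monomial, if_neg (Ne.symm hne),
        zero_add] at he
      have h1 := (hT i La ta h).2.2.2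
      have h2 : ta.All fun t => (fun e => wt κ e < wt κ (expo C.n La)) (expo C.n t) :=
        all_imp (fun t ht => ht.2) h1
      exact all_coeff (n := C.n) (A := fun e => wt κ e < wt κ (expo C.n La)) h2 _ he
  -- the main step: a pair `i < j`
  have hE : ∀ u ∈ (∅ : Set (Fin C.n)), κ u = 0 := fun u hu => absurd hu (Set.notMem_empty u)
  have hpair : ∀ (i j : Fin N) (Li Lj : ℕ) (ti tj : P), look T i = .some Li ti →
      look T j = .some Lj tj → ∀ c, pairOK C.G C.LOW C.sh T Li ti Lj tj c = true →
      OK κ ∅ (fun i : Fin N => (look T i).ev C.n k) (fun i : Fin N => (look T i).lead C.n) i j := by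
    intro i j Li Lj ti tj hi hj c hc
    have hc' : spairOK C.G C.LOW T Li ti Lj tj
        (Nat.add (Nat.add (Nat.land (Nat.land Li Lj) C.LOW) (Nat.land c 4294967295))
          (Nat.shiftLeft (Nat.land (Nat.shiftRight c 32) 65535) C.sh))
        (Nat.sub Lj (Nat.add (Nat.add (Nat.land (Nat.land Li Lj) C.LOW) (Nat.land c 4294967295))
          (Nat.shiftLeft (Nat.land (Nat.shiftRight c 32) 65535) C.sh)))
        (Nat.sub Li (Nat.add (Nat.add (Nat.land (Nat.land Li Lj) C.LOW) (Nat.land c 4294967295))
          (Nat.shiftLeft (Nat.land (Nat.shiftRight c 32) 65535) C.sh)))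
        (Nat.shiftRight c 48) = true := hc
    generalize (Nat.add (Nat.add (Nat.land (Nat.land Li Lj) C.LOW) (Nat.land c 4294967295))
          (Nat.shiftLeft (Nat.land (Nat.shiftRight c 32) 65535) C.sh)) = g at hc'
    generalize Nat.sub Lj g = mi at hc'
    generalize Nat.sub Li g = mj at hc'
    generalize Nat.shiftRight c 48 = tr at hc'
    obtain ⟨e1, hc1⟩ := and_of_rec hc'
    obtain ⟨e2, hc2⟩ := and_of_rec hc1
    obtain ⟨e3, hc3⟩ := and_of_rec hc2
    obtain ⟨e4, hc4⟩ := and_of_rec hc3
    obtain ⟨e5, hred⟩ := and_of_rec hc4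
    have f1 : g + mi = Lj := eq_of_beq e1
    have f2 : g + mj = Li := eq_of_beq e2
    have gmi : Good C.n mi := (good_iff C hC mi).mp (eq_of_beq e3)
    have gmj : Good C.n mj := (good_iff C hC mj).mp (eq_of_beq e4)
    have f5 : Nat.land (Nat.add Li mi) C.LOW = Nat.land (Nat.lor Li Lj) C.LOW := eq_of_beq e5
    obtain ⟨_, gLi, sLi, hti⟩ := hT i Li ti hi
    obtain ⟨_, gLj, sLj, htj⟩ := hT j Lj tj hj
    have hlcm := lcm_key C hC sLi sLj gLi gmi f5
    have hsame : Lj + mj = Li + mi := by omega
    have h6 : expo C.n Li + expo C.n mi = expo C.n Li ⊔ expo C.n Lj := by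
      rw [← expo_add gLi gmi, hlcm]
    have h7 : expo C.n Lj + expo C.n mj = expo C.n Li ⊔ expo C.n Lj := by
      rw [← expo_add gLj gmj, hsame, hlcm]
    have hsp : spair (fun i : Fin N => (look T i).ev C.n k)
        (fun i : Fin N => (look T i).lead C.n) i j =
        (addm mi 1 0 ti (addm mj 0 1 tj .z)).ev C.n k := by
      have gti : ti.All (Good C.n) := all_imp (fun t ht => ht.1) hti
      have gtj : tj.All (Good C.n) := all_imp (fun t ht => ht.1) htj
      rw [ev_addm gmi gti, ev_addm gmj gtj]
      have hz : (P.z).ev C.n k = 0 := rfl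
      rw [hz]
      unfold spair
      simp only
      rw [hcoeff1 i Li ti hi, hcoeff1 j Lj tj hj, hle i Li ti hi, hle j Lj tj hj,
        hev i Li ti hi, hev j Lj tj hj]
      have h8 : expo C.n Li ⊔ expo C.n Lj - expo C.n Li = expo C.n mi := by
        rw [← h6, add_tsub_cancel_left]
      have h9 : expo C.n Li ⊔ expo C.n Lj - expo C.n Lj = expo C.n mj := by
        rw [← h7, add_tsub_cancel_left]
      rw [h8, h9, mul_add, mul_add, monomial_mul, monomial_mul, add_comm (expo C.n mi),
        add_comm (expo C.n mj), h6, h7]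
      have h10 : monomial (expo C.n mj) (((0 : ℕ) : k) - ((1 : ℕ) : k)) =
          - monomial (expo C.n mj) (1 : k) := by
        rw [Nat.cast_zero, Nat.cast_one, zero_sub, ← map_neg]
      have h11 : monomial (expo C.n mi) (((1 : ℕ) : k) - ((0 : ℕ) : k)) =
          monomial (expo C.n mi) (1 : k) := by
        rw [Nat.cast_zero, Nat.cast_one, sub_zero]
      rw [h10, h11]
      ring
    have hacc : (addm mi 1 0 ti (addm mj 0 1 tj .z)).All fun t =>
        wt κ (expo C.n t) < wt κ (expo C.n Li ⊔ expo C.n Lj) := by
      apply all_addm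
      · refine all_imp (fun t ht => ?_) hti
        rw [expo_add ht.1 gmi, GB.wt_add, ← h6, GB.wt_add]
        have := ht.2
        omega
      · apply all_addm
        · refine all_imp (fun t ht => ?_) htj
          rw [expo_add ht.1 gmj, GB.wt_add, ← h7, GB.wt_add]
          have := ht.2
          omega
        · exact trivial
    have hmem := red_sound (k := k) C hC κ N T hT _ _ _ _ hacc hred
    rw [← hsp] at hmem
    unfold OK
    apply GB.wd_of_SP
    simp only
    rw [hle i Li ti hi, hle j Lj tj hj]
    exact hmem
  have hmain : ∀ (s : ℕ) (i j : Fin N) (Li Lj : ℕ) (ti tj : P), look T i = .some Li ti →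
      look T j = .some Lj tj → rk C.LOW i j Li Lj = s →
      OK κ ∅ (fun i : Fin N => (look T i).ev C.n k) (fun i : Fin N => (look T i).lead C.n) i j := by
    intro s
    induction s using Nat.strong_induction_on with
    | _ s ih =>
      have hlt : ∀ (i j : Fin N) (Li Lj : ℕ) (ti tj : P), look T i = .some Li ti →
          look T j = .some Lj tj → rk C.LOW i j Li Lj = s → (i : ℕ) < j →
          OK κ ∅ (fun i : Fin N => (look T i).ev C.n k)
            (fun i : Fin N => (look T i).lead C.n) i j := by
        intro i j Li Lj ti tj hi hj hs hij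
        obtain ⟨codes, trs, hrow⟩ := hrows j j.2 Lj tj hj
        obtain ⟨_, gLi, sLi, hti⟩ := hT i Li ti hi
        obtain ⟨_, gLj, sLj, htj⟩ := hT j Lj tj hj
        rcases row_sound _ _ _ T j Lj tj j codes trs hrow i hij Li ti hi with h1 | ⟨c, h1⟩ | ⟨l, h1⟩
        · apply ok_coprime κ ∅ hE _ _ hlead
          intro v _
          rw [hle i Li ti hi, hle j Lj tj hj]
          exact (coprime_iff C hC sLi sLj).mp h1 v
        · exact hpair i j Li Lj ti tj hi hj c h1
        · have h1' : (En.rec false (fun Ll _ =>
              Bool.rec false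
                (Bool.rec false
                  (Nat.ble (Nat.succ (rk C.LOW l j Ll Lj)) (rk C.LOW i j Li Lj))
                  (Nat.ble (Nat.succ (rk C.LOW i l Li Ll)) (rk C.LOW i j Li Lj)))
                (Nat.beq (Nat.land (Nat.lor (Nat.lor Li Lj) Ll) C.LOW)
                  (Nat.land (Nat.lor Li Lj) C.LOW)))
              (look T l) : Bool) = true := h1
          cases hl : look T l with
          | none => rw [hl] at h1'; exact absurd h1' (by simp)
          | some Ll tl =>
            rw [hl] at h1'
            obtain ⟨e1, h2⟩ := and_of_rec h1'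
            obtain ⟨e2, e3⟩ := and_of_rec h2
            obtain ⟨hlN, gLl, sLl, htl⟩ := hT l Ll tl hl
            have r1 : rk C.LOW i l Li Ll < s := by
              rw [← hs]
              exact le_of_ble e2
            have r2 : rk C.LOW l j Ll Lj < s := by
              rw [← hs]
              exact le_of_ble e3
            have o1 := ih _ r1 i ⟨l, hlN⟩ Li Ll ti tl hi hl rfl
            have o2 := ih _ r2 ⟨l, hlN⟩ j Ll Lj tl tj hl hj rfl
            refine ok_chain κ ∅ hE _ _ hlead (l := ⟨l, hlN⟩) ?_ o1 o2
            intro v _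
            simp only
            rw [hle i Li ti hi, hle j Lj tj hj, hle l Ll tl hl]
            exact (land_low_eq_iff C hC sLi sLj sLl).mp (eq_of_beq e1) v
      intro i j Li Lj ti tj hi hj hs
      rcases lt_trichotomy (i : ℕ) (j : ℕ) with h | h | h
      · exact hlt i j Li Lj ti tj hi hj hs h
      · have : i = j := Fin.ext h
        subst this
        exact ok_refl κ ∅ _ _ i
      · apply ok_symm
        exact hlt j i Lj Li tj ti hj hi (by rw [rk_comm]; exact hs) h
  refine ⟨hlead, ?_, ?_⟩
  · intro i j
    obtain ⟨Li, ti, hi⟩ := present_sound T N hN i i.2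
    obtain ⟨Lj, tj, hj⟩ := present_sound T N hN j j.2
    exact hmain _ i j Li Lj ti tj hi hj rfl
  · intro i v
    obtain ⟨Li, ti, hi⟩ := present_sound T N hN i i.2
    rw [hle i Li ti hi]
    exact (hT i Li ti hi).2.2.1 v v.2

end Pool.Agent.Helper97.Hilb8.K
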