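import Pool.Agent.Helper97.Hilb8.K.TAll
import Pool.Agent.Helper97.Hilb8.K.Red
import Pool.Agent.Helper97.Hilb8.K.Tests

/-!
Soundness of the kernel-evaluable checks: the rules.
-/

namespace Pool.Agent.Helper97.Hilb8.K

open MvPolynomial

/-! ### Module K4c: the rules -/

theorem k4c_expo_apply (n q : ℕ) (v : Fin n) : expo n q v = dig q v := rfl

theorem k4c_supp (n q : ℕ) (v : Fin n) : v ∈ (expo n q).support ↔ dig q v ≠ 0 := by
  rw [Finsupp.mem_support_iff, k4c_expo_apply]

/-! Digits of a single bit. -/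

theorem k4c_dig_pow (a v : ℕ) : dig (2 ^ (32 + 5 * a)) v = if v = a then 1 else 0 := by
  apply Nat.eq_of_testBit_eq
  intro t
  rw [dig_testBit, Nat.testBit_two_pow]
  split_ifs with h
  · subst h
    by_cases ht : t = 0
    · subst ht
      simp
    · have h2 : Nat.testBit 1 t = false := by
        apply Nat.testBit_lt_two_pow
        have h6 : 2 ^ 1 ≤ 2 ^ t := Nat.pow_le_pow_right (by norm_num) (by omega)
        omega
      rw [h2]
      simp [ht]
  · rw [Nat.zero_testBit]
    by_cases ht : t < 5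
    · have h1 : ¬ 32 + 5 * a = 32 + 5 * v + t := by omega
      simp [h1]
    · simp [ht]

theorem k4c_bit (y : ℕ) (hy : y < 32) (h1 : y &&& 1 = 0) (h2 : y ||| 1 ≤ 1) : y = 0 := by
  revert h1 h2
  interval_cases y <;> decide

theorem k4c_dig_sub {k a : ℕ} (hk : ∀ v, dig k a = v → v ≤ 1) (h : dig k a ≠ 0) (v : ℕ)
    (hv : dig (k - 2 ^ (32 + 5 * a)) v ≠ 0) : v ≠ a ∧ dig k v ≠ 0 := by
  have h1 : k.testBit (32 + 5 * a) = true := by
    have h2 : dig k a = 1 := by
      have := hk _ rfl
      omega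
    have h3 := dig_testBit k a 0
    rw [h2] at h3
    simpa using h3.symm
  have h4 : k &&& 2 ^ (32 + 5 * a) = 2 ^ (32 + 5 * a) := by
    rw [Nat.and_two_pow, h1]
    simp
  obtain ⟨h5, h6⟩ := guard_sub _ _ h4
  have h7 := add_eq_or_of_and _ _ h6
  have h8 : k - 2 ^ (32 + 5 * a) + 2 ^ (32 + 5 * a) = k := Nat.sub_add_cancel h5
  rw [h8] at h7
  constructor
  · rintro rfl
    have h9 := congrArg (fun z => dig z v) h6
    simp only [dig_and, dig_zero, k4c_dig_pow, if_true] at h9
    have h10 := congrArg (fun z => dig z v) h7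
    simp only [dig_or, k4c_dig_pow, if_true] at h10
    have h11 := hk _ rfl
    rw [h10] at h11
    exact hv (k4c_bit _ (dig_lt _ _) h9 h11)
  · have h10 := congrArg (fun z => dig z v) h7
    simp only [dig_or] at h10
    rw [h10]
    intro h11
    rw [Nat.or_eq_zero_iff] at h11
    exact hv h11.1

/-! The search in the table for the maximality rule. -/

theorem k4c_maxGo_node (LOW s : ℕ) (Ds : L) (l : Tr) (i k : ℕ) (p : P) (r : Tr) :
    maxGo LOW s Ds (.node l i k p r) = Bool.rec false (Bool.rec false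
    (Bool.rec true (anyL (fun d => subs LOW d (Nat.sub k (Nat.shiftLeft 1 s))) Ds)
      (Nat.beq (Nat.land (Nat.shiftRight k s) 1) 1)) (maxGo LOW s Ds l)) (maxGo LOW s Ds r) := rfl

theorem k4c_maxGo (LOW s : ℕ) (Ds : L) (T : Tr) (h : maxGo LOW s Ds T = true) (i k : ℕ) (p : P)
    (hi : look T i = .some k p) (hk : Nat.land (Nat.shiftRight k s) 1 = 1) :
    ∃ d, Ds.Mem d ∧ subs LOW d (Nat.sub k (Nat.shiftLeft 1 s)) = true := by
  induction T with
  | leaf =>
    rw [k2_look_leaf] at hi
    exact absurd hi (by simp)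
  | node l i0 k0 p0 r ihl ihr =>
    rw [k4c_maxGo_node] at h
    obtain ⟨hr, h⟩ := k2_brec_false h
    obtain ⟨hl, h⟩ := k2_brec_false h
    rw [k2_look_node] at hi
    cases hb : Nat.ble i i0 with
    | false =>
      rw [hb] at hi
      exact ihr hr hi
    | true =>
      rw [hb] at hi
      cases hb2 : Nat.beq i0 i with
      | false =>
        rw [hb2] at hi
        exact ihl hl hi
      | true =>
        rw [hb2] at hi
        have hi' : En.some k0 p0 = En.some k p := hi
        injection hi' with e1 e2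
        subst e1
        have h3 : Nat.beq (Nat.land (Nat.shiftRight k0 s) 1) 1 = true := by
          rw [hk]
          rfl
        rw [h3] at h
        exact (anyL_iff _ _).1 h

/-! Relations. -/

theorem k4c_relGo2_t (G sh : ℕ) (As : L) (c k0 k x y : ℕ) (p : P) :
    relGo2 G sh As c k0 (.t k x y p) = Bool.rec false (relGo2 G sh As c k0 p)
    (Bool.rec
      (Bool.rec false (dvdk G c k)
        (Nat.ble (Nat.succ (Nat.shiftRight k sh)) (Nat.shiftRight k0 sh)))
      true (anyL (fun a => dvdk G a k) As)) := rfl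

theorem k4c_relGo1_t (G LOW sh : ℕ) (As : L) (Uc c k x y : ℕ) (p : P) :
    relGo1 G LOW sh As Uc c (.t k x y p) =
    Bool.rec
      (Bool.rec false (Bool.rec false (Bool.rec false (relGo2 G sh As c k p)
        (supp LOW (Nat.sub k c) Uc)) (coefOK x y)) (dvdk G c k))
      (relGo1 G LOW sh As Uc c p) (anyL (fun a => dvdk G a k) As) := rfl

section

variable {k : Type*} [Field k]

/-- The terms after the leading survivor. -/
theorem k4c_rel2 (C : Cst) (hC : C.ok) (κ : Fin C.n → ℕ) (Q : MvPolynomial (Fin C.n) k → Prop)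
    (Q0 : Q 0) (Qadd : ∀ a b, Q a → Q b → Q (a + b)) (Qmul : ∀ a b, Q b → Q (a * b))
    (As : L) (hAs : ∀ a, As.Mem a → Good C.n a ∧ Q (monomial (expo C.n a) 1))
    (c k0 : ℕ) (hc : Good C.n c) (p : P)
    (hp : p.All fun key => Good C.n key ∧ key / 2 ^ C.sh = wt κ (expo C.n key))
    (h : relGo2 C.G C.sh As c k0 p = true) :
    ∃ f r : MvPolynomial (Fin C.n) k, Q f ∧ p.ev C.n k = f + monomial (expo C.n c) 1 * r ∧
      ∀ e ∈ r.support, wt κ (expo C.n c + e) < k0 / 2 ^ C.sh := by
  induction p with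
  | z => exact ⟨0, 0, Q0, by rw [ev_z]; simp, fun e he => by simp at he⟩
  | t kk x y p ih =>
    rw [k4c_relGo2_t] at h
    obtain ⟨h1, h2⟩ := k2_brec_false h
    obtain ⟨⟨hg, hw⟩, hp'⟩ := hp
    obtain ⟨f, r, hf, he, hr⟩ := ih hp' h2
    cases ha : anyL (fun a => dvdk C.G a kk) As with
    | true =>
      obtain ⟨a, ha1, ha2⟩ := (anyL_iff _ _).1 ha
      obtain ⟨hag, haQ⟩ := hAs a ha1
      obtain ⟨-, -, hexp⟩ := dvdk_sound C hC hag hg ha2
      refine ⟨monomial (expo C.n kk) ((x : k) - (y : k)) + f, r, Qadd _ _ ?_ hf, ?_, hr⟩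
      · have : monomial (expo C.n kk) ((x : k) - (y : k)) =
            monomial (expo C.n (kk - a)) ((x : k) - (y : k)) * monomial (expo C.n a) 1 := by
          rw [monomial_mul, mul_one, hexp, add_comm]
        rw [this]
        exact Qmul _ _ haQ
      · rw [ev_t, he]
        ring
    | false =>
      rw [ha] at h1
      obtain ⟨h3, h4⟩ := k2_brec_false h1
      obtain ⟨-, -, hexp⟩ := dvdk_sound C hC hc hg h4
      refine ⟨f, monomial (expo C.n (kk - c)) ((x : k) - (y : k)) + r, hf, ?_, ?_⟩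
      · rw [ev_t, he, mul_add, monomial_mul, one_mul, hexp]
        ring
      · intro e hes
        rcases Finset.mem_union.1 (support_add hes) with h5 | h5
        · have h6 := support_monomial_subset h5
          rw [Finset.mem_singleton] at h6
          rw [h6, ← hexp, ← hw]
          have h7 : Nat.succ (kk >>> C.sh) ≤ k0 >>> C.sh := Nat.le_of_ble_eq_true h3
          rw [Nat.shiftRight_eq_div_pow, Nat.shiftRight_eq_div_pow] at h7
          exact h7
        · exact hr e h5

/-- A relation with a single leading survivor gives a contradiction. -/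
theorem k4c_rel1 (C : Cst) (hC : C.ok) (κ : Fin C.n → ℕ) (h2 : (2 : k) ≠ 0)
    (Q : MvPolynomial (Fin C.n) k → Prop) (F : Set (Fin C.n))
    (Q0 : Q 0) (Qadd : ∀ a b, Q a → Q b → Q (a + b)) (Qmul : ∀ a b, Q b → Q (a * b))
    (Qprime : ∀ a b, Q (a * b) → Q a ∨ Q b)
    (F3 : ∀ q : MvPolynomial (Fin C.n) k, Q q → ∀ e ∈ q.support,
      (∀ e' ∈ q.support, e' ≠ e → wt κ e' < wt κ e) → ¬ ∀ v ∈ e.support, v ∈ F)
    (As : L) (hAs : ∀ a, As.Mem a → Good C.n a ∧ Q (monomial (expo C.n a) 1))
    (Uc : ℕ) (hUc1 : ∀ v < C.n, dig Uc v ≤ 1) (hUc : ∀ v : Fin C.n, dig Uc v ≠ 0 → v ∈ F)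
    (c : ℕ) (hc : Good C.n c) (hcQ : ¬ Q (monomial (expo C.n c) 1)) (p : P)
    (hp : p.All fun key => Good C.n key ∧ key / 2 ^ C.sh = wt κ (expo C.n key))
    (h : relGo1 C.G C.LOW C.sh As Uc c p = true) : ¬ Q (p.ev C.n k) := by
  induction p with
  | z => exact absurd h (by simp [relGo1])
  | t kk x y p ih =>
    intro hQ
    rw [k4c_relGo1_t] at h
    obtain ⟨⟨hg, hw⟩, hp'⟩ := hp
    rw [ev_t] at hQ
    cases ha : anyL (fun a => dvdk C.G a kk) As with
    | true =>
      rw [ha] at h
      obtain ⟨a, ha1, ha2⟩ := (anyL_iff _ _).1 ha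
      obtain ⟨hag, haQ⟩ := hAs a ha1
      obtain ⟨-, -, hexp⟩ := dvdk_sound C hC hag hg ha2
      apply ih hp' h
      have h3 : p.ev C.n k = (monomial (expo C.n kk) ((x : k) - (y : k)) + p.ev C.n k) +
          (-monomial (expo C.n (kk - a)) ((x : k) - (y : k))) * monomial (expo C.n a) 1 := by
        rw [neg_mul, monomial_mul, mul_one, hexp, add_comm (expo C.n a)]
        ring
      rw [h3]
      exact Qadd _ _ hQ (Qmul _ _ haQ)
    | false =>
      rw [ha] at h
      obtain ⟨h3, h⟩ := k2_brec_false h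
      obtain ⟨h4, h⟩ := k2_brec_false h
      obtain ⟨h5, h6⟩ := k2_brec_false h
      obtain ⟨-, hg', hexp⟩ := dvdk_sound C hC hc hg h3
      obtain ⟨f, r, hf, he, hr⟩ := k4c_rel2 C hC κ Q Q0 Qadd Qmul As hAs c kk hc p hp' h6
      have hne := coefOK_sound h4 h2
      have hQ2 : Q (monomial (expo C.n c) 1 *
          (monomial (expo C.n (kk - c)) ((x : k) - (y : k)) + r)) := by
        have h7 : monomial (expo C.n c) 1 *
          (monomial (expo C.n (kk - c)) ((x : k) - (y : k)) + r) =
          (monomial (expo C.n kk) ((x : k) - (y : k)) + p.ev C.n k) + (-1) * f := by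
          rw [he, mul_add, monomial_mul, one_mul, hexp]
          ring
        rw [h7]
        exact Qadd _ _ hQ (Qmul _ _ hf)
      rcases Qprime _ _ hQ2 with h8 | h8
      · exact hcQ h8
      · have hwr : ∀ e ∈ r.support, wt κ e < wt κ (expo C.n (kk - c)) := by
          intro e hes
          have h9 := hr e hes
          rw [hw, hexp, GB.wt_add, GB.wt_add] at h9
          omega
        have hnr : expo C.n (kk - c) ∉ r.support := fun hes => lt_irrefl _ (hwr _ hes)
        refine F3 _ h8 (expo C.n (kk - c)) ?_ ?_ ?_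
        · rw [mem_support_iff, coeff_add, coeff_monomial, if_pos rfl,
            notMem_support_iff.1 hnr, add_zero]
          exact hne
        · intro e' he' hne'
          rcases Finset.mem_union.1 (support_add he') with h9 | h9
          · have h10 := support_monomial_subset h9
            rw [Finset.mem_singleton] at h10
            exact absurd h10 hne'
          · exact hwr _ h9
        · intro v hv
          rw [k4c_supp] at hv
          exact hUc v (supp_sound C hC hUc1 h5 v v.2 hv)

/-- A monomial in a prime ideal contains a variable in the prime ideal. -/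
theorem k4c_prime_monomial {σ : Type*} (Q : MvPolynomial σ k → Prop) (Q1 : ¬ Q 1)
    (Qprime : ∀ a b, Q (a * b) → Q a ∨ Q b) (e : σ →₀ ℕ) (h : Q (monomial e 1)) :
    ∃ v ∈ e.support, Q (X v) := by
  classical
  induction e using Finsupp.induction with
  | zero => exact absurd h Q1
  | single_add v m e hv hm ih =>
    have h1 : (monomial (Finsupp.single v m + e) (1 : k)) = X v ^ m * monomial e 1 := by
      rw [X_pow_eq_monomial, monomial_mul, mul_one]
    rw [h1] at h
    rcases Qprime _ _ h with h2 | h2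
    · have h3 : ∀ j, Q ((X v : MvPolynomial σ k) ^ j) → Q (X v) := by
        intro j
        induction j with
        | zero => intro h4; rw [pow_zero] at h4; exact absurd h4 Q1
        | succ j ih2 =>
          intro h4
          rw [pow_succ] at h4
          exact (Qprime _ _ h4).elim ih2 id
      refine ⟨v, ?_, h3 m h2⟩
      rw [Finsupp.mem_support_iff, Finsupp.add_apply, Finsupp.single_eq_same]
      omega
    · obtain ⟨u, hu, hu2⟩ := ih h2
      refine ⟨u, ?_, hu2⟩
      rw [Finsupp.mem_support_iff] at hu ⊢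
      rw [Finsupp.add_apply]
      omega

end

theorem rule_sound (C : Cst) (hC : C.ok) (κ : Fin C.n → ℕ) (N : ℕ) (M T R Y : Tr)
    (hT : TabOK C.n κ N T)
    (hM : TAll (fun _ key _ => Good C.n key ∧ ∀ v < C.n, dig key v ≤ 1) M)
    {k : Type*} [Field k] (h2 : (2 : k) ≠ 0) (P : MvPolynomial (Fin C.n) k → Prop)
    (F : Set (Fin C.n))
    -- `P` is the membership in a prime ideal
    (P1 : ¬ P 1) (Padd : ∀ a b, P a → P b → P (a + b)) (Pmul : ∀ a b, P b → P (a * b))
    (Pprime : ∀ a b, P (a * b) → P a ∨ P b)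
    -- the relations lie in `P`; their keys hold the weights
    (hR : TAll (fun _ _ p => P (p.ev C.n k) ∧
      p.All fun key => Good C.n key ∧ key / 2 ^ C.sh = wt κ (expo C.n key)) R)
    -- `F` is a facet
    (F1 : ∀ i key p, look T i = .some key p → ¬ ∀ v : Fin C.n, dig key v ≠ 0 → v ∈ F)
    (F2 : ∀ v : Fin C.n, v ∉ F → ∃ i key p, look T i = .some key p ∧ dig key v ≠ 0 ∧
      ∀ u : Fin C.n, u ≠ v → dig key u ≠ 0 → u ∈ F)
    (F3 : ∀ q : MvPolynomial (Fin C.n) k, P q → ∀ e ∈ q.support,
      (∀ e' ∈ q.support, e' ≠ e → wt κ e' < wt κ e) → ¬ ∀ v ∈ e.support, v ∈ F)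
    -- the unit sets
    (hY : TAll (fun _ key _ => ∃ v : Fin C.n, dig key v ≠ 0 ∧ P (X v)) Y)
    (c : L) (t a b : ℕ) (h : rule C.G C.LOW C.sh M T R Y c t a b = true)
    (hc : litsOK c = true) : Sat (atomT C.n M P F) c := by
  by_contra hsat
  have hlit : ∀ p, c.Mem p → ¬ litT (atomT C.n M P F) p := fun p hp hl => hsat ⟨p, hp, hl⟩
  obtain ⟨Ub, Uc, As, Ds, hf, a1, a2, a3, a4, a5⟩ := parse_sound M _ c h hc
  have hM1 : ∀ v < C.n, ∀ i k q, look M i = .some k q → dig k v ≤ 1 :=
    fun v hv i k q hl => (hM i k q hl).2 v hv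
  have hUb1 : ∀ v < C.n, dig Ub v ≤ 1 := fun v hv => (a5 v (hM1 v hv)).1
  have hUc1 : ∀ v < C.n, dig Uc v ≤ 1 := fun v hv => (a5 v (hM1 v hv)).2
  -- the literals
  have hUb : ∀ v : Fin C.n, dig Ub v ≠ 0 → ¬ P (X v) := by
    intro v hv hP
    obtain ⟨p, key, q, hp, hp64, hp4, hl, hd⟩ := a1 v hv
    apply hlit p hp
    have e1 : p % 2 = 0 := by omega
    have e2 : p / 2 % 2 = 0 := by omega
    have e3 : p / 2 / 2 - 16 = (p - 64) / 4 := by omega
    unfold litT
    rw [if_pos e1]
    unfold atomT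
    rw [if_pos e2, e3]
    refine ⟨key, q, hl, ?_⟩
    have e5 : expo C.n key - Finsupp.single v 1 + Finsupp.single v 1 = expo C.n key := by
      ext u
      rw [Finsupp.add_apply, Finsupp.tsub_apply]
      by_cases huv : u = v
      · subst huv
        rw [Finsupp.single_eq_same, k4c_expo_apply]
        omega
      · rw [Finsupp.single_eq_of_ne huv]
        omega
    have e4 : (monomial (expo C.n key) (1 : k)) =
        monomial (expo C.n key - Finsupp.single v 1) 1 * X v := by
      rw [X, monomial_mul, mul_one, e5]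
    rw [e4]
    exact Pmul _ _ hP
  have hUc : ∀ v : Fin C.n, dig Uc v ≠ 0 → v ∈ F := by
    intro v hv
    obtain ⟨p, key, q, hp, hp64, hp4, hl, hd⟩ := a2 v hv
    have h3 := hlit p hp
    have e1 : ¬ p % 2 = 0 := by omega
    have e2 : ¬ p / 2 % 2 = 0 := by omega
    have e3 : p / 2 / 2 - 16 = (p - 64) / 4 := by omega
    unfold litT at h3
    rw [if_neg e1] at h3
    unfold atomT at h3
    rw [if_neg e2, e3, not_not] at h3
    obtain ⟨key', q', hl', h4⟩ := h3
    rw [hl] at hl'
    injection hl' with e4 e5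
    subst e4
    exact h4 v hd
  have hAs : ∀ x, As.Mem x → Good C.n x ∧ P (monomial (expo C.n x) 1) := by
    intro x hx
    obtain ⟨p, q, hp, hp64, hp4, hl⟩ := a3 x hx
    have h3 := hlit p hp
    have e1 : ¬ p % 2 = 0 := by omega
    have e2 : p / 2 % 2 = 0 := by omega
    have e3 : p / 2 / 2 - 16 = (p - 64) / 4 := by omega
    unfold litT at h3
    rw [if_neg e1] at h3
    unfold atomT at h3
    rw [if_pos e2, e3, not_not] at h3
    obtain ⟨key', q', hl', h4⟩ := h3
    rw [hl] at hl'
    injection hl' with e4 e5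
    subst e4
    exact ⟨(hM _ _ _ hl).1, h4⟩
  have hDs : ∀ x, Ds.Mem x → ¬ ∀ v : Fin C.n, dig x v ≠ 0 → v ∈ F := by
    intro x hx h3
    obtain ⟨p, q, hp, hp64, hp4, hl⟩ := a4 x hx
    apply hlit p hp
    have e1 : p % 2 = 0 := by omega
    have e2 : ¬ p / 2 % 2 = 0 := by omega
    have e3 : p / 2 / 2 - 16 = (p - 64) / 4 := by omega
    unfold litT
    rw [if_pos e1]
    unfold atomT
    rw [if_neg e2, e3]
    exact ⟨x, q, hl, h3⟩
  have hmon : ∀ q, P (monomial (expo C.n q) 1) → ∃ v : Fin C.n, dig q v ≠ 0 ∧ P (X v) := by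
    intro q hq
    obtain ⟨v, hv, hv2⟩ := k4c_prime_monomial P P1 Pprime _ hq
    exact ⟨v, (k4c_supp _ _ _).1 hv, hv2⟩
  have P0 : ∀ f, P f → P 0 := by
    intro f hf0
    have := Pmul 0 f hf0
    rwa [zero_mul] at this
  rcases t with _ | _ | _ | _ | _ | _ | t
  · -- t = 0
    obtain ⟨x, hx, hx2⟩ := (anyL_iff _ _).1 hf
    obtain ⟨v, hv, hv2⟩ := hmon x (hAs x hx).2
    exact hUb v (subs_sound C hC hx2 v v.2 hv) hv2
  · -- t = 1
    obtain ⟨x, hx, hx2⟩ := (anyL_iff _ _).1 hf
    refine F3 _ (hAs x hx).2 (expo C.n x) ?_ ?_ ?_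
    · rw [mem_support_iff, coeff_monomial, if_pos rfl]
      exact one_ne_zero
    · intro e' he' hne
      have h3 := support_monomial_subset he'
      rw [Finset.mem_singleton] at h3
      exact absurd h3 hne
    · intro v hv
      exact hUc v (subs_sound C hC hx2 v v.2 ((k4c_supp _ _ _).1 hv))
  · -- t = 2
    obtain ⟨x, hx, hx2⟩ := (anyL_iff _ _).1 hf
    exact hDs x hx fun v hv => hUc v (subs_sound C hC hx2 v v.2 hv)
  · -- t = 3
    cases hl : look T a with
    | none =>
      have hf' : (En.rec (motive := fun _ => Bool) false (fun k _ => subs C.LOW k Uc)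
        (look T a) : Bool) = true := hf
      rw [hl] at hf'
      exact absurd hf' (by simp)
    | some key q =>
      have hf' : (En.rec (motive := fun _ => Bool) false (fun k _ => subs C.LOW k Uc)
        (look T a) : Bool) = true := hf
      rw [hl] at hf'
      exact F1 a key q hl fun v hv => hUc v (subs_sound C hC hf' v v.2 hv)
  · -- t = 4
    obtain ⟨h3, hf⟩ := k2_brec_false hf
    obtain ⟨h4, h5⟩ := k2_brec_false hf
    have h6 : Nat.succ (32 + 5 * a) ≤ C.sh := Nat.le_of_ble_eq_true h3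
    have hsh := hC.2.1
    have ha : a < C.n := by
      rw [hsh] at h6
      omega
    have hsl : Nat.shiftLeft 1 (Nat.add 32 (Nat.mul 5 a)) = 2 ^ (32 + 5 * a) := by
      have : 1 <<< (32 + 5 * a) = 2 ^ (32 + 5 * a) := Nat.one_shiftLeft _
      exact this
    by_cases haF : (⟨a, ha⟩ : Fin C.n) ∈ F
    · obtain ⟨d, hd, hd2⟩ := (anyL_iff _ _).1 h4
      rw [hsl] at hd2
      apply hDs d hd
      intro v hv
      have h7 := subs_sound C hC hd2 v v.2 hv
      rw [k4c_dig_pow] at h7
      have h8 : (v : ℕ) = a := by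
        by_contra h9
        rw [if_neg h9] at h7
        exact h7 rfl
      have h9 : v = ⟨a, ha⟩ := Fin.ext h8
      rw [h9]
      exact haF
    · obtain ⟨i, key, p, hi, hkey, hkF⟩ := F2 _ haF
      have hkey' : dig key a ≠ 0 := hkey
      have hkey1 : dig key a ≤ 1 := (hT i key p hi).2.2.1 a ha
      have h7 : Nat.land (Nat.shiftRight key (Nat.add 32 (Nat.mul 5 a))) 1 = 1 := by
        have h8 : dig key a = 1 := by omega
        have h9 := dig_testBit key a 0
        rw [h8] at h9
        have h10 : key.testBit (32 + 5 * a) = true := by simpa using h9.symm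
        have h11 : (key >>> (32 + 5 * a)) &&& 1 = 1 := by
          rw [Nat.and_one_is_mod, Nat.shiftRight_eq_div_pow]
          rw [Nat.testBit_eq_decide_div_mod_eq] at h10
          simpa using h10
        exact h11
      obtain ⟨d, hd, hd2⟩ := k4c_maxGo _ _ _ _ h5 i key p hi h7
      apply hDs d hd
      intro v hv
      have h8 := subs_sound C hC hd2 v v.2 hv
      rw [hsl] at h8
      obtain ⟨h9, h10⟩ := k4c_dig_sub (fun v hv => by omega) hkey' v h8
      refine hkF v ?_ h10
      intro h11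
      apply h9
      rw [h11]
  · -- t = 5
    obtain ⟨h3, hf⟩ := k2_brec_false hf
    obtain ⟨h4, h5⟩ := k2_brec_false hf
    have hb : Good C.n b := (good_iff C hC _).1 (Nat.eq_of_beq_eq_true h3)
    have hbP : ¬ P (monomial (expo C.n b) 1) := by
      intro hP
      obtain ⟨v, hv, hv2⟩ := hmon b hP
      exact hUb v (supp_sound C hC hUb1 h4 v v.2 hv) hv2
    cases hl : look R a with
    | none =>
      rw [hl] at h5
      exact absurd h5 (by simp)
    | some key q =>
      rw [hl] at h5
      obtain ⟨h6, h7⟩ := hR _ _ _ hl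
      exact k4c_rel1 C hC κ h2 P F (P0 _ h6) Padd Pmul Pprime F3 As hAs Uc hUc1 hUc b hb hbP q
        h7 h5 h6
  · -- t = 6
    have hf' : (En.rec (motive := fun _ => Bool) false (fun k _ => subs C.LOW k Ub)
        (look Y a) : Bool) = true := hf
    cases hl : look Y a with
    | none =>
      rw [hl] at hf'
      exact absurd hf' (by simp)
    | some key q =>
      rw [hl] at hf'
      obtain ⟨v, hv, hv2⟩ := hY _ _ _ hl
      exact hUb v (subs_sound C hC hf' v v.2 hv) hv2

end Pool.Agent.Helper97.Hilb8.K
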