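import Pool.Agent.Helper97.Hilb8.K.Sat
import Pool.Agent.Helper97.Hilb8.K.Rule
import Pool.Agent.Helper97.Hilb8.K.Rels
import Pool.Agent.Helper97.Hilb8.K.Elims
import Pool.Agent.Helper97.Hilb8.K.Pairs
import Pool.Agent.Helper97.Hilb8.Prime
import Pool.Agent.Helper97.Hilb8.Trd
import Pool.Agent.Helper97.Hilb8.PrimeElim

/-!
# Soundness of the kernel-evaluable checks: assembly
-/

namespace Pool.Agent.Helper97.Hilb8.K

open MvPolynomial

namespace K4f

theorem brec_false {X b : Bool} :
    Bool.rec (motive := fun _ => Bool) false X b = true ↔ b = true ∧ X = true := by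
  cases b
  · exact ⟨fun h => Bool.noConfusion h, fun h => h.1⟩
  · exact ⟨fun h => ⟨rfl, h⟩, fun h => h.2⟩

/-- The order on exponent vectors. -/
def lt' {n : ℕ} (κ : Fin n → ℕ) (a b : Fin n →₀ ℕ) : Prop :=
  wt κ a < wt κ b ∨ (wt κ a = wt κ b ∧ toLex a < toLex b)

theorem lt_irrefl' {n : ℕ} (κ : Fin n → ℕ) (a : Fin n →₀ ℕ) : ¬ lt' κ a a := by
  rintro (h | h)
  · exact lt_irrefl _ h
  · exact lt_irrefl _ h.2

theorem lt_trans' {n : ℕ} (κ : Fin n → ℕ) (a b c : Fin n →₀ ℕ) (h1 : lt' κ a b)
    (h2 : lt' κ b c) : lt' κ a c := by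
  rcases h1 with h1 | ⟨h1, h1'⟩ <;> rcases h2 with h2 | ⟨h2, h2'⟩
  · exact Or.inl (h1.trans h2)
  · exact Or.inl (h2 ▸ h1)
  · exact Or.inl (h1 ▸ h2)
  · exact Or.inr ⟨h1.trans h2, h1'.trans h2'⟩

theorem lt_total' {n : ℕ} (κ : Fin n → ℕ) (a b : Fin n →₀ ℕ) (h : a ≠ b) :
    lt' κ a b ∨ lt' κ b a := by
  rcases lt_trichotomy (wt κ a) (wt κ b) with h1 | h1 | h1
  · exact Or.inl (Or.inl h1)
  · rcases lt_trichotomy (toLex a) (toLex b) with h2 | h2 | h2
    · exact Or.inl (Or.inr ⟨h1, h2⟩)
    · exact absurd (toLex.injective h2) h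
    · exact Or.inr (Or.inr ⟨h1.symm, h2⟩)
  · exact Or.inr (Or.inl h1)

theorem lt_add' {n : ℕ} (κ : Fin n → ℕ) (a b c : Fin n →₀ ℕ) (h : lt' κ a b) :
    lt' κ (a + c) (b + c) := by
  unfold lt'
  rw [GB.wt_add, GB.wt_add]
  rcases h with h | ⟨h, h'⟩
  · exact Or.inl (Nat.add_lt_add_right h _)
  · refine Or.inr ⟨by rw [h], ?_⟩
    have : toLex a + toLex c < toLex b + toLex c := add_lt_add_left h' _
    exact this

theorem ms_sound (C : Cst) (hC : C.ok) (M : Tr) (h : msOK C.G C.SQ M = true) :
    TAll (fun _ key _ => Good C.n key ∧ ∀ v < C.n, dig key v ≤ 1) M := by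
  induction M with
  | leaf =>
    intro i key p hi
    exact absurd hi (by intro h; exact En.noConfusion h)
  | node l i k p r ihl ihr =>
    have h' : Bool.rec (motive := fun _ => Bool) false (Bool.rec (motive := fun _ => Bool) false
      (Bool.rec (motive := fun _ => Bool) false
      (Nat.beq (Nat.land k C.G) 0) (Nat.beq (Nat.land k C.SQ) 0)) (msOK C.G C.SQ l))
      (msOK C.G C.SQ r) = true := h
    rw [brec_false, brec_false, brec_false] at h'
    obtain ⟨hr, hl, hsq, hg⟩ := h'
    intro j key q hj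
    have hj' : Bool.rec (motive := fun _ => En) (look r j)
      (Bool.rec (motive := fun _ => En) (look l j) (.some k p) (Nat.beq i j)) (Nat.ble j i) =
        .some key q := hj
    cases h1 : Nat.ble j i
    · rw [h1] at hj'
      exact ihr hr j key q hj'
    · rw [h1] at hj'
      cases h2 : Nat.beq i j
      · rw [h2] at hj'
        exact ihl hl j key q hj'
      · rw [h2] at hj'
        have h3 : En.some k p = En.some key q := hj'
        injection h3 with h4 h5
        rw [← h4]
        exact ⟨(good_iff C hC k).1 (Nat.eq_of_beq_eq_true hg),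
          (squarefree_iff C hC k).1 (Nat.eq_of_beq_eq_true hsq)⟩

theorem node_congr (rule rule' : L → Nat → Nat → Nat → Bool) (D : CT)
    (h : ∀ c t a b, litsOK c = true → rule c t a b = true → rule' c t a b = true)
    (i : Nat) (c : L) (w : J) (hc : litsOK c = true) (hw : nodeOK rule D i c w = true) :
    nodeOK rule' D i c w = true := by
  cases w with
  | rup g => exact hw
  | rul t a b => exact h c t a b hc hw

theorem chk_congr (rule rule' : L → Nat → Nat → Nat → Bool) (D : CT)
    (h : ∀ c t a b, litsOK c = true → rule c t a b = true → rule' c t a b = true)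
    (T : CT) (hT : chkC rule D T = true) : chkC rule' D T = true := by
  induction T with
  | leaf => rfl
  | node l i c w r ihl ihr =>
    rw [chkC_node] at hT ⊢
    exact ⟨ihl hT.1, ihr hT.2.1, hT.2.2.1, node_congr rule rule' D h i c w hT.2.2.1 hT.2.2.2⟩

theorem monomial_notMem {n : ℕ} {k : Type*} [Field k] (P : Ideal (MvPolynomial (Fin n) k))
    [P.IsPrime] (hX : ∀ v, X v ∉ P) (M : Fin n →₀ ℕ) : monomial M (1 : k) ∉ P := by
  rw [monomial_eq, C_1, one_mul, Finsupp.prod]
  refine Finset.prod_induction (fun v => (X v : MvPolynomial (Fin n) k) ^ M v)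
      (fun a => a ∉ P) (fun a b ha hb hab => ?_) ?_ ?_
  · rcases Ideal.IsPrime.mem_or_mem ‹_› hab with h | h
    · exact ha h
    · exact hb h
  · exact (Ideal.ne_top_iff_one P).1 Ideal.IsPrime.ne_top'
  · intro v _ h
    exact hX v (Ideal.IsPrime.mem_of_pow_mem ‹_› _ h)

end K4f

open K4f

theorem le_of_checks (C : Cst) (hC : C.ok) (ws : W) (hw : posOK C.n ws 0 = true) (N : ℕ) (T : Tr)
    (hT : tabOK C.G C.SQ N ws T = true) (hN : present T N = true)
    (hrows : ∀ j < N, ∀ Lj tj, look T j = .some Lj tj →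
      ∃ codes trs, row C.G C.LOW C.sh T j Lj tj j codes trs = true)
    (M R Y : Tr) (hM : msOK C.G C.SQ M = true) (hR : relsOK C.G C.sh ws T R = true)
    (N0 : ℕ) (hY : elims C.n C.LOW C.SQ C.sh N0 R Y = true)
    (D : CT) (hD : chkC (rule C.G C.LOW C.sh M T R Y) D D = true)
    (i : ℕ) (w : J) (hi : lookC D i = .some .e w)
    {k : Type*} [Field k] (h2 : (2 : k) ≠ 0)
    (P : Ideal (MvPolynomial (Fin C.n) k)) [P.IsPrime]
    (hQP : ∀ i : Fin N, (look T i).ev C.n k ∈ P) (hX : ∀ v, X v ∉ P)
    (Z0 : Finset (Fin C.n)) (hZ0 : N0 ≤ Z0.card)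
    (h0 : ∀ p ∈ supported k (Z0 : Set (Fin C.n)), p ∈ P → p = 0) :
    P ≤ Ideal.span (Set.range fun i : Fin N => (look T i).ev C.n k) := by
  classical
  have hTab := tab_of_check C hC ws hw N T hT
  obtain ⟨hlead, hok, hsq⟩ := ok_of_rows (k := k) C hC _ N T hTab hN hrows
  have hRel := rels_sound C hC ws hw N T R hTab hR k
  have hall : ∀ (A B : ℕ → Prop) (p : Pool.Agent.Helper97.Hilb8.K.P), (∀ a, A a → B a) →
      p.All A → p.All B := by
    intro A B p hAB hp
    induction p with
    | z => trivial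
    | t k x y r ih =>
      exact ⟨hAB _ hp.1, ih hp.2⟩
  generalize hQ : Ideal.span (Set.range fun i : Fin N => (look T i).ev C.n k) = Q at hRel ⊢
  have hQP' : Q ≤ P := by
    rw [← hQ, Ideal.span_le]
    rintro _ ⟨j, rfl⟩
    exact hQP j
  have hEl := elims_sound C hC N0 R Y hY h2 Q (fun j key p h =>
    ⟨(hRel j key p h).1, hall _ _ p (fun a ha => ha.1) (hRel j key p h).2⟩)
  choose Z hZcard hZel using
    (fun a : {a : ℕ × ℕ × Pool.Agent.Helper97.Hilb8.K.P // look Y a.1 = .some a.2.1 a.2.2} =>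
      hEl a.1.1 a.1.2.1 a.1.2.2 a.2)
  refine le_of_elim P Q hQP' (fun a => (Z a : Set (Fin C.n)))
    (fun a => {v : Fin C.n | dig a.1.2.1 v ≠ 0}) ?_ ?_ ?_
  · intro a
    refine indep_transfer P Z0 (Z a) ((hZcard a).trans hZ0) h0 (fun v => ?_)
    obtain ⟨t, ht, ⟨b, m, _, htb⟩, q, hq, htq⟩ := hZel a (X v)
    refine ⟨t, ht, fun htP => ?_, q, hq, hQP' htq⟩
    apply monomial_notMem P hX m
    have h1 : t * b - (t * b - monomial m 1) ∈ P :=
      P.sub_mem (P.mul_mem_right _ htP) (hQP' htb)
    rwa [sub_sub_cancel] at h1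
  · intro a p
    exact hZel a p
  · intro p hp
    obtain ⟨r, hr, hprime⟩ := exists_prime_colon Q p hp
    refine ⟨r, hr, hprime, ?_⟩
    by_contra hcon
    have hr' : r * p ∉ Ideal.span (Set.range fun i : Fin N => (look T i).ev C.n k) := by
      rw [hQ]; exact hr
    obtain ⟨F, F1, F2, F3⟩ := exists_facet (fun v : Fin C.n => ws.get v)
      (fun i : Fin N => (look T i).ev C.n k) (fun i : Fin N => (look T i).lead C.n)
      hlead hok hsq (lt' fun v : Fin C.n => ws.get v) (lt_irrefl' _) (lt_trans' _) (lt_total' _)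
      (lt_add' _) (fun a b h => Or.inl h) (r * p) hr'
    rw [hQ] at F3
    have hpresent : ∀ j key q, look T j = .some key q → j < N := fun j key q h => (hTab j key q h).1
    have hrule := rule_sound C hC (fun v : Fin C.n => ws.get v) N M T R Y hTab
      (ms_sound C hC M hM) h2 (fun q => q * (r * p) ∈ Q) F
      (by rwa [one_mul])
      (fun a b ha hb => by rw [add_mul]; exact Q.add_mem ha hb)
      (fun a b hb => by rw [mul_assoc]; exact Q.mul_mem_left _ hb)
      hprime
      (fun j key q h => ⟨Q.mul_mem_right _ (hRel j key q h).1, (hRel j key q h).2⟩)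
      (by
        intro j key q hj hcon'
        refine F1 ⟨j, hpresent j key q hj⟩ ?_
        intro v hv
        refine hcon' v ?_
        have h3 : (look T j).lead C.n v ≠ 0 := hv
        rw [hj] at h3
        exact h3)
      (by
        intro v hv
        obtain ⟨j, hj1, hj2⟩ := F2 v hv
        cases hj : look T j with
        | none =>
          exfalso
          apply hj1
          have h3 : (look T (j : ℕ)).lead C.n v = 0 := by rw [hj]; rfl
          exact h3
        | some key q =>
          have hL : ∀ u : Fin C.n, (look T (j : ℕ)).lead C.n u = dig key u := by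
            intro u; rw [hj]; rfl
          refine ⟨j, key, q, hj, ?_, ?_⟩
          · rw [← hL]; exact hj1
          · intro u hu hu'
            exact hj2 u hu (by rw [← hL] at hu'; exact hu'))
      (fun q hq e he he' => F3 q hq e he (fun e' h1 h2 => Or.inl (he' e' h1 h2)))
      (by
        intro j key q hj
        by_contra hcon'
        apply hcon
        refine ⟨⟨(j, key, q), hj⟩, ?_⟩
        intro u hu hu'
        exact hcon' ⟨u, hu, hu'⟩)
    have hD' : chkC (fun c t a b => (rule C.G C.LOW C.sh M T R Y c t a b) && litsOK c) D D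
        = true := chk_congr _ _ D (fun c t a b h1 h3 => by simp [h1, h3]) D hD
    have hfin := sat_of_chk (fun c t a b => (rule C.G C.LOW C.sh M T R Y c t a b) && litsOK c) D
      (atomT C.n M (fun q : MvPolynomial (Fin C.n) k => q * (r * p) ∈ Q) F)
      (fun c t a b h => by
        rw [Bool.and_eq_true] at h
        exact hrule c t a b h.1 h.2) hD' i .e w hi
    obtain ⟨p', hp', _⟩ := hfin
    exact hp'

end Pool.Agent.Helper97.Hilb8.K
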