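import Pool.Agent.Helper97.Hilb8.K.RawDefs

/-!
# Kernel-evaluable checks for the valuation given by 8 monomial points: definitions
-/

noncomputable section

namespace Pool.Agent.Helper97.Hilb8.K

/-- The sum of `f i` for `i < n`. -/
def sumN (f : Nat → Nat) (n : Nat) : Nat := Nat.rec 0 (fun i ih => Nat.add ih (f i)) n

/-- Digit in base `2 ^ 16`. -/
def d16 (x i : Nat) : Nat := Nat.land (Nat.shiftRight x (Nat.mul 16 i)) 65535

/-- Digit in base `8`. -/
def d3 (x i : Nat) : Nat := Nat.land (Nat.shiftRight x (Nat.mul 3 i)) 7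

/-- Exponent `i` of the monomial number `n`. -/
def mo (MO n i : Nat) : Nat := d3 MO (Nat.add (Nat.mul 4 n) i)

/-- The pairing of the weights of the point `j` with the monomial number `n`. -/
def prK (A MO j n : Nat) : Nat :=
  Nat.add (Nat.add (Nat.add (Nat.mul (d16 A (Nat.mul 4 j)) (mo MO n 0))
    (Nat.mul (d16 A (Nat.add (Nat.mul 4 j) 1)) (mo MO n 1)))
    (Nat.mul (d16 A (Nat.add (Nat.mul 4 j) 2)) (mo MO n 2)))
    (Nat.mul (d16 A (Nat.add (Nat.mul 4 j) 3)) (mo MO n 3))

/-- Index of the monomial in column `c` of the determinant of the variable `v`. -/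
def colK (v c : Nat) : Nat :=
  Bool.rec c (Nat.add 8 (Nat.shiftRight v 3)) (Nat.beq c (Nat.land v 7))

/-- `p`, `q` (the latter shifted by `S`) are potentials with total value `w`. -/
def potOK (A MO S : Nat) (col : Nat → Nat) (p q w : Nat) : Bool :=
  Bool.rec false
    (allN (fun j => allN (fun c => Nat.ble (Nat.add (prK A MO j (col c)) S)
      (Nat.add (d16 p j) (d16 q c))) 8) 8)
    (Nat.beq (Nat.add (sumN (d16 p) 8) (sumN (d16 q) 8)) (Nat.add w (Nat.mul 8 S)))

/-- `sg` is a permutation, optimal for the potentials `p`, `q` and for the second potentials `p'`,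
`q'` (shifted by `S'`), and all other entries that are tight for the first are strict for the
second. -/
def optOK (A B MO S S' : Nat) (col : Nat → Nat) (p q sg p' q' : Nat) : Bool :=
  Bool.rec false
    (allN (fun j => allN (fun c =>
      Bool.rec
        (Bool.rec true
          (Nat.ble (Nat.succ (Nat.add (prK B MO j (col c)) S')) (Nat.add (d16 p' j) (d16 q' c)))
          (Nat.beq (Nat.add (prK A MO j (col c)) S) (Nat.add (d16 p j) (d16 q c))))
        (Bool.rec false
          (Nat.beq (Nat.add (prK B MO j (col c)) S') (Nat.add (d16 p' j) (d16 q' c)))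
          (Nat.beq (Nat.add (prK A MO j (col c)) S) (Nat.add (d16 p j) (d16 q c))))
        (Nat.beq c (d3 sg j))) 8) 8)
    (Nat.beq (Nat.rec 0 (fun j ih => Nat.lor ih (Nat.shiftLeft 1 (d3 sg j))) 8) 255)

/-- Data of the variables: `node l v p q sg p' q' r`. -/
inductive PT | leaf | node (l : PT) (v p q sg p' q' : Nat) (r : PT)

/-- Result of a search. -/
inductive PE | none | some (p q sg p' q' : Nat)

/-- Search. -/
def lookP (t : PT) (j : Nat) : PE :=
  PT.rec (motive := fun _ => PE) .none
    (fun _ i p q sg p' q' _ ihl ihr =>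
      Bool.rec ihr (Bool.rec ihl (.some p q sg p' q') (Nat.beq i j)) (Nat.ble j i)) t

/-- The potentials of the variables `v, v + 1, …` are correct for the weights `w`. -/
def potsOK (A MO S WO : Nat) (t : PT) (w : W) : Nat → Bool :=
  W.rec (motive := fun _ => Nat → Bool) (fun _ => true)
    (fun _ a _ ih v => Bool.rec false (ih (Nat.succ v))
      (PE.rec false (fun p q _ _ _ => potOK A MO S (colK v) p q (Nat.add a WO)) (lookP t v))) w

/-- The variables of the list have unique optima. -/
def optsOK (A B MO S S' : Nat) (t : PT) (l : L) : Bool :=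
  L.rec true (fun v _ ih => Bool.rec false ih
    (PE.rec false (fun p q sg p' q' => optOK A B MO S S' (colK v) p q sg p' q') (lookP t v))) l

/-- The numbers in the list are different (`m`: mask of the previous ones). -/
def distinct (l : L) : Nat → Bool :=
  L.rec (motive := fun _ => Nat → Bool) (fun _ => true)
    (fun v _ ih m => Bool.rec (ih (Nat.lor m (Nat.shiftLeft 1 v))) false
      (Nat.beq (Nat.land (Nat.shiftRight m v) 1) 1)) l

/-- The entry `(z, z')` of the product of the exponent matrix and `g - 1`: `a` are the exponents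
for the variable `v` with permutation `sg`, `b` those of the basis. -/
def entOK (MO g sg0 v sg z z' : Nat) : Bool :=
  Nat.beq
    (sumN (fun x => Nat.add
      (Nat.mul (mo MO (colK v (d3 sg (Nat.shiftRight x 2))) (Nat.land x 3))
        (Nat.land (Nat.shiftRight g (Nat.mul 2 (Nat.add (Nat.mul 32 x) z'))) 3))
      (mo MO (d3 sg0 (Nat.shiftRight x 2)) (Nat.land x 3))) 32)
    (Nat.add (Bool.rec 0 1 (Nat.beq z z')) (sumN (fun x => Nat.add
      (Nat.mul (mo MO (d3 sg0 (Nat.shiftRight x 2)) (Nat.land x 3))
        (Nat.land (Nat.shiftRight g (Nat.mul 2 (Nat.add (Nat.mul 32 x) z'))) 3))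
      (mo MO (colK v (d3 sg (Nat.shiftRight x 2))) (Nat.land x 3))) 32))

/-- The matrix of the exponents of the variables `z, z + 1, …` of the list is inverse to the
matrix `g - 1`. -/
def indepOK (MO g sg0 : Nat) (t : PT) (l : L) : Nat → Bool :=
  L.rec (motive := fun _ => Nat → Bool) (fun z => Nat.beq z 32)
    (fun v _ ih z => Bool.rec false (ih (Nat.succ z))
      (PE.rec false (fun _ _ sg _ _ => allN (entOK MO g sg0 v sg z) 32) (lookP t v))) l

/-- The entries of `zl` are the entries of `io` with the numbers `zk`. -/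
def zOK (zl zk io : L) (n : Nat) : Bool :=
  allN (fun z => Bool.rec false (Nat.ble (Nat.succ (zk.get z)) n)
    (Nat.beq (zl.get z) (io.get (zk.get z)))) 32

end Pool.Agent.Helper97.Hilb8.K
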