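import Pool.Agent.Helper97.Hilb8.K.RuleDefs

/-!
# Kernel-evaluable certificates for initial forms: definitions

Raw variables: the `8 nb` coordinates of the chart. Kept variables: the variables of the
Groebner basis.
-/

noncomputable section

namespace Pool.Agent.Helper97.Hilb8.K

/-- Linear combinations: the sum of `(x - y) X^m` times the entry number `i`. -/
inductive CL | e | c (x y m i : Nat) (r : CL)

/-- `acc + (x - y) X^m p`, leaving out the terms of the product with key `< cut`. -/
def addmT (cut m x y : Nat) (p : P) : P → P :=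
  P.rec (motive := fun _ => P → P) (fun acc => acc)
    (fun k a b _ ih acc => Bool.rec (ih acc)
      (ins (Nat.add k m) (Nat.add (Nat.mul x a) (Nat.mul y b))
        (Nat.add (Nat.mul x b) (Nat.mul y a)) ih acc)
      (Nat.ble cut (Nat.add k m))) p

/-- Remove the zero terms at the beginning. -/
def dropZ (p : P) : P :=
  P.rec .z (fun k x y r ih => Bool.rec (.t k x y r) ih (Nat.beq x y)) p

/-- Add the linear combination `l` of the entries of `T` (numbers `< N`) to `acc` (leaving out keys
`< cut`) and continue with `f`. -/
def comb (G cut : Nat) (T : Tr) (N : Nat) (f : P → Bool) (l : CL) : P → Bool :=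
  CL.rec (motive := fun _ => P → Bool) f
    (fun x y m i _ ih acc => Bool.rec false (Bool.rec false
      (En.rec false (fun _ p => ih (addmT cut m x y p (dropZ acc))) (look T i))
      (Nat.ble (Nat.succ i) N)) (Nat.beq (Nat.land m G) 0)) l

/-- `p` is a linear combination of the entries `< N`. -/
def inSpan (G : Nat) (D : Tr) (N : Nat) (l : CL) (p : P) : Bool :=
  comb G 0 D N isZero l (addm 0 0 1 p .z)

/-- All keys are good. -/
def goodP (G : Nat) (p : P) : Bool :=
  P.rec true (fun k _ _ _ ih => Bool.rec false ih (Nat.beq (Nat.land k G) 0)) p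

/-- All numbers are `< N` and all keys of all polynomials are good. -/
def goodT (G N : Nat) (T : Tr) : Bool :=
  Tr.rec true (fun _ i _ p _ ihl ihr => Bool.rec false (Bool.rec false (Bool.rec false (goodP G p)
    (Nat.ble (Nat.succ i) N)) ihl) ihr) T

/-- Justifications: `x j r`: the next entry is the entry `j` of the other table; `d x y cl r`:
`x - y` times the next entry is the linear combination `cl` of previous entries. -/
inductive JL | e | x (j : Nat) (r : JL) | d (x y : Nat) (cl : CL) (r : JL)

/-- The length. -/
def JL.len (l : JL) : Nat := JL.rec 0 (fun _ _ ih => Nat.succ ih) (fun _ _ _ _ ih => Nat.succ ih) l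

/-- Check of the justifications of the entries `i0, i0 + 1, …` of `D`. -/
def chkJ (G : Nat) (E D : Tr) (l : JL) : Nat → Bool :=
  JL.rec (motive := fun _ => Nat → Bool) (fun _ => true)
    (fun j _ ih i => Bool.rec false (ih (Nat.succ i))
      (En.rec false (fun _ p => En.rec false (fun _ q => isZero (addm 0 0 1 q p)) (look E j))
        (look D i)))
    (fun x y cl _ ih i => Bool.rec false (Bool.rec false (ih (Nat.succ i))
      (En.rec false (fun _ p => comb G 0 D i isZero cl (addm 0 y x p .z)) (look D i)))
      (coefOK x y)) l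

/-- Check that the entries `i0, i0 + 1, …` of `T` (with leading key) are linear combinations. -/
inductive TL | e | c (cl : CL) (r : TL)

/-- The length. -/
def TL.len (l : TL) : Nat := TL.rec 0 (fun _ _ ih => Nat.succ ih) l

/-- Check that the entries `i0, i0 + 1, …` of `T` (with leading key) are linear combinations of the
entries `< N` of `D`. -/
def chkT (G : Nat) (D : Tr) (N : Nat) (T : Tr) (l : TL) : Nat → Bool :=
  TL.rec (motive := fun _ => Nat → Bool) (fun _ => true)
    (fun cl _ ih i => Bool.rec false (ih (Nat.succ i))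
      (En.rec false (fun k p => inSpan G D N cl (.t k 1 0 p)) (look T i))) l

/-! ### Substitution -/

/-- Lists of polynomials for the variables: `c s q r`: the variable at the bit position `s` goes to
`q`. -/
inductive V | e | c (s : Nat) (q : P) (r : V)

/-- The bit positions are `32 + 5 v, 32 + 5 (v + 1), …, 32 + 5 (n - 1)`. -/
def V.posOK (n : Nat) (t : V) : Nat → Bool :=
  V.rec (motive := fun _ => Nat → Bool) (fun v => Nat.beq v n)
    (fun s _ _ ih v => Bool.rec false (ih (Nat.succ v)) (Nat.beq s (Nat.add 32 (Nat.mul 5 v)))) t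

/-- The polynomial of the variable number `v`. -/
def V.get (t : V) : Nat → P :=
  V.rec (motive := fun _ => Nat → P) (fun _ => .z)
    (fun _ q _ ih v => Nat.rec q (fun v' _ => ih v') v) t

/-- All keys are good. -/
def V.good (G : Nat) (t : V) : Bool :=
  V.rec true (fun _ q _ ih => Bool.rec false ih (goodP G q)) t

/-- Multiply `acc` by the value of the key `k` and continue with `f`. -/
def sM (G : Nat) (t : V) (f : P → Bool) (k : Nat) : P → Bool :=
  V.rec (motive := fun _ => P → Bool) f
    (fun s q _ ih acc => Nat.rec (motive := fun _ => P → Bool) ih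
      (fun _ ihd acc => Bool.rec false (ihd (mulAdd q acc .z)) (goodP G (mulAdd q acc .z)))
      (Nat.land (Nat.shiftRight k s) 31) acc) t

/-- Add the value of `p` to `acc` and continue with `f`. -/
def sP (G : Nat) (t : V) (f : P → Bool) (p : P) : P → Bool :=
  P.rec (motive := fun _ => P → Bool) f
    (fun k x y _ ih acc => sM G t (fun a => ih (addm 0 1 0 a acc)) k (.t 0 x y .z)) p

/-! ### Commutators -/

/-- `(x - y)` times the entry `(r, c)` of the matrix number `i` of the chart with successor table
`NX`; `VK` holds the keys of the variables. -/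
def ent (NX : L) (VK : Tr) (x y i r c : Nat) : P :=
  (fun b => Bool.rec
    (En.rec .z (fun k _ => .t k x y .z) (look VK (Nat.add (Nat.mul 8 (Nat.sub b 8)) r)))
    (Bool.rec .z (.t 0 x y .z) (Nat.beq b r)) (Nat.ble (Nat.succ b) 8))
  (NX.get (Nat.add (Nat.mul 8 i) c))

/-- Entry `(r, c)` of the commutator of the matrices `i`, `j`, plus `acc`. -/
def commP (NX : L) (VK : Tr) (i j r c : Nat) (acc : P) : P :=
  Nat.rec acc (fun l ih =>
    mulAdd (ent NX VK 0 1 j r l) (ent NX VK 1 0 i l c)
      (mulAdd (ent NX VK 1 0 i r l) (ent NX VK 1 0 j l c) ih)) 8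

/-- The keys of the variables are correct. -/
def vkOK (G LOW sh : Nat) (VK : Tr) : Bool :=
  Tr.rec true (fun _ v k _ _ ihl ihr => Bool.rec false (Bool.rec false (Bool.rec false (Bool.rec false
    (Nat.ble (Nat.succ (Nat.add 32 (Nat.mul 5 v))) sh)
    (Nat.beq (Nat.land k LOW) (Nat.shiftLeft 1 (Nat.add 32 (Nat.mul 5 v)))))
    (Nat.beq (Nat.land k G) 0)) ihl) ihr) VK

/-- The entries of the table `CT` (number `512 i + 64 j + 8 r + c`) are the commutators. -/
def commOK (NX : L) (VK CT : Tr) : Bool :=
  Tr.rec true (fun _ x _ p _ ihl ihr => Bool.rec false (Bool.rec false (Bool.rec false (Bool.rec false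
    (isZero (commP NX VK (Nat.shiftRight x 9) (Nat.land (Nat.shiftRight x 6) 7)
      (Nat.land (Nat.shiftRight x 3) 7) (Nat.land x 7) (addm 0 0 1 p .z)))
    (Nat.ble (Nat.succ (Nat.land (Nat.shiftRight x 6) 7)) 4))
    (Nat.ble (Nat.succ x) 2048)) ihl) ihr) CT

/-- All numbers `i < n` satisfy `f`. -/
def allN (f : Nat → Bool) (n : Nat) : Bool := Nat.rec true (fun i ih => Bool.rec false ih (f i)) n

/-- Every commutator of the matrices `i < j` is an entry of `CT` or zero. -/
def commAll (NX : L) (VK CT : Tr) : Bool :=
  allN (fun j => allN (fun i => allN (fun r => allN (fun c =>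
    En.rec (isZero (commP NX VK i j r c .z)) (fun _ _ => true)
      (look CT (Nat.add (Nat.add (Nat.add (Nat.mul 512 i) (Nat.mul 64 j)) (Nat.mul 8 r)) c)))
    8) 8) j) 4

/-- All polynomials of the table have good keys with correct weights. -/
def wtT (G sh : Nat) (ws : W) (T : Tr) : Bool :=
  Tr.rec true (fun _ _ _ p _ ihl ihr => Bool.rec false (Bool.rec false (relOK G sh ws p) ihl) ihr) T

/-- The multipliers have correct weights. -/
def clW (sh : Nat) (ws : W) (l : CL) : Bool :=
  CL.rec true (fun _ _ m _ _ ih => Bool.rec false ih (Nat.beq (wtk ws m) (Nat.shiftRight m sh))) l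

/-- All weight fields are `d`. -/
def wtEq (sh d : Nat) (p : P) : Bool :=
  P.rec true (fun k _ _ _ ih => Bool.rec false ih (Nat.beq (Nat.shiftRight k sh) d)) p

/-- `p` is the initial form (weight `d`) of the linear combination `l` of the commutators. -/
def topC (G sh : Nat) (ws : W) (CT : Tr) (d : Nat) (l : CL) (p : P) : Bool :=
  Bool.rec false (Bool.rec false (Bool.rec false
    (comb G (Nat.shiftLeft d sh) CT 4096 isZero l (addm 0 0 1 p .z))
    (clW sh ws l)) (relOK G sh ws p)) (wtEq sh d p)

/-- Lists of initial forms: number `j`, weight, combination, polynomial. -/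
inductive RL | e | c (j d : Nat) (cl : CL) (p : P) (r : RL)

/-- The length. -/
def RL.len (l : RL) : Nat := RL.rec 0 (fun _ _ _ _ _ ih => Nat.succ ih) l

/-- The initial forms of the list, with the kept variables substituted, are the entries
`i, i + 1, …` of the table `E`. -/
def chkR (G sh : Nat) (ws : W) (CT : Tr) (G' : Nat) (VP : V) (E : Tr) (l : RL) : Nat → Bool :=
  RL.rec (motive := fun _ => Nat → Bool) (fun _ => true)
    (fun _ d cl p _ ih i => Bool.rec false (Bool.rec false (ih (Nat.succ i))
      (En.rec false (fun _ q => sP G' VP isZero p (addm 0 0 1 q .z)) (look E i)))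
      (topC G sh ws CT d cl p)) l

/-- The list of the eliminated variables: `j` is the variable. -/
def chkV (G LOW sh : Nat) (ws : W) (CT : Tr) (G' : Nat) (VP : V) (l : RL) : Nat → Bool :=
  RL.rec (motive := fun _ => Nat → Bool) (fun A => Nat.beq A LOW)
    (fun j d cl p _ ih A => (fun s =>
      Bool.rec false (Bool.rec false (Bool.rec false (Bool.rec false (ih (Nat.lor A (Nat.shiftLeft 31 s)))
        (sP G' VP isZero p .z))
        (elimGo LOW A 0 s p false))
        (topC G sh ws CT d cl p))
        (Nat.ble (Nat.succ s) sh))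
      (Nat.add 32 (Nat.mul 5 j))) l

/-- The mask of the kept variables (list of raw indices). -/
def maskI (l : L) : Nat :=
  L.rec 0 (fun a _ ih => Nat.lor (Nat.shiftLeft 31 (Nat.add 32 (Nat.mul 5 a))) ih) l

/-- `p` is the variable number `t`. -/
def isVar (G LOW t : Nat) (p : P) : Bool :=
  P.rec false (fun k x y r _ => Bool.rec false (Bool.rec false (Bool.rec false (Bool.rec false (isNil r)
    (Nat.beq (Nat.land k LOW) (Nat.shiftLeft 1 (Nat.add 32 (Nat.mul 5 t))))) (Nat.beq y 0))
    (Nat.beq x 1)) (Nat.beq (Nat.land k G) 0)) p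

/-- The kept variables `t, t + 1, …` (raw indices in `l`) are substituted by themselves. -/
def keptOK (G' LOW' n' : Nat) (VP : V) (l : L) : Nat → Bool :=
  L.rec (motive := fun _ => Nat → Bool) (fun _ => true)
    (fun a _ ih t => Bool.rec false (Bool.rec false (ih (Nat.succ t))
      (isVar G' LOW' t (VP.get a))) (Nat.ble (Nat.succ a) n')) l

/-! ### The second component -/

/-- All entries go to zero. -/
def zeroT (G : Nat) (t : V) (T : Tr) : Bool :=
  Tr.rec true (fun _ _ _ p _ ihl ihr => Bool.rec false (Bool.rec false (sP G t isZero p .z) ihl) ihr) T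

/-- All terms are zero or have weight field `< d`. -/
def ltF (sh d : Nat) (p : P) : Bool :=
  P.rec true (fun k x y _ ih => Bool.rec false ih
    (Bool.rec (Nat.ble (Nat.succ (Nat.shiftRight k sh)) d) true (Nat.beq x y))) p

/-- `f0` is the initial form of `f` (weight `d`). -/
def topF (G sh : Nat) (ws : W) (d : Nat) (f f0 : P) : Bool :=
  Bool.rec false (Bool.rec false (Bool.rec false (ltF sh d (addm 0 0 1 f0 f))
    (wtEq sh d f0)) (relOK G sh ws f0)) (relOK G sh ws f)

/-- The sum of the coefficients of the terms supported in the mask `A` is plus or minus a power of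
two. -/
def sumM (LOW A : Nat) (p : P) : Nat → Nat → Bool :=
  P.rec (motive := fun _ => Nat → Nat → Bool) (fun X Y => coefOK X Y)
    (fun k x y _ ih X Y => Bool.rec (ih X Y) (ih (Nat.add X x) (Nat.add Y y))
      (Nat.beq (Nat.land (Nat.land k LOW) A) (Nat.land k LOW))) p

/-- The substitution of the variables of the second component (raw indices in `jv`) by the
polynomials of `VP`. -/
def mkJV (VP : V) (jv : L) : Nat → V :=
  L.rec (motive := fun _ => Nat → V) (fun _ => .e)
    (fun a _ ih i => .c (Nat.add 32 (Nat.mul 5 i)) (VP.get a) (ih (Nat.succ i))) jv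

/-- For the kept variables `t, t + 1, …`: `f0 (X_t - j0 (θ0 X_t))` is a linear combination of the
entries of `D`. -/
def chkA (G : Nat) (VP JV V0 : V) (io : L) (f0 : P) (D : Tr) (ND : Nat) (l : TL) : Nat → Bool :=
  TL.rec (motive := fun _ => Nat → Bool) (fun _ => true)
    (fun cl _ ih t => Bool.rec false (ih (Nat.succ t))
      (sP G JV (fun a =>
        (fun q => Bool.rec false (Bool.rec false (inSpan G D ND cl (mulAdd f0 q .z))
          (goodP G (mulAdd f0 q .z))) (goodP G q)) (addm 0 0 1 a (VP.get (io.get t))))
        (V0.get (io.get t)) .z)) l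

/-- All terms are zero or have weight `< w`. -/
def ltP (ws : W) (w : Nat) (p : P) : Bool :=
  P.rec true (fun k x y _ ih => Bool.rec false ih
    (Bool.rec (Nat.ble (Nat.succ (wtk ws k)) w) true (Nat.beq x y))) p

/-- All terms have weight `w`. -/
def eqP (ws : W) (w : Nat) (p : P) : Bool :=
  P.rec true (fun k _ _ _ ih => Bool.rec false ih (Nat.beq (wtk ws k) w)) p

/-- The entries of `t0` are the initial forms of the entries of `t`; the weights are those of `w`
(list in the order of the variables). -/
def topV (ws : W) (t : V) : V → W → Bool :=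
  V.rec (motive := fun _ => V → W → Bool) (fun t0 w => V.rec (W.rec true (fun _ _ _ _ => false) w)
      (fun _ _ _ _ => false) t0)
    (fun _ q _ ih t0 w => V.rec false (fun _ q0 r0 _ => W.rec false (fun _ a r _ =>
      Bool.rec false (Bool.rec false (ih r0 r) (ltP ws a (addm 0 0 1 q0 q))) (eqP ws a q0)) w) t0) t

end Pool.Agent.Helper97.Hilb8.K
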