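import Pool.Agent.Helper97.Hilb8.K.SatDefs

/-!
# Soundness of the propositional checker
-/

namespace Pool.Agent.Helper97.Hilb8.K

private theorem brec_false_iff {b X : Bool} :
    (Bool.rec (motive := fun _ => Bool) false X b : Bool) = true ↔ b = true ∧ X = true := by
  cases b
  · exact ⟨fun h => absurd h (by simp), fun h => absurd h.1 (by simp)⟩
  · exact ⟨fun h => ⟨rfl, h⟩, fun h => h.2⟩

theorem chkC_node (rule : L → Nat → Nat → Nat → Bool) (D l r : CT) (i : Nat) (c : L) (w : J) :
    chkC rule D (.node l i c w r) = true ↔ chkC rule D l = true ∧ chkC rule D r = true ∧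
      litsOK c = true ∧ nodeOK rule D i c w = true := by
  have h1 : chkC rule D (.node l i c w r) =
      Bool.rec (motive := fun _ => Bool) false
        (Bool.rec (motive := fun _ => Bool) false
          (Bool.rec (motive := fun _ => Bool) false (nodeOK rule D i c w) (litsOK c))
          (chkC rule D l)) (chkC rule D r) := rfl
  rw [h1, brec_false_iff, brec_false_iff, brec_false_iff]
  tauto

private theorem lookC_node (l r : CT) (i : Nat) (c : L) (w : J) (j : Nat) :
    lookC (.node l i c w r) j = Bool.rec (motive := fun _ => CE) (lookC r j)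
      (Bool.rec (motive := fun _ => CE) (lookC l j) (.some c w) (Nat.beq i j)) (Nat.ble j i) :=
  rfl

/-- A clause that is found has been checked. -/
private theorem lookC_ok (rule : L → Nat → Nat → Nat → Bool) (D : CT) :
    ∀ (T : CT), chkC rule D T = true → ∀ (j : Nat) (c : L) (w : J), lookC T j = .some c w →
      litsOK c = true ∧ nodeOK rule D j c w = true := by
  intro T
  induction T with
  | leaf => intro _ j c w h; exact absurd h (by intro h; cases h)
  | node l i c' w' r ihl ihr =>
    intro hT j c w h
    obtain ⟨hl, hr, hc, hn⟩ := (chkC_node rule D l r i c' w').1 hT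
    rw [lookC_node] at h
    by_cases h1 : Nat.ble j i = true
    · rw [h1] at h
      by_cases h2 : Nat.beq i j = true
      · rw [h2] at h
        have h3 : (CE.some c' w') = .some c w := h
        injection h3 with h4 h5
        have h6 : i = j := Nat.eq_of_beq_eq_true h2
        subst h4 h5 h6
        exact ⟨hc, hn⟩
      · rw [Bool.not_eq_true] at h2
        rw [h2] at h
        exact ihl hl j c w h
    · rw [Bool.not_eq_true] at h1
      rw [h1] at h
      exact ihr hr j c w h

private theorem litsOK_c (p : Nat) (l : L) (h : litsOK (.c p l) = true) :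
    64 ≤ p ∧ litsOK l = true := by
  have h1 : litsOK (.c p l) = Bool.rec (motive := fun _ => Bool) false (litsOK l) (Nat.ble 64 p) :=
    rfl
  rw [h1, brec_false_iff] at h
  exact ⟨Nat.le_of_ble_eq_true h.1, h.2⟩

private theorem litsOK_mem : ∀ (c : L), litsOK c = true → ∀ p, c.Mem p → 64 ≤ p := by
  intro c
  induction c with
  | e => intro _ p hp; exact absurd hp (fun h => h)
  | c q l ih =>
    intro h p hp
    obtain ⟨h1, h2⟩ := litsOK_c q l h
    rcases (show p = q ∨ l.Mem p from hp) with h3 | h3
    · rw [h3]; exact h1
    · exact ih h2 p h3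

private theorem land_one_beq (m p : Nat) :
    Nat.beq (Nat.land (Nat.shiftRight m p) 1) 1 = true ↔ m.testBit p = true := by
  have h1 : Nat.land (Nat.shiftRight m p) 1 = (m >>> p) &&& 1 := rfl
  rw [h1, Nat.beq_eq, Nat.and_one_is_mod, Nat.testBit, Nat.one_and_eq_mod_two]
  constructor
  · intro h; rw [h]; rfl
  · intro h
    rcases Nat.mod_two_eq_zero_or_one (m >>> p) with h2 | h2
    · rw [h2] at h; exact absurd h (by decide)
    · exact h2

private theorem scan_c (mask p : Nat) (l : L) (u : Nat) :
    scan mask (.c p l) u =
      Bool.rec (motive := fun _ => Nat)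
        (Bool.rec (motive := fun _ => Nat)
          (Bool.rec (motive := fun _ => Nat) 1 (scan mask l u) (Nat.beq u p))
          (scan mask l p) (Nat.beq u 0)) (scan mask l u)
        (Nat.beq (Nat.land (Nat.shiftRight mask p) 1) 1) := rfl

private theorem scan_sound (mask : Nat) : ∀ (c : L), litsOK c = true → ∀ u r : Nat,
    scan mask c u = r → r ≠ 1 →
      (u = 0 ∨ u = r) ∧ ∀ p, c.Mem p → mask.testBit p = true ∨ p = r := by
  intro c
  induction c with
  | e =>
    intro _ u r h _
    exact ⟨Or.inr h, fun p hp => absurd hp (fun h => h)⟩
  | c q l ih =>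
    intro hc u r h hr
    obtain ⟨hq, hl⟩ := litsOK_c q l hc
    rw [scan_c] at h
    by_cases h1 : Nat.beq (Nat.land (Nat.shiftRight mask q) 1) 1 = true
    · rw [h1] at h
      obtain ⟨h2, h3⟩ := ih hl u r h hr
      refine ⟨h2, fun p hp => ?_⟩
      rcases (show p = q ∨ l.Mem p from hp) with h4 | h4
      · rw [h4]; exact Or.inl ((land_one_beq mask q).1 h1)
      · exact h3 p h4
    · rw [Bool.not_eq_true] at h1
      rw [h1] at h
      by_cases h2 : Nat.beq u 0 = true
      · rw [h2] at h
        have hu : u = 0 := Nat.eq_of_beq_eq_true h2
        obtain ⟨h3, h4⟩ := ih hl q r h hr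
        have h5 : q = r := by
          rcases h3 with h3 | h3
          · omega
          · exact h3
        refine ⟨Or.inl hu, fun p hp => ?_⟩
        rcases (show p = q ∨ l.Mem p from hp) with h6 | h6
        · exact Or.inr (h6.trans h5)
        · exact h4 p h6
      · rw [Bool.not_eq_true] at h2
        rw [h2] at h
        by_cases h3 : Nat.beq u q = true
        · rw [h3] at h
          have hu : u = q := Nat.eq_of_beq_eq_true h3
          obtain ⟨h4, h5⟩ := ih hl u r h hr
          have h6 : u = r := by
            rcases h4 with h4 | h4
            · omega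
            · exact h4
          refine ⟨Or.inr h6, fun p hp => ?_⟩
          rcases (show p = q ∨ l.Mem p from hp) with h7 | h7
          · exact Or.inr (h7.trans (hu.symm.trans h6))
          · exact h5 p h7
        · rw [Bool.not_eq_true] at h3
          rw [h3] at h
          exact absurd h.symm hr

private theorem rupGo_succ (D : CT) (i f mask h : Nat) :
    rupGo D i (f + 1) mask h =
      Nat.rec (motive := fun _ => Bool) false
        (fun m _ => Bool.rec (motive := fun _ => Bool) false
          (CE.rec (motive := fun _ => Bool) false
            (fun c _ => (fun u => Bool.rec (motive := fun _ => Bool)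
                (Bool.rec (motive := fun _ => Bool)
                  (rupGo D i f (Nat.lor mask (Nat.shiftLeft 1 (Nat.xor u 1)))
                    (Nat.shiftRight h 14))
                  false (Nat.beq u 1))
                true (Nat.beq u 0)) (scan mask c 0)) (lookC D m))
          (Nat.ble (Nat.succ m) i))
        (Nat.land h 16383) := rfl

private theorem litT_xor (v : Nat → Prop) (u : Nat) : litT v (Nat.xor u 1) ↔ ¬ litT v u := by
  have h0 : Nat.xor u 1 = u ^^^ 1 := rfl
  rw [h0]
  have h1 : (u ^^^ 1) / 2 = u / 2 := by
    have := Nat.xor_div_two (a := u) (b := 1)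
    rw [this]
    simp
  have h2 : (u ^^^ 1) % 2 = (u + 1) % 2 := by
    rw [Nat.xor_mod_two_eq]
  unfold litT
  rw [h1, h2]
  rcases Nat.mod_two_eq_zero_or_one u with h3 | h3
  · have h4 : (u + 1) % 2 = 1 := by omega
    rw [h3, h4]; simp
  · have h4 : (u + 1) % 2 = 0 := by omega
    rw [h3, h4]; simp

private theorem testBit_lor_shift (mask q p : Nat) :
    (Nat.lor mask (Nat.shiftLeft 1 q)).testBit p = true ↔ mask.testBit p = true ∨ p = q := by
  have h0 : Nat.lor mask (Nat.shiftLeft 1 q) = mask ||| (1 <<< q) := rfl
  rw [h0, Nat.testBit_or, Bool.or_eq_true, Nat.testBit_shiftLeft]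
  apply or_congr Iff.rfl
  rw [Bool.and_eq_true, decide_eq_true_eq]
  constructor
  · rintro ⟨h1, h2⟩
    have h3 : p - q = 0 := by
      by_contra h
      obtain ⟨k, hk⟩ := Nat.exists_eq_succ_of_ne_zero h
      rw [hk, Nat.testBit_succ] at h2
      simp at h2
    omega
  · rintro rfl
    simp

private theorem rup_sound (v : Nat → Prop) (D : CT) (i : Nat)
    (hD : ∀ m < i, ∀ c w, lookC D m = .some c w → litsOK c = true ∧ Sat v c) :
    ∀ (f mask h : Nat), (∀ p, 64 ≤ p → mask.testBit p = true → ¬ litT v p) →
      rupGo D i f mask h = true → False := by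
  intro f
  induction f with
  | zero => intro mask h _ h1; exact absurd (show false = true from h1) (by simp)
  | succ f ih =>
    intro mask h hm h1
    rw [rupGo_succ] at h1
    rcases hh : Nat.land h 16383 with _ | m
    · rw [hh] at h1
      exact absurd (show false = true from h1) (by simp)
    · rw [hh] at h1
      obtain ⟨h2, h3⟩ := brec_false_iff.1 h1
      have hmi : m < i := Nat.le_of_ble_eq_true h2
      rcases hl : lookC D m with _ | ⟨c, w⟩
      · rw [hl] at h3
        exact absurd (show false = true from h3) (by simp)
      · rw [hl] at h3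
        obtain ⟨hc, p, hp, hpt⟩ := hD m hmi c w hl
        have hp64 := litsOK_mem c hc p hp
        have h4 : (Bool.rec (motive := fun _ => Bool)
                (Bool.rec (motive := fun _ => Bool)
                  (rupGo D i f (Nat.lor mask (Nat.shiftLeft 1 (Nat.xor (scan mask c 0) 1)))
                    (Nat.shiftRight h 14))
                  false (Nat.beq (scan mask c 0) 1))
                true (Nat.beq (scan mask c 0) 0) : Bool) = true := h3
        by_cases hu1 : scan mask c 0 = 1
        · rw [hu1] at h4
          exact absurd (show false = true from h4) (by simp)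
        · obtain ⟨-, h5⟩ := scan_sound mask c hc 0 _ rfl hu1
          have h6 : p = scan mask c 0 := by
            rcases h5 p hp with h6 | h6
            · exact absurd hpt (hm p hp64 h6)
            · exact h6
          have h7 : Nat.beq (scan mask c 0) 0 = false := by
            rcases hb : Nat.beq (scan mask c 0) 0 with _ | _
            · rfl
            · have := Nat.eq_of_beq_eq_true hb
              omega
          have h8 : Nat.beq (scan mask c 0) 1 = false := by
            rcases hb : Nat.beq (scan mask c 0) 1 with _ | _
            · rfl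
            · exact absurd (Nat.eq_of_beq_eq_true hb) hu1
          rw [h7, h8] at h4
          refine ih _ _ ?_ (show rupGo D i f (Nat.lor mask (Nat.shiftLeft 1
            (Nat.xor (scan mask c 0) 1))) (Nat.shiftRight h 14) = true from h4)
          intro q hq hq2
          rcases (testBit_lor_shift _ _ _).1 hq2 with h9 | h9
          · exact hm q hq h9
          · rw [h9, litT_xor, ← h6]
            exact fun h => h hpt

private theorem maskOf_testBit : ∀ (c : L) (m p : Nat),
    (maskOf c m).testBit p = true → m.testBit p = true ∨ c.Mem p := by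
  intro c
  induction c with
  | e => intro m p h; exact Or.inl h
  | c q l ih =>
    intro m p h
    rcases ih _ _ (show (maskOf l (Nat.lor m (Nat.shiftLeft 1 q))).testBit p = true from h)
      with h1 | h1
    · rcases (testBit_lor_shift _ _ _).1 h1 with h2 | h2
      · exact Or.inl h2
      · exact Or.inr (Or.inl h2)
    · exact Or.inr (Or.inr h1)

private theorem salt_testBit (i p : Nat) (hp : 64 ≤ p) :
    (Nat.land i 65535).testBit p = false := by
  have h0 : Nat.land i 65535 = i &&& 65535 := rfl
  rw [h0]
  apply Nat.testBit_lt_two_pow
  calc i &&& 65535 ≤ 65535 := Nat.and_le_right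
    _ < 2 ^ 64 := by norm_num
    _ ≤ 2 ^ p := Nat.pow_le_pow_right (by norm_num) hp

theorem sat_of_chk (rule : L → Nat → Nat → Nat → Bool) (D : CT) (v : Nat → Prop)
    (hrule : ∀ c t a b, rule c t a b = true → Sat v c) (hD : chkC rule D D = true)
    (i : Nat) (c : L) (w : J) (hi : lookC D i = .some c w) : Sat v c := by
  induction i using Nat.strong_induction_on generalizing c w with
  | _ i ih =>
    obtain ⟨hc, hn⟩ := lookC_ok rule D D hD i c w hi
    cases w with
    | rul t a b => exact hrule c t a b hn
    | rup h =>
      by_contra hs
      have hn' : rupGo D i 100000 (maskOf c (Nat.land i 65535)) h = true := hn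
      refine rup_sound v D i (fun m hm c' w' h' => ⟨(lookC_ok rule D D hD m c' w' h').1,
        ih m hm c' w' h'⟩) 100000 _ _ ?_ hn'
      intro p hp hp2 hp3
      rcases maskOf_testBit c _ p hp2 with h1 | h1
      · rw [salt_testBit i p hp] at h1
        exact absurd h1 (by simp)
      · exact hs ⟨p, h1, hp3⟩

end Pool.Agent.Helper97.Hilb8.K
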