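import Pool.Agent.Helper97.Hilb8.K.Defs

/-!
# Kernel-evaluable propositional proofs: definitions

A literal is a number `p`; the atom is `p / 2`, and `p` is negative iff it is odd. All literals
are `≥ 64` (the lowest 64 bits of the masks only hold a salt).
-/

noncomputable section

namespace Pool.Agent.Helper97.Hilb8.K

/-- Justification of a clause: unit propagation with hints (`h` holds in base `2 ^ 14` the numbers,
plus 1, of the clauses), or a rule with arguments. -/
inductive J | rup (h : Nat) | rul (t a b : Nat)

/-- Search tree of clauses: number `i`, list of literals `c`, justification `w`. -/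
inductive CT | leaf | node (l : CT) (i : Nat) (c : L) (w : J) (r : CT)

/-- Result of a search. -/
inductive CE | none | some (c : L) (w : J)

/-- Search. -/
def lookC (t : CT) (j : Nat) : CE :=
  CT.rec (motive := fun _ => CE) .none
    (fun _ i c w _ ihl ihr =>
      Bool.rec ihr (Bool.rec ihl (.some c w) (Nat.beq i j)) (Nat.ble j i)) t

/-- The literals of `c` that are not false (bit `p` of `mask` is set if the literal `p` is false):
`0` if there are none, `p` if there is exactly one, `1` if there are at least two. -/
def scan (mask : Nat) (c : L) : Nat → Nat :=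
  L.rec (motive := fun _ => Nat → Nat) (fun u => u)
    (fun p _ ih u =>
      Bool.rec (Bool.rec (Bool.rec 1 (ih u) (Nat.beq u p)) (ih p) (Nat.beq u 0)) (ih u)
        (Nat.beq (Nat.land (Nat.shiftRight mask p) 1) 1)) c

/-- Add the literals of `c` to the mask. -/
def maskOf (c : L) : Nat → Nat :=
  L.rec (motive := fun _ => Nat → Nat) (fun m => m)
    (fun p _ ih m => ih (Nat.lor m (Nat.shiftLeft 1 p))) c

/-- Unit propagation with the hints `h` (all numbers must be `< i`). -/
def rupGo (D : CT) (i : Nat) (fuel : Nat) : Nat → Nat → Bool :=
  Nat.rec (motive := fun _ => Nat → Nat → Bool) (fun _ _ => false)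
    (fun _ ih mask h =>
      Nat.rec false
        (fun m _ => Bool.rec false
          (CE.rec false
            (fun c _ => (fun u => Bool.rec
                (Bool.rec
                  (ih (Nat.lor mask (Nat.shiftLeft 1 (Nat.xor u 1))) (Nat.shiftRight h 14))
                  false (Nat.beq u 1))
                true (Nat.beq u 0)) (scan mask c 0)) (lookC D m))
          (Nat.ble (Nat.succ m) i))
        (Nat.land h 16383)) fuel

/-- All literals are `≥ 64`. -/
def litsOK (c : L) : Bool := L.rec true (fun p _ ih => Bool.rec false ih (Nat.ble 64 p)) c

/-- Check of one clause. -/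
def nodeOK (rule : L → Nat → Nat → Nat → Bool) (D : CT) (i : Nat) (c : L) (w : J) : Bool :=
  J.rec (fun h => rupGo D i 100000 (maskOf c (Nat.land i 65535)) h) (fun t a b => rule c t a b) w

/-- Check all clauses of `T` against the data base `D`; `rule` checks the clauses that are not
obtained by unit propagation. -/
def chkC (rule : L → Nat → Nat → Nat → Bool) (D T : CT) : Bool :=
  CT.rec true (fun _ i c w _ ihl ihr =>
    Bool.rec false (Bool.rec false (Bool.rec false (nodeOK rule D i c w)
      (litsOK c)) ihl) ihr) T

/-! ### Semantics -/

/-- The truth value of a literal. -/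
def litT (v : Nat → Prop) (p : Nat) : Prop := if p % 2 = 0 then v (p / 2) else ¬ v (p / 2)

/-- Membership in a list. -/
def L.Mem (a : Nat) (l : L) : Prop := L.rec False (fun b _ ih => a = b ∨ ih) l

/-- The clause `c` holds. -/
def Sat (v : Nat → Prop) (c : L) : Prop := ∃ p, c.Mem p ∧ litT v p

end Pool.Agent.Helper97.Hilb8.K
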